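import Mathlib

/-!
# Topology of rational points on cubic hypersurfaces (project MZ, problem MP_4d3b00_ag): definitions
-/

set_option autoImplicit false

open Set Topology Filter MvPolynomial

namespace Pool.Agent.MZ

/-- the set is a finite union of preconnected sets -/
def FC {X : Type*} [TopologicalSpace X] (S : Set X) : Prop :=
  ∃ (k : ℕ) (C : Fin k → Set X), (∀ i, IsPreconnected (C i)) ∧ S = ⋃ i, C i

/-- rational vector as a real vector -/
def rv {m : ℕ} (q : Fin m → ℚ) : Fin m → ℝ := fun i => (q i : ℝ)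

/-- rational zeros of `P`, as points of `ℝ^n` -/
def QZ {n : ℕ} (P : MvPolynomial (Fin n) ℚ) : Set (Fin n → ℝ) :=
  {x | ∃ q : Fin n → ℚ, eval q P = 0 ∧ x = rv q}

/-- rational real number -/
def IsQ (t : ℝ) : Prop := ∃ r : ℚ, t = (r : ℝ)

/-- rational real vector -/
def IsRat {m : ℕ} (x : Fin m → ℝ) : Prop := ∃ q : Fin m → ℚ, x = rv q

/-- rational polynomial function of degree at most `d` -/
def PolyQ (m d : ℕ) (f : (Fin m → ℝ) → ℝ) : Prop :=
  ∃ G : MvPolynomial (Fin m) ℚ, G.totalDegree ≤ d ∧ ∀ x : Fin m → ℝ, aeval x G = f x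

/-- real polynomial function -/
def PolyR (m : ℕ) (f : (Fin m → ℝ) → ℝ) : Prop :=
  ∃ G : MvPolynomial (Fin m) ℝ, ∀ x : Fin m → ℝ, eval x G = f x

/-- some partial derivative of `P` at `x` is not zero -/
def SmoothAt {n : ℕ} (P : MvPolynomial (Fin n) ℚ) (x : Fin n → ℝ) : Prop :=
  ∃ (i : Fin n) (c : ℝ), c ≠ 0 ∧
    HasDerivAt (fun t : ℝ => (aeval (x + t • (Pi.single i 1 : Fin n → ℝ)) P : ℝ)) c 0

/-- the point `(a, x)` of `ℝ^{n+1}` -/
def hx {n : ℕ} (a : ℝ) (x : Fin n → ℝ) : Fin (n + 1) → ℝ := Fin.cons a x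

/-- a symmetric trilinear form on `ℝ^m` with rational coefficients, together with its cubic form as
a polynomial -/
structure Cub (m : ℕ) where
  /-- the trilinear form -/
  T : (Fin m → ℝ) →ₗ[ℝ] (Fin m → ℝ) →ₗ[ℝ] (Fin m → ℝ) →ₗ[ℝ] ℝ
  sym₁ : ∀ x y z, T x y z = T y x z
  sym₂ : ∀ x y z, T x y z = T x z y
  rat : ∀ x y z, IsRat x → IsRat y → IsRat z → IsQ (T x y z)
  /-- the cubic form -/
  pol : MvPolynomial (Fin m) ℚ
  hom : pol.IsHomogeneous 3
  pol_eval : ∀ x : Fin m → ℝ, aeval x pol = T x x x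

namespace Cub

variable {m : ℕ} (C : Cub m)

/-- rational zeros -/
def XQ : Set (Fin m → ℝ) := {x | IsRat x ∧ C.T x x x = 0}

/-- closure of the set of rational zeros -/
def Z : Set (Fin m → ℝ) := closure C.XQ

/-- nonzero interior points of `Z` relative to the set of real zeros -/
def O : Set (Fin m → ℝ) := {x | x ≠ 0 ∧ C.T x x x = 0 ∧ ∀ᶠ y in 𝓝 x, C.T y y y = 0 → y ∈ C.Z}

/-- no rational singular points -/
def NoSing : Prop := ∀ x, IsRat x → x ≠ 0 → C.T x x x = 0 → ∃ u, C.T x x u ≠ 0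

/-- third intersection point of the line through `x` and `y` -/
def mm (x y : Fin m → ℝ) : Fin m → ℝ := C.T x y y • x - C.T x x y • y

end Cub

end Pool.Agent.MZ
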