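import Mathlib
import Pool.Agent.MZ.Defs

/-!
# MZ module RATALG: rational numbers, rational vectors, polynomial functions

PROOFS. All are direct.
* `IsQ`: closure of the image of `ℚ → ℝ` (a field homomorphism) under the field operations.
* `IsRat`: `rv` is additive and `rv (r • q) = (r : ℝ) • rv q`. `isRat_iff`: coordinatewise.
* `aeval_rv`: `aeval (rv q) P = algebraMap ℚ ℝ (eval q P)` (`MvPolynomial.aeval_algebraMap_apply`
  or induction on `P`).
* `PolyR`: sums, products, constants, coordinates.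
* `linear_isRat`: a real linear form `f` satisfies `f x = ∑ i, x i * f (Pi.single i 1)`.
* `PolyQ`: `totalDegree_add`, `totalDegree_mul`, `totalDegree_C`, `totalDegree_X`, ...;
  `PolyQ.lin`: `f x = ∑ i, x i * f (Pi.single i 1)` and `f (Pi.single i 1)` is rational.
* `PolyQ.mul_left`: product by a rational constant does not change the degree.
* `PolyQ.ext_rat` : two such functions that agree at all rational points are equal
  (`MvPolynomial.funext` over `ℚ`, `aeval_rv`).
* `Cub.polyQ₁`, `Cub.polyQ₂`: expand `x = ∑ i, x i • Pi.single i 1`; then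
  `T a x x = ∑ i, ∑ j, x i * x j * T a (e i) (e j)`. `Cub.polyQ₃`: `pol_eval` and
  `IsHomogeneous.totalDegree_le`. `Cub.polyR`: `T (a x) (b x) (c x)` for real polynomial maps `a b c`
  (given coordinatewise): expand in the basis.
About 180 lines.
-/

set_option autoImplicit false

open Set Topology Filter MvPolynomial

namespace Pool.Agent.MZ

theorem IsQ.cast (r : ℚ) : IsQ (r : ℝ) := ⟨r, rfl⟩

theorem IsQ.zero : IsQ 0 := ⟨0, by push_cast; rfl⟩

theorem IsQ.one : IsQ 1 := ⟨1, by push_cast; rfl⟩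

theorem IsQ.natCast (n : ℕ) : IsQ (n : ℝ) := ⟨n, by push_cast; rfl⟩

theorem IsQ.add {a b : ℝ} (ha : IsQ a) (hb : IsQ b) : IsQ (a + b) := by
  obtain ⟨a, rfl⟩ := ha
  obtain ⟨b, rfl⟩ := hb
  exact ⟨a + b, by push_cast; rfl⟩

theorem IsQ.sub {a b : ℝ} (ha : IsQ a) (hb : IsQ b) : IsQ (a - b) := by
  obtain ⟨a, rfl⟩ := ha
  obtain ⟨b, rfl⟩ := hb
  exact ⟨a - b, by push_cast; rfl⟩

theorem IsQ.neg {a : ℝ} (ha : IsQ a) : IsQ (-a) := by
  obtain ⟨a, rfl⟩ := ha
  exact ⟨-a, by push_cast; rfl⟩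

theorem IsQ.mul {a b : ℝ} (ha : IsQ a) (hb : IsQ b) : IsQ (a * b) := by
  obtain ⟨a, rfl⟩ := ha
  obtain ⟨b, rfl⟩ := hb
  exact ⟨a * b, by push_cast; rfl⟩

theorem IsQ.inv {a : ℝ} (ha : IsQ a) : IsQ a⁻¹ := by
  obtain ⟨a, rfl⟩ := ha
  exact ⟨a⁻¹, by push_cast; rfl⟩

theorem IsQ.div {a b : ℝ} (ha : IsQ a) (hb : IsQ b) : IsQ (a / b) := by
  obtain ⟨a, rfl⟩ := ha
  obtain ⟨b, rfl⟩ := hb
  exact ⟨a / b, by push_cast; rfl⟩

theorem IsQ.pow {a : ℝ} (ha : IsQ a) (n : ℕ) : IsQ (a ^ n) := by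
  obtain ⟨a, rfl⟩ := ha
  exact ⟨a ^ n, by push_cast; rfl⟩

/-- Expansion of a linear map on coordinates. -/
private theorem lin_expand {m : ℕ} {V : Type*} [AddCommMonoid V] [Module ℝ V]
    (f : (Fin m → ℝ) →ₗ[ℝ] V) (x : Fin m → ℝ) : f x = ∑ i, x i • f (Pi.single i 1) := by
  have h : x = ∑ i, x i • (Pi.single i 1 : Fin m → ℝ) := by
    ext j
    simp [Finset.sum_apply, Pi.single_apply]
  conv_lhs => rw [h]
  rw [map_sum]
  exact Finset.sum_congr rfl fun i _ => by rw [map_smul]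

section vec

variable {m : ℕ} {x y : Fin m → ℝ}

theorem isRat_iff : IsRat x ↔ ∀ i, IsQ (x i) := by
  constructor
  · rintro ⟨q, rfl⟩ i
    exact ⟨q i, rfl⟩
  · intro h
    choose q hq using h
    exact ⟨q, funext hq⟩

theorem IsRat.rv (q : Fin m → ℚ) : IsRat (MZ.rv q) := ⟨q, rfl⟩

theorem IsRat.zero : IsRat (0 : Fin m → ℝ) := isRat_iff.2 fun _ => IsQ.zero

theorem IsRat.add (hx : IsRat x) (hy : IsRat y) : IsRat (x + y) :=
  isRat_iff.2 fun i => (isRat_iff.1 hx i).add (isRat_iff.1 hy i)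

theorem IsRat.sub (hx : IsRat x) (hy : IsRat y) : IsRat (x - y) :=
  isRat_iff.2 fun i => (isRat_iff.1 hx i).sub (isRat_iff.1 hy i)

theorem IsRat.neg (hx : IsRat x) : IsRat (-x) :=
  isRat_iff.2 fun i => (isRat_iff.1 hx i).neg

theorem IsRat.smul {t : ℝ} (ht : IsQ t) (hx : IsRat x) : IsRat (t • x) :=
  isRat_iff.2 fun i => ht.mul (isRat_iff.1 hx i)

theorem IsRat.single (i : Fin m) : IsRat (Pi.single i 1 : Fin m → ℝ) := by
  rw [isRat_iff]
  intro j
  by_cases h : j = i
  · rw [h, Pi.single_eq_same]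
    exact IsQ.one
  · rw [Pi.single_eq_of_ne h]
    exact IsQ.zero

theorem aeval_rv (P : MvPolynomial (Fin m) ℚ) (q : Fin m → ℚ) :
    (aeval (MZ.rv q) P : ℝ) = ((eval q P : ℚ) : ℝ) := by
  induction P using MvPolynomial.induction_on with
  | C a => rw [aeval_C, eval_C]; rfl
  | add p r hp hr => rw [map_add, map_add, hp, hr]; push_cast; rfl
  | mul_X p i hp =>
    rw [map_mul, map_mul, hp, aeval_X, eval_X]
    push_cast
    rfl

theorem rv_injective : Function.Injective (MZ.rv : (Fin m → ℚ) → Fin m → ℝ) := by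
  intro p q h
  funext i
  have := congrFun h i
  exact Rat.cast_injective this

end vec

section polyR

variable {m : ℕ} {f g : (Fin m → ℝ) → ℝ}

theorem PolyR.const (c : ℝ) : PolyR m fun _ => c := ⟨C c, fun x => by rw [eval_C]⟩

theorem PolyR.coord (i : Fin m) : PolyR m fun x => x i := ⟨X i, fun x => by rw [eval_X]⟩

theorem PolyR.add (hf : PolyR m f) (hg : PolyR m g) : PolyR m fun x => f x + g x := by
  obtain ⟨F, hF⟩ := hf
  obtain ⟨G, hG⟩ := hg
  exact ⟨F + G, fun x => by rw [map_add, hF, hG]⟩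

theorem PolyR.sub (hf : PolyR m f) (hg : PolyR m g) : PolyR m fun x => f x - g x := by
  obtain ⟨F, hF⟩ := hf
  obtain ⟨G, hG⟩ := hg
  exact ⟨F - G, fun x => by rw [map_sub, hF, hG]⟩

theorem PolyR.mul (hf : PolyR m f) (hg : PolyR m g) : PolyR m fun x => f x * g x := by
  obtain ⟨F, hF⟩ := hf
  obtain ⟨G, hG⟩ := hg
  exact ⟨F * G, fun x => by rw [map_mul, hF, hG]⟩

theorem PolyR.sum {ι : Type*} (s : Finset ι) {f : ι → (Fin m → ℝ) → ℝ}
    (hf : ∀ i ∈ s, PolyR m (f i)) : PolyR m fun x => ∑ i ∈ s, f i x := by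
  classical
  induction s using Finset.induction_on with
  | empty => simpa using PolyR.const (m := m) 0
  | insert a s ha ih =>
    simp only [Finset.sum_insert ha]
    exact (hf a (Finset.mem_insert_self a s)).add
      (ih fun i hi => hf i (Finset.mem_insert_of_mem hi))

private theorem polyR_lin_comp {k : ℕ} (f : (Fin m → ℝ) →ₗ[ℝ] ℝ) {c : (Fin k → ℝ) → Fin m → ℝ}
    (hc : ∀ i, PolyR k fun x => c x i) : PolyR k fun x => f (c x) := by
  have h : (fun x => f (c x)) = fun x => ∑ i, c x i * f (Pi.single i 1) := by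
    funext x
    rw [lin_expand f (c x)]
    rfl
  rw [h]
  exact PolyR.sum _ fun i _ => (hc i).mul (PolyR.const _)

theorem PolyR.lin (f : (Fin m → ℝ) →ₗ[ℝ] ℝ) : PolyR m fun x => f x :=
  polyR_lin_comp f fun i => PolyR.coord i

theorem PolyR.continuous (hf : PolyR m f) : Continuous f := by
  obtain ⟨F, hF⟩ := hf
  have h : f = fun x => eval x F := funext fun x => (hF x).symm
  rw [h]
  exact MvPolynomial.continuous_eval F

theorem PolyR.of_aeval (P : MvPolynomial (Fin m) ℚ) : PolyR m fun x => (aeval x P : ℝ) :=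
  ⟨map (algebraMap ℚ ℝ) P, fun x => by rw [eval_map]; rfl⟩

end polyR

section polyQ

variable {m d d' : ℕ} {f g : (Fin m → ℝ) → ℝ}

theorem PolyQ.mono (hf : PolyQ m d f) (h : d ≤ d') : PolyQ m d' f := by
  obtain ⟨F, hd, hF⟩ := hf
  exact ⟨F, hd.trans h, hF⟩

theorem PolyQ.polyR (hf : PolyQ m d f) : PolyR m f := by
  obtain ⟨F, hd, hF⟩ := hf
  have h : f = fun x => (aeval x F : ℝ) := funext fun x => (hF x).symm
  rw [h]
  exact PolyR.of_aeval F

theorem PolyQ.const {c : ℝ} (hc : IsQ c) : PolyQ m 0 fun _ => c := by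
  obtain ⟨r, rfl⟩ := hc
  exact ⟨C r, by rw [totalDegree_C], fun x => by rw [aeval_C]; rfl⟩

theorem PolyQ.add (hf : PolyQ m d f) (hg : PolyQ m d g) : PolyQ m d fun x => f x + g x := by
  obtain ⟨F, hdF, hF⟩ := hf
  obtain ⟨G, hdG, hG⟩ := hg
  exact ⟨F + G, (totalDegree_add _ _).trans (max_le hdF hdG), fun x => by rw [map_add, hF, hG]⟩

theorem PolyQ.mul (hf : PolyQ m d f) (hg : PolyQ m d' g) :
    PolyQ m (d + d') fun x => f x * g x := by
  obtain ⟨F, hdF, hF⟩ := hf
  obtain ⟨G, hdG, hG⟩ := hg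
  exact ⟨F * G, (totalDegree_mul _ _).trans (add_le_add hdF hdG),
    fun x => by rw [map_mul, hF, hG]⟩

theorem PolyQ.mul_left {c : ℝ} (hc : IsQ c) (hf : PolyQ m d f) :
    PolyQ m d fun x => c * f x := by
  have h := (PolyQ.const (m := m) hc).mul hf
  rwa [zero_add] at h

theorem PolyQ.sub (hf : PolyQ m d f) (hg : PolyQ m d g) : PolyQ m d fun x => f x - g x := by
  have h := hf.add (hg.mul_left (IsQ.neg IsQ.one))
  have e : (fun x => f x - g x) = fun x => f x + -1 * g x := by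
    funext x
    ring
  rw [e]
  exact h

private theorem polyQ_sum {ι : Type*} (s : Finset ι) {f : ι → (Fin m → ℝ) → ℝ}
    (hf : ∀ i ∈ s, PolyQ m d (f i)) : PolyQ m d fun x => ∑ i ∈ s, f i x := by
  classical
  induction s using Finset.induction_on with
  | empty => simpa using (PolyQ.const (m := m) IsQ.zero).mono (Nat.zero_le d)
  | insert a s ha ih =>
    simp only [Finset.sum_insert ha]
    exact (hf a (Finset.mem_insert_self a s)).add
      (ih fun i hi => hf i (Finset.mem_insert_of_mem hi))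

private theorem polyQ_coord (i : Fin m) : PolyQ m 1 fun x => x i :=
  ⟨X i, by rw [totalDegree_X], fun x => by rw [aeval_X]⟩

theorem PolyQ.lin {f : (Fin m → ℝ) →ₗ[ℝ] ℝ} (hf : ∀ x, IsRat x → IsQ (f x)) :
    PolyQ m 1 fun x => f x := by
  have h : (fun x => f x) = fun x => ∑ i, f (Pi.single i 1) * x i := by
    funext x
    rw [lin_expand f x]
    exact Finset.sum_congr rfl fun i _ => by rw [smul_eq_mul, mul_comm]
  rw [h]
  exact polyQ_sum _ fun i _ => (polyQ_coord i).mul_left (hf _ (IsRat.single i))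

theorem PolyQ.isQ (hf : PolyQ m d f) {x : Fin m → ℝ} (hx : IsRat x) : IsQ (f x) := by
  obtain ⟨F, hdF, hF⟩ := hf
  obtain ⟨q, rfl⟩ := hx
  rw [← hF, aeval_rv]
  exact ⟨_, rfl⟩

theorem PolyQ.ext_rat (hf : PolyQ m d f) (hg : PolyQ m d' g) (h : ∀ x, IsRat x → f x = g x) :
    f = g := by
  obtain ⟨F, hdF, hF⟩ := hf
  obtain ⟨G, hdG, hG⟩ := hg
  have hFG : F = G := by
    apply MvPolynomial.funext
    intro q
    have h1 := h (rv q) (IsRat.rv q)
    rw [← hF, ← hG, aeval_rv, aeval_rv] at h1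
    exact Rat.cast_injective h1
  funext x
  rw [← hF, ← hG, hFG]

end polyQ

namespace Cub

variable {m : ℕ} (C : Cub m)

theorem polyQ₁ {a b : Fin m → ℝ} (ha : IsRat a) (hb : IsRat b) :
    PolyQ m 1 fun x => C.T a b x :=
  PolyQ.lin (f := C.T a b) fun x hx => C.rat a b x ha hb hx

theorem polyQ₂ {a : Fin m → ℝ} (ha : IsRat a) : PolyQ m 2 fun x => C.T a x x := by
  have h : (fun x => C.T a x x) = fun x => ∑ i, x i * C.T a (Pi.single i 1) x := by
    funext x
    rw [lin_expand (C.T a x) x]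
    exact Finset.sum_congr rfl fun i _ => by rw [smul_eq_mul, C.sym₂ a x]
  rw [h]
  exact polyQ_sum _ fun i _ => (polyQ_coord i).mul (C.polyQ₁ ha (IsRat.single i))

theorem polyQ₃ : PolyQ m 3 fun x => C.T x x x := ⟨C.pol, C.hom.totalDegree_le, C.pol_eval⟩

theorem polyR {k : ℕ} {a b c : (Fin k → ℝ) → Fin m → ℝ} (ha : ∀ i, PolyR k fun x => a x i)
    (hb : ∀ i, PolyR k fun x => b x i) (hc : ∀ i, PolyR k fun x => c x i) :
    PolyR k fun x => C.T (a x) (b x) (c x) := by
  have h1 : ∀ (u v : Fin m → ℝ), PolyR k fun x => C.T u v (c x) := fun u v =>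
    polyR_lin_comp (C.T u v) hc
  have h2 : ∀ (u : Fin m → ℝ), PolyR k fun x => C.T u (b x) (c x) := by
    intro u
    have e : (fun x => C.T u (b x) (c x)) =
        fun x => ∑ i, b x i * C.T u (Pi.single i 1) (c x) := by
      funext x
      rw [lin_expand (C.T u) (b x), LinearMap.sum_apply]
      exact Finset.sum_congr rfl fun i _ => by rw [LinearMap.smul_apply, smul_eq_mul]
    rw [e]
    exact PolyR.sum _ fun i _ => (hb i).mul (h1 _ _)
  have e : (fun x => C.T (a x) (b x) (c x)) =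
      fun x => ∑ i, a x i * C.T (Pi.single i 1) (b x) (c x) := by
    funext x
    rw [lin_expand C.T (a x), LinearMap.sum_apply, LinearMap.sum_apply]
    exact Finset.sum_congr rfl fun i _ => by
      rw [LinearMap.smul_apply, LinearMap.smul_apply, smul_eq_mul]
  rw [e]
  exact PolyR.sum _ fun i _ => (ha i).mul (h2 _)

end Cub

end Pool.Agent.MZ
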