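import Mathlib
import Pool.Agent.MZ.Defs
import Pool.Agent.MZ.RatAlg

/-!
# MZ module REP: a polynomial of degree at most 3 is a cubic form restricted to `x₀ = 1`

(uses the stubs of `RatAlg`)

PROOF. Let `Y : Fin (n+1) → MvPolynomial (Fin n) ℚ`, `Y = Fin.cons 1 X`.
(1) `exists_tensor`: `P = ∑ i, ∑ j, ∑ k, C (a i j k) * (Y i * Y j * Y k)` for some
    `a : Fin (n+1) → Fin (n+1) → Fin (n+1) → ℚ` such that, if `P.totalDegree ≤ 2`, then `a i j k = 0`
    whenever `i, j, k` are all `≠ 0`. The set of the polynomials with such a representation (with, or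
    without the extra condition) is closed under sums and multiplication by constants, and contains
    every monomial of degree `≤ 3` (`≤ 2`): a monomial of degree `≤ l` is a product of `l` factors
    `Y i` (induction on `l`: if the exponent is `0` take all factors `Y 0 = 1`; otherwise split
    off a variable `X i = Y i.succ`); for degree `≤ 2` it is `Y 0 * Y j * Y k`. Finally
    `P = ∑ d ∈ P.support, monomial d (P.coeff d)` (`P.as_sum`), and `d` in the support has degree
    `≤ P.totalDegree` (`le_totalDegree`).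
(2) Symmetrise: `c i j k = (a i j k + a i k j + a j i k + a j k i + a k i j + a k j i) / 6`.
    `∑ c i j k * z i * z j * z k = ∑ a i j k * z i * z j * z k` in every commutative ℚ-algebra
    (reindex by `Finset.sum_comm`).
(3) `T x y z = ∑ i, ∑ j, ∑ k, (c i j k : ℝ) * (x i * y j * z k)` as a trilinear map
    (`LinearMap.mk₂`, or construct it with `∑ i ∑ j ∑ k, c i j k • (LinearMap.proj i ...)`:
    e.g. `LinearMap.mk₂ ℝ (fun x y => (linear form z ↦ ∑ ...))`). `pol = ∑ i, ∑ j, ∑ k, C (c i j k) *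
    (X i * X j * X k)`: homogeneous of degree 3 (`IsHomogeneous.sum`, `isHomogeneous_X`,
    `isHomogeneous_C`, `IsHomogeneous.mul`).
(4) `aeval (hx 1 x) pol = aeval x (aeval Y pol)` as `aeval x (Y i) = hx 1 x i`
    (`Fin.cases`).
About 170 lines.
-/

set_option autoImplicit false

open Set Topology Filter MvPolynomial

namespace Pool.Agent.MZ

/-- the variables, with `Y 0 = 1` -/
private noncomputable abbrev rpY (n : ℕ) : Fin (n + 1) → MvPolynomial (Fin n) ℚ := Fin.cons 1 X

/-- polynomials that are combinations of the products `Y i * Y j * Y k` with `E i j k` -/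
private def RpE (n : ℕ) (E : Fin (n + 1) → Fin (n + 1) → Fin (n + 1) → Prop)
    (P : MvPolynomial (Fin n) ℚ) : Prop :=
  ∃ a : Fin (n + 1) → Fin (n + 1) → Fin (n + 1) → ℚ,
    P = ∑ i, ∑ j, ∑ k, MvPolynomial.C (a i j k) * (rpY n i * rpY n j * rpY n k) ∧
      ∀ i j k, a i j k ≠ 0 → E i j k

private theorem rp_add {n : ℕ} {E : Fin (n + 1) → Fin (n + 1) → Fin (n + 1) → Prop}
    {P Q : MvPolynomial (Fin n) ℚ} (hP : RpE n E P) (hQ : RpE n E Q) : RpE n E (P + Q) := by
  obtain ⟨a, ha, ha'⟩ := hP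
  obtain ⟨b, hb, hb'⟩ := hQ
  refine ⟨fun i j k => a i j k + b i j k, ?_, fun i j k h => ?_⟩
  · rw [ha, hb, ← Finset.sum_add_distrib]
    refine Finset.sum_congr rfl fun i _ => ?_
    rw [← Finset.sum_add_distrib]
    refine Finset.sum_congr rfl fun j _ => ?_
    rw [← Finset.sum_add_distrib]
    refine Finset.sum_congr rfl fun k _ => ?_
    rw [map_add]
    ring
  · by_cases h1 : a i j k = 0
    · by_cases h2 : b i j k = 0
      · exact absurd (show a i j k + b i j k = 0 by rw [h1, h2, add_zero]) h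
      · exact hb' i j k h2
    · exact ha' i j k h1

private theorem rp_sum {n : ℕ} {E : Fin (n + 1) → Fin (n + 1) → Fin (n + 1) → Prop}
    {ι : Type*} (s : Finset ι) {f : ι → MvPolynomial (Fin n) ℚ} (h : ∀ i ∈ s, RpE n E (f i)) :
    RpE n E (∑ i ∈ s, f i) := by
  classical
  induction s using Finset.induction_on with
  | empty =>
    refine ⟨fun _ _ _ => 0, by simp, fun i j k h => absurd rfl h⟩
  | insert a s ha ih =>
    rw [Finset.sum_insert ha]
    exact rp_add (h a (Finset.mem_insert_self _ _))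
      (ih fun i hi => h i (Finset.mem_insert_of_mem hi))

private theorem rp_single {n : ℕ} {E : Fin (n + 1) → Fin (n + 1) → Fin (n + 1) → Prop}
    (c : ℚ) {i j k : Fin (n + 1)} (h : E i j k) :
    RpE n E (MvPolynomial.C c * (rpY n i * rpY n j * rpY n k)) := by
  classical
  refine ⟨fun i' j' k' => if i' = i ∧ j' = j ∧ k' = k then c else 0, ?_, fun i' j' k' h' => ?_⟩
  · rw [Finset.sum_eq_single i, Finset.sum_eq_single j, Finset.sum_eq_single k]
    · simp
    · intro b _ hb
      simp [hb]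
    · intro h; exact absurd (Finset.mem_univ _) h
    · intro b _ hb
      refine Finset.sum_eq_zero fun b' _ => ?_
      simp [hb]
    · intro h; exact absurd (Finset.mem_univ _) h
    · intro b _ hb
      refine Finset.sum_eq_zero fun b' _ => Finset.sum_eq_zero fun b'' _ => ?_
      simp [hb]
    · intro h; exact absurd (Finset.mem_univ _) h
  · by_cases h1 : i' = i ∧ j' = j ∧ k' = k
    · obtain ⟨rfl, rfl, rfl⟩ := h1
      exact h
    · exact absurd (if_neg h1) h'

private theorem rp_mono {n : ℕ} : ∀ (l : ℕ) (d : Fin n →₀ ℕ), (d.sum fun _ e => e) ≤ l →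
    ∃ f : Fin l → Fin (n + 1), monomial d (1 : ℚ) = ∏ i, rpY n (f i) := by
  intro l
  induction l with
  | zero =>
    intro d hd
    have hd0 : d = 0 := by
      ext i
      by_contra h
      have h1 : d i ≤ d.sum fun _ e => e :=
        Finset.single_le_sum (f := fun i => d i) (fun i _ => Nat.zero_le _)
          (Finsupp.mem_support_iff.mpr h)
      have h2 : d i ≠ 0 := h
      omega
    refine ⟨Fin.elim0, ?_⟩
    rw [hd0]
    simp
  | succ l ih =>
    intro d hd
    by_cases hd0 : d = 0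
    · refine ⟨fun _ => 0, ?_⟩
      rw [hd0]
      simp
    · obtain ⟨i, hi⟩ : ∃ i, d i ≠ 0 := by
        by_contra hcon
        push Not at hcon
        exact hd0 (Finsupp.ext hcon)
      have hle : Finsupp.single i 1 ≤ d := by
        rw [Finsupp.single_le_iff]
        omega
      have hdec : d = (d - Finsupp.single i 1) + Finsupp.single i 1 :=
        (tsub_add_cancel_of_le hle).symm
      have hsum : (d.sum fun _ e => e) = ((d - Finsupp.single i 1).sum fun _ e => e) + 1 := by
        conv_lhs => rw [hdec]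
        rw [Finsupp.sum_add_index' (fun _ => rfl) (fun _ _ _ => rfl),
          Finsupp.sum_single_index rfl]
      obtain ⟨f, hf⟩ := ih (d - Finsupp.single i 1) (by omega)
      refine ⟨Fin.cons i.succ f, ?_⟩
      rw [Fin.prod_univ_succ]
      simp only [Fin.cons_zero, Fin.cons_succ]
      rw [← hf, MvPolynomial.X, monomial_mul, mul_one, add_comm, ← hdec]

theorem exists_tensor {n : ℕ} {P : MvPolynomial (Fin n) ℚ} (hP : P.totalDegree ≤ 3) :
    ∃ a : Fin (n + 1) → Fin (n + 1) → Fin (n + 1) → ℚ,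
      P = ∑ i, ∑ j, ∑ k, MvPolynomial.C (a i j k) *
        ((Fin.cons 1 X : Fin (n + 1) → MvPolynomial (Fin n) ℚ) i *
          (Fin.cons 1 X : Fin (n + 1) → MvPolynomial (Fin n) ℚ) j *
          (Fin.cons 1 X : Fin (n + 1) → MvPolynomial (Fin n) ℚ) k) ∧
      (P.totalDegree ≤ 2 → ∀ i j k, i ≠ 0 → j ≠ 0 → k ≠ 0 → a i j k = 0) := by
  have key : RpE n (fun i j k => P.totalDegree ≤ 2 → i = 0 ∨ j = 0 ∨ k = 0) P := by
    have h1 : RpE n (fun i j k => P.totalDegree ≤ 2 → i = 0 ∨ j = 0 ∨ k = 0)
        (∑ d ∈ P.support, monomial d (P.coeff d)) := by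
      refine rp_sum _ fun d hd => ?_
      have hdeg := le_totalDegree hd
      have hc : monomial d (P.coeff d) = MvPolynomial.C (P.coeff d) * monomial d (1 : ℚ) := by
        rw [C_mul_monomial, mul_one]
      rw [hc]
      by_cases h2 : P.totalDegree ≤ 2
      · obtain ⟨f, hf⟩ := rp_mono 2 d (hdeg.trans h2)
        rw [hf, Fin.prod_univ_two]
        have h3 : rpY n (f 0) * rpY n (f 1) = rpY n 0 * rpY n (f 0) * rpY n (f 1) := by
          simp [rpY]
        rw [h3]
        exact rp_single _ fun _ => Or.inl rfl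
      · obtain ⟨f, hf⟩ := rp_mono 3 d (hdeg.trans hP)
        rw [hf, Fin.prod_univ_three]
        exact rp_single _ fun h => absurd h h2
    rwa [← P.as_sum] at h1
  obtain ⟨a, ha, ha'⟩ := key
  refine ⟨a, ha, fun h i j k hi hj hk => ?_⟩
  by_contra hne
  rcases ha' i j k hne h with h | h | h
  · exact hi h
  · exact hj h
  · exact hk h

/-- symmetrisation -/
private def rpS {N : ℕ} (a : Fin N → Fin N → Fin N → ℚ) (i j k : Fin N) : ℚ :=
  (a i j k + a i k j + a j i k + a j k i + a k i j + a k j i) / 6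

private theorem rp_sym {N : ℕ} {R : Type*} [CommRing R] [Algebra ℚ R]
    (a : Fin N → Fin N → Fin N → ℚ) (z : Fin N → R) :
    ∑ i, ∑ j, ∑ k, algebraMap ℚ R (rpS a i j k) * (z i * z j * z k) =
      ∑ i, ∑ j, ∑ k, algebraMap ℚ R (a i j k) * (z i * z j * z k) := by
  set S : (Fin N → Fin N → Fin N → ℚ) → R := fun a =>
    ∑ i, ∑ j, ∑ k, algebraMap ℚ R (a i j k) * (z i * z j * z k) with hS
  have h23 : ∀ a, S (fun i j k => a i k j) = S a := by
    intro a
    simp only [hS]
    refine Finset.sum_congr rfl fun i _ => ?_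
    rw [Finset.sum_comm]
    refine Finset.sum_congr rfl fun j _ => Finset.sum_congr rfl fun k _ => ?_
    ring
  have h12 : ∀ a, S (fun i j k => a j i k) = S a := by
    intro a
    simp only [hS]
    rw [Finset.sum_comm]
    refine Finset.sum_congr rfl fun i _ => Finset.sum_congr rfl fun j _ =>
      Finset.sum_congr rfl fun k _ => ?_
    ring
  have e1 := h23 a
  have e2 := h12 a
  have e3 : S (fun i j k => a j k i) = S a := by
    rw [← h23 a]
    exact h12 (fun i j k => a i k j)
  have e4 : S (fun i j k => a k i j) = S a := by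
    rw [← h12 a]
    exact h23 (fun i j k => a j i k)
  have e5 : S (fun i j k => a k j i) = S a := by
    rw [← e3]
    exact h23 (fun i j k => a j k i)
  have e6 : S (rpS a) = algebraMap ℚ R (1 / 6) * (S a + S (fun i j k => a i k j) +
      S (fun i j k => a j i k) + S (fun i j k => a j k i) + S (fun i j k => a k i j) +
      S (fun i j k => a k j i)) := by
    simp only [hS, rpS, ← Finset.sum_add_distrib, Finset.mul_sum]
    refine Finset.sum_congr rfl fun i _ => Finset.sum_congr rfl fun j _ =>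
      Finset.sum_congr rfl fun k _ => ?_
    rw [div_eq_mul_one_div, map_mul]
    simp only [map_add]
    ring
  have e7 : algebraMap ℚ R (1 / 6) * 6 = 1 := by
    have h1 : (6 : R) = algebraMap ℚ R 6 := (map_ofNat _ _).symm
    rw [h1, ← map_mul]
    norm_num
  change S (rpS a) = S a
  rw [e6, e1, e2, e3, e4, e5]
  linear_combination S a * e7

/-- the real trilinear form -/
private def rpT {N : ℕ} (c : Fin N → Fin N → Fin N → ℚ) :
    (Fin N → ℝ) →ₗ[ℝ] (Fin N → ℝ) →ₗ[ℝ] (Fin N → ℝ) →ₗ[ℝ] ℝ :=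
  ∑ i, ∑ j, ∑ k, (c i j k : ℝ) •
    ((LinearMap.proj i : (Fin N → ℝ) →ₗ[ℝ] ℝ).smulRight
      ((LinearMap.proj j : (Fin N → ℝ) →ₗ[ℝ] ℝ).smulRight
        (LinearMap.proj k : (Fin N → ℝ) →ₗ[ℝ] ℝ)))

private theorem rpT_apply {N : ℕ} (c : Fin N → Fin N → Fin N → ℚ) (x y z : Fin N → ℝ) :
    rpT c x y z = ∑ i, ∑ j, ∑ k, (c i j k : ℝ) * (x i * y j * z k) := by
  simp only [rpT, LinearMap.sum_apply, LinearMap.smul_apply, LinearMap.smulRight_apply,
    LinearMap.proj_apply, smul_eq_mul]
  refine Finset.sum_congr rfl fun i _ => Finset.sum_congr rfl fun j _ =>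
    Finset.sum_congr rfl fun k _ => ?_
  ring

/-- the cubic form with symmetric coefficients -/
private noncomputable def rpCub {N : ℕ} (a : Fin N → Fin N → Fin N → ℚ) : Cub N where
  T := rpT (rpS a)
  sym₁ := by
    intro x y z
    rw [rpT_apply, rpT_apply, Finset.sum_comm]
    refine Finset.sum_congr rfl fun i _ => Finset.sum_congr rfl fun j _ =>
      Finset.sum_congr rfl fun k _ => ?_
    have h : rpS a j i k = rpS a i j k := by
      unfold rpS
      ring
    rw [h]
    ring
  sym₂ := by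
    intro x y z
    rw [rpT_apply, rpT_apply]
    refine Finset.sum_congr rfl fun i _ => ?_
    rw [Finset.sum_comm]
    refine Finset.sum_congr rfl fun j _ => Finset.sum_congr rfl fun k _ => ?_
    have h : rpS a i k j = rpS a i j k := by
      unfold rpS
      ring
    rw [h]
    ring
  rat := by
    rintro _ _ _ ⟨x, rfl⟩ ⟨y, rfl⟩ ⟨z, rfl⟩
    rw [rpT_apply]
    refine ⟨∑ i, ∑ j, ∑ k, rpS a i j k * (x i * y j * z k), ?_⟩
    push_cast
    rfl
  pol := ∑ i, ∑ j, ∑ k, MvPolynomial.C (rpS a i j k) * (X i * X j * X k)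
  hom := by
    refine IsHomogeneous.sum _ _ _ fun i _ => IsHomogeneous.sum _ _ _ fun j _ =>
      IsHomogeneous.sum _ _ _ fun k _ => ?_
    have h := (isHomogeneous_C (Fin N) (rpS a i j k)).mul
      (((isHomogeneous_X ℚ i).mul (isHomogeneous_X ℚ j)).mul (isHomogeneous_X ℚ k))
    exact h
  pol_eval := by
    intro x
    rw [rpT_apply]
    simp only [map_sum, map_mul, aeval_X, aeval_C, eq_ratCast]

theorem exists_cub {n : ℕ} {P : MvPolynomial (Fin n) ℚ} (hP : P.totalDegree ≤ 3) :
    ∃ C : Cub (n + 1),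
      (∀ x : Fin n → ℝ, (aeval x P : ℝ) = C.T (hx 1 x) (hx 1 x) (hx 1 x)) ∧
      aeval (Fin.cons 1 X : Fin (n + 1) → MvPolynomial (Fin n) ℚ) C.pol = P ∧
      (P.totalDegree ≤ 2 → ∀ v : Fin n → ℝ, C.T (hx 0 v) (hx 0 v) (hx 0 v) = 0) := by
  obtain ⟨a, ha, ha2⟩ := exists_tensor hP
  have hT : ∀ z : Fin (n + 1) → ℝ, (rpCub a).T z z z =
      ∑ i, ∑ j, ∑ k, (a i j k : ℝ) * (z i * z j * z k) := by
    intro z
    have h1 := rp_sym (R := ℝ) a z
    simp only [eq_ratCast] at h1
    rw [← h1]
    exact rpT_apply _ z z z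
  refine ⟨rpCub a, fun x => ?_, ?_, fun h v => ?_⟩
  · rw [hT]
    have hY : ∀ i, (aeval x ((Fin.cons 1 X : Fin (n + 1) → MvPolynomial (Fin n) ℚ) i) : ℝ) =
        hx 1 x i := by
      intro i
      refine Fin.cases ?_ (fun j => ?_) i
      · simp [hx]
      · simp [hx]
    conv_lhs => rw [ha]
    simp only [map_sum, map_mul, aeval_C, eq_ratCast, hY]
  · have h1 := rp_sym (R := MvPolynomial (Fin n) ℚ) a
      (Fin.cons 1 X : Fin (n + 1) → MvPolynomial (Fin n) ℚ)
    have h2 : aeval (Fin.cons 1 X : Fin (n + 1) → MvPolynomial (Fin n) ℚ) (rpCub a).pol =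
        ∑ i, ∑ j, ∑ k, algebraMap ℚ (MvPolynomial (Fin n) ℚ) (rpS a i j k) *
          ((Fin.cons 1 X : Fin (n + 1) → MvPolynomial (Fin n) ℚ) i *
            (Fin.cons 1 X : Fin (n + 1) → MvPolynomial (Fin n) ℚ) j *
            (Fin.cons 1 X : Fin (n + 1) → MvPolynomial (Fin n) ℚ) k) := by
      simp only [rpCub, map_sum, map_mul, aeval_X, aeval_C]
    rw [h2, h1]
    exact ha.symm
  · rw [hT]
    refine Finset.sum_eq_zero fun i _ => Finset.sum_eq_zero fun j _ =>
      Finset.sum_eq_zero fun k _ => ?_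
    by_cases hi : i = 0
    · rw [hi]
      simp [hx]
    by_cases hj : j = 0
    · rw [hj]
      simp [hx]
    by_cases hk : k = 0
    · rw [hk]
      simp [hx]
    rw [ha2 h i j k hi hj hk]
    simp

end Pool.Agent.MZ
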