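import Mathlib
import Pool.Agent.MZ.Defs

/-!
# MZ module RATD: density of rational vectors, star-shaped sets

PROOFS.
* `dense_isRat`: `DenseRange ((↑) : ℚ → ℝ)` and products (`DenseRange.piMap` /
  `dense_pi`/`isOpen_pi_iff`), or directly: given `x` and `ε` choose `q i` rational with
  `|x i - q i| < ε`.
* `image_subset_closure`: let `x ∈ U`, `W ∈ 𝓝 (f x)` open. `U ∩ f⁻¹ W` is a neighbourhood of `x`
  (`U` open, `f` continuous at `x`), so contains a rational vector.
* `star_preconnected`: for `y ∈ S` let `I y = {s + t • (y - s) | t ∈ [0,1]}` be the segment: the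
  continuous image of `Icc 0 1`, so preconnected, and contained in `closure S` (the rational
  `t ∈ [0,1]` are dense in `[0,1]`: e.g. every `t ∈ [0,1]` is a limit of rational
  `t_k ∈ [0,1]`, `t_k = ⌊k t⌋ / k`; or `Set.Icc 0 1 ⊆ closure (Ioo 0 1 ∩ range (↑))` via
  `DenseRange` and `isOpen_Ioo`). All `I y` contain `s`, so `⋃ y ∈ S, I y` is preconnected
  (`isPreconnected_sUnion` with common point `s`); it contains `S` and is contained in `closure S`,
  so its closure is `closure S`, hence `closure S` is preconnected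
  (`IsPreconnected.subset_closure`).
* `isRat_near`: rational points of a rational hyperplane are dense in it: let
  `lam e ≠ 0` with `e` rational. Given `u` with `lam u = 0` and `W ∈ 𝓝 u`, the map
  `v ↦ v - (lam v / lam e) • e` is continuous and maps `u` to `u`, so it maps some rational `v` into
  `W`; the image is rational and in the kernel. (`e` exists because `lam ≠ 0`: some
  `lam (Pi.single i 1) ≠ 0`, since `lam x = ∑ i, x i * lam (Pi.single i 1)`.)
* `exists_isRat_ne`: by the same formula.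
About 120 lines.
-/

set_option autoImplicit false

open Set Topology Filter

namespace Pool.Agent.MZ

variable {n m : ℕ}

theorem dense_isRat : Dense {x : Fin n → ℝ | IsRat x} := by
  have h1 : DenseRange (Pi.map (fun _ : Fin n => ((↑) : ℚ → ℝ))) :=
    DenseRange.piMap fun _ => Rat.denseRange_cast
  have h2 : {x : Fin n → ℝ | IsRat x} = range (Pi.map (fun _ : Fin n => ((↑) : ℚ → ℝ))) := by
    ext x
    constructor
    · rintro ⟨q, rfl⟩
      exact ⟨q, rfl⟩
    · rintro ⟨q, rfl⟩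
      exact ⟨q, rfl⟩
  rw [h2]
  exact h1

theorem image_subset_closure {U : Set (Fin n → ℝ)} (hU : IsOpen U)
    {f : (Fin n → ℝ) → Fin m → ℝ} (hf : ContinuousOn f U) :
    f '' U ⊆ closure (f '' (U ∩ {x | IsRat x})) := by
  rintro _ ⟨x, hx, rfl⟩
  rw [mem_closure_iff_nhds]
  intro W hW
  have h1 : f ⁻¹' W ∈ 𝓝 x := (hf.continuousAt (hU.mem_nhds hx)).preimage_mem_nhds hW
  obtain ⟨y, hy1, hy2⟩ := dense_isRat.inter_nhds_nonempty (inter_mem (hU.mem_nhds hx) h1)
  exact ⟨f y, hy2.2, y, ⟨hy2.1, hy1⟩, rfl⟩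

theorem star_preconnected {S : Set (Fin n → ℝ)} {s : Fin n → ℝ} (hs : s ∈ S)
    (h : ∀ y ∈ S, ∀ t : ℚ, 0 ≤ t → t ≤ 1 → s + (t : ℝ) • (y - s) ∈ S) :
    IsPreconnected (closure S) := by
  have hd : Icc (0 : ℝ) 1 ⊆ closure (Ioo (0 : ℝ) 1 ∩ range ((↑) : ℚ → ℝ)) := by
    have h1 : Ioo (0 : ℝ) 1 ⊆ closure (Ioo (0 : ℝ) 1 ∩ range ((↑) : ℚ → ℝ)) :=
      Dense.open_subset_closure_inter Rat.denseRange_cast isOpen_Ioo
    rw [← closure_Ioo (zero_ne_one : (0 : ℝ) ≠ 1)]
    exact closure_minimal h1 isClosed_closure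
  have hcont : ∀ y : Fin n → ℝ, Continuous fun t : ℝ => s + t • (y - s) := fun y => by fun_prop
  have hI : ∀ y ∈ S, (fun t : ℝ => s + t • (y - s)) '' Icc 0 1 ⊆ closure S := by
    intro y hy
    refine (image_mono hd).trans ((image_closure_subset_closure_image (hcont y)).trans
      (closure_mono ?_))
    rintro _ ⟨_, ⟨ht, ⟨t, rfl⟩⟩, rfl⟩
    refine h y hy t ?_ ?_
    · exact_mod_cast ht.1.le
    · exact_mod_cast ht.2.le
  have hpre : IsPreconnected
      (⋃₀ ((fun y => (fun t : ℝ => s + t • (y - s)) '' Icc 0 1) '' S)) := by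
    refine isPreconnected_sUnion s _ ?_ ?_
    · rintro _ ⟨y, -, rfl⟩
      exact ⟨0, ⟨le_rfl, zero_le_one⟩, by simp⟩
    · rintro _ ⟨y, -, rfl⟩
      exact isPreconnected_Icc.image _ (hcont y).continuousOn
  refine hpre.subset_closure ?_ ?_
  · rintro x ⟨_, ⟨y, hy, rfl⟩, hx⟩
    exact hI y hy hx
  · refine closure_mono fun y hy => ⟨_, ⟨y, hy, rfl⟩, 1, ⟨zero_le_one, le_rfl⟩, ?_⟩
    simp

theorem exists_isRat_ne {lam : (Fin n → ℝ) →ₗ[ℝ] ℝ} (h : ∃ u, lam u ≠ 0) :
    ∃ e, IsRat e ∧ lam e ≠ 0 := by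
  by_contra hne
  push Not at hne
  obtain ⟨u, hu⟩ := h
  apply hu
  rw [LinearMap.pi_apply_eq_sum_univ lam u]
  refine Finset.sum_eq_zero fun i _ => ?_
  rw [hne (fun j => if i = j then 1 else 0) ⟨fun j => if i = j then 1 else 0, ?_⟩, smul_zero]
  funext j
  unfold rv
  by_cases hij : i = j <;> simp [hij]

theorem isRat_near {lam : (Fin n → ℝ) →ₗ[ℝ] ℝ} (hQ : ∀ x, IsRat x → IsQ (lam x))
    (hne : ∃ u, lam u ≠ 0) {u : Fin n → ℝ} (hu : lam u = 0) {W : Set (Fin n → ℝ)} (hW : W ∈ 𝓝 u) :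
    ∃ v ∈ W, IsRat v ∧ lam v = 0 := by
  obtain ⟨e, he, he0⟩ := exists_isRat_ne hne
  have hlam : Continuous lam := LinearMap.continuous_of_finiteDimensional lam
  have hφ : Continuous fun v : Fin n → ℝ => v - (lam v / lam e) • e := by fun_prop
  have h1 : (fun v : Fin n → ℝ => v - (lam v / lam e) • e) ⁻¹' W ∈ 𝓝 u := by
    refine hφ.continuousAt.preimage_mem_nhds ?_
    simp only [hu, zero_div, zero_smul, sub_zero]
    exact hW
  obtain ⟨v, hv1, hv2⟩ := dense_isRat.inter_nhds_nonempty h1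
  refine ⟨_, hv2, ?_, ?_⟩
  · obtain ⟨q, hq⟩ := hv1
    obtain ⟨q', hq'⟩ := he
    obtain ⟨r, hr⟩ := hQ v ⟨q, hq⟩
    obtain ⟨r', hr'⟩ := hQ e ⟨q', hq'⟩
    refine ⟨fun i => q i - r / r' * q' i, ?_⟩
    funext i
    change (v - (lam v / lam e) • e) i = _
    rw [hr, hr']
    simp only [Pi.sub_apply, Pi.smul_apply, smul_eq_mul, hq, hq', rv]
    push_cast
    ring
  · simp only [map_sub, map_smul, smul_eq_mul]
    rw [div_mul_cancel₀ _ he0, sub_self]

end Pool.Agent.MZ
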