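import Mathlib
import Pool.Agent.MZ.Defs
import Pool.Agent.MZ.RatAlg
import Pool.Agent.MZ.RatD

/-!
# MZ module BASIC: elementary facts about the cubic form, the sets `Z` and `O` and the operation `mm`

(uses the stubs of `RatAlg`, `RatD`)

`mm x y = T x y y • x - T x x y • y`. To prove the algebraic identities expand with
`simp only [mm, map_add, map_sub, map_smul, LinearMap.add_apply, LinearMap.sub_apply,
LinearMap.smul_apply, smul_eq_mul]`, bring the arguments of `T` into a fixed order with `C.sym₁`, `C.sym₂`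
(e.g. `C.T y x x = C.T x x y`, `C.T x y x = C.T x x y`, `C.T y x y = C.T x y y`), use
`C.T x x x = 0`, and `ring` (for vector identities: `module`, or `ext i` and `ring`).

PROOFS.
* `continuous_T`: `(x, y, z) ↦ T x y z` is `∑ i j k, x i * y j * z k * T (e i) (e j) (e k)`, or
  `LinearMap.continuous_of_finiteDimensional` / `LinearMap.toContinuousLinearMap` three times.
  `continuous_comp` is the version for composition.
* `isClosed_zero`, `T_eq_zero_of_mem_Z`: `Z` is the closure of a subset of the closed set `T x x x = 0`.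
* `XQ_smul`, `Z_smul`: rational multiples of points of `XQ` are in `XQ`; for `x ∈ Z` and real `t`:
  `(t, x) ↦ t • x` is continuous, maps `{IsQ t} × XQ` to `XQ`, hence the closure
  `univ × Z` (`closure_prod_eq`, density of `ℚ`) into `Z` (`map_mem_closure₂`).
* `mem_Z_of_smul`: multiply by `t⁻¹`.
* `mm_mem_Z`: `(x, y) ↦ mm x y` is continuous and maps `XQ × XQ` to `XQ` (`map_mem_closure₂`).
* `mm_mm`: with `α = T x x y`, `β = T x y y`, `z = β x - α y`: `T x x z = -α²`, `T x z z = -α²β`,
  `mm x z = -α²β x + α² z = -α³ y`.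
* `O_smul`: `y ↦ t • y` is a homeomorphism preserving `{T y y y = 0}` and `Z`.
About 180 lines.
-/

set_option autoImplicit false

open Set Topology Filter MvPolynomial

namespace Pool.Agent.MZ

/-- Expansion of a linear map on coordinates. -/
private theorem bs_expand {m : ℕ} {V : Type*} [AddCommMonoid V] [Module ℝ V]
    (f : (Fin m → ℝ) →ₗ[ℝ] V) (x : Fin m → ℝ) : f x = ∑ i, x i • f (Pi.single i 1) := by
  have h : x = ∑ i, x i • (Pi.single i 1 : Fin m → ℝ) := by
    ext j
    simp [Finset.sum_apply, Pi.single_apply]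
  conv_lhs => rw [h]
  rw [map_sum]
  exact Finset.sum_congr rfl fun i _ => by rw [map_smul]

section hx

variable {n : ℕ}

theorem hx_add (a b : ℝ) (x y : Fin n → ℝ) : hx (a + b) (x + y) = hx a x + hx b y := by
  funext i
  refine Fin.cases ?_ (fun i => ?_) i <;> simp [hx]

theorem hx_smul (t a : ℝ) (x : Fin n → ℝ) : hx (t * a) (t • x) = t • hx a x := by
  funext i
  refine Fin.cases ?_ (fun i => ?_) i <;> simp [hx]

theorem continuous_hx (a : ℝ) : Continuous fun x : Fin n → ℝ => hx a x := by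
  refine continuous_pi fun i => ?_
  refine Fin.cases ?_ (fun i => ?_) i
  · simpa [hx] using continuous_const
  · simpa [hx] using continuous_apply i

theorem isRat_hx {a : ℝ} {x : Fin n → ℝ} : IsRat (hx a x) ↔ IsQ a ∧ IsRat x := by
  rw [isRat_iff, isRat_iff]
  constructor
  · intro h
    exact ⟨by simpa [hx] using h 0, fun i => by simpa [hx] using h i.succ⟩
  · rintro ⟨h1, h2⟩ i
    refine Fin.cases ?_ (fun i => ?_) i
    · simpa [hx] using h1
    · simpa [hx] using h2 i

end hx

namespace Cub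

variable {m : ℕ} (C : Cub m)

private theorem bs_T (x y z : Fin m → ℝ) : C.T x y z = ∑ i, x i * C.T (Pi.single i 1) y z := by
  rw [bs_expand C.T x, LinearMap.sum_apply, LinearMap.sum_apply]
  exact Finset.sum_congr rfl fun i _ => by
    rw [LinearMap.smul_apply, LinearMap.smul_apply, smul_eq_mul]

private theorem bs_T2 (w y z : Fin m → ℝ) : C.T w y z = ∑ i, y i * C.T w (Pi.single i 1) z := by
  rw [bs_expand (C.T w) y, LinearMap.sum_apply]
  exact Finset.sum_congr rfl fun i _ => by
    rw [LinearMap.smul_apply, smul_eq_mul]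

theorem continuous_comp {X : Type*} [TopologicalSpace X] {a b c : X → Fin m → ℝ}
    (ha : Continuous a) (hb : Continuous b) (hc : Continuous c) :
    Continuous fun x => C.T (a x) (b x) (c x) := by
  have h1 : ∀ u v : Fin m → ℝ, Continuous fun x => C.T u v (c x) := fun u v =>
    (LinearMap.continuous_of_finiteDimensional (C.T u v)).comp hc
  have h2 : ∀ u : Fin m → ℝ, Continuous fun x => C.T u (b x) (c x) := by
    intro u
    have e : (fun x => C.T u (b x) (c x)) =
        fun x => ∑ i, b x i * C.T u (Pi.single i 1) (c x) := funext fun x => C.bs_T2 _ _ _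
    rw [e]
    exact continuous_finsetSum _ fun i _ => ((continuous_apply i).comp hb).mul (h1 _ _)
  have e : (fun x => C.T (a x) (b x) (c x)) =
      fun x => ∑ i, a x i * C.T (Pi.single i 1) (b x) (c x) := funext fun x => C.bs_T _ _ _
  rw [e]
  exact continuous_finsetSum _ fun i _ => ((continuous_apply i).comp ha).mul (h2 _)

theorem hasDerivAt_comp {a b c : ℝ → Fin m → ℝ} {a' b' c' : Fin m → ℝ} {t : ℝ}
    (ha : HasDerivAt a a' t) (hb : HasDerivAt b b' t) (hc : HasDerivAt c c' t) :
    HasDerivAt (fun s => C.T (a s) (b s) (c s))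
      (C.T a' (b t) (c t) + C.T (a t) b' (c t) + C.T (a t) (b t) c') t := by
  have h1 : ∀ u v : Fin m → ℝ, HasDerivAt (fun s => C.T u v (c s)) (C.T u v c') t := fun u v =>
    (LinearMap.toContinuousLinearMap (C.T u v)).hasFDerivAt.comp_hasDerivAt t hc
  have h2 : ∀ u : Fin m → ℝ, HasDerivAt (fun s => C.T u (b s) (c s))
      (C.T u b' (c t) + C.T u (b t) c') t := by
    intro u
    have e : (fun s => C.T u (b s) (c s)) =
        fun s => ∑ i, b s i * C.T u (Pi.single i 1) (c s) := funext fun x => C.bs_T2 _ _ _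
    rw [e, C.bs_T2 u b' (c t), C.bs_T2 u (b t) c', ← Finset.sum_add_distrib]
    exact HasDerivAt.fun_sum fun i _ => ((hasDerivAt_pi.1 hb) i).mul (h1 _ _)
  have e : (fun s => C.T (a s) (b s) (c s)) =
      fun s => ∑ i, a s i * C.T (Pi.single i 1) (b s) (c s) := funext fun x => C.bs_T _ _ _
  rw [e, C.bs_T a' (b t) (c t), C.bs_T (a t) b' (c t), C.bs_T (a t) (b t) c',
    ← Finset.sum_add_distrib, ← Finset.sum_add_distrib]
  refine HasDerivAt.fun_sum fun i _ => ?_
  have h3 := ((hasDerivAt_pi.1 ha) i).mul (h2 (Pi.single i 1))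
  rw [add_assoc, ← mul_add]
  exact h3

theorem isClosed_zero : IsClosed {x : Fin m → ℝ | C.T x x x = 0} :=
  isClosed_eq (C.continuous_comp continuous_id continuous_id continuous_id) continuous_const

theorem continuous_mm : Continuous fun z : (Fin m → ℝ) × (Fin m → ℝ) => C.mm z.1 z.2 := by
  unfold mm
  exact ((C.continuous_comp continuous_fst continuous_snd continuous_snd).smul
    continuous_fst).sub ((C.continuous_comp continuous_fst continuous_fst continuous_snd).smul
    continuous_snd)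

variable {C} {x y : Fin m → ℝ}

theorem XQ_subset_Z : C.XQ ⊆ C.Z := subset_closure

theorem T_eq_zero_of_mem_Z (h : x ∈ C.Z) : C.T x x x = 0 :=
  closure_minimal (fun _ hx => hx.2) C.isClosed_zero h

private theorem bs_cube (t : ℝ) (x : Fin m → ℝ) :
    C.T (t • x) (t • x) (t • x) = t ^ 3 * C.T x x x := by
  simp only [map_smul, LinearMap.smul_apply, smul_eq_mul]
  ring

theorem XQ_smul (h : x ∈ C.XQ) {t : ℝ} (ht : IsQ t) : t • x ∈ C.XQ :=
  ⟨h.1.smul ht, by rw [bs_cube, h.2, mul_zero]⟩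

theorem Z_smul (h : x ∈ C.Z) (t : ℝ) : t • x ∈ C.Z := by
  refine map_mem_closure₂ (f := fun (t : ℝ) (x : Fin m → ℝ) => t • x)
    (s := range ((↑) : ℚ → ℝ)) (t := C.XQ) (u := C.XQ) continuous_smul
    (Rat.denseRange_cast t) h ?_
  rintro _ ⟨r, rfl⟩ b hb
  exact XQ_smul hb ⟨r, rfl⟩

theorem mem_Z_of_smul {t : ℝ} (ht : t ≠ 0) (h : t • x ∈ C.Z) : x ∈ C.Z := by
  have h1 := Z_smul h t⁻¹
  rwa [smul_smul, inv_mul_cancel₀ ht, one_smul] at h1

private theorem bs_s1 (x y : Fin m → ℝ) : C.T y x x = C.T x x y := by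
  rw [C.sym₁ y x x, C.sym₂ x y x]

private theorem bs_s2 (x y : Fin m → ℝ) : C.T x y x = C.T x x y := C.sym₂ x y x

private theorem bs_s3 (x y : Fin m → ℝ) : C.T y x y = C.T x y y := C.sym₁ y x y

private theorem bs_s4 (x y : Fin m → ℝ) : C.T y y x = C.T x y y := by
  rw [C.sym₂ y y x, C.sym₁ y x y]

theorem mm_zero (hx : C.T x x x = 0) (hy : C.T y y y = 0) :
    C.T (C.mm x y) (C.mm x y) (C.mm x y) = 0 := by
  unfold mm
  simp only [map_sub, map_smul, LinearMap.sub_apply, LinearMap.smul_apply, smul_eq_mul,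
    bs_s1 x y, bs_s2 x y, bs_s3 x y, bs_s4 x y, hx, hy]
  ring

theorem mm_mem_Z (hx : x ∈ C.Z) (hy : y ∈ C.Z) : C.mm x y ∈ C.Z := by
  refine map_mem_closure₂ (f := fun x y => C.mm x y) (s := C.XQ) (t := C.XQ) (u := C.XQ)
    C.continuous_mm hx hy ?_
  intro a ha b hb
  refine ⟨?_, mm_zero ha.2 hb.2⟩
  exact (ha.1.smul (C.rat _ _ _ ha.1 hb.1 hb.1)).sub (hb.1.smul (C.rat _ _ _ ha.1 ha.1 hb.1))

theorem mm_mm (hx : C.T x x x = 0) (hy : C.T y y y = 0) :
    C.mm x (C.mm x y) = (-(C.T x x y) ^ 3) • y := by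
  unfold mm
  simp only [map_sub, map_smul, LinearMap.sub_apply, LinearMap.smul_apply, smul_eq_mul,
    bs_s1 x y, bs_s2 x y, bs_s3 x y, bs_s4 x y, hx, hy]
  ext i
  simp only [Pi.sub_apply, Pi.smul_apply, smul_eq_mul]
  ring

theorem mm_swap : C.mm x y = - C.mm y x := by
  unfold mm
  simp only [bs_s1 x y, bs_s2 x y, bs_s3 x y, bs_s4 x y]
  ext i
  simp only [Pi.sub_apply, Pi.neg_apply, Pi.smul_apply, smul_eq_mul]
  ring

theorem mm_smul_right (c : ℝ) : C.mm x (c • y) = c ^ 2 • C.mm x y := by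
  unfold mm
  simp only [map_smul, LinearMap.smul_apply, smul_eq_mul]
  ext i
  simp only [Pi.sub_apply, Pi.smul_apply, smul_eq_mul]
  ring

theorem mm_smul_left (c : ℝ) : C.mm (c • x) y = c ^ 2 • C.mm x y := by
  unfold mm
  simp only [map_smul, LinearMap.smul_apply, smul_eq_mul]
  ext i
  simp only [Pi.sub_apply, Pi.smul_apply, smul_eq_mul]
  ring

theorem mm_mm_swap (hx : C.T x x x = 0) (hy : C.T y y y = 0) :
    C.mm y (C.mm x y) = (-(C.T x y y) ^ 3) • x := by
  unfold mm
  simp only [map_sub, map_smul, LinearMap.sub_apply, LinearMap.smul_apply, smul_eq_mul,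
    bs_s1 x y, bs_s2 x y, bs_s3 x y, bs_s4 x y, hx, hy]
  ext i
  simp only [Pi.sub_apply, Pi.smul_apply, smul_eq_mul]
  ring

theorem O_subset_Z : C.O ⊆ C.Z := fun x h => h.2.2.self_of_nhds h.2.1

theorem O_smul (h : x ∈ C.O) {t : ℝ} (ht : t ≠ 0) : t • x ∈ C.O := by
  refine ⟨smul_ne_zero ht h.1, by rw [bs_cube, h.2.1, mul_zero], ?_⟩
  have h1 : Continuous fun y : Fin m → ℝ => t⁻¹ • y := continuous_const_smul _
  have h2 : Tendsto (fun y : Fin m → ℝ => t⁻¹ • y) (𝓝 (t • x)) (𝓝 x) := by
    have h3 := h1.tendsto (t • x)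
    rwa [smul_smul, inv_mul_cancel₀ ht, one_smul] at h3
  filter_upwards [h2.eventually h.2.2] with y hy h0
  refine mem_Z_of_smul (inv_ne_zero ht) (hy ?_)
  rw [bs_cube, h0, mul_zero]

end Cub

end Pool.Agent.MZ
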