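import Mathlib
import Pool.Agent.MZ.Defs
import Pool.Agent.MZ.RatAlg
import Pool.Agent.MZ.RatD
import Pool.Agent.MZ.Basic

/-!
# MZ module CHART: the affine hypersurface `P = 0` as the chart `x₀ = 1` of the cubic cone

(uses the stubs of `RatAlg`, `RatD`, `Basic`)

PROOF of `mem_closure_QZ`. `⇒`: `x ↦ hx 1 x` is continuous and maps `QZ P` to `XQ` (`aeval_rv`, `isRat_hx`).
`⇐`: the map `ψ z = Fin.tail ((z 0)⁻¹ • z)` is continuous at `hx 1 x` with value `x`, and maps the points `z ∈ XQ` with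
`z 0 ≠ 0` to `QZ P`: `w = ψ z` is rational, `z = z 0 • hx 1 w`, `0 = T z z z = (z 0)³ * aeval w P`.
So every neighbourhood of `x` meets `QZ P`.

PROOF of `closure_QZ_eq_image`. `Fin.tail '' (C.XQ ∩ {z | z 0 = 1}) = QZ P`. The set `{z | z 0 = 1}` is closed and
`Fin.tail` restricted to it is a homeomorphism with inverse `hx 1`. `⊇`: for `x ∈ closure (QZ P)`,
`hx 1 x ∈ closure (hx 1 '' QZ P) ⊆ closure (C.XQ ∩ {z | z 0 = 1})`. `⊆`: continuity of `Fin.tail`.

PROOF of `smoothAt_chart`. Let `y = hx 1 x`, `T y y y = 0`. For `i : Fin n`, `e_i = Pi.single i 1`: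
`aeval (x + t • e_i) P = T (y + t ê) (y + t ê) (y + t ê)` with `ê = hx 0 e_i`
(`hx_add`, `hx_smul`), `= 3 t T y y ê + 3 t² T y ê ê + t³ T ê ê ê`, with derivative `3 T y y ê` at `t = 0`.
`⇒`: uniqueness of the derivative. `⇐`: let `T y y u ≠ 0`, `u = hx a u'` (`a = u 0`, `u' = Fin.tail u`),
`u = a • y + hx 0 w`, `w = u' - a • x = ∑ i, w i • e_i`, so `0 ≠ T y y u = ∑ w i * T y y (hx 0 e_i)`; some
`T y y (hx 0 e_i) ≠ 0`.
About 130 lines.
-/

set_option autoImplicit false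

open Set Topology Filter MvPolynomial

namespace Pool.Agent.MZ

variable {n : ℕ} {P : MvPolynomial (Fin n) ℚ} {C : Cub (n + 1)}

private theorem chart_maps (hPC : ∀ x : Fin n → ℝ, (aeval x P : ℝ) = C.T (hx 1 x) (hx 1 x) (hx 1 x))
    {x : Fin n → ℝ} (h : x ∈ QZ P) : hx 1 x ∈ C.XQ := by
  obtain ⟨q, hq, rfl⟩ := h
  refine ⟨isRat_hx.2 ⟨IsQ.one, IsRat.rv q⟩, ?_⟩
  rw [← hPC, aeval_rv, hq, Rat.cast_zero]

private theorem chart_back (hPC : ∀ x : Fin n → ℝ, (aeval x P : ℝ) = C.T (hx 1 x) (hx 1 x) (hx 1 x))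
    {x : Fin n → ℝ} (h : hx 1 x ∈ C.XQ) : x ∈ QZ P := by
  obtain ⟨h1, h2⟩ := h
  obtain ⟨q, rfl⟩ := (isRat_hx.1 h1).2
  refine ⟨q, ?_, rfl⟩
  rw [← hPC, aeval_rv] at h2
  exact_mod_cast h2

private theorem hx_tail {z : Fin (n + 1) → ℝ} : hx (z 0) (Fin.tail z) = z := Fin.cons_self_tail z

private theorem tail_hx {a : ℝ} {x : Fin n → ℝ} : Fin.tail (hx a x) = x := Fin.tail_cons _ _

private theorem continuous_tail : Continuous fun z : Fin (n + 1) → ℝ => (Fin.tail z : Fin n → ℝ) :=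
  continuous_pi fun _ => continuous_apply _

theorem mem_closure_QZ (hPC : ∀ x : Fin n → ℝ, (aeval x P : ℝ) = C.T (hx 1 x) (hx 1 x) (hx 1 x))
    {x : Fin n → ℝ} : x ∈ closure (QZ P) ↔ hx 1 x ∈ C.Z := by
  constructor
  · intro h
    exact map_mem_closure (continuous_hx 1) h fun y hy => chart_maps hPC hy
  · intro h
    have hψ : ContinuousAt (fun z : Fin (n + 1) → ℝ => (Fin.tail ((z 0)⁻¹ • z) : Fin n → ℝ))
        (hx 1 x) := by
      refine continuous_tail.continuousAt.comp ?_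
      refine ContinuousAt.smul (ContinuousAt.inv₀ (continuous_apply 0).continuousAt ?_)
        continuousAt_id
      show (hx 1 x) 0 ≠ 0
      exact one_ne_zero
    have hval : (Fin.tail (((hx 1 x) 0)⁻¹ • (hx 1 x)) : Fin n → ℝ) = x := by
      have h0 : (hx 1 x) 0 = 1 := rfl
      simp only [h0, inv_one, one_smul]
      exact tail_hx
    rw [mem_closure_iff_nhds]
    intro W hW
    have h1 : (fun z : Fin (n + 1) → ℝ => (Fin.tail ((z 0)⁻¹ • z) : Fin n → ℝ)) ⁻¹' W ∈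
        𝓝 (hx 1 x) := by
      refine hψ.preimage_mem_nhds ?_
      rw [hval]
      exact hW
    have h2 : {z : Fin (n + 1) → ℝ | z 0 ≠ 0} ∈ 𝓝 (hx 1 x) := by
      refine (isOpen_ne_fun (continuous_apply 0) continuous_const).mem_nhds ?_
      show (hx 1 x) 0 ≠ 0
      exact one_ne_zero
    obtain ⟨z, ⟨hz1, hz2⟩, hz3⟩ := mem_closure_iff_nhds.1 h _ (inter_mem h1 h2)
    refine ⟨_, hz1, chart_back hPC ?_⟩
    have h3 : hx 1 (Fin.tail ((z 0)⁻¹ • z)) = (z 0)⁻¹ • z := by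
      have h4 : ((z 0)⁻¹ • z) 0 = 1 := by
        simp only [Pi.smul_apply, smul_eq_mul]
        exact inv_mul_cancel₀ hz2
      rw [← h4]
      exact hx_tail
    show hx 1 (Fin.tail ((z 0)⁻¹ • z)) ∈ C.XQ
    rw [h3]
    exact Cub.XQ_smul hz3 (isRat_iff.1 hz3.1 0).inv

theorem closure_QZ_eq_image
    (hPC : ∀ x : Fin n → ℝ, (aeval x P : ℝ) = C.T (hx 1 x) (hx 1 x) (hx 1 x)) :
    closure (QZ P) = Fin.tail '' closure (C.XQ ∩ {z | z 0 = 1}) := by
  apply Subset.antisymm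
  · intro x hx'
    refine ⟨hx 1 x, ?_, tail_hx⟩
    exact map_mem_closure (continuous_hx 1) hx' fun y hy => ⟨chart_maps hPC hy, rfl⟩
  · rintro _ ⟨z, hz, rfl⟩
    refine map_mem_closure continuous_tail hz fun w hw => chart_back hPC ?_
    have h1 : hx 1 (Fin.tail w) = w := by
      have h2 : w 0 = 1 := hw.2
      rw [← h2]
      exact hx_tail
    rw [h1]
    exact hw.1

private theorem chart_deriv
    (hPC : ∀ x : Fin n → ℝ, (aeval x P : ℝ) = C.T (hx 1 x) (hx 1 x) (hx 1 x))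
    (x e : Fin n → ℝ) :
    HasDerivAt (fun t : ℝ => (aeval (x + t • e) P : ℝ))
      (3 * C.T (hx 1 x) (hx 1 x) (hx 0 e)) 0 := by
  obtain ⟨y, hy⟩ : ∃ y, y = hx 1 x := ⟨_, rfl⟩
  obtain ⟨f, hf⟩ : ∃ f, f = hx 0 e := ⟨_, rfl⟩
  rw [← hy, ← hf]
  have h1 : (fun t : ℝ => (aeval (x + t • e) P : ℝ)) = fun t : ℝ =>
      C.T y y y + t * (3 * C.T y y f) + t ^ 2 * (3 * C.T y f f) + t ^ 3 * C.T f f f := by
    funext t
    have h0 : hx 1 (x + t • e) = y + t • f := by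
      rw [hy, hf, ← hx_smul, ← hx_add, mul_zero, add_zero]
    rw [hPC, h0]
    have h2 : C.T y f y = C.T y y f := C.sym₂ y f y
    have h3 : C.T f y y = C.T y y f := by rw [C.sym₁ f y y, h2]
    have h4 : C.T f y f = C.T y f f := C.sym₁ f y f
    have h5 : C.T f f y = C.T y f f := by rw [C.sym₂ f f y, h4]
    simp only [map_add, map_smul, LinearMap.add_apply, LinearMap.smul_apply, smul_eq_mul,
      h2, h3, h4, h5]
    ring
  rw [h1]
  have h2 : HasDerivAt (fun t : ℝ => C.T y y y + t * (3 * C.T y y f) + t ^ 2 * (3 * C.T y f f) +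
      t ^ 3 * C.T f f f) (0 + 1 * (3 * C.T y y f) + (2 : ℕ) * (0 : ℝ) ^ 1 * (3 * C.T y f f) +
      (3 : ℕ) * (0 : ℝ) ^ 2 * C.T f f f) 0 := by
    refine (((hasDerivAt_const (0 : ℝ) (C.T y y y)).add
      ((hasDerivAt_id (0 : ℝ)).mul_const _)).add ?_).add ?_
    · exact (hasDerivAt_pow 2 (0 : ℝ)).mul_const _
    · exact (hasDerivAt_pow 3 (0 : ℝ)).mul_const _
  refine h2.congr_deriv ?_
  simp

theorem smoothAt_chart (hPC : ∀ x : Fin n → ℝ, (aeval x P : ℝ) = C.T (hx 1 x) (hx 1 x) (hx 1 x))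
    {x : Fin n → ℝ} (hx0 : (aeval x P : ℝ) = 0) :
    SmoothAt P x ↔ ∃ u, C.T (hx 1 x) (hx 1 x) u ≠ 0 := by
  constructor
  · rintro ⟨i, c, hc, hd⟩
    refine ⟨hx 0 (Pi.single i 1), fun h => hc ?_⟩
    have h1 := hd.unique (chart_deriv hPC x (Pi.single i 1))
    rw [h1, h, mul_zero]
  · rintro ⟨u, hu⟩
    by_contra hcon
    have h1 : ∀ i : Fin n, C.T (hx 1 x) (hx 1 x) (hx 0 (Pi.single i 1)) = 0 := by
      intro i
      by_contra hne
      exact hcon ⟨i, 3 * C.T (hx 1 x) (hx 1 x) (hx 0 (Pi.single i 1)),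
        mul_ne_zero (by norm_num) hne, chart_deriv hPC x (Pi.single i 1)⟩
    let φ : (Fin n → ℝ) →ₗ[ℝ] ℝ :=
      { toFun := fun w => C.T (hx 1 x) (hx 1 x) (hx 0 w)
        map_add' := fun v w => by
          have : hx 0 (v + w) = hx 0 v + hx 0 w := by
            have := hx_add 0 0 v w
            rwa [add_zero] at this
          rw [this, map_add]
        map_smul' := fun t w => by
          have : hx 0 (t • w) = t • hx 0 w := by
            have := hx_smul t 0 w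
            rwa [mul_zero] at this
          rw [this, map_smul, RingHom.id_apply] }
    have h2 : φ = 0 := by
      apply (Pi.basisFun ℝ (Fin n)).ext
      intro i
      rw [Pi.basisFun_apply]
      exact h1 i
    have h3 : u = u 0 • hx 1 x + hx 0 (Fin.tail u - u 0 • x) := by
      have h4 : u 0 • hx 1 x + hx 0 (Fin.tail u - u 0 • x) = hx (u 0) (Fin.tail u) := by
        rw [← hx_smul, ← hx_add, mul_one, add_zero, add_sub_cancel]
      rw [h4]
      exact hx_tail.symm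
    apply hu
    rw [h3, map_add, map_smul, ← hPC, hx0, smul_zero, zero_add]
    exact congrArg (fun ψ : (Fin n → ℝ) →ₗ[ℝ] ℝ => ψ (Fin.tail u - u 0 • x)) h2

end Pool.Agent.MZ
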