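import Mathlib
import Pool.Agent.MZ.Defs

/-!
# MZ module FC: finite unions of preconnected sets

`FC S` : `S` is a finite union of preconnected sets (`Defs.lean`).

PROOFS.
* `FC.finite_components`: let `S = ⋃ i : Fin k, C i`. For every `i` the set
  `{a : ↥S | (a : X) ∈ C i}` is preconnected in `↥S` (`IsInducing.subtypeVal.isPreconnected_image`:
  its image in `X` is `C i`), so all its points have the same connected component. So
  `ConnectedComponents ↥S` is the union over `i : Fin k` of the subsingleton sets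
  `{ConnectedComponents.mk a | a ∈ C i}` : finite (`Set.finite_univ_iff`, `Set.finite_iUnion`,
  `Set.Subsingleton.finite`).
* `of_preconnected` (`k = 1`), `empty` (`k = 0`), `union` (`Fin.append` or go through `iUnion`),
  `iUnion` (`Finite.exists_equiv_fin` and a finite sigma type `Σ i : ι, Fin (k i)`; it may be easier
  to prove first the lemma that `FC S` follows from `S = ⋃ i : ι, C i` for any finite type `ι`),
  `of_finite` (singletons), `image` (`IsPreconnected.image`), `prod` (`IsPreconnected.prod`,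
  `S ×ˢ S' = ⋃ (i,j), C i ×ˢ C' j`).
* `sandwich`: `A = ⋃ C i`, `A ⊆ S ⊆ closure A = ⋃ closure (C i)` (finite union), so
  `S = ⋃ (S ∩ closure (C i))` and `C i ⊆ S ∩ closure (C i) ⊆ closure (C i)`, so the pieces are
  preconnected by `IsPreconnected.subset_closure`.
* `closure`: special case of `sandwich`.
* `clopen`: `S = ⋃ C i`. For every `i` either `C i ∩ A = ∅` or `C i ⊆ A`: let
  `U = ` the union of all open `V` with `V ∩ S ⊆ A` (contains `A` by `ho`) and `V = (closure A)ᶜ`. If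
  `x ∈ C i ∩ A` and `y ∈ C i \ A` then `C i ⊆ U ∪ V` (a point of `C i` outside `V` is in
  `S ∩ closure A`, hence in `A` by `hc`), `x ∈ U`, `y ∈ V` (by `hc`), so there is `z ∈ C i ∩ U ∩ V`;
  `z ∈ U ∩ S ⊆ A` contradicts `z ∉ closure A`. So `A` is the union of the `C i` with
  `C i ∩ A ≠ ∅`.
About 120 lines.
-/

set_option autoImplicit false

open Set Topology Filter

namespace Pool.Agent.MZ

variable {X Y : Type*} [TopologicalSpace X] [TopologicalSpace Y]

/-- A union of preconnected sets over any finite index type. -/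
private theorem fc_iUnion {ι : Type*} [Finite ι] (C : ι → Set X)
    (hC : ∀ i, IsPreconnected (C i)) : FC (⋃ i, C i) := by
  obtain ⟨k, ⟨e⟩⟩ := Finite.exists_equiv_fin ι
  exact ⟨k, fun j => C (e.symm j), fun j => hC _, (e.symm.surjective.iUnion_comp C).symm⟩

theorem FC.finite_components {S : Set X} (h : FC S) : Finite (ConnectedComponents ↥S) := by
  obtain ⟨k, C, hC, hS⟩ := h
  have hsub : ∀ i, (⋃ a : {a : ↥S // (a : X) ∈ C i},
      ({ConnectedComponents.mk a.1} : Set (ConnectedComponents ↥S))).Finite := by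
    intro i
    apply Set.Subsingleton.finite
    intro p hp q hq
    simp only [Set.mem_iUnion, Set.mem_singleton_iff] at hp hq
    obtain ⟨⟨a, ha⟩, rfl⟩ := hp
    obtain ⟨⟨b, hb⟩, rfl⟩ := hq
    have hpre : IsPreconnected {a : ↥S | (a : X) ∈ C i} := by
      rw [← Topology.IsInducing.subtypeVal.isPreconnected_image]
      have e : Subtype.val '' {a : ↥S | (a : X) ∈ C i} = C i := by
        ext x
        constructor
        · rintro ⟨y, hy, rfl⟩
          exact hy
        · intro hx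
          exact ⟨⟨x, by rw [hS]; exact Set.mem_iUnion.2 ⟨i, hx⟩⟩, hx, rfl⟩
      rw [e]
      exact hC i
    exact ConnectedComponents.coe_eq_coe'.2
      ((hpre.subset_connectedComponent (x := b) hb) ha)
  have huniv : (Set.univ : Set (ConnectedComponents ↥S)) ⊆
      ⋃ i, ⋃ a : {a : ↥S // (a : X) ∈ C i},
        ({ConnectedComponents.mk a.1} : Set (ConnectedComponents ↥S)) := by
    intro p _
    obtain ⟨a, rfl⟩ := ConnectedComponents.surjective_coe p
    have ha : (a : X) ∈ ⋃ i, C i := by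
      rw [← hS]
      exact a.2
    obtain ⟨i, hi⟩ := Set.mem_iUnion.1 ha
    exact Set.mem_iUnion.2 ⟨i, Set.mem_iUnion.2 ⟨⟨a, hi⟩, rfl⟩⟩
  exact Set.finite_univ_iff.1 ((Set.finite_iUnion hsub).subset huniv)

theorem FC.of_preconnected {S : Set X} (h : IsPreconnected S) : FC S :=
  ⟨1, fun _ => S, fun _ => h, (Set.iUnion_const S).symm⟩

theorem FC.empty : FC (∅ : Set X) :=
  ⟨0, fun _ => ∅, fun _ => isPreconnected_empty, by simp⟩

theorem FC.iUnion {ι : Type*} [Finite ι] {S : ι → Set X} (h : ∀ i, FC (S i)) :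
    FC (⋃ i, S i) := by
  choose k C hC hS using h
  have h1 := fc_iUnion (ι := Σ i, Fin (k i)) (fun p => C p.1 p.2) fun p => hC _ _
  have h2 : (⋃ i, S i) = ⋃ p : Σ i, Fin (k i), C p.1 p.2 := by
    rw [Set.iUnion_sigma]
    exact Set.iUnion_congr fun i => hS i
  rw [h2]
  exact h1

theorem FC.union {S S' : Set X} (h : FC S) (h' : FC S') : FC (S ∪ S') := by
  rw [Set.union_eq_iUnion]
  refine FC.iUnion fun b => ?_
  cases b
  · exact h'
  · exact h

theorem FC.of_finite {S : Set X} (h : S.Finite) : FC S := by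
  have := h.to_subtype
  have h1 := fc_iUnion (ι := ↥S) (fun x => ({(x : X)} : Set X)) fun _ => isPreconnected_singleton
  rwa [Set.iUnion_of_singleton_coe] at h1

theorem FC.image {S : Set X} (h : FC S) {f : X → Y} (hf : ContinuousOn f S) : FC (f '' S) := by
  obtain ⟨k, C, hC, rfl⟩ := h
  refine ⟨k, fun i => f '' C i, fun i => (hC i).image f (hf.mono (Set.subset_iUnion C i)), ?_⟩
  exact Set.image_iUnion

theorem FC.prod {S : Set X} {S' : Set Y} (h : FC S) (h' : FC S') : FC (S ×ˢ S') := by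
  obtain ⟨k, C, hC, rfl⟩ := h
  obtain ⟨k', C', hC', rfl⟩ := h'
  have h1 := fc_iUnion (ι := Fin k × Fin k') (fun p => C p.1 ×ˢ C' p.2)
    fun p => (hC p.1).prod (hC' p.2)
  have h2 : (⋃ i, C i) ×ˢ (⋃ i, C' i) = ⋃ p : Fin k × Fin k', C p.1 ×ˢ C' p.2 := by
    ext ⟨x, y⟩
    simp only [Set.mem_prod, Set.mem_iUnion]
    constructor
    · rintro ⟨⟨i, hi⟩, ⟨j, hj⟩⟩
      exact ⟨(i, j), hi, hj⟩
    · rintro ⟨p, hp, hp'⟩
      exact ⟨⟨p.1, hp⟩, ⟨p.2, hp'⟩⟩
  rw [h2]
  exact h1

theorem FC.sandwich {A S : Set X} (h : FC A) (h1 : A ⊆ S) (h2 : S ⊆ closure A) : FC S := by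
  obtain ⟨k, C, hC, rfl⟩ := h
  refine ⟨k, fun i => S ∩ closure (C i), fun i => ?_, ?_⟩
  · exact (hC i).subset_closure
      (Set.subset_inter ((Set.subset_iUnion C i).trans h1) subset_closure) Set.inter_subset_right
  · rw [closure_iUnion_of_finite] at h2
    rw [← Set.inter_iUnion]
    exact (Set.inter_eq_left.2 h2).symm

theorem FC.closure {S : Set X} (h : FC S) : FC (closure S) :=
  h.sandwich subset_closure le_rfl

theorem FC.clopen {S A : Set X} (h : FC S) (hA : A ⊆ S)
    (ho : ∀ x ∈ A, ∀ᶠ y in 𝓝 x, y ∈ S → y ∈ A) (hc : ∀ x ∈ S, x ∈ _root_.closure A → x ∈ A) :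
    FC A := by
  obtain ⟨k, C, hC, hS⟩ := h
  have hCS : ∀ i, C i ⊆ S := fun i => by rw [hS]; exact Set.subset_iUnion C i
  have key : ∀ i, (C i ∩ A).Nonempty → C i ⊆ A := by
    rintro i ⟨x, hxC, hxA⟩ y hyC
    by_contra hyA
    let U : Set X := ⋃₀ {V | IsOpen V ∧ ∀ z ∈ V, z ∈ S → z ∈ A}
    have hU : IsOpen U := isOpen_sUnion fun V hV => hV.1
    have hUA : ∀ z ∈ U, z ∈ S → z ∈ A := by
      rintro z ⟨V, hV, hzV⟩ hzS
      exact hV.2 z hzV hzS
    have hAU : ∀ z ∈ A, z ∈ U := by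
      intro z hz
      obtain ⟨V, hV, hVo, hzV⟩ := eventually_nhds_iff.1 (ho z hz)
      exact ⟨V, ⟨hVo, fun w hw => hV w hw⟩, hzV⟩
    have hV : IsOpen (_root_.closure A)ᶜ := isClosed_closure.isOpen_compl
    obtain ⟨z, hzC, hzU, hzV⟩ := hC i U (_root_.closure A)ᶜ hU hV (by
      intro w hw
      by_cases hw' : w ∈ _root_.closure A
      · exact Or.inl (hAU w (hc w (hCS i hw) hw'))
      · exact Or.inr hw') ⟨x, hxC, hAU x hxA⟩ ⟨y, hyC, fun hy => hyA (hc y (hCS i hyC) hy)⟩
    exact hzV (subset_closure (hUA z hzU (hCS i hzC)))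
  have h1 := fc_iUnion (ι := {i : Fin k // (C i ∩ A).Nonempty}) (fun i => C i.1) fun i => hC _
  have h2 : A = ⋃ i : {i : Fin k // (C i ∩ A).Nonempty}, C i.1 := by
    apply Set.Subset.antisymm
    · intro x hx
      have hxS := hA hx
      rw [hS] at hxS
      obtain ⟨i, hi⟩ := Set.mem_iUnion.1 hxS
      exact Set.mem_iUnion.2 ⟨⟨i, ⟨x, hi, hx⟩⟩, hi⟩
    · exact Set.iUnion_subset fun i => key i.1 i.2
  rw [h2]
  exact h1

end Pool.Agent.MZ
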