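import Mathlib
import Pool.Agent.MZ.Defs
import Pool.Agent.MZ.Basic

/-!
# MZ module ARC: a plane cubic near a smooth point is an arc

(uses the stubs of `Basic`)

PROOF. Choose `e` with `T y₀ y₀ e = 1` and `f` with `T y₀ y₀ f = 0` such that `y₀, f, e` is a basis of `ℝ³` (the
kernel of `T y₀ y₀` is a plane containing `y₀`). Let `α, β, ε` be the dual basis (coordinates), so
`v = α v • y₀ + β v • f + ε v • e`. Let `g (s, t) = T v v v` for `v = y₀ + s f + t e`: a real polynomial in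
`s, t`, `g (0, 0) = 0`, `∂g/∂t (s, t) = 3 T v v e`, `= 3` at `(0, 0)`.
Choose `τ > 0` with `T v v e > 0` for `|s| ≤ τ`, `|t| ≤ τ` (continuity), so `g (s, ·)` is strictly increasing on
`[-τ, τ]` for `|s| ≤ τ`. `g (0, τ) > 0 > g (0, -τ)`; choose `0 < δ₀ ≤ τ` with `g (s, τ) > 0 > g (s, -τ)` for
`|s| ≤ δ₀`. For `|s| ≤ δ₀` let `t (s)` be the unique zero of `g (s, ·)` in `(-τ, τ)` (intermediate value theorem). `t` is
continuous on `[-δ₀, δ₀]`: if `|t - t (s₁)|` small: for small `η > 0`, `g (s₁, t (s₁) ± η)` have strict opposite signs,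
also for `s` near `s₁`, so `|t (s) - t (s₁)| < η`. `t (0) = 0`. Let `δ = δ₀`,
`γ s = y₀ + s f + t (s) e`, and
`W = {v | 0 < α v ∧ |ε v| < τ * α v ∧ |β v| < 2 * τ * α v}` (open).
`γ s ∈ W` for `|s| ≤ δ`. For `v ∈ W` with `T v v v = 0`, `σ = β v / α v ∈ [-δ, δ]`: `v = α v • (y₀ + σ f + t e)`
with `|t| < τ`, `g (σ, t) = 0`, so `t = t (σ)`, `v = α v • γ σ`.
(The implicit function theorem is not needed.) About 150 lines.
-/

set_option autoImplicit false

open Set Topology Filter MvPolynomial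

namespace Pool.Agent.MZ

namespace Cub

variable {C : Cub 3}

/-- a basis `y₀, f, e` of `ℝ³` with `T y₀ y₀ f = 0`, `T y₀ y₀ e = 1`, and the dual basis -/
private theorem arc_basis {y₀ : Fin 3 → ℝ} (h0 : C.T y₀ y₀ y₀ = 0) (hs : ∃ u, C.T y₀ y₀ u ≠ 0) :
    ∃ (f e : Fin 3 → ℝ) (α β ε : (Fin 3 → ℝ) →ₗ[ℝ] ℝ), C.T y₀ y₀ f = 0 ∧ C.T y₀ y₀ e = 1 ∧
      (∀ v, v = α v • y₀ + β v • f + ε v • e) ∧
      ∀ a b c : ℝ, α (a • y₀ + b • f + c • e) = a ∧ β (a • y₀ + b • f + c • e) = b ∧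
        ε (a • y₀ + b • f + c • e) = c := by
  obtain ⟨u, hu⟩ := hs
  have hy0 : y₀ ≠ 0 := by
    rintro rfl
    exact hu (by simp)
  set e : Fin 3 → ℝ := (C.T y₀ y₀ u)⁻¹ • u with he
  have he1 : C.T y₀ y₀ e = 1 := by
    rw [he, map_smul, smul_eq_mul, inv_mul_cancel₀ hu]
  set L : (Fin 3 → ℝ) →ₗ[ℝ] ℝ := C.T y₀ y₀ with hL
  -- the kernel
  have hker : 2 ≤ Module.finrank ℝ (LinearMap.ker L) := by
    have h1 := LinearMap.finrank_range_add_finrank_ker L
    have h2 : Module.finrank ℝ (LinearMap.range L) ≤ 1 := by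
      have := Submodule.finrank_le (LinearMap.range L)
      rwa [Module.finrank_self] at this
    rw [Module.finrank_fin_fun] at h1
    omega
  obtain ⟨f, hfL, hf⟩ : ∃ f ∈ LinearMap.ker L, f ∉ Submodule.span ℝ {y₀} := by
    by_contra hcon
    push Not at hcon
    have h1 : LinearMap.ker L ≤ Submodule.span ℝ {y₀} := hcon
    have h2 := Submodule.finrank_mono h1
    have h3 : Module.finrank ℝ (Submodule.span ℝ {y₀}) = 1 := finrank_span_singleton hy0
    omega
  have hf0 : L f = 0 := hfL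
  have hli : LinearIndependent ℝ ![y₀, f, e] := by
    rw [Fintype.linearIndependent_iff]
    intro g hg
    rw [Fin.sum_univ_three] at hg
    simp only [Matrix.cons_val_zero, Matrix.cons_val_one, Matrix.cons_val] at hg
    have h2 : g 2 = 0 := by
      have := congrArg L hg
      rw [map_add, map_add, map_smul, map_smul, map_smul, hf0, map_zero] at this
      simp only [smul_eq_mul] at this
      rw [h0, he1] at this
      linarith
    have h1 : g 1 = 0 := by
      by_contra h1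
      apply hf
      rw [Submodule.mem_span_singleton]
      refine ⟨-(g 1)⁻¹ * g 0, ?_⟩
      rw [h2, zero_smul, add_zero] at hg
      have h3 : g 1 • f = -(g 0 • y₀) := by
        rw [eq_neg_iff_add_eq_zero, add_comm]; exact hg
      have h4 : f = (g 1)⁻¹ • (g 1 • f) := by rw [smul_smul, inv_mul_cancel₀ h1, one_smul]
      rw [h4, h3]
      module
    have h00 : g 0 = 0 := by
      rw [h1, h2, zero_smul, zero_smul, add_zero, add_zero] at hg
      exact (smul_eq_zero.1 hg).resolve_right hy0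
    intro i
    fin_cases i
    · exact h00
    · exact h1
    · exact h2
  let b := basisOfLinearIndependentOfCardEqFinrank hli (by simp)
  have hb : ∀ i, b i = ![y₀, f, e] i := fun i => by
    simp only [b, coe_basisOfLinearIndependentOfCardEqFinrank]
  have hb0 : b 0 = y₀ := hb 0
  have hb1 : b 1 = f := hb 1
  have hb2 : b 2 = e := hb 2
  refine ⟨f, e, b.coord 0, b.coord 1, b.coord 2, hf0, he1, fun v => ?_, fun x y z => ?_⟩
  · have := b.sum_repr v
    rw [Fin.sum_univ_three, hb0, hb1, hb2] at this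
    exact this.symm
  · rw [← hb0, ← hb1, ← hb2]
    simp only [Module.Basis.coord_apply, map_add, map_smul, Module.Basis.repr_self, Finsupp.add_apply,
      Finsupp.smul_apply, smul_eq_mul]
    refine ⟨?_, ?_, ?_⟩ <;> simp [Finsupp.single_apply]

theorem exists_arc {y₀ : Fin 3 → ℝ} (h0 : C.T y₀ y₀ y₀ = 0) (hs : ∃ u, C.T y₀ y₀ u ≠ 0) :
    ∃ (α β : (Fin 3 → ℝ) →ₗ[ℝ] ℝ) (δ : ℝ) (γ : ℝ → Fin 3 → ℝ) (W : Set (Fin 3 → ℝ)), 0 < δ ∧
      IsOpen W ∧ α y₀ = 1 ∧ β y₀ = 0 ∧ γ 0 = y₀ ∧ ContinuousOn γ (Icc (-δ) δ) ∧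
      (∀ s ∈ Icc (-δ) δ, C.T (γ s) (γ s) (γ s) = 0 ∧ α (γ s) = 1 ∧ β (γ s) = s ∧ γ s ∈ W) ∧
      ∀ y ∈ W, C.T y y y = 0 → 0 < α y ∧
        (β y / α y ∈ Icc (-δ) δ → y = α y • γ (β y / α y)) := by
  obtain ⟨f, e, α, β, ε, hf, he, hrep, hco⟩ := arc_basis h0 hs
  set V : ℝ → ℝ → Fin 3 → ℝ := fun s t => y₀ + s • f + t • e with hV
  have hVc : Continuous fun p : ℝ × ℝ => V p.1 p.2 := by
    simp only [hV]
    fun_prop
  have hV00 : V 0 0 = y₀ := by simp [hV]
  have hcoV : ∀ s t, α (V s t) = 1 ∧ β (V s t) = s ∧ ε (V s t) = t := by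
    intro s t
    have := hco 1 s t
    rw [one_smul] at this
    exact this
  -- the form on pairs
  have hG : Continuous fun p : (ℝ × ℝ) × (ℝ × ℝ) => C.T (V p.1.1 p.1.2) (V p.2.1 p.2.2) e :=
    C.continuous_comp (hVc.comp continuous_fst) (hVc.comp continuous_snd) continuous_const
  obtain ⟨τ, hτ, hpos⟩ : ∃ τ : ℝ, 0 < τ ∧ ∀ s t s' t' : ℝ, |s| ≤ τ → |t| ≤ τ → |s'| ≤ τ →
      |t'| ≤ τ → 0 < C.T (V s t) (V s' t') e := by
    have h1 : ∀ᶠ p : (ℝ × ℝ) × (ℝ × ℝ) in 𝓝 0,
        0 < C.T (V p.1.1 p.1.2) (V p.2.1 p.2.2) e := by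
      refine hG.continuousAt.eventually (lt_mem_nhds ?_)
      simp only [Prod.fst_zero, Prod.snd_zero, hV00, he]
      exact one_pos
    obtain ⟨r, hr, h2⟩ := Metric.eventually_nhds_iff.1 h1
    refine ⟨r / 2, by positivity, fun s t s' t' hs ht hs' ht' => ?_⟩
    refine h2 (y := ((s, t), (s', t'))) ?_
    rw [dist_zero_right]
    simp only [Prod.norm_def, Real.norm_eq_abs, sup_lt_iff]
    refine ⟨⟨?_, ?_⟩, ?_, ?_⟩ <;> linarith
  -- strict monotonicity
  set g : ℝ → ℝ → ℝ := fun s t => C.T (V s t) (V s t) (V s t) with hg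
  have hgc : Continuous fun p : ℝ × ℝ => g p.1 p.2 := C.continuous_comp hVc hVc hVc
  have hmono : ∀ s, |s| ≤ τ → ∀ t t', |t| ≤ τ → |t'| ≤ τ → t < t' → g s t < g s t' := by
    intro s hs t t' ht ht' htt
    have h1 : V s t' = V s t + (t' - t) • e := by
      simp only [hV]; module
    have h2 : g s t' - g s t = (t' - t) * (C.T (V s t') (V s t') e + C.T (V s t') (V s t) e +
        C.T (V s t) (V s t) e) := by
      simp only [hg]
      rw [h1]
      simp only [map_add, map_smul, LinearMap.add_apply, LinearMap.smul_apply, smul_eq_mul]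
      rw [C.sym₂ (V s t) e (V s t), C.sym₁ e (V s t) (V s t), C.sym₂ (V s t) e (V s t),
        C.sym₁ e e (V s t), C.sym₂ e e (V s t), C.sym₁ e (V s t) e]
      ring
    have h3 := hpos s t' s t' hs ht' hs ht'
    have h4 := hpos s t' s t hs ht' hs ht
    have h5 := hpos s t s t hs ht hs ht
    have h6 : 0 < g s t' - g s t := by
      rw [h2]
      exact mul_pos (by linarith) (by linarith)
    linarith
  have hg00 : g 0 0 = 0 := by simp only [hg, hV00]; exact h0
  have hτa : |τ| ≤ τ := (abs_of_pos hτ).le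
  have hτa' : |(-τ)| ≤ τ := by rw [abs_neg]; exact hτa
  have h0a : |(0 : ℝ)| ≤ τ := by rw [abs_zero]; exact hτ.le
  have hup : 0 < g 0 τ := by
    have := hmono 0 h0a 0 τ h0a hτa hτ
    rwa [hg00] at this
  have hdn : g 0 (-τ) < 0 := by
    have := hmono 0 h0a (-τ) 0 hτa' h0a (by linarith)
    rwa [hg00] at this
  have hgs : ∀ t, Continuous fun s => g s t := fun t => hgc.comp (continuous_id.prodMk continuous_const)
  have hgt : ∀ s, Continuous fun t => g s t := fun s => hgc.comp (continuous_const.prodMk continuous_id)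
  obtain ⟨δ, hδ, hδτ, hbd⟩ : ∃ δ : ℝ, 0 < δ ∧ δ ≤ τ ∧ ∀ s, |s| ≤ δ → 0 < g s τ ∧ g s (-τ) < 0 := by
    have h1 : ∀ᶠ s in 𝓝 (0 : ℝ), 0 < g s τ ∧ g s (-τ) < 0 :=
      ((hgs τ).continuousAt.eventually (lt_mem_nhds hup)).and
        ((hgs (-τ)).continuousAt.eventually (gt_mem_nhds hdn))
    obtain ⟨r, hr, h2⟩ := Metric.eventually_nhds_iff.1 h1
    refine ⟨min (r / 2) τ, lt_min (by positivity) hτ, min_le_right _ _, fun s hs => ?_⟩
    refine h2 ?_
    rw [dist_zero_right, Real.norm_eq_abs]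
    have := hs.trans (min_le_left (r / 2) τ)
    linarith
  have hex : ∀ s, |s| ≤ δ → ∃ t, |t| < τ ∧ g s t = 0 := by
    intro s hs
    obtain ⟨h1, h2⟩ := hbd s hs
    obtain ⟨t, ht, ht0⟩ := intermediate_value_Icc (show -τ ≤ τ by linarith)
      (hgt s).continuousOn ⟨h2.le, h1.le⟩
    refine ⟨t, ?_, ht0⟩
    rw [abs_lt]
    constructor
    · refine lt_of_le_of_ne ht.1 ?_
      rintro rfl
      simp only at ht0
      linarith
    · refine lt_of_le_of_ne ht.2 ?_
      rintro rfl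
      simp only at ht0
      linarith
  have huniq : ∀ s, |s| ≤ τ → ∀ t t', |t| ≤ τ → |t'| ≤ τ → g s t = 0 → g s t' = 0 → t = t' := by
    intro s hs t t' ht ht' h1 h2
    rcases lt_trichotomy t t' with h | h | h
    · have := hmono s hs t t' ht ht' h
      linarith
    · exact h
    · have := hmono s hs t' t ht' ht h
      linarith
  have hex' : ∀ s : ℝ, ∃ t : ℝ, |s| ≤ δ → |t| < τ ∧ g s t = 0 := by
    intro s
    by_cases h : |s| ≤ δ
    · obtain ⟨t, ht⟩ := hex s h
      exact ⟨t, fun _ => ht⟩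
    · exact ⟨0, fun h' => absurd h' h⟩
  choose T hT using hex'
  have hIcc : ∀ s ∈ Icc (-δ) δ, |s| ≤ δ := fun s hs => abs_le.2 hs
  have hTc : ContinuousOn T (Icc (-δ) δ) := by
    rw [Metric.continuousOn_iff]
    intro s₁ hs₁ η hη
    obtain ⟨h1, h2⟩ := hT s₁ (hIcc s₁ hs₁)
    obtain ⟨h1a, h1b⟩ := abs_lt.1 h1
    set κ := min (η / 2) (min (τ - T s₁) (T s₁ + τ)) with hκ
    have hκ0 : 0 < κ := lt_min (by positivity) (lt_min (by linarith) (by linarith))
    have hκ1 : κ ≤ η / 2 := min_le_left _ _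
    have hκ2 : κ ≤ τ - T s₁ := (min_le_right _ _).trans (min_le_left _ _)
    have hκ3 : κ ≤ T s₁ + τ := (min_le_right _ _).trans (min_le_right _ _)
    have hs1τ : |s₁| ≤ τ := (hIcc s₁ hs₁).trans hδτ
    have ht1 : |T s₁ + κ| ≤ τ := abs_le.2 ⟨by linarith, by linarith⟩
    have ht2 : |T s₁ - κ| ≤ τ := abs_le.2 ⟨by linarith, by linarith⟩
    have h3 : 0 < g s₁ (T s₁ + κ) := by
      have := hmono s₁ hs1τ (T s₁) (T s₁ + κ) h1.le ht1 (by linarith)
      rwa [h2] at this
    have h4 : g s₁ (T s₁ - κ) < 0 := by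
      have := hmono s₁ hs1τ (T s₁ - κ) (T s₁) ht2 h1.le (by linarith)
      rwa [h2] at this
    have h5 : ∀ᶠ s in 𝓝 s₁, 0 < g s (T s₁ + κ) ∧ g s (T s₁ - κ) < 0 :=
      ((hgs _).continuousAt.eventually (lt_mem_nhds h3)).and
        ((hgs _).continuousAt.eventually (gt_mem_nhds h4))
    obtain ⟨r, hr, h6⟩ := Metric.eventually_nhds_iff.1 h5
    refine ⟨r, hr, fun s hs hd => ?_⟩
    obtain ⟨h7, h8⟩ := h6 hd
    obtain ⟨h9, h10⟩ := hT s (hIcc s hs)
    have hsτ : |s| ≤ τ := (hIcc s hs).trans hδτ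
    have h11 : T s < T s₁ + κ := by
      by_contra hcon
      rw [not_lt] at hcon
      rcases hcon.lt_or_eq with h | h
      · have := hmono s hsτ _ _ ht1 h9.le h
        linarith
      · rw [h] at h7
        linarith
    have h12 : T s₁ - κ < T s := by
      by_contra hcon
      rw [not_lt] at hcon
      rcases hcon.lt_or_eq with h | h
      · have := hmono s hsτ _ _ h9.le ht2 h
        linarith
      · rw [← h] at h8
        linarith
    rw [Real.dist_eq, abs_lt]
    constructor <;> linarith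
  have hαc : Continuous α := α.continuous_of_finiteDimensional
  have hβc : Continuous β := β.continuous_of_finiteDimensional
  have hεc : Continuous ε := ε.continuous_of_finiteDimensional
  have h0I : |(0 : ℝ)| ≤ δ := by rw [abs_zero]; exact hδ.le
  have hT0 : T 0 = 0 := huniq 0 h0a _ _ (hT 0 h0I).1.le h0a (hT 0 h0I).2 hg00
  refine ⟨α, β, δ, fun s => V s (T s),
    {v | 0 < α v ∧ |ε v| < τ * α v ∧ |β v| < 2 * τ * α v}, hδ, ?_, ?_, ?_, ?_, ?_, ?_, ?_⟩
  · exact (isOpen_lt continuous_const hαc).inter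
      ((isOpen_lt hεc.abs (continuous_const.mul hαc)).inter
        (isOpen_lt hβc.abs (continuous_const.mul hαc)))
  · have := (hcoV 0 0).1
    rwa [hV00] at this
  · have := (hcoV 0 0).2.1
    rwa [hV00] at this
  · simp only [hT0, hV00]
  · exact hVc.comp_continuousOn (continuousOn_id.prodMk hTc)
  · intro s hs
    obtain ⟨h1, h2⟩ := hT s (hIcc s hs)
    obtain ⟨h3, h4, h5⟩ := hcoV s (T s)
    refine ⟨h2, h3, h4, ?_⟩
    simp only [Set.mem_setOf_eq, h3, h4, h5]
    have := hIcc s hs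
    refine ⟨one_pos, by linarith, by linarith⟩
  · rintro v ⟨h1, h2, h3⟩ hv
    refine ⟨h1, fun hσ => ?_⟩
    have hσ' := hIcc _ hσ
    have hvrep : v = α v • V (β v / α v) (ε v / α v) := by
      conv_lhs => rw [hrep v]
      simp only [hV, smul_add, smul_smul]
      rw [mul_div_cancel₀ _ h1.ne', mul_div_cancel₀ _ h1.ne']
    have h4 : |ε v / α v| ≤ τ := by
      rw [abs_div, abs_of_pos h1, div_le_iff₀ h1]
      exact h2.le
    have h5 : g (β v / α v) (ε v / α v) = 0 := by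
      rw [hvrep] at hv
      simp only [map_smul, LinearMap.smul_apply, smul_eq_mul] at hv
      have := mul_eq_zero.1 hv
      simp only [mul_eq_zero, h1.ne', false_or] at hv
      exact hv
    have h6 : T (β v / α v) = ε v / α v :=
      huniq _ (hσ'.trans hδτ) _ _ (hT _ hσ').1.le h4 (hT _ hσ').2 h5
    simp only [h6]
    exact hvrep

end Cub

end Pool.Agent.MZ
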