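import Mathlib

/-!
# MZ module BEZ (Mathlib only): Bezout identity from the Gauss lemma

PROOF. `R = MvPolynomial (Fin n) ℚ` is a unique factorization domain (choose
`UniqueFactorizationMonoid.toNormalizedGCDMonoid R` with `letI` if an instance `NormalizedGCDMonoid R` is
needed), `K = FractionRing R`. `P` is irreducible of positive degree, so primitive
(`Irreducible.isPrimitive`) and its image `P_K` in `K[X]` is irreducible
(`Polynomial.IsPrimitive.irreducible_iff_irreducible_map_fraction_map`). If `P_K ∣ G_K` then `P ∣ G`:
`G = content * primPart` and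
`Polynomial.IsPrimitive.dvd_iff_fraction_map_dvd_fraction_map`/`dvd_of_fraction_map_dvd_fraction_map`
for the primitive part (for `G = 0` clear). (Or: `P_K ∣ G_K` gives `D * G = P * H` in `R[X]` with
`D ∈ R` not zero; `P` is prime in the UFD `R[X]` and does not divide the constants, ... : by
induction on the number of prime factors of `D` one gets `P ∣ G`; or simply: `P` is prime,
`P ∣ C D * G`, `P ∤ C D` because of the degrees, so `P ∣ G`. This last argument avoids contents.) So
`P_K ∤ G_K`, `K[X]` is a PID, so `P_K, G_K` are coprime: `a P_K + b G_K = 1`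
(`(Irreducible.coprime_iff_not_dvd)`, `isCoprime`). Clear the denominators of `a, b`:
`A P + B G = C D`, `D ≠ 0`.

That `P_K` is irreducible can also be avoided: `K[X]` is a PID, let `d` generate the ideal
`(P_K, G_K)`. If `d` is not a unit, then `D * P = d₁ * H` for polynomials over `R` with `d₁`
the image of `d` up to a nonzero constant, of positive degree (`d` is not a constant, `≠ 0`); `P` is
prime, so `P ∣ d₁` or `P ∣ H`...: in the second case the degree of `d₁` would be 0; so `P ∣ d₁`, hence
`P_K ∣ d`, hence `P_K ∣ G_K`, hence `P ∣ G` as above.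

`bezout_sep`: `derivative P ≠ 0` has smaller degree than `P` (characteristic zero), so `P ∤ P'`.
About 100 lines.
-/

set_option autoImplicit false

open MvPolynomial

namespace Pool.Agent.MZ

theorem bezout {n : ℕ} {P G : Polynomial (MvPolynomial (Fin n) ℚ)} (hP : Irreducible P)
    (hd : 0 < P.natDegree) (hG : ¬ P ∣ G) :
    ∃ (A B : Polynomial (MvPolynomial (Fin n) ℚ)) (D : MvPolynomial (Fin n) ℚ), D ≠ 0 ∧
      A * P + B * G = Polynomial.C D := by
  classical
  let R := MvPolynomial (Fin n) ℚ
  let K := FractionRing R
  let φ : R →+* K := algebraMap R K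
  have hφ : Function.Injective φ := IsFractionRing.injective R K
  have hmap : Function.Injective (Polynomial.map φ) := Polynomial.map_injective φ hφ
  have hprim : P.IsPrimitive := hP.isPrimitive hd.ne'
  have hirr : Irreducible (P.map φ) := hprim.irreducible_iff_irreducible_map_fraction_map.1 hP
  have hprime : Prime P := hP.prime
  -- `P` does not divide the constants
  have hPC : ∀ b : R, b ≠ 0 → ¬ P ∣ Polynomial.C b := by
    intro b hb hdvd
    have h1 := Polynomial.natDegree_le_of_dvd hdvd (Polynomial.C_ne_zero.2 hb)
    rw [Polynomial.natDegree_C] at h1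
    omega
  have hndvd : ¬ P.map φ ∣ G.map φ := by
    rintro ⟨h, hh⟩
    obtain ⟨b, hb, hbm⟩ := IsLocalization.integerNormalization_spec (nonZeroDivisors R) h
    have hb0 : b ≠ 0 := nonZeroDivisors.ne_zero hb
    have h1 : Polynomial.C b * G =
        P * IsLocalization.integerNormalization (nonZeroDivisors R) h := by
      apply hmap
      rw [Polynomial.map_mul, Polynomial.map_mul, Polynomial.map_C, hh]
      change _ = P.map φ * Polynomial.map (algebraMap R K) _
      rw [hbm, mul_smul_comm, Algebra.smul_def]
      rfl
    rcases hprime.dvd_or_dvd (Dvd.intro _ h1.symm) with h2 | h2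
    · exact hPC b hb0 h2
    · exact hG h2
  obtain ⟨a, b, hab⟩ := hirr.coprime_iff_not_dvd.2 hndvd
  obtain ⟨c, hc, hcm⟩ := IsLocalization.integerNormalization_spec (nonZeroDivisors R) a
  obtain ⟨d, hd', hdm⟩ := IsLocalization.integerNormalization_spec (nonZeroDivisors R) b
  refine ⟨Polynomial.C d * IsLocalization.integerNormalization (nonZeroDivisors R) a,
    Polynomial.C c * IsLocalization.integerNormalization (nonZeroDivisors R) b, c * d,
    mul_ne_zero (nonZeroDivisors.ne_zero hc) (nonZeroDivisors.ne_zero hd'), ?_⟩
  apply hmap
  have e1 : Polynomial.map φ (IsLocalization.integerNormalization (nonZeroDivisors R) a) =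
      Polynomial.C (φ c) * a := by
    change Polynomial.map (algebraMap R K) _ = _
    rw [hcm, Algebra.smul_def]
    rfl
  have e2 : Polynomial.map φ (IsLocalization.integerNormalization (nonZeroDivisors R) b) =
      Polynomial.C (φ d) * b := by
    change Polynomial.map (algebraMap R K) _ = _
    rw [hdm, Algebra.smul_def]
    rfl
  simp only [Polynomial.map_add, Polynomial.map_mul, Polynomial.map_C, e1, e2, map_mul]
  linear_combination (Polynomial.C (φ c) * Polynomial.C (φ d)) * hab

theorem bezout_sep {n : ℕ} {P : Polynomial (MvPolynomial (Fin n) ℚ)} (hP : Irreducible P)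
    (hd : 0 < P.natDegree) :
    ∃ (A B : Polynomial (MvPolynomial (Fin n) ℚ)) (D : MvPolynomial (Fin n) ℚ), D ≠ 0 ∧
      A * P + B * Polynomial.derivative P = Polynomial.C D := by
  refine bezout hP hd fun hdvd => ?_
  have h0 : Polynomial.derivative P ≠ 0 := by
    intro h
    have := Polynomial.derivative_eq_zero.1 h
    omega
  have h1 := Polynomial.natDegree_le_of_dvd hdvd h0
  have h2 := Polynomial.natDegree_derivative_lt hd.ne'
  omega

end Pool.Agent.MZ
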