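import Mathlib

/-!
# MZ module ROOTS (Mathlib only): simple real roots move continuously

`p x` is a family of real polynomials of the same degree `d` with continuous coefficients, all real
roots of `p x₀` are simple, `r` lists them in increasing order.

PROOF. The function `(x, t) ↦ (p x).eval t` is continuous on `X × ℝ`: it is
`∑ i ∈ range (d + 1), (p x).coeff i * t ^ i` (`Polynomial.eval_eq_sum_range'`); the same for
`(derivative (p x)).eval t`.
(1) Bound: `(p x₀).coeff d ≠ 0`. There is `M > 0` such that eventually `p x` has no roots outside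
    `[-M, M]`: with `a = |(p x₀).coeff d| / 2 > 0`, `b = 1 + ∑ i, |(p x₀).coeff i|`, eventually
    `a < |(p x).coeff d|` and `|(p x).coeff i| < b`, and for `|t| ≥ M := 1 + d * b / a` the leading term
    dominates: `|∑_{i<d} c_i t^i| ≤ d b |t|^{d-1} < a |t|^d` (`d ≥ 1`; for `d = 0` there are no roots at
    all as `p x` is a nonzero constant).
(2) Shrink `ε` so that the intervals `[r i - ε, r i + ε]` are disjoint and
    `derivative (p x₀)` has no zero on them (continuity at `r i`, where the derivative is not zero).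
    It suffices to prove the claim for small `ε`. `p x₀` has opposite signs at `r i - ε` and
    `r i + ε` (strictly monotone on the interval, with value 0 at `r i`).
(3) `K = [-M, M] \ ⋃ (r i - ε, r i + ε)` is compact and `p x₀` has no zero on it; so eventually `p x`
    has no zero on `K` (tube lemma: `IsCompact.eventually_forall_of_forall_eventually` or
    `generalized_tube_lemma`). In the same way eventually `derivative (p x)` has no zero on the
    compact intervals `[r i - ε, r i + ε]`, and `p x` has opposite signs at the end points.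
(4) For such `x` : exactly one root `r' i` in each `(r i - ε, r i + ε)` (intermediate value theorem;
    uniqueness by Rolle, `exists_deriv_eq_zero` or `exists_hasDerivAt_eq_zero`), no others;
    `r'` is strictly monotone because the intervals are disjoint and in increasing order
    (`r i + ε < r j - ε` for `i < j`).
About 180 lines.
-/

set_option autoImplicit false

open Set Topology Filter

namespace Pool.Agent.MZ

private theorem rs_eval {X : Type*} [TopologicalSpace X] {p : X → Polynomial ℝ} {d : ℕ}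
    (hc : ∀ i, Continuous fun x => (p x).coeff i) (hd : ∀ x, (p x).natDegree = d) :
    Continuous fun z : X × ℝ => (p z.1).eval z.2 := by
  have h : (fun z : X × ℝ => (p z.1).eval z.2) =
      fun z => ∑ i ∈ Finset.range (d + 1), (p z.1).coeff i * z.2 ^ i := by
    funext z
    rw [Polynomial.eval_eq_sum_range, hd]
  rw [h]
  exact continuous_finsetSum _ fun i _ =>
    ((hc i).comp continuous_fst).mul (continuous_snd.pow i)

private theorem rs_deriv {X : Type*} [TopologicalSpace X] {p : X → Polynomial ℝ} {d : ℕ}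
    (hc : ∀ i, Continuous fun x => (p x).coeff i) (hd : ∀ x, (p x).natDegree = d) :
    Continuous fun z : X × ℝ => (Polynomial.derivative (p z.1)).eval z.2 := by
  have h : (fun z : X × ℝ => (Polynomial.derivative (p z.1)).eval z.2) =
      fun z => ∑ i ∈ Finset.range (d + 1), ((p z.1).coeff (i + 1) * (i + 1)) * z.2 ^ i := by
    funext z
    rw [Polynomial.eval_eq_sum_range' (n := d + 1)]
    · refine Finset.sum_congr rfl fun i _ => ?_
      rw [Polynomial.coeff_derivative]
    · have := Polynomial.natDegree_derivative_le (p z.1)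
      rw [hd] at this
      omega
  rw [h]
  exact continuous_finsetSum _ fun i _ =>
    (((hc (i + 1)).comp continuous_fst).mul continuous_const).mul (continuous_snd.pow i)

private theorem rs_bound {X : Type*} [TopologicalSpace X] {p : X → Polynomial ℝ} {d : ℕ}
    (hc : ∀ i, Continuous fun x => (p x).coeff i) (hd : ∀ x, (p x).natDegree = d)
    (h0 : ∀ x, p x ≠ 0) (x₀ : X) :
    ∃ M : ℝ, ∀ᶠ x in 𝓝 x₀, ∀ t, (p x).IsRoot t → t ∈ Icc (-M) M := by
  have h1 : Continuous fun x => Polynomial.cauchyBound (p x) := by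
    have h2 : (fun x => Polynomial.cauchyBound (p x)) = fun x =>
        (Finset.range d).sup (fun i => ‖(p x).coeff i‖₊) / ‖(p x).coeff d‖₊ + 1 := by
      funext x
      unfold Polynomial.cauchyBound Polynomial.leadingCoeff
      rw [hd]
    rw [h2]
    refine Continuous.add (Continuous.div₀ ?_ (hc d).nnnorm ?_) continuous_const
    · exact Continuous.finset_sup_apply (fun i _ => (hc i).nnnorm)
    · intro x hx
      rw [nnnorm_eq_zero] at hx
      apply h0 x
      rw [← Polynomial.leadingCoeff_eq_zero, Polynomial.leadingCoeff, hd]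
      exact hx
  refine ⟨(Polynomial.cauchyBound (p x₀) + 1 : NNReal), ?_⟩
  have h3 : ∀ᶠ x in 𝓝 x₀, Polynomial.cauchyBound (p x) < Polynomial.cauchyBound (p x₀) + 1 :=
    h1.continuousAt.eventually_lt_const (lt_add_one _)
  filter_upwards [h3] with x hx t ht
  have h4 := (Polynomial.IsRoot.norm_lt_cauchyBound (h0 x) ht).trans hx
  have h5 : |t| < ((Polynomial.cauchyBound (p x₀) + 1 : NNReal) : ℝ) := by
    have := NNReal.coe_lt_coe.2 h4
    rwa [coe_nnnorm, Real.norm_eq_abs] at this
  rw [abs_lt] at h5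
  exact ⟨h5.1.le, h5.2.le⟩

private theorem rs_sgn {f : ℝ → ℝ} (hf : Continuous f) {a b : ℝ} (h : ∀ t ∈ Icc a b, f t ≠ 0) :
    (∀ t ∈ Icc a b, 0 < f t) ∨ (∀ t ∈ Icc a b, f t < 0) := by
  by_contra hne
  push Not at hne
  obtain ⟨⟨s, hs, hs0⟩, t, ht, ht0⟩ := hne
  obtain ⟨u, hu, hu0⟩ := isPreconnected_Icc.intermediate_value hs ht hf.continuousOn ⟨hs0, ht0⟩
  exact h u hu hu0

private theorem rs_opp (q : Polynomial ℝ) {a b c : ℝ} (hac : a < c) (hcb : c < b)
    (hq : q.IsRoot c) (hd : ∀ t ∈ Icc a b, (Polynomial.derivative q).eval t ≠ 0) :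
    q.eval a * q.eval b < 0 := by
  have hcont : Continuous fun t => q.eval t := q.continuous
  have hcont' : Continuous fun t => (Polynomial.derivative q).eval t :=
    (Polynomial.derivative q).continuous
  have ha : a ∈ Icc a b := ⟨le_rfl, (hac.trans hcb).le⟩
  have hb : b ∈ Icc a b := ⟨(hac.trans hcb).le, le_rfl⟩
  have hc : c ∈ Icc a b := ⟨hac.le, hcb.le⟩
  have hq0 : q.eval c = 0 := hq
  rcases rs_sgn hcont' hd with h | h
  · have h1 : StrictMonoOn (fun t => q.eval t) (Icc a b) := by
      refine strictMonoOn_of_deriv_pos (convex_Icc a b) hcont.continuousOn fun t ht => ?_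
      rw [Polynomial.deriv]
      exact h t (interior_subset ht)
    have h2 := h1 ha hc hac
    have h3 := h1 hc hb hcb
    simp only [hq0] at h2 h3
    exact mul_neg_of_neg_of_pos h2 h3
  · have h1 : StrictAntiOn (fun t => q.eval t) (Icc a b) := by
      refine strictAntiOn_of_deriv_neg (convex_Icc a b) hcont.continuousOn fun t ht => ?_
      rw [Polynomial.deriv]
      exact h t (interior_subset ht)
    have h2 := h1 ha hc hac
    have h3 := h1 hc hb hcb
    simp only [hq0] at h2 h3
    exact mul_neg_of_pos_of_neg h2 h3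

private theorem rs_ivt (q : Polynomial ℝ) {a b : ℝ} (hab : a < b)
    (h : q.eval a * q.eval b < 0) : ∃ t ∈ Ioo a b, q.IsRoot t := by
  have hcont : ContinuousOn (fun t => q.eval t) (Icc a b) := q.continuous.continuousOn
  rcases mul_neg_iff.1 h with ⟨h1, h2⟩ | ⟨h1, h2⟩
  · obtain ⟨t, ht, ht0⟩ := intermediate_value_Ioo' hab.le hcont ⟨h2, h1⟩
    exact ⟨t, ht, ht0⟩
  · obtain ⟨t, ht, ht0⟩ := intermediate_value_Ioo hab.le hcont ⟨h1, h2⟩
    exact ⟨t, ht, ht0⟩

private theorem rs_uniq (q : Polynomial ℝ) {a b : ℝ}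
    (hd : ∀ t ∈ Icc a b, (Polynomial.derivative q).eval t ≠ 0) {s t : ℝ} (hs : s ∈ Icc a b)
    (ht : t ∈ Icc a b) (hs0 : q.IsRoot s) (ht0 : q.IsRoot t) : s = t := by
  have key : ∀ s t : ℝ, s ∈ Icc a b → t ∈ Icc a b → q.IsRoot s → q.IsRoot t → ¬ s < t := by
    intro s t hs ht hs0 ht0 hlt
    obtain ⟨c, hc, hc0⟩ := exists_deriv_eq_zero (f := fun t => q.eval t) hlt
      q.continuous.continuousOn (hs0.trans ht0.symm)
    rw [Polynomial.deriv] at hc0
    exact hd c ⟨hs.1.trans hc.1.le, hc.2.le.trans ht.2⟩ hc0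
  exact le_antisymm (not_lt.1 (key t s ht hs ht0 hs0)) (not_lt.1 (key s t hs ht hs0 ht0))

theorem roots_stable {X : Type*} [TopologicalSpace X] {p : X → Polynomial ℝ} {d : ℕ}
    (hc : ∀ i, Continuous fun x => (p x).coeff i) (hd : ∀ x, (p x).natDegree = d)
    (h0 : ∀ x, p x ≠ 0) {x₀ : X}
    (hs : ∀ t, (p x₀).IsRoot t → ¬ (Polynomial.derivative (p x₀)).IsRoot t)
    {k : ℕ} {r : Fin k → ℝ} (hr : StrictMono r) (hrr : ∀ t, (p x₀).IsRoot t ↔ t ∈ range r)
    {ε : ℝ} (hε : 0 < ε) :
    ∀ᶠ x in 𝓝 x₀, ∃ r' : Fin k → ℝ, StrictMono r' ∧ (∀ t, (p x).IsRoot t ↔ t ∈ range r') ∧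
      ∀ i, |r' i - r i| < ε := by
  have hF := rs_eval hc hd
  have hG := rs_deriv hc hd
  obtain ⟨M, hM⟩ := rs_bound hc hd h0 x₀
  have hroot : ∀ i, (p x₀).IsRoot (r i) := fun i => (hrr _).2 ⟨i, rfl⟩
  -- the choice of the radius
  obtain ⟨e, he0, heε, heG, hes⟩ : ∃ e : ℝ, 0 < e ∧ e ≤ ε ∧
      (∀ i, ∀ t ∈ Icc (r i - e) (r i + e), (Polynomial.derivative (p x₀)).eval t ≠ 0) ∧
      ∀ i j, i < j → r i + e < r j - e := by
    have q1 : ∀ᶠ e in 𝓝[>] (0 : ℝ), 0 < e := eventually_mem_nhdsWithin
    have q2 : ∀ᶠ e in 𝓝[>] (0 : ℝ), e ≤ ε :=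
      nhdsWithin_le_nhds (Iic_mem_nhds hε)
    have q3 : ∀ i, ∀ᶠ e in 𝓝[>] (0 : ℝ), ∀ t ∈ Icc (r i - e) (r i + e),
        (Polynomial.derivative (p x₀)).eval t ≠ 0 := by
      intro i
      have h1 : ∀ᶠ t in 𝓝 (r i), (Polynomial.derivative (p x₀)).eval t ≠ 0 :=
        (Polynomial.derivative (p x₀)).continuous.continuousAt.eventually_ne (hs _ (hroot i))
      obtain ⟨δ, hδ, hδ'⟩ := Metric.eventually_nhds_iff.1 h1
      have h2 : ∀ᶠ e in 𝓝[>] (0 : ℝ), e < δ := nhdsWithin_le_nhds (Iio_mem_nhds hδ)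
      filter_upwards [h2] with e he t ht
      apply hδ'
      rw [Real.dist_eq, abs_lt]
      constructor
      · linarith [ht.1]
      · linarith [ht.2]
    have q4 : ∀ i j, ∀ᶠ e in 𝓝[>] (0 : ℝ), i < j → r i + e < r j - e := by
      intro i j
      by_cases hij : i < j
      · have h1 : 0 < (r j - r i) / 2 := by
          have := hr hij
          linarith
        have h2 : ∀ᶠ e in 𝓝[>] (0 : ℝ), e < (r j - r i) / 2 :=
          nhdsWithin_le_nhds (Iio_mem_nhds h1)
        filter_upwards [h2] with e he _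
        linarith
      · exact Eventually.of_forall fun e h => absurd h hij
    obtain ⟨e, h1, h2, h3, h4⟩ := (q1.and (q2.and ((eventually_all.2 q3).and
      (eventually_all.2 fun i => eventually_all.2 (q4 i))))).exists
    exact ⟨e, h1, h2, h3, h4⟩
  -- the compact set
  obtain ⟨K, hKd⟩ : ∃ K : Set ℝ, K = Icc (-M) M ∩ ⋂ i, {t | e ≤ |t - r i|} := ⟨_, rfl⟩
  have hK : IsCompact K := by
    rw [hKd]
    refine isCompact_Icc.inter_right (isClosed_iInter fun i => ?_)
    exact isClosed_le continuous_const (continuous_abs.comp (continuous_id.sub continuous_const))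
  have e1 : ∀ᶠ x in 𝓝 x₀, ∀ t ∈ K, (p x).eval t ≠ 0 := by
    refine hK.eventually_forall_of_forall_eventually (P := fun x t => (p x).eval t ≠ 0)
      fun t ht => ?_
    refine hF.continuousAt.eventually_ne (y := 0) ?_
    intro h1
    obtain ⟨i, hi⟩ := (hrr t).1 h1
    rw [hKd] at ht
    have h2 := mem_iInter.1 ht.2 i
    simp only [mem_ofPred_eq, ← hi, sub_self, abs_zero] at h2
    linarith
  have e2 : ∀ i, ∀ᶠ x in 𝓝 x₀, ∀ t ∈ Icc (r i - e) (r i + e),
      (Polynomial.derivative (p x)).eval t ≠ 0 := by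
    intro i
    refine isCompact_Icc.eventually_forall_of_forall_eventually
      (P := fun x t => (Polynomial.derivative (p x)).eval t ≠ 0) fun t ht => ?_
    exact hG.continuousAt.eventually_ne (y := 0) (heG i t ht)
  have e3 : ∀ i, ∀ᶠ x in 𝓝 x₀, (p x).eval (r i - e) * (p x).eval (r i + e) < 0 := by
    intro i
    have h1 : Continuous fun x => (p x).eval (r i - e) * (p x).eval (r i + e) :=
      (hF.comp (Continuous.prodMk_left (r i - e))).mul (hF.comp (Continuous.prodMk_left (r i + e)))
    exact h1.continuousAt.eventually_lt_const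
      (rs_opp (p x₀) (by linarith) (by linarith) (hroot i) (heG i))
  filter_upwards [hM, e1, eventually_all.2 e2, eventually_all.2 e3] with x hxM hx1 hx2 hx3
  choose r' hr'1 hr'2 using fun i => rs_ivt (p x) (by linarith : r i - e < r i + e) (hx3 i)
  refine ⟨r', ?_, ?_, ?_⟩
  · intro i j hij
    have h1 := (hr'1 i).2
    have h2 := (hr'1 j).1
    have h3 := hes i j hij
    linarith
  · intro t
    constructor
    · intro ht
      by_cases h1 : ∀ i, e ≤ |t - r i|
      · exact absurd ht (hx1 t (by rw [hKd]; exact ⟨hxM t ht, mem_iInter.2 h1⟩))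
      · push Not at h1
        obtain ⟨i, hi⟩ := h1
        rw [abs_lt] at hi
        refine ⟨i, rs_uniq (p x) (hx2 i) ⟨(hr'1 i).1.le, (hr'1 i).2.le⟩ ⟨?_, ?_⟩ (hr'2 i) ht⟩
        · linarith [hi.1]
        · linarith [hi.2]
    · rintro ⟨i, rfl⟩
      exact hr'2 i
  · intro i
    rw [abs_lt]
    have h1 := (hr'1 i).1
    have h2 := (hr'1 i).2
    constructor
    · linarith
    · linarith

end Pool.Agent.MZ
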