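import Mathlib
import Pool.Agent.MZ.Defs
import Pool.Agent.MZ.Fc
import Pool.Agent.MZ.Roots

/-!
# MZ module BANDS: graphs of the roots and the bands between them

(uses the stubs `roots_stable`, `FC.*`)

PROOF. By definition `U = ⋃ C j` with `C j` preconnected. The two sets are the unions over `j` of the
sets with `z.1 ∈ C j`, so by `FC.iUnion` we may assume that `U = C` is preconnected. Pass to the
subtype `↥C` (a preconnected space: `isPreconnected_iff_preconnectedSpace` / `Subtype.preconnectedSpace`),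
with `p' : ↥C → Polynomial ℝ`, whose coefficients are continuous; the two sets are images of the
corresponding subsets of `↥C × ℝ` under `(x, t) ↦ (↑x, t)` (`FC.image`). So let `X` be a
preconnected space, `p` with continuous coefficients on `X`. If `X` is empty both sets are empty.
For every `x` let `k x = (p x).roots.toFinset.card` and let `r x : Fin (k x) → ℝ` be the increasing
enumeration of the real roots (`Finset.orderEmbOfFin`). By `roots_stable` `k` is locally constant,
hence constant (`IsLocallyConstant.apply_eq_of_preconnectedSpace`), `= K`; choose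
`ρ : X → Fin K → ℝ` with `StrictMono (ρ x)` and `(p x).IsRoot t ↔ t ∈ range (ρ x)`; a strictly
monotone enumeration of a set is unique (`StrictMono.range_inj` or `Fin.strictMono_unique`), so by
`roots_stable` every `x ↦ ρ x i` is continuous (`Metric.continuous_iff'`).
Zero set: `⋃ i, (fun x => (x, ρ x i)) '' univ` : `FC`.
Complement: if `K = 0`, it is everything, `univ ×ˢ univ`, preconnected. If `K ≥ 1`: it is the union of
`{(x, t) | t < ρ x 0}` = image of `univ ×ˢ Ioi 0` under `(x, s) ↦ (x, ρ x 0 - s)`,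
`{(x, t) | ρ x (K-1) < t}` = image of `univ ×ˢ Ioi 0` under `(x, s) ↦ (x, ρ x (last) + s)`, and of
`{(x, t) | ρ x i < t < ρ x (i+1)}` for `i + 1 < K` = image of `univ ×ˢ Ioo 0 1` under
`(x, s) ↦ (x, (1 - s) * ρ x i + s * ρ x (i+1))`.
(A point `(x, t)` with `t ∉ range (ρ x)`: let `i` be the number of roots `< t`.)
About 150 lines.
-/

set_option autoImplicit false

open Set Topology Filter

namespace Pool.Agent.MZ

/-- The roots as continuous functions. -/
private theorem bd_roots {X : Type*} [TopologicalSpace X] [PreconnectedSpace X] [Nonempty X]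
    {p : X → Polynomial ℝ} {d : ℕ} (hc : ∀ i, Continuous fun x => (p x).coeff i)
    (hd : ∀ x, (p x).natDegree = d) (h0 : ∀ x, p x ≠ 0)
    (hs : ∀ x t, (p x).IsRoot t → ¬ (Polynomial.derivative (p x)).IsRoot t) :
    ∃ (K : ℕ) (ρ : X → Fin K → ℝ), (∀ i, Continuous fun x => ρ x i) ∧ (∀ x, StrictMono (ρ x)) ∧
      ∀ x t, (p x).eval t = 0 ↔ t ∈ range (ρ x) := by
  classical
  have hmem : ∀ x t, (p x).IsRoot t ↔ t ∈ (p x).roots.toFinset := by
    intro x t
    rw [Multiset.mem_toFinset, Polynomial.mem_roots (h0 x)]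
  have henum : ∀ x K (h : (p x).roots.toFinset.card = K), ∀ t, (p x).IsRoot t ↔
      t ∈ range ((p x).roots.toFinset.orderEmbOfFin h) := by
    intro x K h t
    rw [Finset.range_orderEmbOfFin, Finset.mem_coe, hmem]
  have hcard : ∀ x K (r : Fin K → ℝ), StrictMono r → (∀ t, (p x).IsRoot t ↔ t ∈ range r) →
      (p x).roots.toFinset.card = K := by
    intro x K r hr hrr
    have h1 : (p x).roots.toFinset = Finset.univ.image r := by
      ext t
      rw [← hmem, hrr, Finset.mem_image]
      simp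
    rw [h1, Finset.card_image_of_injective _ hr.injective, Finset.card_univ, Fintype.card_fin]
  have hloc : IsLocallyConstant fun x => (p x).roots.toFinset.card := by
    rw [IsLocallyConstant.iff_eventually_eq]
    intro x
    filter_upwards [roots_stable hc hd h0 (hs x)
      ((p x).roots.toFinset.orderEmbOfFin rfl).strictMono (henum x _ rfl) one_pos] with y hy
    obtain ⟨r', h1, h2, -⟩ := hy
    exact hcard y _ r' h1 h2
  obtain ⟨x₀⟩ := (inferInstance : Nonempty X)
  have hK : ∀ x, (p x).roots.toFinset.card = (p x₀).roots.toFinset.card := fun x =>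
    hloc.apply_eq_of_preconnectedSpace x x₀
  refine ⟨(p x₀).roots.toFinset.card,
    fun x => (p x).roots.toFinset.orderEmbOfFin (hK x), fun i => ?_,
    fun x => ((p x).roots.toFinset.orderEmbOfFin (hK x)).strictMono, fun x t =>
    henum x _ (hK x) t⟩
  rw [continuous_iff_continuousAt]
  intro x
  rw [Metric.continuousAt_iff']
  intro ε hε
  filter_upwards [roots_stable hc hd h0 (hs x)
      ((p x).roots.toFinset.orderEmbOfFin (hK x)).strictMono (henum x _ (hK x)) hε] with y hy
  obtain ⟨r', h1, h2, h3⟩ := hy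
  have h4 : range r' = range ((p y).roots.toFinset.orderEmbOfFin (hK y)) := by
    ext t
    rw [← h2, henum y _ (hK y)]
  have h5 : r' = (p y).roots.toFinset.orderEmbOfFin (hK y) :=
    (StrictMono.range_inj h1 ((p y).roots.toFinset.orderEmbOfFin (hK y)).strictMono).1 h4
  have h6 := h3 i
  rw [h5] at h6
  rw [Real.dist_eq]
  exact h6

/-- A set with preconnected fibres and a section is preconnected. -/
private theorem bd_section {X : Type*} [TopologicalSpace X] [PreconnectedSpace X] [Nonempty X]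
    (Z : Set (X × ℝ)) (f : X → ℝ) (hf : Continuous f) (hfZ : ∀ x, (x, f x) ∈ Z)
    (hZ : ∀ x, IsPreconnected {t : ℝ | (x, t) ∈ Z}) : IsPreconnected Z := by
  obtain ⟨x₀⟩ := (inferInstance : Nonempty X)
  have hg : IsPreconnected (range fun x => (x, f x)) :=
    isPreconnected_range (continuous_id.prodMk hf)
  have h1 : ∀ x, IsPreconnected ((fun t : ℝ => (x, t)) '' {t : ℝ | (x, t) ∈ Z} ∪
      range fun x => (x, f x)) := by
    intro x
    refine IsPreconnected.union (x, f x) ⟨f x, hfZ x, rfl⟩ ⟨x, rfl⟩ ?_ hg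
    exact (hZ x).image _ (by fun_prop)
  have h2 : Z = ⋃₀ ((fun x => (fun t : ℝ => (x, t)) '' {t : ℝ | (x, t) ∈ Z} ∪
      range fun x => (x, f x)) '' univ) := by
    ext ⟨x, t⟩
    constructor
    · intro h
      exact ⟨_, ⟨x, mem_univ _, rfl⟩, Or.inl ⟨t, h, rfl⟩⟩
    · rintro ⟨_, ⟨y, -, rfl⟩, h | h⟩
      · obtain ⟨t', h3, h4⟩ := h
        rw [← h4]
        exact h3
      · obtain ⟨y', h4⟩ := h
        rw [← h4]
        exact hfZ y'
  rw [h2]
  refine isPreconnected_sUnion (x₀, f x₀) _ ?_ ?_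
  · rintro _ ⟨y, -, rfl⟩
    exact Or.inr ⟨x₀, rfl⟩
  · rintro _ ⟨y, -, rfl⟩
    exact h1 y

/-- A continuous function between two consecutive roots. -/
private theorem bd_between {X : Type*} [TopologicalSpace X] {K : ℕ} (ρ : X → Fin K → ℝ)
    (hρ : ∀ i, Continuous fun x => ρ x i) (hm : ∀ x, StrictMono (ρ x)) (s : ℕ) (hs : s ≤ K) :
    ∃ f : X → ℝ, Continuous f ∧ ∀ x (j : Fin K), ((j : ℕ) < s → ρ x j < f x) ∧
      (s ≤ (j : ℕ) → f x < ρ x j) := by
  rcases s with _ | t
  · rcases Nat.eq_zero_or_pos K with h | h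
    · subst h
      exact ⟨fun _ => 0, continuous_const, fun x j => j.elim0⟩
    · refine ⟨fun x => ρ x ⟨0, h⟩ - 1, (hρ _).sub continuous_const, fun x j => ⟨by omega, ?_⟩⟩
      intro _
      have h1 : ρ x ⟨0, h⟩ ≤ ρ x j := (hm x).monotone (by
        rw [Fin.le_def]
        exact Nat.zero_le _)
      linarith
  · have ht : t < K := by omega
    rcases Nat.lt_or_ge (t + 1) K with h | h
    · refine ⟨fun x => (ρ x ⟨t, ht⟩ + ρ x ⟨t + 1, h⟩) / 2,
        ((hρ _).add (hρ _)).div_const _, fun x j => ?_⟩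
      have h1 : ρ x ⟨t, ht⟩ < ρ x ⟨t + 1, h⟩ := hm x (by
        rw [Fin.lt_def]
        exact Nat.lt_succ_self _)
      refine ⟨fun hj => ?_, fun hj => ?_⟩
      · have h2 : ρ x j ≤ ρ x ⟨t, ht⟩ := (hm x).monotone (by
          rw [Fin.le_def]
          exact Nat.lt_succ_iff.1 hj)
        linarith
      · have h2 : ρ x ⟨t + 1, h⟩ ≤ ρ x j := (hm x).monotone (by
          rw [Fin.le_def]
          exact hj)
        linarith
    · refine ⟨fun x => ρ x ⟨t, ht⟩ + 1, (hρ _).add continuous_const, fun x j => ?_⟩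
      refine ⟨fun hj => ?_, fun hj => ?_⟩
      · have h2 : ρ x j ≤ ρ x ⟨t, ht⟩ := (hm x).monotone (by
          rw [Fin.le_def]
          exact Nat.lt_succ_iff.1 hj)
        linarith
      · have := j.2
        omega

/-- The case of a preconnected space. -/
private theorem bd_core {X : Type*} [TopologicalSpace X] [PreconnectedSpace X]
    {p : X → Polynomial ℝ} {d : ℕ} (hc : ∀ i, Continuous fun x => (p x).coeff i)
    (hd : ∀ x, (p x).natDegree = d) (h0 : ∀ x, p x ≠ 0)
    (hs : ∀ x t, (p x).IsRoot t → ¬ (Polynomial.derivative (p x)).IsRoot t) :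
    FC {z : X × ℝ | (p z.1).eval z.2 ≠ 0} ∧ FC {z : X × ℝ | (p z.1).eval z.2 = 0} := by
  rcases isEmpty_or_nonempty X with hX | hX
  · rw [Set.eq_empty_of_isEmpty {z : X × ℝ | (p z.1).eval z.2 ≠ 0},
      Set.eq_empty_of_isEmpty {z : X × ℝ | (p z.1).eval z.2 = 0}]
    exact ⟨FC.empty, FC.empty⟩
  obtain ⟨K, ρ, hρ, hm, hr⟩ := bd_roots hc hd h0 hs
  constructor
  · have h1 : {z : X × ℝ | (p z.1).eval z.2 ≠ 0} = ⋃ s : Fin (K + 1),
        {z : X × ℝ | ∀ j : Fin K, ((j : ℕ) < (s : ℕ) → ρ z.1 j < z.2) ∧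
          ((s : ℕ) ≤ (j : ℕ) → z.2 < ρ z.1 j)} := by
      ext ⟨x, t⟩
      rw [mem_iUnion]
      simp only [mem_ofPred_eq]
      constructor
      · intro h
        rw [ne_eq, hr x t] at h
        have hex : ∃ s : ℕ, s ≤ K ∧ ∀ j : Fin K, s ≤ (j : ℕ) → t < ρ x j :=
          ⟨K, le_rfl, fun j hj => absurd j.2 (not_lt.2 hj)⟩
        classical
        refine ⟨⟨Nat.find hex, Nat.lt_succ_of_le (Nat.find_spec hex).1⟩, fun j =>
          ⟨fun hj => ?_, (Nat.find_spec hex).2 j⟩⟩
        have h2 := Nat.find_min hex hj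
        rw [not_and] at h2
        have h3 := h2 j.2.le
        push Not at h3
        obtain ⟨j', h4, h5⟩ := h3
        have h6 : ρ x j ≤ ρ x j' := (hm x).monotone h4
        exact lt_of_le_of_ne (h6.trans h5) fun h7 => h ⟨j, h7⟩
      · rintro ⟨s, hst⟩ h
        rw [hr x t] at h
        obtain ⟨j, hj⟩ := h
        rcases Nat.lt_or_ge (j : ℕ) (s : ℕ) with h2 | h2
        · exact absurd hj ((hst j).1 h2).ne
        · exact absurd hj ((hst j).2 h2).ne'
    rw [h1]
    refine FC.iUnion fun s => FC.of_preconnected ?_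
    obtain ⟨f, hf1, hf2⟩ := bd_between ρ hρ hm s (Nat.lt_succ_iff.1 s.2)
    refine bd_section _ f hf1 (fun x j => hf2 x j) fun x => ?_
    refine Set.OrdConnected.isPreconnected ⟨?_⟩
    intro a ha b hb c hc j
    exact ⟨fun hj => ((ha j).1 hj).trans_le hc.1, fun hj => hc.2.trans_lt ((hb j).2 hj)⟩
  · have h1 : {z : X × ℝ | (p z.1).eval z.2 = 0} =
        ⋃ i : Fin K, range fun x : X => (x, ρ x i) := by
      ext ⟨x, t⟩
      rw [mem_iUnion]
      simp only [mem_ofPred_eq, hr x t]
      constructor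
      · rintro ⟨i, hi⟩
        exact ⟨i, x, Prod.ext rfl hi⟩
      · rintro ⟨i, y, hy⟩
        rw [Prod.mk.injEq] at hy
        obtain ⟨h2, h3⟩ := hy
        subst h2
        exact ⟨i, h3⟩
    rw [h1]
    exact FC.iUnion fun i => FC.of_preconnected
      (isPreconnected_range (continuous_id.prodMk (hρ i)))

theorem bands {X : Type*} [TopologicalSpace X] {U : Set X} (hU : FC U) {p : X → Polynomial ℝ}
    {d : ℕ} (hc : ∀ i, ContinuousOn (fun x => (p x).coeff i) U)
    (hd : ∀ x ∈ U, (p x).natDegree = d) (h0 : ∀ x ∈ U, p x ≠ 0)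
    (hs : ∀ x ∈ U, ∀ t, (p x).IsRoot t → ¬ (Polynomial.derivative (p x)).IsRoot t) :
    FC {z : X × ℝ | z.1 ∈ U ∧ (p z.1).eval z.2 ≠ 0} ∧
      FC {z : X × ℝ | z.1 ∈ U ∧ (p z.1).eval z.2 = 0} := by
  obtain ⟨k, C, hC, rfl⟩ := hU
  have hsub : ∀ i, C i ⊆ ⋃ i, C i := fun i => subset_iUnion C i
  have hi : ∀ i, FC {z : X × ℝ | z.1 ∈ C i ∧ (p z.1).eval z.2 ≠ 0} ∧
      FC {z : X × ℝ | z.1 ∈ C i ∧ (p z.1).eval z.2 = 0} := by
    intro i
    have hps : PreconnectedSpace (C i) := Subtype.preconnectedSpace (hC i)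
    obtain ⟨h1, h2⟩ := bd_core (X := C i) (p := fun x => p x) (d := d)
      (fun j => continuousOn_iff_continuous_domRestrict.1 ((hc j).mono (hsub i)))
      (fun x => hd _ (hsub i x.2)) (fun x => h0 _ (hsub i x.2))
      (fun x => hs _ (hsub i x.2))
    have hf : Continuous fun z : C i × ℝ => ((z.1 : X), z.2) := by fun_prop
    have h3 := h1.image hf.continuousOn
    have h4 := h2.image hf.continuousOn
    constructor
    · convert h3 using 1
      ext ⟨x, t⟩
      constructor
      · rintro ⟨h5, h6⟩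
        exact ⟨(⟨x, h5⟩, t), h6, rfl⟩
      · rintro ⟨⟨y, t'⟩, h5, h6⟩
        rw [← h6]
        exact ⟨y.2, h5⟩
    · convert h4 using 1
      ext ⟨x, t⟩
      constructor
      · rintro ⟨h5, h6⟩
        exact ⟨(⟨x, h5⟩, t), h6, rfl⟩
      · rintro ⟨⟨y, t'⟩, h5, h6⟩
        rw [← h6]
        exact ⟨y.2, h5⟩
  constructor
  · convert FC.iUnion fun i => (hi i).1 using 1
    ext z
    simp only [mem_ofPred_eq, mem_iUnion, exists_and_right]
  · convert FC.iUnion fun i => (hi i).2 using 1
    ext z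
    simp only [mem_ofPred_eq, mem_iUnion, exists_and_right]

end Pool.Agent.MZ
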