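import Mathlib

/-!
# MZ module RAD (Mathlib only): generically squarefree polynomials with parameters

PROOF. Put `R = MvPolynomial (Fin n) ℝ` (a domain, UFD), `K = FractionRing R` (field of
characteristic zero), `g` the image of `G` in `K[X]`, `g ≠ 0`.
(1) There is a squarefree `s ∈ K[X]` with `s ∣ g` and `g ∣ s ^ N` for some `N` (the product of the
    different prime factors of `g`: `UniqueFactorizationMonoid.radical`, `squarefree_radical`,
    `radical_dvd_self`, and `exists N, g ∣ radical g ^ N`; or by induction on the factorisation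
    `UniqueFactorizationMonoid.induction_on_prime`: for `g = p * g'` with `s', N'` for `g'` take
    `s = s'` if `p ∣ s'`, otherwise `s = p * s'`, `N = N' + 1`).
(2) `K` is perfect (characteristic zero), so `s` is separable (`PerfectField.separable_iff_squarefree`):
    `a * s + b * derivative s = 1`. Let `g = s * e`, `s ^ N = g * m` (`N ≥ 1`).
(3) Clear denominators (`IsLocalization.integerNormalization` or
    `IsLocalization.exist_integer_multiples_of_finset` for the coefficients): there is
    `D₁ ∈ R`, `D₁ ≠ 0`, such that `D₁ s`, `D₁ a`, `D₁ b`, `D₁ e`, `D₁ m` are images of `S, A, B, E, M` in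
    `R[X]`. As `R[X] → K[X]` is injective: `A * S + B * derivative S = C (D₁ ^ 2)`,
    `S * E = C (D₁ ^ 2) * G`, `C D₁ * S ^ N = C (D₁ ^ N) * G * M`, `S ≠ 0`.
(4) Take `D = D₁ * S.leadingCoeff`. If `eval x D ≠ 0`, map everything by `eval x` (a ring
    homomorphism): `S_x := S.map (eval x)` has degree `S.natDegree`
    (`natDegree_map_of_leadingCoeff_ne_zero`); a root of `G_x` is a root of `S_x` (from
    `D₁ S ^ N = D₁ ^ N G M`), a root of `S_x` is a root of `G_x` (from `S E = D₁² G`), and `S_x`,
    `derivative S_x` have no common root (from `A S + B S' = D₁²`, `Polynomial.derivative_map`).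
About 120 lines.
-/

set_option autoImplicit false

open MvPolynomial

namespace Pool.Agent.MZ

private theorem rad_clear {n : ℕ}
    (q : Polynomial (FractionRing (MvPolynomial (Fin n) ℝ))) :
    ∃ (d : MvPolynomial (Fin n) ℝ) (Q : Polynomial (MvPolynomial (Fin n) ℝ)), d ≠ 0 ∧
      Q.map (algebraMap _ (FractionRing (MvPolynomial (Fin n) ℝ))) =
        Polynomial.C (algebraMap _ (FractionRing (MvPolynomial (Fin n) ℝ)) d) * q := by
  obtain ⟨b, hb0, hb⟩ := IsLocalization.integerNormalization_spec
    (nonZeroDivisors (MvPolynomial (Fin n) ℝ)) q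
  refine ⟨b, IsLocalization.integerNormalization (nonZeroDivisors (MvPolynomial (Fin n) ℝ)) q,
    nonZeroDivisors.ne_zero hb0, ?_⟩
  rw [hb, ← Polynomial.smul_eq_C_mul, algebraMap_smul]

private theorem rad_squarefree {K : Type*} [Field K] {g : Polynomial K} (hg : g ≠ 0) :
    ∃ (s : Polynomial K) (N : ℕ), Squarefree s ∧ s ∣ g ∧ g ∣ s ^ N := by
  classical
  obtain ⟨N, hN⟩ := UniqueFactorizationMonoid.exists_dvd_radical_self_pow hg
  exact ⟨UniqueFactorizationMonoid.radical g, N, UniqueFactorizationMonoid.squarefree_radical,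
    UniqueFactorizationMonoid.radical_dvd_self, hN⟩

theorem exists_rad {n : ℕ} {G : Polynomial (MvPolynomial (Fin n) ℝ)} (hG : G ≠ 0) :
    ∃ (S : Polynomial (MvPolynomial (Fin n) ℝ)) (D : MvPolynomial (Fin n) ℝ), D ≠ 0 ∧
      ∀ x : Fin n → ℝ, eval x D ≠ 0 →
        (S.map (eval x)).natDegree = S.natDegree ∧ S.map (eval x) ≠ 0 ∧
        (∀ t : ℝ, (G.map (eval x)).IsRoot t ↔ (S.map (eval x)).IsRoot t) ∧
        ∀ t : ℝ, (S.map (eval x)).IsRoot t →
          ¬ (Polynomial.derivative (S.map (eval x))).IsRoot t := by
  classical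
  obtain ⟨ι, hι⟩ : ∃ ι : MvPolynomial (Fin n) ℝ →+* FractionRing (MvPolynomial (Fin n) ℝ),
      ι = algebraMap _ _ := ⟨_, rfl⟩
  have hinj : Function.Injective ι := by
    rw [hι]
    exact IsFractionRing.injective _ _
  have hinjP : Function.Injective (Polynomial.map ι) := Polynomial.map_injective ι hinj
  have hg : G.map ι ≠ 0 := by
    intro h
    apply hG
    apply hinjP
    rw [h, Polynomial.map_zero]
  obtain ⟨s, N, hs, ⟨e, he⟩, ⟨m, hm⟩⟩ := rad_squarefree hg
  have hsep : s.Separable := PerfectField.separable_iff_squarefree.2 hs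
  obtain ⟨a, b, hab⟩ := hsep
  obtain ⟨ds, S, hds, hS⟩ := rad_clear s
  obtain ⟨da, A, hda, hA⟩ := rad_clear a
  obtain ⟨db, B, hdb, hB⟩ := rad_clear b
  obtain ⟨de, E, hde, hE⟩ := rad_clear e
  obtain ⟨dm, M, hdm, hM⟩ := rad_clear m
  rw [← hι] at hS hA hB hE hM
  have hs0 : s ≠ 0 := hs.ne_zero
  have hS0 : S ≠ 0 := by
    intro h
    rw [h, Polynomial.map_zero] at hS
    have h1 : Polynomial.C (ι ds) ≠ 0 := by
      rw [Ne, Polynomial.C_eq_zero]
      intro h2
      apply hds
      apply hinj
      rw [h2, map_zero]
    exact mul_ne_zero h1 hs0 hS.symm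
  -- the identities
  have i1 : Polynomial.C db * A * S + Polynomial.C da * B * Polynomial.derivative S =
      Polynomial.C (da * db * ds) := by
    apply hinjP
    rw [Polynomial.map_add, Polynomial.map_mul, Polynomial.map_mul, Polynomial.map_mul,
      Polynomial.map_mul, ← Polynomial.derivative_map, Polynomial.map_C, Polynomial.map_C,
      Polynomial.map_C, hA, hB, hS, Polynomial.derivative_C_mul, map_mul ι, map_mul ι,
      Polynomial.C_mul, Polynomial.C_mul]
    linear_combination (Polynomial.C (ι da) * Polynomial.C (ι db) * Polynomial.C (ι ds)) * hab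
  have i2 : S * E = Polynomial.C (ds * de) * G := by
    apply hinjP
    rw [Polynomial.map_mul, Polynomial.map_mul, Polynomial.map_C, hS, hE, he, map_mul ι,
      Polynomial.C_mul]
    ring
  have i3 : Polynomial.C dm * S ^ N = Polynomial.C (ds ^ N) * G * M := by
    apply hinjP
    rw [Polynomial.map_mul, Polynomial.map_mul, Polynomial.map_mul, Polynomial.map_pow,
      Polynomial.map_C, Polynomial.map_C, hS, hM, mul_pow, hm, map_pow ι, Polynomial.C_pow]
    ring
  refine ⟨S, ds * da * db * de * dm * S.leadingCoeff, ?_, ?_⟩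
  · exact mul_ne_zero (mul_ne_zero (mul_ne_zero (mul_ne_zero (mul_ne_zero hds hda) hdb) hde) hdm)
      (Polynomial.leadingCoeff_ne_zero.2 hS0)
  · intro x hx
    simp only [map_mul, mul_ne_zero_iff] at hx
    obtain ⟨⟨⟨⟨⟨x1, x2⟩, x3⟩, x4⟩, x5⟩, x6⟩ := hx
    have hdeg : (S.map (eval x)).natDegree = S.natDegree :=
      Polynomial.natDegree_map_of_leadingCoeff_ne_zero _ x6
    -- evaluated identities
    have j1 : ∀ t : ℝ, eval x db * (A.map (eval x)).eval t * (S.map (eval x)).eval t +
        eval x da * (B.map (eval x)).eval t *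
          (Polynomial.derivative (S.map (eval x))).eval t =
        eval x da * eval x db * eval x ds := by
      intro t
      have h := congrArg (fun P => (P.map (eval x)).eval t) i1
      simp only [Polynomial.map_add, Polynomial.map_mul, Polynomial.map_C, Polynomial.eval_add,
        Polynomial.eval_mul, Polynomial.eval_C, map_mul] at h
      rw [Polynomial.derivative_map]
      exact h
    have j2 : ∀ t : ℝ, (S.map (eval x)).eval t * (E.map (eval x)).eval t =
        eval x ds * eval x de * (G.map (eval x)).eval t := by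
      intro t
      have h := congrArg (fun P => (P.map (eval x)).eval t) i2
      simp only [Polynomial.map_mul, Polynomial.map_C,
        Polynomial.eval_mul, Polynomial.eval_C, map_mul] at h
      exact h
    have j3 : ∀ t : ℝ, eval x dm * (S.map (eval x)).eval t ^ N =
        eval x ds ^ N * (G.map (eval x)).eval t * (M.map (eval x)).eval t := by
      intro t
      have h := congrArg (fun P => (P.map (eval x)).eval t) i3
      simp only [Polynomial.map_mul, Polynomial.map_C, Polynomial.map_pow,
        Polynomial.eval_mul, Polynomial.eval_C, Polynomial.eval_pow, map_pow] at h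
      exact h
    refine ⟨hdeg, ?_, ?_, ?_⟩
    · intro h
      have h1 := congrArg (fun P => Polynomial.coeff P S.natDegree) h
      simp only [Polynomial.coeff_map, Polynomial.coeff_zero] at h1
      exact x6 h1
    · intro t
      rw [Polynomial.IsRoot.def, Polynomial.IsRoot.def]
      constructor
      · intro h
        have h1 := j3 t
        rw [h, mul_zero, zero_mul] at h1
        exact eq_zero_of_pow_eq_zero ((mul_eq_zero.1 h1).resolve_left x5)
      · intro h
        have h1 := j2 t
        rw [h, zero_mul] at h1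
        exact (mul_eq_zero.1 h1.symm).resolve_left (mul_ne_zero x1 x4)
    · intro t h1 h2
      rw [Polynomial.IsRoot.def] at h1 h2
      have h3 := j1 t
      rw [h1, h2, mul_zero, mul_zero, add_zero] at h3
      exact mul_ne_zero (mul_ne_zero x2 x3) x1 h3.symm

end Pool.Agent.MZ
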