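import Mathlib
import Pool.Agent.MZ.Defs
import Pool.Agent.MZ.Fc
import Pool.Agent.MZ.Rad
import Pool.Agent.MZ.Bands
import Pool.Agent.MZ.RatAlg

/-!
# MZ module COMPL: the complement of a real hypersurface has finitely many components

(uses the stubs `exists_rad`, `bands`, `FC.*`)

PROOF of `dense_ne`. If `G` vanishes on a nonempty open set, then it vanishes on a product of open
intervals, infinite sets, so `G = 0` (`MvPolynomial.funext_set`, or by induction / the restriction to
lines: if `G(x₀) ≠ 0` and `G` vanishes near `y`, then `t ↦ G (y + t (x₀ - y))` is a one-variable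
polynomial function with infinitely many zeros which is not zero at `t = 1`).

PROOF of `fc_ne` by induction on `n`. `n = 0`: `Fin 0 → ℝ` is a subsingleton, every set is
preconnected. Step `n → n + 1`: if `G = 0` the set is empty. Otherwise let
`g = finSuccEquiv ℝ n G ≠ 0`, and `S, D` from `exists_rad`. For `x = Fin.cons t x'`,
`eval x G = (g.map (eval x')).eval t` (`MvPolynomial.eval_eq_eval_mv_eval'`). Let
`U = {x' | eval x' D ≠ 0}`: `FC` by induction. The coefficients of `S.map (eval x')` are
`eval x' (S.coeff i)`, continuous in `x'`. `bands` gives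
`FC {z | z.1 ∈ U ∧ (S.map (eval z.1)).eval z.2 ≠ 0}`, and the image of this set under the continuous map
`(x', t) ↦ Fin.cons t x'` is `A = {x | eval (Fin.tail x) D ≠ 0 ∧ eval x G ≠ 0}` (over `U` the roots of
`G_{x'}` and `S_{x'}` are the same). `A ⊆ {G ≠ 0} ⊆ closure A`: the set
`{x | eval (Fin.tail x) D ≠ 0} = {x | eval x (rename Fin.succ D) ≠ 0}` is dense (`dense_ne`) and
`{G ≠ 0}` is open (`Dense.open_subset_closure_inter`). `FC.sandwich`.
About 110 lines.
-/

set_option autoImplicit false

open Set Topology Filter MvPolynomial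

namespace Pool.Agent.MZ

theorem dense_ne {n : ℕ} {G : MvPolynomial (Fin n) ℝ} (hG : G ≠ 0) :
    Dense {x : Fin n → ℝ | eval x G ≠ 0} := by
  rw [dense_iff_inter_open]
  rintro U hU ⟨x, hx⟩
  by_contra hne
  rw [Set.not_nonempty_iff_eq_empty] at hne
  obtain ⟨ε, hε, hball⟩ := Metric.isOpen_iff.1 hU x hx
  apply hG
  refine MvPolynomial.funext_set (fun i => Metric.ball (x i) ε) (fun i => ?_) fun y hy => ?_
  · rw [Real.ball_eq_Ioo]
    exact Set.Ioo_infinite (by linarith)
  · rw [map_zero]
    by_contra hy0
    have hyU : y ∈ U := hball (by rw [ball_pi _ hε]; exact hy)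
    have : y ∈ U ∩ {x : Fin n → ℝ | eval x G ≠ 0} := ⟨hyU, hy0⟩
    rw [hne] at this
    exact this

theorem fc_ne {n : ℕ} (G : MvPolynomial (Fin n) ℝ) : FC {x : Fin n → ℝ | eval x G ≠ 0} := by
  induction n with
  | zero => exact FC.of_preconnected (Set.subsingleton_of_subsingleton.isPreconnected)
  | succ n ih =>
    by_cases hG : G = 0
    · have h : {x : Fin (n + 1) → ℝ | eval x G ≠ 0} = ∅ := by
        ext x
        simp [hG]
      rw [h]
      exact FC.empty
    · have hg : finSuccEquiv ℝ n G ≠ 0 := by
        intro h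
        exact hG ((map_eq_zero_iff _ (finSuccEquiv ℝ n).injective).1 h)
      obtain ⟨S, D, hD, h⟩ := exists_rad hg
      obtain ⟨hb, -⟩ := bands (X := Fin n → ℝ) (U := {x | eval x D ≠ 0}) (ih D)
        (p := fun x => S.map (eval x)) (d := S.natDegree)
        (fun i => by
          simp only [Polynomial.coeff_map]
          exact (MvPolynomial.continuous_eval _).continuousOn)
        (fun x hx => (h x hx).1) (fun x hx => (h x hx).2.1) (fun x hx => (h x hx).2.2.2)
      have hcont : Continuous (fun z : (Fin n → ℝ) × ℝ => (Fin.cons z.2 z.1 : Fin (n + 1) → ℝ)) := by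
        refine continuous_pi fun i => ?_
        refine Fin.cases ?_ (fun j => ?_) i
        · simp only [Fin.cons_zero]
          exact continuous_snd
        · simp only [Fin.cons_succ]
          exact (continuous_apply j).comp continuous_fst
      have hA := hb.image (f := fun z : (Fin n → ℝ) × ℝ => (Fin.cons z.2 z.1 : Fin (n + 1) → ℝ))
        hcont.continuousOn
      have hev : ∀ (x : Fin n → ℝ) (t : ℝ), eval x D ≠ 0 →
          ((S.map (eval x)).eval t = 0 ↔ eval (Fin.cons t x : Fin (n + 1) → ℝ) G = 0) := by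
        intro x t hx
        rw [eval_eq_eval_mv_eval']
        exact ((h x hx).2.2.1 t).symm
      refine hA.sandwich ?_ ?_
      · rintro _ ⟨⟨x, t⟩, ⟨hx, ht⟩, rfl⟩
        exact fun h0 => ht ((hev x t hx).2 h0)
      · have hD' : rename Fin.succ D ≠ (0 : MvPolynomial (Fin (n + 1)) ℝ) := by
          intro h0
          exact hD (rename_injective _ (Fin.succ_injective n) (h0.trans (map_zero _).symm))
        have ho : IsOpen {x : Fin (n + 1) → ℝ | eval x G ≠ 0} :=
          isOpen_ne_fun (MvPolynomial.continuous_eval G) continuous_const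
        refine ((dense_ne hD').open_subset_closure_inter ho).trans (closure_mono ?_)
        rintro x ⟨hxG, hxD⟩
        have hxD' : eval (Fin.tail x) D ≠ 0 := by
          have : eval x (rename Fin.succ D) ≠ 0 := hxD
          rw [eval_rename] at this
          exact this
        refine ⟨(Fin.tail x, x 0), ⟨hxD', fun h0 => hxG ?_⟩, Fin.cons_self_tail x⟩
        have h1 := (hev (Fin.tail x) (x 0) hxD').1 h0
        rwa [Fin.cons_self_tail] at h1

theorem PolyR.fc_ne {n : ℕ} {f : (Fin n → ℝ) → ℝ} (hf : PolyR n f) : FC {x | f x ≠ 0} := by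
  obtain ⟨G, hG⟩ := hf
  have := MZ.fc_ne G
  simpa only [hG] using this

theorem PolyR.dense_ne {n : ℕ} {f : (Fin n → ℝ) → ℝ} (hf : PolyR n f) (h : ∃ x, f x ≠ 0) :
    Dense {x | f x ≠ 0} := by
  obtain ⟨G, hG⟩ := hf
  have hG0 : G ≠ 0 := by
    rintro rfl
    obtain ⟨x, hx⟩ := h
    apply hx
    rw [← hG x, map_zero]
  have := MZ.dense_ne hG0
  simpa only [hG] using this

end Pool.Agent.MZ
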