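import Mathlib
import Pool.Agent.MZ.Defs
import Pool.Agent.MZ.Bez
import Pool.Agent.MZ.Compl

/-!
# MZ module LEMD: a rational polynomial that vanishes on the hypersurface near a smooth real point

(uses the stubs `bezout`, `dense_ne`)

PROOF of `aeval_rename_perm`: `aeval_rename`. `smoothAt_rename`: with `j = e i`,
`(x + t • Pi.single j 1) ∘ e = x ∘ e + t • Pi.single i 1` (`e` injective).

PROOF of `dvd_of_vanish₀` (the derivative with respect to the variable `0` is not zero). Let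
`P' = finSuccEquiv ℚ n P`, `G' = finSuccEquiv ℚ n G`; `P'` is irreducible
(`MulEquiv.irreducible_iff`). For `x = Fin.cons t x'`,
`aeval x P = (P'.map (aeval x').toRingHom).eval t` (`MvPolynomial.aeval_eq_...`, or
`eval_eq_eval_mv_eval'` for the polynomial `map (algebraMap ℚ ℝ) P`). `0 < P'.natDegree`, since otherwise
`t ↦ aeval (y + t e₀) P` would be constant. Suppose `P ∤ G`; then `P' ∤ G'`, and
`A * P' + B * G' = C D`, `D ≠ 0`. Let `y = Fin.cons y₀ y'`, `φ t = aeval (y + t e₀) P`, `φ 0 = 0`,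
`φ' 0 = c ≠ 0`. Let `V` be a neighbourhood of `y` on which `hG` holds; choose
`τ > 0` so small that `φ τ` and `φ (-τ)` have opposite signs and such that for `x'` near `y'` and
`|t| ≤ τ` the point `Fin.cons (y₀ + t) x'` is in `V` (box neighbourhood). By continuity
`aeval (Fin.cons (y₀ ± τ) x') P` have opposite signs for `x'` near `y'`; intermediate value theorem:
there is `t` with `|t| ≤ τ`, `aeval (Fin.cons (y₀ + t) x') P = 0`, and so `aeval (..) G = 0`, so
`aeval x' D = 0`. So `D` vanishes on a neighbourhood of `y'`; `dense_ne` for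
`map (algebraMap ℚ ℝ) D ≠ 0` gives a contradiction.

PROOF of `dvd_of_vanish`: let `i, c` be given by `SmoothAt`; `n = k + 1`; `e = Equiv.swap 0 i`; apply
`dvd_of_vanish₀` to `rename e P`, `rename e G`, `y ∘ e` (`renameEquiv`, `e` is an involution), and
apply `rename e` to the divisibility.
About 150 lines.
-/

set_option autoImplicit false

open Set Topology Filter MvPolynomial

namespace Pool.Agent.MZ

theorem aeval_rename_perm {n : ℕ} (e : Equiv.Perm (Fin n)) (P : MvPolynomial (Fin n) ℚ)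
    (x : Fin n → ℝ) : (aeval x (rename e P) : ℝ) = aeval (x ∘ e) P :=
  aeval_rename e x P

theorem lemd_comp {n : ℕ} (e : Equiv.Perm (Fin n)) (x : Fin n → ℝ) (i : Fin n) (t : ℝ) :
    (x + t • (Pi.single (e i) 1 : Fin n → ℝ)) ∘ e = x ∘ e + t • (Pi.single i 1 : Fin n → ℝ) := by
  funext l
  simp only [Function.comp_apply, Pi.add_apply, Pi.smul_apply]
  congr 2
  by_cases h : l = i
  · subst h
    simp
  · rw [Pi.single_eq_of_ne h, Pi.single_eq_of_ne (fun h' => h (e.injective h'))]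

theorem smoothAt_rename {n : ℕ} (e : Equiv.Perm (Fin n)) (P : MvPolynomial (Fin n) ℚ)
    (x : Fin n → ℝ) : SmoothAt (rename e P) x ↔ SmoothAt P (x ∘ e) := by
  have key : ∀ i : Fin n, (fun t : ℝ =>
      (aeval (x + t • (Pi.single (e i) 1 : Fin n → ℝ)) (rename e P) : ℝ)) =
      fun t : ℝ => (aeval (x ∘ e + t • (Pi.single i 1 : Fin n → ℝ)) P : ℝ) := by
    intro i
    funext t
    rw [aeval_rename_perm, lemd_comp]
  constructor
  · rintro ⟨j, c, hc, hd⟩
    refine ⟨e.symm j, c, hc, ?_⟩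
    rw [← key (e.symm j), Equiv.apply_symm_apply]
    exact hd
  · rintro ⟨i, c, hc, hd⟩
    refine ⟨e i, c, hc, ?_⟩
    rw [key i]
    exact hd

/-- evaluation through `finSuccEquiv` -/
theorem lemd_eval {n : ℕ} (P : MvPolynomial (Fin (n + 1)) ℚ) (t : ℝ) (x : Fin n → ℝ) :
    (aeval (Fin.cons t x : Fin (n + 1) → ℝ) P : ℝ) =
      Polynomial.eval₂ (aeval x : MvPolynomial (Fin n) ℚ →ₐ[ℚ] ℝ).toRingHom t
        (finSuccEquiv ℚ n P) := by
  induction P using MvPolynomial.induction_on with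
  | C a =>
    rw [aeval_C]
    have h1 : finSuccEquiv ℚ n (C a) = Polynomial.C (C a) := by
      rw [finSuccEquiv_apply]
      simp
    rw [h1, Polynomial.eval₂_C]
    change _ = aeval x (C a)
    rw [aeval_C]
  | add p q hp hq => rw [map_add, map_add, Polynomial.eval₂_add, hp, hq]
  | mul_X p i hp =>
    rw [map_mul, map_mul, Polynomial.eval₂_mul, hp, aeval_X]
    congr 1
    refine Fin.cases ?_ (fun j => ?_) i
    · rw [finSuccEquiv_X_zero, Polynomial.eval₂_X, Fin.cons_zero]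
    · rw [finSuccEquiv_X_succ, Polynomial.eval₂_C, Fin.cons_succ]
      change _ = aeval x (X j)
      rw [aeval_X]

theorem lemd_cont {n : ℕ} (P : MvPolynomial (Fin n) ℚ) :
    Continuous fun x : Fin n → ℝ => (aeval x P : ℝ) := by
  have h : (fun x : Fin n → ℝ => (aeval x P : ℝ)) =
      fun x => eval x (map (algebraMap ℚ ℝ) P) := by
    funext x
    rw [eval_map, aeval_def]
  rw [h]
  exact MvPolynomial.continuous_eval _

theorem dvd_of_vanish₀ {n : ℕ} {P G : MvPolynomial (Fin (n + 1)) ℚ} (hP : Irreducible P)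
    {y : Fin (n + 1) → ℝ} (hy : (aeval y P : ℝ) = 0) {c : ℝ} (hc : c ≠ 0)
    (hd : HasDerivAt (fun t : ℝ => (aeval (y + t • (Pi.single 0 1 : Fin (n + 1) → ℝ)) P : ℝ)) c 0)
    (hG : ∀ᶠ x in 𝓝 y, (aeval x P : ℝ) = 0 → (aeval x G : ℝ) = 0) : P ∣ G := by
  by_contra hPG
  obtain ⟨y0, y', rfl⟩ : ∃ (y0 : ℝ) (y' : Fin n → ℝ), y = Fin.cons y0 y' :=
    ⟨y 0, Fin.tail y, (Fin.cons_self_tail y).symm⟩
  have hline : ∀ t : ℝ, (Fin.cons y0 y' : Fin (n + 1) → ℝ) +
      t • (Pi.single 0 1 : Fin (n + 1) → ℝ) = Fin.cons (y0 + t) y' := by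
    intro t
    funext l
    refine Fin.cases ?_ (fun j => ?_) l
    · simp
    · simp [Fin.succ_ne_zero]
  have hd' : HasDerivAt (fun t : ℝ => (aeval (Fin.cons (y0 + t) y' : Fin (n + 1) → ℝ) P : ℝ))
      c 0 := by
    have h1 : (fun t : ℝ => (aeval (Fin.cons (y0 + t) y' : Fin (n + 1) → ℝ) P : ℝ)) =
        fun t : ℝ => (aeval ((Fin.cons y0 y' : Fin (n + 1) → ℝ) +
          t • (Pi.single 0 1 : Fin (n + 1) → ℝ)) P : ℝ) := by
      funext t
      rw [hline t]
    rw [h1]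
    exact hd
  have hirr : Irreducible (finSuccEquiv ℚ n P) :=
    (MulEquiv.irreducible_iff (finSuccEquiv ℚ n)).2 hP
  have hdeg : 0 < (finSuccEquiv ℚ n P).natDegree := by
    by_contra h0
    have h1 : (finSuccEquiv ℚ n P).natDegree = 0 := by omega
    obtain ⟨p0, hp0⟩ := Polynomial.natDegree_eq_zero.1 h1
    have h2 : (fun t : ℝ => (aeval (Fin.cons (y0 + t) y' : Fin (n + 1) → ℝ) P : ℝ)) =
        fun _ => aeval y' p0 := by
      funext t
      rw [lemd_eval, ← hp0, Polynomial.eval₂_C]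
      rfl
    rw [h2] at hd'
    exact hc (hd'.unique (hasDerivAt_const 0 _))
  have hnd : ¬ finSuccEquiv ℚ n P ∣ finSuccEquiv ℚ n G := fun h =>
    hPG ((map_dvd_iff (finSuccEquiv ℚ n)).1 h)
  obtain ⟨A, B, D, hD, hABD⟩ := bezout hirr hdeg hnd
  -- the function `f`
  have hcc0 : Continuous fun z : ℝ × (Fin n → ℝ) => (Fin.cons z.1 z.2 : Fin (n + 1) → ℝ) := by
    refine continuous_pi fun l => ?_
    refine Fin.cases ?_ (fun j => ?_) l
    · simp only [Fin.cons_zero]
      exact continuous_fst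
    · simp only [Fin.cons_succ]
      exact (continuous_apply j).comp continuous_snd
  have hcf : Continuous fun z : ℝ × (Fin n → ℝ) => (aeval (Fin.cons z.1 z.2 : Fin (n + 1) → ℝ) P : ℝ) :=
    (lemd_cont P).comp hcc0
  have hcons : Tendsto (fun z : ℝ × (Fin n → ℝ) => (Fin.cons z.1 z.2 : Fin (n + 1) → ℝ))
      (𝓝 (y0, y')) (𝓝 (Fin.cons y0 y')) :=
    hcc0.tendsto (y0, y')
  have hG' := hcons.eventually hG
  rw [nhds_prod_eq] at hG'
  obtain ⟨pa, hpa, pb, hpb, hab⟩ := eventually_prod_iff.1 hG'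
  obtain ⟨τ0, hτ0, hpa'⟩ := Metric.eventually_nhds_iff.1 hpa
  -- the sign
  have hsl := hasDerivAt_iff_tendsto_slope_zero.1 hd'
  have hφ0 : (aeval (Fin.cons (y0 + 0) y' : Fin (n + 1) → ℝ) P : ℝ) = 0 := by
    rw [add_zero]
    exact hy
  have hcc : 0 < c * c := mul_self_pos.2 hc
  have hev : ∀ᶠ t : ℝ in 𝓝[≠] 0, 0 < c * (t⁻¹ *
      (aeval (Fin.cons (y0 + t) y' : Fin (n + 1) → ℝ) P : ℝ)) := by
    have h1 : Tendsto (fun t : ℝ => c * (t⁻¹ *
      (aeval (Fin.cons (y0 + t) y' : Fin (n + 1) → ℝ) P : ℝ))) (𝓝[≠] 0) (𝓝 (c * c)) := by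
      refine (hsl.const_mul c).congr fun t => ?_
      simp only [zero_add, smul_eq_mul]
      rw [hφ0, sub_zero]
    exact h1.eventually (lt_mem_nhds hcc)
  rw [eventually_nhdsWithin_iff, Metric.eventually_nhds_iff] at hev
  obtain ⟨τ1, hτ1, hev⟩ := hev
  obtain ⟨τ, hτ, hτa, hτb⟩ : ∃ τ : ℝ, 0 < τ ∧ τ < τ0 ∧ τ < τ1 :=
    ⟨min τ0 τ1 / 2, by positivity,
      (half_lt_self (lt_min hτ0 hτ1)).trans_le (min_le_left _ _),
      (half_lt_self (lt_min hτ0 hτ1)).trans_le (min_le_right _ _)⟩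
  have hp : 0 < c * (aeval (Fin.cons (y0 + τ) y' : Fin (n + 1) → ℝ) P : ℝ) := by
    have h1 := hev (y := τ) (by rwa [dist_zero_right, Real.norm_of_nonneg hτ.le]) hτ.ne'
    have h2 : c * (aeval (Fin.cons (y0 + τ) y' : Fin (n + 1) → ℝ) P : ℝ) =
        τ * (c * (τ⁻¹ * (aeval (Fin.cons (y0 + τ) y' : Fin (n + 1) → ℝ) P : ℝ))) := by
      field_simp
    rw [h2]
    exact mul_pos hτ h1
  have hm : c * (aeval (Fin.cons (y0 - τ) y' : Fin (n + 1) → ℝ) P : ℝ) < 0 := by
    have h1 := hev (y := -τ) (by rwa [dist_zero_right, norm_neg, Real.norm_of_nonneg hτ.le])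
      (neg_ne_zero.2 hτ.ne')
    rw [← sub_eq_add_neg] at h1
    have h2 : c * (aeval (Fin.cons (y0 - τ) y' : Fin (n + 1) → ℝ) P : ℝ) =
        -(τ * (c * ((-τ)⁻¹ * (aeval (Fin.cons (y0 - τ) y' : Fin (n + 1) → ℝ) P : ℝ)))) := by
      field_simp
    rw [h2]
    exact neg_neg_of_pos (mul_pos hτ h1)
  have hpev : ∀ᶠ x' in 𝓝 y', 0 < c * (aeval (Fin.cons (y0 + τ) x' : Fin (n + 1) → ℝ) P : ℝ) :=
    ((continuous_const.mul (hcf.comp (continuous_const.prodMk continuous_id))).tendsto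
      y').eventually (lt_mem_nhds hp)
  have hmev : ∀ᶠ x' in 𝓝 y', c * (aeval (Fin.cons (y0 - τ) x' : Fin (n + 1) → ℝ) P : ℝ) < 0 :=
    ((continuous_const.mul (hcf.comp (continuous_const.prodMk continuous_id))).tendsto
      y').eventually (gt_mem_nhds hm)
  have hDev : ∀ᶠ x' in 𝓝 y', (aeval x' D : ℝ) = 0 := by
    filter_upwards [hpb, hpev, hmev] with x' h1 h2 h3
    have hcont : ContinuousOn (fun t : ℝ => c * (aeval (Fin.cons t x' : Fin (n + 1) → ℝ) P : ℝ))
        (Set.Icc (y0 - τ) (y0 + τ)) :=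
      (continuous_const.mul (hcf.comp (continuous_id.prodMk continuous_const))).continuousOn
    obtain ⟨t, ht, ht0⟩ := intermediate_value_Icc (by linarith) hcont ⟨h3.le, h2.le⟩
    have ht1 : (aeval (Fin.cons t x' : Fin (n + 1) → ℝ) P : ℝ) = 0 := by
      rcases mul_eq_zero.1 ht0 with h | h
      · exact absurd h hc
      · exact h
    have ht2 : dist t y0 < τ0 := by
      rw [Real.dist_eq, abs_lt]
      exact ⟨by linarith [ht.1], by linarith [ht.2]⟩
    have ht3 : (aeval (Fin.cons t x' : Fin (n + 1) → ℝ) G : ℝ) = 0 := hab (hpa' ht2) h1 ht1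
    have h4 := congrArg (Polynomial.eval₂ (aeval x' : MvPolynomial (Fin n) ℚ →ₐ[ℚ] ℝ).toRingHom t)
      hABD
    rw [Polynomial.eval₂_add, Polynomial.eval₂_mul, Polynomial.eval₂_mul, ← lemd_eval, ← lemd_eval,
      ht1, ht3, mul_zero, mul_zero, add_zero, Polynomial.eval₂_C] at h4
    exact h4.symm
  have hD' : map (algebraMap ℚ ℝ) D ≠ 0 := by
    intro h
    exact hD ((map_injective (algebraMap ℚ ℝ) (algebraMap ℚ ℝ).injective) (by rw [h, map_zero]))
  have hden := dense_ne hD'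
  obtain ⟨U, hU, hUo, hyU⟩ := mem_nhds_iff.1 hDev
  obtain ⟨x, hxU, hx⟩ := hden.inter_open_nonempty U hUo ⟨y', hyU⟩
  apply hx
  rw [eval_map, ← aeval_def]
  exact hU hxU

theorem dvd_of_vanish {n : ℕ} {P G : MvPolynomial (Fin n) ℚ} (hP : Irreducible P)
    {y : Fin n → ℝ} (hy : (aeval y P : ℝ) = 0) (hs : SmoothAt P y)
    (hG : ∀ᶠ x in 𝓝 y, (aeval x P : ℝ) = 0 → (aeval x G : ℝ) = 0) : P ∣ G := by
  obtain ⟨i, c, hc, hd⟩ := hs
  obtain ⟨k, rfl⟩ : ∃ k, n = k + 1 := ⟨n - 1, by have := i.pos; omega⟩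
  let e : Equiv.Perm (Fin (k + 1)) := Equiv.swap 0 i
  have he : e i = 0 := Equiv.swap_apply_right 0 i
  have hee : (y ∘ e) ∘ e = y := by
    funext l
    simp only [Function.comp_apply, e, Equiv.swap_apply_self]
  have h1 : rename e P ∣ rename e G := by
    refine dvd_of_vanish₀ (y := y ∘ e) (c := c)
      ((MulEquiv.irreducible_iff (renameEquiv ℚ e)).2 hP) ?_ hc ?_ ?_
    · rw [aeval_rename_perm, hee]
      exact hy
    · have h2 : (fun t : ℝ => (aeval (y ∘ e + t • (Pi.single 0 1 : Fin (k + 1) → ℝ))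
          (rename e P) : ℝ)) =
          fun t : ℝ => (aeval (y + t • (Pi.single i 1 : Fin (k + 1) → ℝ)) P : ℝ) := by
        funext t
        rw [aeval_rename_perm, ← he, lemd_comp, hee]
      rw [h2]
      exact hd
    · have h3 : Tendsto (fun x : Fin (k + 1) → ℝ => x ∘ e) (𝓝 (y ∘ e)) (𝓝 y) := by
        have h4 : Continuous fun x : Fin (k + 1) → ℝ => x ∘ e :=
          continuous_pi fun l => continuous_apply (e l)
        have h5 := h4.tendsto (y ∘ e)
        rw [hee] at h5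
        exact h5
      filter_upwards [h3.eventually hG] with x hx
      rw [aeval_rename_perm, aeval_rename_perm]
      exact hx
  exact (map_dvd_iff (renameEquiv ℚ e)).1 h1

end Pool.Agent.MZ
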