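import Mathlib
import Pool.Agent.MZ.Defs
import Pool.Agent.MZ.RatAlg
import Pool.Agent.MZ.RatD
import Pool.Agent.MZ.LemD

/-!
# MZ module PQ: consequences of the irreducibility of the cubic form

(uses the stubs of `RatAlg`, `exists_isRat_ne`, `dvd_of_vanish`)

PROOFS.
* `totalDegree_pol`: `hirr.ne_zero`, `IsHomogeneous.totalDegree`.
* `smoothAt_pol`: `t ↦ aeval (y + t e_i) pol = T(y + t e_i, ...)` (`pol_eval`) is
  `T y y y + 3 t T y y e_i + 3 t² T y e_i e_i + t³ T e_i e_i e_i`, with derivative `3 T y y e_i` at 0. If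
  `T y y u ≠ 0` then `T y y e_i ≠ 0` for some basis vector `e_i = Pi.single i 1`
  (`u = ∑ u i • e_i`). Conversely `SmoothAt` gives `c = 3 T y y e_i ≠ 0` (uniqueness of the derivative).
* `zero_of_vanish`: let `A = aeval · G`, `G.totalDegree ≤ 2`; `dvd_of_vanish` gives `pol ∣ G`, and
  `totalDegree` 3 vs 2 gives `G = 0`.
* `zero_of_mul`: polynomials `G_A, G_B, G_H` with `G_A * G_B = G_H * pol` (`MvPolynomial.funext` over ℚ, or
  over ℝ and `map_injective`; use `PolyQ.ext_rat`-like argument: the polynomials over `ℚ` agree at all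
  rational points because `aeval_rv` and `Rat.cast_injective`). `pol` is prime
  (`Irreducible.prime`, `MvPolynomial (Fin m) ℚ` is a UFD), so `pol ∣ G_A` or `pol ∣ G_B`; degrees.
* `exists_isRat_ker`: suppose `T x x x = 0` for all rational `x` with `lam x = 0`. Let `a i = lam (e_i)`,
  rational, `a i₀ ≠ 0`. Let `L = ∑ C (a i) * X i`, a nonzero polynomial of degree 1. Let `ρ` be the
  algebra endomorphism of `MvPolynomial (Fin m) ℚ` with `ρ (X i) = X i` for `i ≠ i₀` and
  `ρ (X i₀) = X i₀ - C (a i₀)⁻¹ * L`. For all polynomials `G`: `L ∣ G - ρ G` (induction on `G`).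
  `eval q (ρ pol) = eval (q - (L(q) / a i₀) e_{i₀}) pol = 0` for all rational `q`, so `ρ pol = 0`
  (`MvPolynomial.funext`), so `L ∣ pol`, `pol = L * H`; `pol` is irreducible, so `L` or `H` is a unit, of
  degree 0: but `L.totalDegree = 1` (it is homogeneous of degree 1 and not zero), and
  `H.totalDegree = 3 - 1 = 2`. Contradiction.
About 150 lines.
-/

set_option autoImplicit false

open Set Topology Filter MvPolynomial

namespace Pool.Agent.MZ

namespace Cub

variable {m : ℕ} (C : Cub m)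

theorem totalDegree_pol (hirr : Irreducible C.pol) : C.pol.totalDegree = 3 :=
  C.hom.totalDegree hirr.ne_zero

private theorem pq_hasDerivAt (y e : Fin m → ℝ) :
    HasDerivAt (fun t : ℝ => (aeval (y + t • e) C.pol : ℝ)) (3 * C.T y y e) 0 := by
  have h1 : (fun t : ℝ => (aeval (y + t • e) C.pol : ℝ)) = fun t : ℝ =>
      C.T y y y + t * (3 * C.T y y e) + t ^ 2 * (3 * C.T y e e) + t ^ 3 * C.T e e e := by
    funext t
    rw [C.pol_eval]
    have h2 : C.T y e y = C.T y y e := C.sym₂ y e y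
    have h3 : C.T e y y = C.T y y e := by rw [C.sym₁ e y y, h2]
    have h4 : C.T e y e = C.T y e e := C.sym₁ e y e
    have h5 : C.T e e y = C.T y e e := by rw [C.sym₂ e e y, h4]
    simp only [map_add, map_smul, LinearMap.add_apply, LinearMap.smul_apply, smul_eq_mul,
      h2, h3, h4, h5]
    ring
  rw [h1]
  have h2 : HasDerivAt (fun t : ℝ => C.T y y y + t * (3 * C.T y y e) + t ^ 2 * (3 * C.T y e e) +
      t ^ 3 * C.T e e e) (0 + 1 * (3 * C.T y y e) + (2 : ℕ) * (0 : ℝ) ^ 1 * (3 * C.T y e e) +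
      (3 : ℕ) * (0 : ℝ) ^ 2 * C.T e e e) 0 := by
    refine (((hasDerivAt_const (0 : ℝ) (C.T y y y)).add
      ((hasDerivAt_id (0 : ℝ)).mul_const _)).add ?_).add ?_
    · exact (hasDerivAt_pow 2 (0 : ℝ)).mul_const _
    · exact (hasDerivAt_pow 3 (0 : ℝ)).mul_const _
  refine h2.congr_deriv ?_
  simp

theorem smoothAt_pol {y : Fin m → ℝ} : SmoothAt C.pol y ↔ ∃ u, C.T y y u ≠ 0 := by
  constructor
  · rintro ⟨i, c, hc, hd⟩
    refine ⟨Pi.single i 1, fun h => hc ?_⟩
    have h1 := hd.unique (pq_hasDerivAt C y (Pi.single i 1))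
    rw [h1, h, mul_zero]
  · rintro ⟨u, hu⟩
    have h1 : ∃ i : Fin m, C.T y y (Pi.single i 1) ≠ 0 := by
      by_contra hcon
      push Not at hcon
      have h2 : C.T y y = 0 := by
        apply (Pi.basisFun ℝ (Fin m)).ext
        intro i
        rw [Pi.basisFun_apply, hcon i]
        rfl
      rw [h2] at hu
      exact hu rfl
    obtain ⟨i, hi⟩ := h1
    exact ⟨i, 3 * C.T y y (Pi.single i 1), mul_ne_zero (by norm_num) hi,
      pq_hasDerivAt C y (Pi.single i 1)⟩

private theorem pq_deg (hirr : Irreducible C.pol) {G : MvPolynomial (Fin m) ℚ}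
    (hG : G.totalDegree ≤ 2) (hd : C.pol ∣ G) : G = 0 := by
  by_contra hne
  obtain ⟨H, hH⟩ := hd
  have hH0 : H ≠ 0 := by
    rintro rfl
    rw [mul_zero] at hH
    exact hne hH
  have h1 := totalDegree_mul_of_isDomain hirr.ne_zero hH0
  rw [← hH, C.totalDegree_pol hirr] at h1
  omega

theorem zero_of_vanish (hirr : Irreducible C.pol) {y : Fin m → ℝ} (hy : C.T y y y = 0)
    (hs : ∃ u, C.T y y u ≠ 0) {A : (Fin m → ℝ) → ℝ} (hA : PolyQ m 2 A)
    (h : ∀ᶠ x in 𝓝 y, C.T x x x = 0 → A x = 0) : ∀ x, A x = 0 := by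
  obtain ⟨G, hG, hGA⟩ := hA
  have h1 : C.pol ∣ G := by
    refine dvd_of_vanish hirr (by rw [C.pol_eval]; exact hy) ((C.smoothAt_pol).2 hs) ?_
    refine h.mono fun x hx h2 => ?_
    rw [C.pol_eval] at h2
    rw [hGA]
    exact hx h2
  have h2 := pq_deg C hirr hG h1
  intro x
  rw [← hGA, h2, map_zero]

theorem zero_of_mul (hirr : Irreducible C.pol) {k : ℕ} {A B H : (Fin m → ℝ) → ℝ}
    (hA : PolyQ m 2 A) (hB : PolyQ m 2 B) (hH : PolyQ m k H)
    (h : ∀ x, A x * B x = H x * C.T x x x) : (∀ x, A x = 0) ∨ ∀ x, B x = 0 := by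
  obtain ⟨GA, hGA, hA⟩ := hA
  obtain ⟨GB, hGB, hB⟩ := hB
  obtain ⟨GH, hGH, hH⟩ := hH
  have h1 : GA * GB = GH * C.pol := by
    apply MvPolynomial.funext
    intro q
    have h2 := h (rv q)
    rw [← hA, ← hB, ← hH, ← C.pol_eval, aeval_rv, aeval_rv, aeval_rv, aeval_rv] at h2
    rw [map_mul, map_mul]
    exact_mod_cast h2
  have h2 : C.pol ∣ GA * GB := ⟨GH, by rw [h1, mul_comm]⟩
  rcases hirr.prime.dvd_or_dvd h2 with h3 | h3
  · left
    intro x
    rw [← hA, pq_deg C hirr hGA h3, map_zero]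
  · right
    intro x
    rw [← hB, pq_deg C hirr hGB h3, map_zero]

theorem exists_isRat_ker (hirr : Irreducible C.pol) {lam : (Fin m → ℝ) →ₗ[ℝ] ℝ}
    (h0 : ∃ u, lam u ≠ 0) (hQ : ∀ x, IsRat x → IsQ (lam x)) :
    ∃ x, IsRat x ∧ lam x = 0 ∧ C.T x x x ≠ 0 := by
  classical
  by_contra hcon
  have hcon' : ∀ x, IsRat x → lam x = 0 → C.T x x x = 0 := by
    intro x hx hl
    by_contra hne
    exact hcon ⟨x, hx, hl, hne⟩
  choose a ha using fun i : Fin m => hQ (Pi.single i 1) (IsRat.single i)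
  obtain ⟨i₀, hi₀⟩ : ∃ i₀, a i₀ ≠ 0 := by
    by_contra hall
    push Not at hall
    obtain ⟨u, hu⟩ := h0
    have h2 : lam = 0 := by
      apply (Pi.basisFun ℝ (Fin m)).ext
      intro i
      rw [Pi.basisFun_apply, ha i, hall i]
      simp
    rw [h2] at hu
    exact hu rfl
  obtain ⟨L, hL⟩ : ∃ L : MvPolynomial (Fin m) ℚ, L = ∑ i, MvPolynomial.C (a i) * X i := ⟨_, rfl⟩
  have hLe : ∀ q : Fin m → ℚ, eval q L = ∑ i, a i * q i := by
    intro q
    rw [hL, map_sum]
    refine Finset.sum_congr rfl fun i _ => ?_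
    rw [map_mul, eval_C, eval_X]
  have hlam : ∀ q : Fin m → ℚ, lam (rv q) = ((∑ i, a i * q i : ℚ) : ℝ) := by
    intro q
    rw [LinearMap.pi_apply_eq_sum_univ lam (rv q), Rat.cast_sum]
    refine Finset.sum_congr rfl fun i _ => ?_
    have h3 : (fun j => if i = j then (1 : ℝ) else 0) = Pi.single i 1 := by
      funext j
      rw [Pi.single_apply]
      by_cases h : i = j
      · rw [if_pos h, if_pos h.symm]
      · rw [if_neg h, if_neg (Ne.symm h)]
    rw [h3, ha i, rv, smul_eq_mul, Rat.cast_mul]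
    ring
  obtain ⟨ρ, hρ⟩ : ∃ ρ : MvPolynomial (Fin m) ℚ →ₐ[ℚ] MvPolynomial (Fin m) ℚ, ∀ i, ρ (X i) =
      if i = i₀ then X i₀ - MvPolynomial.C (a i₀)⁻¹ * L else X i :=
    ⟨aeval fun i => if i = i₀ then X i₀ - MvPolynomial.C (a i₀)⁻¹ * L else X i, fun i => by
      rw [aeval_X]⟩
  have hdvd : ∀ G : MvPolynomial (Fin m) ℚ, L ∣ G - ρ G := by
    intro G
    induction G using MvPolynomial.induction_on with
    | C r =>
      have : ρ (MvPolynomial.C r) = MvPolynomial.C r := ρ.commutes r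
      rw [this, sub_self]
      exact dvd_zero _
    | add p q hp hq =>
      rw [map_add]
      have : p + q - (ρ p + ρ q) = (p - ρ p) + (q - ρ q) := by ring
      rw [this]
      exact dvd_add hp hq
    | mul_X p n hp =>
      rw [map_mul]
      have : p * X n - ρ p * ρ (X n) = (p - ρ p) * X n + ρ p * (X n - ρ (X n)) := by ring
      rw [this]
      refine dvd_add (Dvd.dvd.mul_right hp _) (Dvd.dvd.mul_left ?_ _)
      rw [hρ]
      split_ifs with h
      · subst h
        exact ⟨MvPolynomial.C (a n)⁻¹, by ring⟩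
      · rw [sub_self]
        exact dvd_zero _
  have hρe : ∀ (q : Fin m → ℚ) (G : MvPolynomial (Fin m) ℚ), eval q (ρ G) =
      eval (fun i => if i = i₀ then q i₀ - (a i₀)⁻¹ * eval q L else q i) G := by
    intro q G
    induction G using MvPolynomial.induction_on with
    | C r =>
      have : ρ (MvPolynomial.C r) = MvPolynomial.C r := ρ.commutes r
      rw [this, eval_C, eval_C]
    | add p r hp hr => rw [map_add, map_add, map_add, hp, hr]
    | mul_X p n hp =>
      rw [map_mul, map_mul, map_mul, hp, eval_X, hρ]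
      congr 1
      split_ifs with h
      · rw [map_sub, map_mul, eval_X, eval_C]
      · rw [eval_X]
  have hρ0 : ρ C.pol = 0 := by
    apply MvPolynomial.funext
    intro q
    rw [hρe, map_zero]
    obtain ⟨q', hq'⟩ : ∃ q' : Fin m → ℚ, q' = fun i => if i = i₀ then
      q i₀ - (a i₀)⁻¹ * eval q L else q i := ⟨_, rfl⟩
    rw [← hq']
    have h3 : ∑ i, a i * q' i = 0 := by
      have h4 : ∀ i, a i * q' i = a i * q i + if i = i₀ then - eval q L else 0 := by
        intro i
        rw [hq']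
        by_cases h : i = i₀
        · subst h
          simp only [if_true]
          field_simp
          ring
        · simp only [if_neg h, add_zero]
      simp_rw [h4]
      rw [Finset.sum_add_distrib, Finset.sum_ite_eq' Finset.univ i₀, if_pos (Finset.mem_univ _),
        hLe]
      ring
    have h5 := hcon' (rv q') ⟨q', rfl⟩ (by rw [hlam, h3, Rat.cast_zero])
    rw [← C.pol_eval, aeval_rv] at h5
    exact_mod_cast h5
  obtain ⟨H, hH⟩ : L ∣ C.pol := by
    have := hdvd C.pol
    rwa [hρ0, sub_zero] at this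
  have hL0 : L ≠ 0 := by
    intro h
    have h3 := hLe (Pi.single i₀ 1)
    rw [h, map_zero] at h3
    apply hi₀
    rw [h3, Finset.sum_eq_single i₀]
    · rw [Pi.single_eq_same, mul_one]
    · intro j _ hj
      rw [Pi.single_eq_of_ne hj, mul_zero]
    · intro h
      exact absurd (Finset.mem_univ _) h
  have hLh : L.IsHomogeneous 1 := by
    rw [hL]
    exact IsHomogeneous.sum _ _ _ fun i _ => isHomogeneous_C_mul_X _ _
  have hLd : L.totalDegree = 1 := hLh.totalDegree hL0
  have hH0 : H ≠ 0 := by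
    rintro rfl
    rw [mul_zero] at hH
    exact hirr.ne_zero hH
  have hHd : L.totalDegree + H.totalDegree = 3 := by
    rw [← totalDegree_mul_of_isDomain hL0 hH0, ← hH, C.totalDegree_pol hirr]
  have hunit : ∀ P : MvPolynomial (Fin m) ℚ, IsUnit P → P.totalDegree = 0 := by
    intro P hP
    obtain ⟨R, hR⟩ := hP.exists_right_inv
    have hP0 : P ≠ 0 := hP.ne_zero
    have hR0 : R ≠ 0 := by
      rintro rfl
      rw [mul_zero] at hR
      exact zero_ne_one hR
    have h3 := totalDegree_mul_of_isDomain hP0 hR0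
    rw [hR, totalDegree_one] at h3
    omega
  rcases hirr.isUnit_or_isUnit hH with h3 | h3
  · have := hunit L h3
    omega
  · have := hunit H h3
    omega

end Cub

end Pool.Agent.MZ
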