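import Mathlib
import Pool.Agent.MZ.Defs
import Pool.Agent.MZ.RatAlg
import Pool.Agent.MZ.RatD
import Pool.Agent.MZ.Basic
import Pool.Agent.MZ.Pq

/-!
# MZ module M3A: plane cubics with infinitely many rational points: accumulation point and base point

(uses the stubs of `RatAlg`, `Basic`, `exists_isRat_ker`)

PROOF of `exists_acc`. The set `A = {‖x‖⁻¹ • x | x ∈ XQ, ell x = 1}` is infinite (the map is injective on
`{ell x = 1}`: `ell (‖x‖⁻¹ • x) = ‖x‖⁻¹` determines `‖x‖`) and contained in the compact unit sphere (of the sup norm); so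
it has an accumulation point `x₀`, `‖x₀‖ = 1` (`Set.Infinite.exists_accPt_of_subset_isCompact`);
`x₀ ∈ Z` as `A ⊆ Z` (`Z_smul`), `Z` closed. Every neighbourhood `W` of `x₀` contains two different points
`‖r‖⁻¹ • r`, `‖r'‖⁻¹ • r'` of `A` (infinitely many: `accPt_iff_frequently`/`AccPt.nhds_inter_infinite`...), `r ≠ r'`,
`ell r = ell r' = 1`. If `a r + b r' = 0` then `a + b = 0` (apply `ell`), `a (r - r') = 0`, so `a = 0`.

PROOF of `exists_form`. `lam v = det [r, r', v] = (cross product) · v`: `lam v = ∑ i, k i * v i` with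
`k = crossProduct r r'` (rational). The kernel contains `r, r'`; `k ≠ 0` since `r, r'` are independent; the kernel has
dimension 2, so it is the span of `r, r'`.

PROOF of `not_line`. Otherwise `T x x x = 0` for all `x = a r + b r'` (`= 3 a² b T r r r' + 3 a b² T r r' r'`); with
`exists_form` and `exists_isRat_ker` a contradiction.

PROOF of `exists_base`. Suppose `T x₀ x₀ y = 0` for all `y ∈ XQ`. Let `r ≠ r'` be in `XQ ∩ {ell = 1}`,
independent as above. The kernel of `T x₀ x₀ ≠ 0` has dimension 2 and contains `r, r'`, so is their span. Every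
`y ∈ XQ ∩ {ell = 1}` is `a r + b r'` with `a + b = 1`, and
`0 = T y y y = 3 a b (a A + b B)`, `A = T r r r'`, `B = T r r' r'`. So the infinitely many numbers `a` (`y` is
determined by `a`) are roots of the polynomial `a (1 - a) (B + a (A - B))`, which is then zero, so
`A = B = 0`: contradiction to `not_line`.
About 160 lines.
-/

set_option autoImplicit false

open Set Topology Filter MvPolynomial

namespace Pool.Agent.MZ

private theorem ker_span {lam : (Fin 3 → ℝ) →ₗ[ℝ] ℝ} (h : ∃ u, lam u ≠ 0) {r r' : Fin 3 → ℝ}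
    (hr : lam r = 0) (hr' : lam r' = 0)
    (hind : ∀ a b : ℝ, a • r + b • r' = 0 → a = 0 ∧ b = 0) :
    ∀ x, lam x = 0 → ∃ a b : ℝ, x = a • r + b • r' := by
  have hne : lam ≠ 0 := by
    rintro rfl
    obtain ⟨u, hu⟩ := h
    exact hu rfl
  have hli : LinearIndependent ℝ ![r, r'] := LinearIndependent.pair_iff.2 hind
  have hrange : Set.range ![r, r'] = {r, r'} := by
    simp [Matrix.range_cons, Set.pair_comm]
  have h1 : Module.finrank ℝ (Submodule.span ℝ ({r, r'} : Set (Fin 3 → ℝ))) = 2 := by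
    have h2 := finrank_span_eq_card hli
    rw [hrange] at h2
    simpa using h2
  have h2 : Module.finrank ℝ (LinearMap.ker lam) = 2 := by
    have h3 := LinearMap.finrank_range_add_finrank_ker lam
    rw [LinearMap.range_eq_top.2 (LinearMap.surjective hne), finrank_top, Module.finrank_self,
      Module.finrank_fin_fun] at h3
    omega
  have h3 : Submodule.span ℝ ({r, r'} : Set (Fin 3 → ℝ)) ≤ LinearMap.ker lam := by
    rw [Submodule.span_le]
    rintro z (rfl | hz)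
    · exact hr
    · rw [Set.mem_singleton_iff] at hz
      subst hz
      exact hr'
  have h4 := Submodule.eq_of_le_of_finrank_eq h3 (by rw [h1, h2])
  intro x hx
  have h5 : x ∈ Submodule.span ℝ ({r, r'} : Set (Fin 3 → ℝ)) := by
    rw [h4]
    exact hx
  obtain ⟨a, b, hab⟩ := Submodule.mem_span_pair.1 h5
  exact ⟨a, b, hab.symm⟩

theorem exists_form {r r' : Fin 3 → ℝ} (hr : IsRat r) (hr' : IsRat r')
    (hind : ∀ a b : ℝ, a • r + b • r' = 0 → a = 0 ∧ b = 0) :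
    ∃ lam : (Fin 3 → ℝ) →ₗ[ℝ] ℝ, (∀ x, IsRat x → IsQ (lam x)) ∧ (∃ u, lam u ≠ 0) ∧
      ∀ x, lam x = 0 → ∃ a b : ℝ, x = a • r + b • r' := by
  have hk : crossProduct r r' ≠ 0 :=
    crossProduct_ne_zero_iff_linearIndependent.2 (LinearIndependent.pair_iff.2 hind)
  obtain ⟨k, hkd⟩ : ∃ k, k = crossProduct r r' := ⟨_, rfl⟩
  rw [← hkd] at hk
  have hkQ : ∀ i, IsQ (k i) := by
    intro i
    have h1 := isRat_iff.1 hr
    have h2 := isRat_iff.1 hr'
    rw [hkd, cross_apply]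
    fin_cases i
    · exact ((h1 1).mul (h2 2)).sub ((h1 2).mul (h2 1))
    · exact ((h1 2).mul (h2 0)).sub ((h1 0).mul (h2 2))
    · exact ((h1 0).mul (h2 1)).sub ((h1 1).mul (h2 0))
  let lam : (Fin 3 → ℝ) →ₗ[ℝ] ℝ := ∑ i, k i • LinearMap.proj i
  have hlam : ∀ x, lam x = x ⬝ᵥ k := by
    intro x
    simp only [lam, LinearMap.sum_apply, LinearMap.smul_apply, LinearMap.proj_apply, smul_eq_mul,
      dotProduct]
    exact Finset.sum_congr rfl fun i _ => mul_comm _ _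
  have h0 : ∃ u, lam u ≠ 0 := by
    obtain ⟨i, hi⟩ := Function.ne_iff.1 hk
    refine ⟨Pi.single i 1, ?_⟩
    rw [hlam, single_dotProduct, one_mul]
    exact hi
  refine ⟨lam, ?_, h0, ?_⟩
  · intro x hx
    rw [hlam]
    unfold dotProduct
    rw [Fin.sum_univ_three]
    have h1 := isRat_iff.1 hx
    exact (((h1 0).mul (hkQ 0)).add ((h1 1).mul (hkQ 1))).add ((h1 2).mul (hkQ 2))
  · refine ker_span h0 ?_ ?_ hind
    · rw [hlam, hkd, dot_self_cross]
    · rw [hlam, hkd, dot_cross_self]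

/-- Two different points in the hyperplane `ell = 1` are independent. -/
private theorem ind_of_ne {m : ℕ} {ell : (Fin m → ℝ) →ₗ[ℝ] ℝ} {r r' : Fin m → ℝ} (hr : ell r = 1)
    (hr' : ell r' = 1) (hne : r ≠ r') : ∀ a b : ℝ, a • r + b • r' = 0 → a = 0 ∧ b = 0 := by
  intro a b hab
  have h1 := congrArg ell hab
  rw [map_add, map_smul, map_smul, hr, hr', map_zero, smul_eq_mul, smul_eq_mul, mul_one,
    mul_one] at h1
  have h2 : b = -a := by linarith
  rw [h2, neg_smul, ← sub_eq_add_neg, ← smul_sub] at hab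
  have h3 : a = 0 := by
    rcases smul_eq_zero.1 hab with h | h
    · exact h
    · exact absurd (sub_eq_zero.1 h) hne
  exact ⟨h3, by rw [h2, h3, neg_zero]⟩

namespace Cub

theorem exists_acc {m : ℕ} {C : Cub m} {ell : (Fin m → ℝ) →ₗ[ℝ] ℝ}
    (hinf : (C.XQ ∩ {x | ell x = 1}).Infinite) :
    ∃ x₀ ∈ C.Z, x₀ ≠ 0 ∧ ∀ W ∈ 𝓝 x₀, ∃ r r' : Fin m → ℝ, r ∈ C.XQ ∧ r' ∈ C.XQ ∧
      (∀ a b : ℝ, a • r + b • r' = 0 → a = 0 ∧ b = 0) ∧
      ∃ c c' : ℝ, c ≠ 0 ∧ c' ≠ 0 ∧ c • r ∈ W ∧ c' • r' ∈ W := by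
  have hnn : ∀ x ∈ C.XQ ∩ {x | ell x = 1}, ‖x‖ ≠ 0 := by
    rintro x ⟨_, hx⟩ h0
    rw [norm_eq_zero] at h0
    have hx' : ell x = 1 := hx
    rw [h0, map_zero] at hx'
    exact zero_ne_one hx'
  obtain ⟨A, hA⟩ : ∃ A, A = (fun x : Fin m → ℝ => ‖x‖⁻¹ • x) '' (C.XQ ∩ {x | ell x = 1}) :=
    ⟨_, rfl⟩
  have hinj : InjOn (fun x : Fin m → ℝ => ‖x‖⁻¹ • x) (C.XQ ∩ {x | ell x = 1}) := by
    intro x hx y hy hxy
    have hxy' : ‖x‖⁻¹ • x = ‖y‖⁻¹ • y := hxy
    have h1 := congrArg ell hxy'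
    have hx1 : ell x = 1 := hx.2
    have hy1 : ell y = 1 := hy.2
    rw [map_smul, map_smul, hx1, hy1, smul_eq_mul, smul_eq_mul, mul_one, mul_one] at h1
    rw [h1] at hxy'
    exact smul_right_injective _ (inv_ne_zero (hnn y hy)) hxy'
  have hAinf : A.Infinite := by
    rw [hA]
    exact hinf.image hinj
  have hAs : A ⊆ Metric.sphere 0 1 := by
    rw [hA]
    rintro _ ⟨x, hx, rfl⟩
    rw [mem_sphere_zero_iff_norm]
    show ‖‖x‖⁻¹ • x‖ = 1
    rw [norm_smul, norm_inv, norm_norm, inv_mul_cancel₀ (hnn x hx)]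
  obtain ⟨x₀, hx₀, hacc⟩ := hAinf.exists_accPt_of_subset_isCompact (isCompact_sphere 0 1) hAs
  refine ⟨x₀, ?_, ?_, ?_⟩
  · have h1 : A ⊆ C.Z := by
      rw [hA]
      rintro _ ⟨x, hx, rfl⟩
      exact Z_smul (XQ_subset_Z hx.1) _
    have h2 : x₀ ∈ closure A := mem_closure_iff_clusterPt.2 hacc.clusterPt
    exact closure_minimal h1 isClosed_closure h2
  · rintro rfl
    rw [mem_sphere_zero_iff_norm, norm_zero] at hx₀
    exact zero_ne_one hx₀
  · intro W hW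
    rw [accPt_iff_nhds] at hacc
    obtain ⟨p, ⟨hp1, hp2⟩, hp3⟩ := hacc W hW
    obtain ⟨p', ⟨hp1', hp2'⟩, hp3'⟩ := hacc (W ∩ {p}ᶜ)
      (inter_mem hW (isOpen_compl_singleton.mem_nhds fun h => hp3 (mem_singleton_iff.1 h).symm))
    rw [hA] at hp2 hp2'
    obtain ⟨r, hr, rfl⟩ := hp2
    obtain ⟨r', hr', rfl⟩ := hp2'
    refine ⟨r, r', hr.1, hr'.1, ?_, ‖r‖⁻¹, ‖r'‖⁻¹, inv_ne_zero (hnn r hr),
      inv_ne_zero (hnn r' hr'), hp1, hp1'.1⟩
    refine ind_of_ne (ell := ell) hr.2 hr'.2 ?_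
    rintro rfl
    exact hp1'.2 rfl

variable {C : Cub 3}

private theorem T_comb (C : Cub 3) {r r' : Fin 3 → ℝ} (hr : C.T r r r = 0) (hr' : C.T r' r' r' = 0)
    (a b : ℝ) : C.T (a • r + b • r') (a • r + b • r') (a • r + b • r') =
      3 * a * b * (a * C.T r r r' + b * C.T r r' r') := by
  have h2 : C.T r r' r = C.T r r r' := C.sym₂ r r' r
  have h3 : C.T r' r r = C.T r r r' := by rw [C.sym₁ r' r r, h2]
  have h4 : C.T r' r r' = C.T r r' r' := C.sym₁ r' r r'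
  have h5 : C.T r' r' r = C.T r r' r' := by rw [C.sym₂ r' r' r, h4]
  simp only [map_add, map_smul, LinearMap.add_apply, LinearMap.smul_apply, smul_eq_mul,
    h2, h3, h4, h5, hr, hr']
  ring

theorem not_line (hirr : Irreducible C.pol) {r r' : Fin 3 → ℝ} (hr : r ∈ C.XQ) (hr' : r' ∈ C.XQ)
    (hind : ∀ a b : ℝ, a • r + b • r' = 0 → a = 0 ∧ b = 0) :
    ¬ (C.T r r r' = 0 ∧ C.T r r' r' = 0) := by
  rintro ⟨h1, h2⟩
  obtain ⟨lam, hQ, h0, hker⟩ := exists_form hr.1 hr'.1 hind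
  obtain ⟨x, hx, hx0, hxT⟩ := C.exists_isRat_ker hirr h0 hQ
  obtain ⟨a, b, rfl⟩ := hker x hx0
  apply hxT
  rw [T_comb C hr.2 hr'.2, h1, h2]
  ring

theorem exists_base (hirr : Irreducible C.pol) {ell : (Fin 3 → ℝ) →ₗ[ℝ] ℝ}
    (hinf : (C.XQ ∩ {x | ell x = 1}).Infinite) {x₀ : Fin 3 → ℝ} (hs : ∃ u, C.T x₀ x₀ u ≠ 0) :
    ∃ y₀ ∈ C.XQ, C.T x₀ x₀ y₀ ≠ 0 := by
  by_contra hcon
  have hcon' : ∀ y ∈ C.XQ, C.T x₀ x₀ y = 0 := by
    intro y hy
    by_contra hne
    exact hcon ⟨y, hy, hne⟩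
  obtain ⟨r, hr, r', hr', hne⟩ := hinf.nontrivial
  have hr1 : ell r = 1 := hr.2
  have hr1' : ell r' = 1 := hr'.2
  have hind := ind_of_ne hr1 hr1' hne
  have hspan := ker_span (lam := C.T x₀ x₀) hs (hcon' r hr.1) (hcon' r' hr'.1) hind
  obtain ⟨A, hA⟩ : ∃ A, A = C.T r r r' := ⟨_, rfl⟩
  obtain ⟨B, hB⟩ : ∃ B, B = C.T r r' r' := ⟨_, rfl⟩
  have hAB : ¬ (A = 0 ∧ B = 0) := by
    rw [hA, hB]
    exact not_line hirr hr.1 hr'.1 hind
  apply hinf
  refine Set.Finite.subset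
    (((Set.finite_singleton (B / (B - A))).insert 1 |>.insert 0).image
      fun a : ℝ => a • r + (1 - a) • r') ?_
  rintro y ⟨hy, hy1⟩
  obtain ⟨a, b, rfl⟩ := hspan y (hcon' y hy)
  have h1 : ell (a • r + b • r') = 1 := hy1
  rw [map_add, map_smul, map_smul, hr1, hr1', smul_eq_mul, smul_eq_mul, mul_one, mul_one] at h1
  have h2 : b = 1 - a := by linarith
  subst h2
  refine ⟨a, ?_, rfl⟩
  have h3 := hy.2
  rw [T_comb C hr.1.2 hr'.1.2, ← hA, ← hB] at h3
  by_cases ha : a = 0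
  · exact Or.inl ha
  by_cases ha1 : a = 1
  · exact Or.inr (Or.inl ha1)
  right; right
  rw [Set.mem_singleton_iff]
  have h4 : a * A + (1 - a) * B = 0 := by
    have h5 : 3 * a * (1 - a) ≠ 0 := mul_ne_zero (mul_ne_zero (by norm_num) ha)
      (sub_ne_zero.2 (Ne.symm ha1))
    rcases mul_eq_zero.1 h3 with h | h
    · exact absurd h h5
    · exact h
  have h5 : B - A ≠ 0 := by
    intro h6
    have h7 : B = A := by linarith
    rw [h7] at h4
    apply hAB
    have h8 : A = 0 := by linarith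
    exact ⟨h8, by rw [h7, h8]⟩
  rw [eq_div_iff h5]
  linarith

end Cub

end Pool.Agent.MZ
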