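import Mathlib
import Pool.Agent.MZ.Defs
import Pool.Agent.MZ.Basic

/-!
# MZ module M3B: small translations in the arc coordinate

(uses the stubs of `Basic`)

PROOF. Let `K = Icc (-δ) δ`, `c s = -(T x₀ x₀ (γ s))³ ≠ 0` for `s ∈ K`. Consider the function
`Φ (x, x', s) = mm x (mm x' (γ s))`, continuous on `univ × univ × K`; `Φ (x₀, x₀, s) = c s • γ s` (`mm_mm`).
For `s ∈ K` and `(x, x') = (x₀, x₀)` all of the following open conditions hold: `(c s)⁻¹ • Φ ∈ W`;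
`α Φ ≠ 0` (`α (γ s) = 1`); `|β Φ / α Φ - s| < ε` (`β (γ s) = s`); `T x x (γ s) ≠ 0`; `T x' x' (γ s) ≠ 0`;
`T x x (mm x' (γ s)) ≠ 0` (`T x₀ x₀ (mm x₀ y) = -(T x₀ x₀ y)²`). By compactness of `K` (tube lemma:
`IsCompact.eventually_forall_of_forall_eventually`, or `generalized_tube_lemma`, or pass to the subtype `↥K`, on
which `γ` is continuous, and use `isCompact_univ`) there is `N ∈ 𝓝 x₀` such that they hold for all
`x, x' ∈ N`, `s ∈ K`.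
The last claim: `z = Φ (x, x', s)` is a zero of the form (`mm_zero` twice), so `y = (c s)⁻¹ • z ∈ W` is one, and
`β y / α y = β z / α z`; by `harc` `y = α y • γ (β z / α z)` if `β z / α z ∈ Icc (-δ₀) δ₀`, so
`z = c s • y = (c s * α y) • γ (..) = α z • γ (..)`.
About 110 lines.
-/

set_option autoImplicit false

open Set Topology Filter MvPolynomial

namespace Pool.Agent.MZ

namespace Cub

variable {C : Cub 3}

theorem exists_nhds {x₀ : Fin 3 → ℝ} (hx₀ : C.T x₀ x₀ x₀ = 0) {α β : (Fin 3 → ℝ) →ₗ[ℝ] ℝ}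
    {δ₀ δ : ℝ} {γ : ℝ → Fin 3 → ℝ} {W : Set (Fin 3 → ℝ)} (hδ : 0 < δ) (hδδ₀ : δ ≤ δ₀)
    (hW : IsOpen W) (hγ : ContinuousOn γ (Icc (-δ₀) δ₀))
    (hγ' : ∀ s ∈ Icc (-δ₀) δ₀,
      C.T (γ s) (γ s) (γ s) = 0 ∧ α (γ s) = 1 ∧ β (γ s) = s ∧ γ s ∈ W)
    (harc : ∀ y ∈ W, C.T y y y = 0 → 0 < α y ∧
      (β y / α y ∈ Icc (-δ₀) δ₀ → y = α y • γ (β y / α y)))
    (hne : ∀ s ∈ Icc (-δ) δ, C.T x₀ x₀ (γ s) ≠ 0) {ε : ℝ} (hε : 0 < ε) :
    ∃ N ∈ 𝓝 x₀, ∀ x ∈ N, ∀ x' ∈ N, C.T x x x = 0 → C.T x' x' x' = 0 →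
      ∀ s ∈ Icc (-δ) δ, α (C.mm x (C.mm x' (γ s))) ≠ 0 ∧
        |β (C.mm x (C.mm x' (γ s))) / α (C.mm x (C.mm x' (γ s))) - s| < ε ∧
        C.T x x (γ s) ≠ 0 ∧ C.T x' x' (γ s) ≠ 0 ∧ C.T x x (C.mm x' (γ s)) ≠ 0 ∧
        (β (C.mm x (C.mm x' (γ s))) / α (C.mm x (C.mm x' (γ s))) ∈ Icc (-δ₀) δ₀ →
          C.mm x (C.mm x' (γ s)) = α (C.mm x (C.mm x' (γ s))) •
            γ (β (C.mm x (C.mm x' (γ s))) / α (C.mm x (C.mm x' (γ s))))) := by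
  classical
  have hsub : Icc (-δ) δ ⊆ Icc (-δ₀) δ₀ := Icc_subset_Icc (by linarith) hδδ₀
  -- the arc on the compact interval
  let γ' : ↥(Icc (-δ) δ) → Fin 3 → ℝ := fun s => γ s
  have hγ'c : Continuous γ' := continuousOn_iff_continuous_restrict.1 (hγ.mono hsub)
  have hα : Continuous α := α.continuous_of_finiteDimensional
  have hβ : Continuous β := β.continuous_of_finiteDimensional
  let c : ↥(Icc (-δ) δ) → ℝ := fun s => -(C.T x₀ x₀ (γ' s)) ^ 3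
  have hc0 : ∀ s, c s ≠ 0 := fun s => neg_ne_zero.2 (pow_ne_zero 3 (hne s s.2))
  have hcc : Continuous c :=
    ((C.continuous_comp continuous_const continuous_const hγ'c).pow 3).neg
  let Ψ : ((Fin 3 → ℝ) × (Fin 3 → ℝ)) × ↥(Icc (-δ) δ) → Fin 3 → ℝ :=
    fun q => C.mm q.1.2 (γ' q.2)
  have hΨ : Continuous Ψ := C.continuous_mm.comp
    ((continuous_snd.comp continuous_fst).prodMk (hγ'c.comp continuous_snd))
  let Φ : ((Fin 3 → ℝ) × (Fin 3 → ℝ)) × ↥(Icc (-δ) δ) → Fin 3 → ℝ :=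
    fun q => C.mm q.1.1 (Ψ q)
  have hΦ : Continuous Φ := C.continuous_mm.comp
    ((continuous_fst.comp continuous_fst).prodMk hΨ)
  have hbase : ∀ s, Φ ((x₀, x₀), s) = c s • γ' s := fun s =>
    mm_mm hx₀ (hγ' s (hsub s.2)).1
  have hev : ∀ᶠ p : (Fin 3 → ℝ) × (Fin 3 → ℝ) in 𝓝 (x₀, x₀), ∀ s ∈ (Set.univ : Set ↥(Icc (-δ) δ)),
      (c s)⁻¹ • Φ (p, s) ∈ W ∧ α (Φ (p, s)) ≠ 0 ∧ |β (Φ (p, s)) / α (Φ (p, s)) - s| < ε ∧
        C.T p.1 p.1 (γ' s) ≠ 0 ∧ C.T p.2 p.2 (γ' s) ≠ 0 ∧ C.T p.1 p.1 (Ψ (p, s)) ≠ 0 := by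
    apply isCompact_univ.eventually_forall_of_forall_eventually
    intro s _
    obtain ⟨g1, g2, g3, g4⟩ := hγ' s (hsub s.2)
    have hb := hbase s
    have hαb : α (Φ ((x₀, x₀), s)) = c s := by
      rw [hb, map_smul, smul_eq_mul]
      exact (congrArg (c s * ·) g2).trans (mul_one _)
    have hβb : β (Φ ((x₀, x₀), s)) = c s * s := by
      rw [hb, map_smul, smul_eq_mul]
      exact congrArg (c s * ·) g3
    have hαne : α (Φ ((x₀, x₀), s)) ≠ 0 := by rw [hαb]; exact hc0 s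
    have e1 : ∀ᶠ z : ((Fin 3 → ℝ) × (Fin 3 → ℝ)) × ↥(Icc (-δ) δ) in 𝓝 ((x₀, x₀), s),
        (c z.2)⁻¹ • Φ (z.1, z.2) ∈ W := by
      have h1 : Continuous fun z : ((Fin 3 → ℝ) × (Fin 3 → ℝ)) × ↥(Icc (-δ) δ) =>
          (c z.2)⁻¹ • Φ (z.1, z.2) :=
        ((hcc.comp continuous_snd).inv₀ (fun z => hc0 z.2)).smul hΦ
      refine h1.continuousAt.eventually (hW.mem_nhds ?_)
      simp only
      rw [hb, smul_smul, inv_mul_cancel₀ (hc0 s), one_smul]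
      exact g4
    have e2 : ∀ᶠ z : ((Fin 3 → ℝ) × (Fin 3 → ℝ)) × ↥(Icc (-δ) δ) in 𝓝 ((x₀, x₀), s),
        α (Φ (z.1, z.2)) ≠ 0 := (hα.comp hΦ).continuousAt.eventually_ne hαne
    have e3 : ∀ᶠ z : ((Fin 3 → ℝ) × (Fin 3 → ℝ)) × ↥(Icc (-δ) δ) in 𝓝 ((x₀, x₀), s),
        |β (Φ (z.1, z.2)) / α (Φ (z.1, z.2)) - z.2| < ε := by
      have h1 : ContinuousAt (fun z : ((Fin 3 → ℝ) × (Fin 3 → ℝ)) × ↥(Icc (-δ) δ) =>
          |β (Φ (z.1, z.2)) / α (Φ (z.1, z.2)) - z.2|) ((x₀, x₀), s) :=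
        (((hβ.comp hΦ).continuousAt.div (hα.comp hΦ).continuousAt hαne).sub
          (continuous_subtype_val.comp continuous_snd).continuousAt).abs
      refine h1.eventually (gt_mem_nhds ?_)
      simp only
      rw [hαb, hβb, mul_div_cancel_left₀ _ (hc0 s), sub_self, abs_zero]
      exact hε
    have e4 : ∀ᶠ z : ((Fin 3 → ℝ) × (Fin 3 → ℝ)) × ↥(Icc (-δ) δ) in 𝓝 ((x₀, x₀), s),
        C.T z.1.1 z.1.1 (γ' z.2) ≠ 0 :=
      (C.continuous_comp (continuous_fst.comp continuous_fst) (continuous_fst.comp continuous_fst)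
        (hγ'c.comp continuous_snd)).continuousAt.eventually_ne (hne s s.2)
    have e5 : ∀ᶠ z : ((Fin 3 → ℝ) × (Fin 3 → ℝ)) × ↥(Icc (-δ) δ) in 𝓝 ((x₀, x₀), s),
        C.T z.1.2 z.1.2 (γ' z.2) ≠ 0 :=
      (C.continuous_comp (continuous_snd.comp continuous_fst) (continuous_snd.comp continuous_fst)
        (hγ'c.comp continuous_snd)).continuousAt.eventually_ne (hne s s.2)
    have e6 : ∀ᶠ z : ((Fin 3 → ℝ) × (Fin 3 → ℝ)) × ↥(Icc (-δ) δ) in 𝓝 ((x₀, x₀), s),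
        C.T z.1.1 z.1.1 (Ψ (z.1, z.2)) ≠ 0 := by
      refine (C.continuous_comp (continuous_fst.comp continuous_fst)
        (continuous_fst.comp continuous_fst) hΨ).continuousAt.eventually_ne ?_
      change C.T x₀ x₀ (C.T x₀ (γ s) (γ s) • x₀ - C.T x₀ x₀ (γ s) • γ s) ≠ 0
      rw [map_sub, map_smul, map_smul, hx₀, smul_zero, zero_sub, smul_eq_mul]
      exact neg_ne_zero.2 (mul_ne_zero (hne s s.2) (hne s s.2))
    filter_upwards [e1, e2, e3, e4, e5, e6] with z a1 a2 a3 a4 a5 a6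
    exact ⟨a1, a2, a3, a4, a5, a6⟩
  obtain ⟨u, hu, v, hv, huv⟩ := mem_nhds_prod_iff.1 hev
  refine ⟨u ∩ v, inter_mem hu hv, fun x hx x' hx' hx0 hx'0 s hs => ?_⟩
  obtain ⟨a1, a2, a3, a4, a5, a6⟩ := huv (show (x, x') ∈ u ×ˢ v from ⟨hx.1, hx'.2⟩) ⟨s, hs⟩
    (mem_univ _)
  refine ⟨a2, a3, a4, a5, a6, fun hσ => ?_⟩
  set z := C.mm x (C.mm x' (γ s)) with hz
  have hzΦ : Φ ((x, x'), ⟨s, hs⟩) = z := rfl
  rw [hzΦ] at a1 a2
  have hcs := hc0 ⟨s, hs⟩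
  have hz0 : C.T z z z = 0 := mm_zero hx0 (mm_zero hx'0 (hγ' s (hsub hs)).1)
  obtain ⟨-, h2⟩ := harc _ a1 (by
    simp only [map_smul, LinearMap.smul_apply, smul_eq_mul, hz0, mul_zero])
  have h3 : β ((c ⟨s, hs⟩)⁻¹ • z) / α ((c ⟨s, hs⟩)⁻¹ • z) = β z / α z := by
    rw [map_smul, map_smul, smul_eq_mul, smul_eq_mul, mul_div_mul_left _ _ (inv_ne_zero hcs)]
  rw [h3] at h2
  have h4 := h2 hσ
  have h5 : z = c ⟨s, hs⟩ • ((c ⟨s, hs⟩)⁻¹ • z) := by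
    rw [smul_smul, mul_inv_cancel₀ hcs, one_smul]
  conv_lhs => rw [h5, h4]
  rw [map_smul, smul_eq_mul, smul_smul, ← mul_assoc, mul_inv_cancel₀ hcs, one_mul]

end Cub

end Pool.Agent.MZ
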