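import Mathlib
import Pool.Agent.MZ.Defs
import Pool.Agent.MZ.Basic

/-!
# MZ module NOFIX: a translation of a plane cubic has no fixed points

(uses the stubs of `Basic`)

PROOF. `w = mm x' y = T x' y y • x' - T x' x' y • y`. Suppose `mm x w = c • y`, `c ≠ 0`, i.e.
`T x w w • x - T x x w • w = c • y`. `y ≠ 0` (smooth). `x'` and `y` are linearly independent: `T x' x' y ≠ 0`,
`T x' x' x' = 0`, `x' ≠ 0`.
Case 1: `x` is not in the span of `x', y`. As `w` and `y` are in this span, `T x w w = 0`, so
`-(T x x w) w = c y`, `w = κ y`, `κ ≠ 0`. By independence `T x' y y = 0`. And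
`0 = T x w w = κ² T x y y`, so `T x y y = 0`. Then the linear form `T y y` vanishes at `x, x', y`, three
linearly independent vectors of `ℝ³` (`x` is not in the span of the independent `x', y`), so it is zero
(`basisOfLinearIndependentOfCardEqFinrank` or `LinearIndependent.span_eq_top_of_card_eq_finrank`), a contradiction to
`hsm`.
Case 2: `x = a x' + b y`, `b ≠ 0` (independence of `x, x'`), so `y = a' x + b' x'` with `a' ≠ 0`. `b' ≠ 0`
(otherwise `T x x y = a' T x x x = 0`). With `A = T x x x'`, `B = T x x' x'`: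
`0 = T y y y = 3 a' b' (a' A + b' B)`, so `a' A + b' B = 0`; `A ≠ 0` or `B ≠ 0` by `hne`, hence both.
`T x' y y = a'² A + 2 a' b' B + 0 = a' b' B`, `T x' x' y = a' B`, so
`w = a' b' B x' - a' B (a' x + b' x') = - a'² B x`, a multiple of `x`, so `mm x w = 0` (`T x x x = 0`;
`mm_smul_right`, `mm x x = 0`) `≠ c y`: contradiction.
About 100 lines.
-/

set_option autoImplicit false

open Set Topology Filter MvPolynomial

namespace Pool.Agent.MZ

namespace Cub

variable {C : Cub 3}

private theorem nofix_span {x y z : Fin 3 → ℝ}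
    (h : ∀ a b c : ℝ, a • x + b • y + c • z = 0 → a = 0 ∧ b = 0 ∧ c = 0) (u : Fin 3 → ℝ) :
    ∃ a b c : ℝ, u = a • x + b • y + c • z := by
  have hli : LinearIndependent ℝ ![x, y, z] := by
    rw [Fintype.linearIndependent_iff]
    intro g hg
    rw [Fin.sum_univ_three] at hg
    simp only [Matrix.cons_val_zero, Matrix.cons_val_one, Matrix.cons_val] at hg
    obtain ⟨h0, h1, h2⟩ := h _ _ _ hg
    intro i
    fin_cases i
    · exact h0
    · exact h1
    · exact h2
  let b := basisOfLinearIndependentOfCardEqFinrank hli (by simp)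
  have hb : ∀ i, b i = ![x, y, z] i := fun i => by
    simp only [b, coe_basisOfLinearIndependentOfCardEqFinrank]
  have hb0 : b 0 = x := hb 0
  have hb1 : b 1 = y := hb 1
  have hb2 : b 2 = z := hb 2
  refine ⟨b.repr u 0, b.repr u 1, b.repr u 2, ?_⟩
  have := b.sum_repr u
  rw [Fin.sum_univ_three, hb0, hb1, hb2] at this
  exact this.symm

theorem no_fix {x x' y : Fin 3 → ℝ} (hx : C.T x x x = 0) (hx' : C.T x' x' x' = 0)
    (hind : ∀ a b : ℝ, a • x + b • x' = 0 → a = 0 ∧ b = 0)
    (hne : ¬ (C.T x x x' = 0 ∧ C.T x x' x' = 0)) (hy : C.T y y y = 0)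
    (hsm : ∃ u, C.T y y u ≠ 0) (h1 : C.T x x y ≠ 0) (h2 : C.T x' x' y ≠ 0) {c : ℝ} (hc : c ≠ 0) :
    C.mm x (C.mm x' y) ≠ c • y := by
  intro heq
  set p := C.T x' y y with hp
  set q := C.T x' x' y with hq
  set w := C.mm x' y with hw
  have hwdef : w = p • x' - q • y := rfl
  have hmm : C.mm x w = C.T x w w • x - C.T x x w • w := rfl
  have hy0 : y ≠ 0 := by
    rintro rfl
    exact h1 (by simp)
  have hx'0 : x' ≠ 0 := by
    rintro rfl
    exact h2 (by simp [hq])
  have hind' : ∀ a b : ℝ, a • x' + b • y = 0 → a = 0 ∧ b = 0 := by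
    intro a b hab
    have e1 := congrArg (C.T x' x') hab
    rw [map_add, map_smul, map_smul, map_zero, hx', smul_zero, zero_add, smul_eq_mul] at e1
    have hb : b = 0 := (mul_eq_zero.1 e1).resolve_right h2
    rw [hb, zero_smul, add_zero] at hab
    exact ⟨(smul_eq_zero.1 hab).resolve_right hx'0, hb⟩
  by_cases hcase : ∃ a b : ℝ, x = a • x' + b • y
  · -- case 2
    obtain ⟨a, b, hab⟩ := hcase
    have hb : b ≠ 0 := by
      rintro rfl
      have := hind 1 (-a) (by rw [hab]; module)
      exact one_ne_zero this.1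
    have hy1 : y = b⁻¹ • x + (-(b⁻¹ * a)) • x' := by
      rw [hab, smul_add, smul_smul, smul_smul, inv_mul_cancel₀ hb]
      module
    set a' := b⁻¹ with ha'
    set b' := -(a' * a) with hb'
    have ha'0 : a' ≠ 0 := inv_ne_zero hb
    set A := C.T x x x' with hA
    set B := C.T x x' x' with hB
    have s1 : C.T x x' x = A := by rw [C.sym₂]
    have s2 : C.T x' x x = A := by rw [C.sym₁, s1]
    have s3 : C.T x' x x' = B := by rw [C.sym₁]
    have s4 : C.T x' x' x = B := by rw [C.sym₂, s3]
    have e1 : C.T x x y = b' * A := by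
      rw [hy1]
      simp only [map_add, map_smul, smul_eq_mul, hx]
      ring
    have hb'0 : b' ≠ 0 := by
      intro h
      rw [e1, h, zero_mul] at h1
      exact h1 rfl
    have e2 : C.T y y y = 3 * a' * b' * (a' * A + b' * B) := by
      rw [hy1]
      simp only [map_add, map_smul, LinearMap.add_apply, LinearMap.smul_apply, smul_eq_mul, hx,
        hx', s1, s2, s3, s4, ← hA, ← hB]
      ring
    have e3 : a' * A + b' * B = 0 := by
      rw [e2] at hy
      have : (3 * a' * b' : ℝ) ≠ 0 := by
        refine mul_ne_zero (mul_ne_zero (by norm_num) ha'0) hb'0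
      exact (mul_eq_zero.1 hy).resolve_left this
    have e4 : p = a' * b' * B := by
      have : p = a' ^ 2 * A + 2 * a' * b' * B := by
        rw [hp, hy1]
        simp only [map_add, map_smul, LinearMap.add_apply, LinearMap.smul_apply, smul_eq_mul, hx,
          hx', s1, s2, s3, s4, ← hA, ← hB]
        ring
      rw [this]
      linear_combination a' * e3
    have e5 : q = a' * B := by
      rw [hq, hy1]
      simp only [map_add, map_smul, LinearMap.add_apply, LinearMap.smul_apply, smul_eq_mul, hx,
        hx', s1, s2, s3, s4, ← hA, ← hB]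
      ring
    have e6 : w = (-(a' ^ 2 * B)) • x := by
      rw [hwdef, e4, e5, hy1]
      module
    have e7 : C.mm x w = 0 := by
      rw [hmm, e6]
      simp only [map_smul, LinearMap.smul_apply, smul_eq_mul, hx, mul_zero, zero_smul, sub_zero]
    rw [e7] at heq
    exact hy0 ((smul_eq_zero.1 heq.symm).resolve_left hc)
  · -- case 1
    rw [hmm] at heq
    have t1 : C.T x w w = 0 := by
      by_contra hne'
      apply hcase
      refine ⟨(C.T x w w)⁻¹ * (C.T x x w * p), (C.T x w w)⁻¹ * (c - C.T x x w * q), ?_⟩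
      have e1 : C.T x w w • x = c • y + C.T x x w • w := by
        rw [← heq]; module
      have e2 : x = (C.T x w w)⁻¹ • (C.T x w w • x) := by
        rw [smul_smul, inv_mul_cancel₀ hne', one_smul]
      conv_lhs => rw [e2, e1]
      conv_lhs => rw [show C.T x x w • w = C.T x x w • (p • x' - q • y) from rfl]
      module
    rw [t1, zero_smul, zero_sub] at heq
    set r := C.T x x w with hr
    have e1 : (r * p) • x' + (c - r * q) • y = 0 := by
      have e2 : c • y + r • w = 0 := by rw [← heq]; module
      rw [← e2, hwdef]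
      module
    obtain ⟨e2, e3⟩ := hind' _ _ e1
    have hr0 : r ≠ 0 := by
      intro h
      rw [h, zero_mul, sub_zero] at e3
      exact hc e3
    have hp0 : p = 0 := (mul_eq_zero.1 e2).resolve_left hr0
    have hwq : w = (-q) • y := by
      rw [hwdef, hp0]; module
    have e4 : C.T x y y = 0 := by
      rw [hwq] at t1
      simp only [map_smul, LinearMap.smul_apply, smul_eq_mul] at t1
      rcases mul_eq_zero.1 t1 with h | h
      · exact absurd (neg_eq_zero.1 h) h2
      · rcases mul_eq_zero.1 h with h | h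
        · exact absurd (neg_eq_zero.1 h) h2
        · exact h
    obtain ⟨u, hu⟩ := hsm
    apply hu
    have hli : ∀ a b e : ℝ, a • x + b • x' + e • y = 0 → a = 0 ∧ b = 0 ∧ e = 0 := by
      intro a b e habe
      have ha : a = 0 := by
        by_contra ha
        apply hcase
        refine ⟨-(a⁻¹ * b), -(a⁻¹ * e), ?_⟩
        have f1 : a • x = -(b • x' + e • y) := by
          rw [eq_neg_iff_add_eq_zero, ← habe]; module
        have f2 : x = a⁻¹ • (a • x) := by rw [smul_smul, inv_mul_cancel₀ ha, one_smul]
        conv_lhs => rw [f2, f1]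
        module
      rw [ha, zero_smul, zero_add] at habe
      exact ⟨ha, hind' _ _ habe⟩
    obtain ⟨a, b, e, hu'⟩ := nofix_span hli u
    rw [hu']
    simp only [map_add, map_smul, smul_eq_mul]
    have g1 : C.T y y x = 0 := by rw [C.sym₂, C.sym₁]; exact e4
    have g2 : C.T y y x' = 0 := by rw [C.sym₂, C.sym₁]; exact hp0
    rw [g1, g2, hy]
    ring

end Cub

end Pool.Agent.MZ
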