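import Mathlib

/-!
# MZ module ORD (Mathlib only): closed sets invariant under small fixed point free translations

PROOF. Suppose `s₁ ∈ Icc 0 δ`, `s₁ ∉ S`; `s₁ > 0` as `0 ∈ S`. Let `a = sSup (S ∩ Icc 0 s₁)`; `a ∈ S` (closed,
nonempty, bounded), `0 ≤ a < s₁`, and no point of `(a, s₁]` is in `S`. Apply `H` with
`ε = min (s₁ - a) δ`. `g s - s` is continuous and has no zero on `Icc (-δ) δ`, so it has constant sign there
(intermediate value theorem, `IsPreconnected`), the same for `g'`.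
If `g s > s` on `Icc (-δ) δ`: `a < g a < a + ε ≤ s₁`, so `g a ∈ Icc (-δ) δ`, `g a ∈ S`: contradiction. The same
if `g' s > s`. If `g s < s` and `g' s < s` on `Icc (-δ) δ`: `-δ ≤ -ε < g 0 < 0`, so `g 0 ∈ Icc (-δ) δ` and
`0 = g' (g 0) < g 0 < 0`: contradiction.
About 60 lines.
-/

set_option autoImplicit false

open Set Topology Filter

namespace Pool.Agent.MZ

private theorem ord_sign {δ : ℝ} {f : ℝ → ℝ} (hf : ContinuousOn f (Icc (-δ) δ))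
    (hne : ∀ s ∈ Icc (-δ) δ, f s ≠ s) :
    (∀ s ∈ Icc (-δ) δ, s < f s) ∨ ∀ s ∈ Icc (-δ) δ, f s < s := by
  by_contra hcon
  rw [not_or] at hcon
  push Not at hcon
  obtain ⟨⟨s, hs, hs'⟩, t, ht, ht'⟩ := hcon
  have hc : ContinuousOn (fun x => f x - x) (Icc (-δ) δ) := hf.sub continuousOn_id
  have hi := isPreconnected_Icc.intermediate_value hs ht hc
  obtain ⟨x, hx, hx0⟩ := hi (show (0 : ℝ) ∈ Icc (f s - s) (f t - t) from
    ⟨by linarith, by linarith⟩)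
  exact hne x hx (by simp only at hx0; linarith)

theorem ord_lemma {δ : ℝ} (hδ : 0 < δ) {S : Set ℝ} (hS : IsClosed S) (h0 : (0 : ℝ) ∈ S)
    (H : ∀ ε > 0, ∃ g g' : ℝ → ℝ, ContinuousOn g (Icc (-δ) δ) ∧ ContinuousOn g' (Icc (-δ) δ) ∧
      (∀ s ∈ Icc (-δ) δ, |g s - s| < ε ∧ |g' s - s| < ε ∧ g s ≠ s ∧ g' s ≠ s) ∧
      (∀ s ∈ Icc (-δ) δ, g s ∈ Icc (-δ) δ → g' (g s) = s) ∧
      (∀ s ∈ Icc (-δ) δ, s ∈ S → g s ∈ Icc (-δ) δ → g s ∈ S) ∧
      ∀ s ∈ Icc (-δ) δ, s ∈ S → g' s ∈ Icc (-δ) δ → g' s ∈ S) :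
    Icc 0 δ ⊆ S := by
  intro s₁ hs₁
  by_contra hns
  have hs0 : 0 < s₁ := by
    rcases hs₁.1.lt_or_eq with h | h
    · exact h
    · exact absurd (h ▸ h0) hns
  have hAne : (S ∩ Icc 0 s₁).Nonempty := ⟨0, h0, le_rfl, hs0.le⟩
  have hAb : BddAbove (S ∩ Icc 0 s₁) := ⟨s₁, fun x hx => hx.2.2⟩
  have hAc : IsClosed (S ∩ Icc 0 s₁) := hS.inter isClosed_Icc
  have haA : sSup (S ∩ Icc 0 s₁) ∈ S ∩ Icc 0 s₁ := hAc.csSup_mem hAne hAb
  set a := sSup (S ∩ Icc 0 s₁) with ha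
  have ha0 : 0 ≤ a := haA.2.1
  have ha1 : a < s₁ := lt_of_le_of_ne haA.2.2 (fun h => hns (h ▸ haA.1))
  have hmax : ∀ x ∈ S, a < x → x ≤ s₁ → False := fun x hx h1 h2 =>
    absurd (le_csSup hAb ⟨hx, by linarith, h2⟩) (not_le.2 h1)
  obtain ⟨g, g', hg, hg', h1, h2, h3, h4⟩ := H (min (s₁ - a) δ) (lt_min (by linarith) hδ)
  have haI : a ∈ Icc (-δ) δ := ⟨by linarith, by linarith [hs₁.2]⟩
  have h0I : (0 : ℝ) ∈ Icc (-δ) δ := ⟨by linarith, by linarith⟩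
  have key : ∀ f : ℝ → ℝ, |f a - a| < min (s₁ - a) δ → a < f a →
      (f a ∈ Icc (-δ) δ → f a ∈ S) → False := by
    intro f hf1 hf2 hf3
    have e1 := (abs_lt.1 hf1).2
    have e2 := min_le_left (s₁ - a) δ
    have e3 : f a < s₁ := by linarith
    exact hmax (f a) (hf3 ⟨by linarith, by linarith [hs₁.2]⟩) hf2 e3.le
  rcases ord_sign hg (fun s hs => (h1 s hs).2.2.1) with hu | hd
  · exact key g (h1 a haI).1 (hu a haI) (h3 a haI haA.1)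
  rcases ord_sign hg' (fun s hs => (h1 s hs).2.2.2) with hu' | hd'
  · exact key g' (h1 a haI).2.1 (hu' a haI) (h4 a haI haA.1)
  have e1 := (abs_lt.1 (h1 0 h0I).1).1
  have e2 := min_le_right (s₁ - a) δ
  have e3 := hd 0 h0I
  have hgI : g 0 ∈ Icc (-δ) δ := ⟨by linarith, by linarith⟩
  have e4 := h2 0 h0I hgI
  have e5 := hd' (g 0) hgI
  linarith

end Pool.Agent.MZ
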