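import Mathlib

/-!
# MZ module QUART (Mathlib only): a rational quartic polynomial with an irrational double root

PROOF. `y₀` is algebraic over `ℚ`; `g = minpoly ℚ y₀` is monic, irreducible, `g.natDegree ≥ 2` because `y₀` is
not rational (`minpoly.natDegree_eq_one_iff`, or: degree 1 means `y₀ = -g(0)`). `g ∣ δ`
(`minpoly.dvd`): `δ = g * h`, `derivative δ = derivative g * h + g * derivative h`; at `y₀`:
`g'(y₀) * h(y₀) = 0`, `g'(y₀) ≠ 0` (`g' ≠ 0` has smaller degree than the minimal polynomial: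
`minpoly.degree_le_of_ne_zero`/`minpoly.dvd` and degrees), so `h(y₀) = 0`, `h = g * k`, `δ = g² * k`. Degrees:
`2 * g.natDegree + k.natDegree ≤ 4`, so `g.natDegree = 2`, `k.natDegree = 0`, `k = C c`, `c ≠ 0`.
`g = X² + C g₁ * X + C g₀` (monic of degree 2: `Polynomial.as_sum_range'`/`Monic`...). A rational root `r` of `g`
would give `X - C r ∣ g`, impossible for an irreducible polynomial of degree 2 (`y₀` root of the other
factor would be rational: `(y₀ - r) (y₀ - r') = 0`).
About 60 lines.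
-/

set_option autoImplicit false

open Polynomial

namespace Pool.Agent.MZ

theorem quartic_square {δ : ℚ[X]} (hdeg : δ.natDegree ≤ 4) (h0 : δ ≠ 0) {y₀ : ℝ}
    (hirr : ∀ r : ℚ, y₀ ≠ (r : ℝ)) (h1 : aeval y₀ δ = 0)
    (h2 : aeval y₀ (derivative δ) = 0) :
    ∃ c g₁ g₀ : ℚ, c ≠ 0 ∧
      δ = Polynomial.C c * (X ^ 2 + Polynomial.C g₁ * X + Polynomial.C g₀) ^ 2 ∧
      ∀ r : ℚ, r ^ 2 + g₁ * r + g₀ ≠ 0 := by
  have hint : IsIntegral ℚ y₀ := isAlgebraic_iff_isIntegral.1 ⟨δ, h0, h1⟩
  obtain ⟨g, hg⟩ : ∃ g : ℚ[X], g = minpoly ℚ y₀ := ⟨_, rfl⟩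
  have hmon : g.Monic := by rw [hg]; exact minpoly.monic hint
  have hirred : Irreducible g := by rw [hg]; exact minpoly.irreducible hint
  have hroot : aeval y₀ g = 0 := by rw [hg]; exact minpoly.aeval ℚ y₀
  have hg2 : 2 ≤ g.natDegree := by
    have h3 : 0 < g.natDegree := by rw [hg]; exact minpoly.natDegree_pos hint
    have h4 : g.natDegree ≠ 1 := by
      intro h
      rw [hg, minpoly.natDegree_eq_one_iff] at h
      obtain ⟨r, hr⟩ := h
      exact hirr r (by rw [← hr]; simp)
    omega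
  have hder : aeval y₀ (derivative g) ≠ 0 :=
    hirred.separable.aeval_derivative_ne_zero hroot
  obtain ⟨h, hh⟩ : g ∣ δ := by rw [hg]; exact minpoly.dvd ℚ y₀ h1
  have hh0 : aeval y₀ h = 0 := by
    rw [hh, derivative_mul, map_add, map_mul, map_mul, hroot, zero_mul, add_zero] at h2
    exact (mul_eq_zero.1 h2).resolve_left hder
  obtain ⟨k, hk⟩ : g ∣ h := by rw [hg]; exact minpoly.dvd ℚ y₀ hh0
  have hδ : δ = g * g * k := by rw [hh, hk, mul_assoc]
  have hg0 : g ≠ 0 := hmon.ne_zero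
  have hk0 : k ≠ 0 := by
    intro h
    rw [hδ, h, mul_zero] at h0
    exact h0 rfl
  have hnd : δ.natDegree = g.natDegree + g.natDegree + k.natDegree := by
    rw [hδ, natDegree_mul (mul_ne_zero hg0 hg0) hk0, natDegree_mul hg0 hg0]
  have hgd : g.natDegree = 2 := by omega
  have hkd : k.natDegree = 0 := by omega
  have hkC := eq_C_of_natDegree_eq_zero hkd
  have hgs : g = X ^ 2 + Polynomial.C (g.coeff 1) * X + Polynomial.C (g.coeff 0) := by
    have h3 := hmon.as_sum
    rw [hgd, Finset.sum_range_succ, Finset.sum_range_one] at h3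
    rw [pow_zero, mul_one, pow_one] at h3
    rw [add_assoc, add_comm (Polynomial.C (g.coeff 1) * X)]
    exact h3
  refine ⟨k.coeff 0, g.coeff 1, g.coeff 0, ?_, ?_, ?_⟩
  · intro h
    rw [h, Polynomial.C_0] at hkC
    exact hk0 hkC
  · rw [← hkC, ← hgs, hδ]
    ring
  · intro r hr
    have h3 : g.IsRoot r := by
      rw [IsRoot.def, hgs]
      simp only [eval_add, eval_mul, eval_pow, eval_X, eval_C]
      exact hr
    have h4 := degree_eq_one_of_irreducible_of_root hirred h3
    rw [degree_eq_natDegree hg0, hgd] at h4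
    exact absurd h4 (by norm_num)

end Pool.Agent.MZ
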