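import Mathlib
import Pool.Agent.MZ.Defs
import Pool.Agent.MZ.RatAlg
import Pool.Agent.MZ.RatD
import Pool.Agent.MZ.Basic
import Pool.Agent.MZ.Pq
import Pool.Agent.MZ.Compl
import Pool.Agent.MZ.Quart

/-!
# MZ module SREAL: plane cubics over ℚ with two rational points and no rational singular point are
smooth at all real points

(uses the stubs of `RatAlg`, `RatD`, `Basic`, `Pq`, `quartic_square`)

PROOF of `exists_frame`. `p i ≠ 0` for some `i`; let `j, k` be the other two indices. `e₁ = Pi.single j 1`,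
`e₂ = Pi.single k 1`, `α v = v j - (v i / p i) * p j`, `β v = v k - (v i / p i) * p k`, and
`v = (v i / p i) • p + α v • e₁ + β v • e₂` (`fin_cases i`).

PROOF of `no_real_sing` (`s₀ ≠ 0` singular, `α s₀ ≠ 0`). Notation: `ℓ v = T p p v`, `q v = T p v v`, `F v = T v v v`,
`Δ v = 9 (q v)² - 12 ℓ v F v`. `Δ (v + t p) = Δ v` (as `F p = 0`: `q (v + t p) = q v + 2 t ℓ v`,
`F (v + t p) = F v + 3 t q v + 3 t² ℓ v`), `Δ (c v) = c⁴ Δ v`.
Let `s = (α s₀)⁻¹ • s₀`, also singular, `α s = 1`, `y₀ = β s`, `s = f + t₁ p`, `f = e₁ + y₀ e₂`. `F s = 0`,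
`q s = T s s p = 0`. Let `δ : ℚ[X]` with `aeval y δ = Δ (e₁ + y e₂)` for all real `y`, `natDegree ≤ 4` (expand: all the
coefficients are rational; `q (e₁ + y e₂) = q e₁ + 2 y T p e₁ e₂ + y² q e₂`, ...). With `h = y - y₀`:
`aeval y δ = Δ (e₁ + y e₂ + t₁ p) = Δ (s + h e₂)` and `q (s + h e₂) = 2 h T p s e₂ + h² q e₂`,
`F (s + h e₂) = 3 h² T s e₂ e₂ + h³ F e₂`, so `aeval y δ = h² * (polynomial in h)`: value and derivative of `δ`
at `y₀` are zero.
`δ ≠ 0`: otherwise `Δ (e₁ + y e₂) = 0` for all `y`, so `Δ (a e₁ + b e₂) = 0` for `a ≠ 0`, then for all `a, b`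
(continuity), so `Δ v = 0` for all `v`: `q v * q v = (12/9) ℓ v * F v`; `zero_of_mul` gives `q = 0`, and
`q (p + u) - q p - q u = 2 ℓ u`, so `ℓ = 0`, but `p` is smooth (`hns`).
Case `y₀ = r` rational: `f` is rational. `0 = q s = q f + 2 t₁ ℓ f`. If `ℓ f ≠ 0`, `t₁` is rational, and `s` is a
rational singular point `≠ 0`: contradiction to `hns`. If `ℓ f = 0`: `q f = 0`, `0 = F s = F f`. The rational
linear form `lam = β - r • α` is not zero (`lam e₂ = 1`), and if `lam x = 0` then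
`x = t p + α x • f` and `F x = 0` (all terms vanish): contradiction to `exists_isRat_ker`.
Case `y₀` irrational: `quartic_square`: `c, g₁, g₀`. Let `G v = (β v)² + g₁ α v β v + g₀ (α v)²`, `PolyQ 3 2 G`. Then
`Δ v = c (G v)²` for all `v`: for `α v ≠ 0`, `Δ v = Δ (α v • e₁ + β v • e₂) = (α v)⁴ δ (β v / α v)`; for `α v = 0` by
continuity (`v + ε e₁`). For `p'`: `α p'`, `β p'` are rational, not both zero (else `p' = t • p`), so `G p' ≠ 0`
(if `α p' ≠ 0`: `G p' = (α p')² (r² + g₁ r + g₀)` with `r = β p' / α p'`; otherwise `G p' = (β p')²`), and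
`9 (q p')² = Δ p' = c (G p')²`. So `c = d²`, `d = 3 q p' / G p'` rational.
`(3 q v - d G v) (3 q v + d G v) = 9 (q v)² - Δ v = 12 ℓ v F v` for all `v`. `zero_of_mul`: one of the factors is
identically zero, so `ℓ v * F v = 0` for all `v`; `{ℓ ≠ 0}` is dense (`PolyR.dense_ne`), so `F = 0`
everywhere (continuity), so `pol = 0`, contradiction (`exists_isRat_ker` gives a point with `F x ≠ 0`).

PROOF of `smooth_real`. `exists_frame`; `x ≠ 0` singular: `α x ≠ 0`, or `β x ≠ 0` (exchange `e₁, e₂`), or `x = t p`,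
`t ≠ 0`, but `p` is smooth.
About 250 lines.
-/

set_option autoImplicit false

open Set Topology Filter MvPolynomial

namespace Pool.Agent.MZ

theorem exists_frame {p : Fin 3 → ℝ} (hp : IsRat p) (h0 : p ≠ 0) :
    ∃ (α β : (Fin 3 → ℝ) →ₗ[ℝ] ℝ) (e₁ e₂ : Fin 3 → ℝ), (∀ x, IsRat x → IsQ (α x)) ∧
      (∀ x, IsRat x → IsQ (β x)) ∧ IsRat e₁ ∧ IsRat e₂ ∧ α p = 0 ∧ β p = 0 ∧ α e₁ = 1 ∧
      β e₁ = 0 ∧ α e₂ = 0 ∧ β e₂ = 1 ∧ ∀ v, ∃ t : ℝ, v = t • p + α v • e₁ + β v • e₂ := by
  have hi : ∃ i, p i ≠ 0 := by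
    by_contra hcon
    push Not at hcon
    exact h0 (funext hcon)
  have key : ∀ i j k : Fin 3, i ≠ j → i ≠ k → j ≠ k → (∀ l : Fin 3, l = i ∨ l = j ∨ l = k) →
      p i ≠ 0 → ∃ (α β : (Fin 3 → ℝ) →ₗ[ℝ] ℝ) (e₁ e₂ : Fin 3 → ℝ),
      (∀ x, IsRat x → IsQ (α x)) ∧
      (∀ x, IsRat x → IsQ (β x)) ∧ IsRat e₁ ∧ IsRat e₂ ∧ α p = 0 ∧ β p = 0 ∧ α e₁ = 1 ∧
      β e₁ = 0 ∧ α e₂ = 0 ∧ β e₂ = 1 ∧ ∀ v, ∃ t : ℝ, v = t • p + α v • e₁ + β v • e₂ := by
    intro i j k hij hik hjk hall hpi
    have hpQ := isRat_iff.mp hp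
    set π : Fin 3 → ((Fin 3 → ℝ) →ₗ[ℝ] ℝ) := fun l => LinearMap.proj l with hπ
    have hπa : ∀ l x, π l x = x l := fun l x => rfl
    refine ⟨π j - (p j / p i) • π i, π k - (p k / p i) • π i, Pi.single j 1, Pi.single k 1,
      ?_, ?_, IsRat.single j, IsRat.single k, ?_, ?_, ?_, ?_, ?_, ?_, ?_⟩
    · intro x hx
      have hxQ := isRat_iff.mp hx
      exact (hxQ j).sub (((hpQ j).div (hpQ i)).mul (hxQ i))
    · intro x hx
      have hxQ := isRat_iff.mp hx
      exact (hxQ k).sub (((hpQ k).div (hpQ i)).mul (hxQ i))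
    · simp only [LinearMap.sub_apply, LinearMap.smul_apply, smul_eq_mul, hπa]
      field_simp
      ring
    · simp only [LinearMap.sub_apply, LinearMap.smul_apply, smul_eq_mul, hπa]
      field_simp
      ring
    · simp only [LinearMap.sub_apply, LinearMap.smul_apply, smul_eq_mul, hπa, Pi.single_eq_same,
        Pi.single_eq_of_ne hij]
      ring
    · simp only [LinearMap.sub_apply, LinearMap.smul_apply, smul_eq_mul, hπa,
        Pi.single_eq_of_ne hij, Pi.single_eq_of_ne hjk.symm]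
      ring
    · simp only [LinearMap.sub_apply, LinearMap.smul_apply, smul_eq_mul, hπa,
        Pi.single_eq_of_ne hik, Pi.single_eq_of_ne hjk]
      ring
    · simp only [LinearMap.sub_apply, LinearMap.smul_apply, smul_eq_mul, hπa, Pi.single_eq_same,
        Pi.single_eq_of_ne hik]
      ring
    · intro v
      refine ⟨v i / p i, ?_⟩
      funext l
      simp only [LinearMap.sub_apply, LinearMap.smul_apply, smul_eq_mul, hπa, Pi.add_apply,
        Pi.smul_apply]
      rcases hall l with rfl | rfl | rfl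
      · rw [Pi.single_eq_of_ne hij, Pi.single_eq_of_ne hik]
        field_simp
        ring
      · rw [Pi.single_eq_same, Pi.single_eq_of_ne hjk]
        field_simp
        ring
      · rw [Pi.single_eq_same, Pi.single_eq_of_ne hjk.symm]
        field_simp
        ring
  obtain ⟨i, hi⟩ := hi
  fin_cases i
  · exact key 0 1 2 (by decide) (by decide) (by decide) (by decide) hi
  · exact key 1 0 2 (by decide) (by decide) (by decide) (by decide) hi
  · exact key 2 0 1 (by decide) (by decide) (by decide) (by decide) hi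

namespace Cub

variable {C : Cub 3}

/-- the discriminant form -/
private def srD (C : Cub 3) (p v : Fin 3 → ℝ) : ℝ :=
  9 * C.T p v v ^ 2 - 12 * C.T p p v * C.T v v v

private theorem srD_inv {p : Fin 3 → ℝ} (hp : C.T p p p = 0) (v : Fin 3 → ℝ) (t : ℝ) :
    srD C p (v + t • p) = srD C p v := by
  unfold srD
  have i1 : C.T p v p = C.T p p v := C.sym₂ _ _ _
  have i2 : C.T v p p = C.T p p v := by rw [C.sym₁, i1]
  have i3 : C.T v p v = C.T p v v := C.sym₁ _ _ _
  have i4 : C.T v v p = C.T p v v := by rw [C.sym₂, i3]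
  simp only [map_add, map_smul, LinearMap.add_apply, LinearMap.smul_apply, smul_eq_mul, i1, i2,
    i3, i4, hp]
  ring

private theorem srD_smul (p v : Fin 3 → ℝ) (c : ℝ) : srD C p (c • v) = c ^ 4 * srD C p v := by
  unfold srD
  simp only [map_smul, LinearMap.smul_apply, smul_eq_mul]
  ring

/-- polynomial with rational coefficients along a rational line -/
private theorem sr_poly {p a b : Fin 3 → ℝ} (hp : IsRat p) (ha : IsRat a) (hb : IsRat b) :
    ∃ δ : Polynomial ℚ, δ.natDegree ≤ 4 ∧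
      ∀ y : ℝ, Polynomial.aeval y δ = srD C p (a + y • b) := by
  obtain ⟨q0, hq0⟩ := C.rat p a a hp ha ha
  obtain ⟨q1, hq1⟩ := C.rat p a b hp ha hb
  obtain ⟨q2, hq2⟩ := C.rat p b b hp hb hb
  obtain ⟨l0, hl0⟩ := C.rat p p a hp hp ha
  obtain ⟨l1, hl1⟩ := C.rat p p b hp hp hb
  obtain ⟨f0, hf0⟩ := C.rat a a a ha ha ha
  obtain ⟨f1, hf1⟩ := C.rat a a b ha ha hb
  obtain ⟨f2, hf2⟩ := C.rat a b b ha hb hb
  obtain ⟨f3, hf3⟩ := C.rat b b b hb hb hb
  set Q : Polynomial ℚ := Polynomial.C q0 + Polynomial.C (2 * q1) * Polynomial.X +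
    Polynomial.C q2 * Polynomial.X ^ 2 with hQ
  set L : Polynomial ℚ := Polynomial.C l0 + Polynomial.C l1 * Polynomial.X with hL
  set F : Polynomial ℚ := Polynomial.C f0 + Polynomial.C (3 * f1) * Polynomial.X +
    Polynomial.C (3 * f2) * Polynomial.X ^ 2 + Polynomial.C f3 * Polynomial.X ^ 3 with hF
  refine ⟨9 * Q ^ 2 - 12 * L * F, ?_, fun y => ?_⟩
  · have h1 : Q.natDegree ≤ 2 := by rw [hQ]; compute_degree
    have h2 : L.natDegree ≤ 1 := by rw [hL]; compute_degree
    have h3 : F.natDegree ≤ 3 := by rw [hF]; compute_degree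
    refine (Polynomial.natDegree_sub_le _ _).trans (max_le ?_ ?_)
    · have h4 : (9 : Polynomial ℚ) = Polynomial.C 9 := (map_ofNat Polynomial.C 9).symm
      rw [h4]
      refine (Polynomial.natDegree_C_mul_le _ _).trans ?_
      refine (Polynomial.natDegree_pow_le).trans ?_
      omega
    · have h4 : (12 : Polynomial ℚ) = Polynomial.C 12 := (map_ofNat Polynomial.C 12).symm
      rw [h4, mul_assoc]
      refine (Polynomial.natDegree_C_mul_le _ _).trans ?_
      refine (Polynomial.natDegree_mul_le).trans ?_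
      omega
  · unfold srD
    have i1 : C.T p b a = C.T p a b := C.sym₂ _ _ _
    have i2 : C.T b a a = C.T a a b := by rw [C.sym₁, C.sym₂]
    have i3 : C.T a b a = C.T a a b := C.sym₂ _ _ _
    have i4 : C.T b b a = C.T a b b := by rw [C.sym₂, C.sym₁]
    have i5 : C.T b a b = C.T a b b := C.sym₁ _ _ _
    simp only [map_add, map_smul, LinearMap.add_apply, LinearMap.smul_apply, smul_eq_mul, i1, i2,
      i3, i4, i5, hq0, hq1, hq2, hl0, hl1, hf0, hf1, hf2, hf3, map_sub, map_mul, map_pow,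
      hQ, hL, hF, Polynomial.aeval_C, Polynomial.aeval_X, map_ofNat, eq_ratCast]
    ring

theorem no_real_sing (hirr : Irreducible C.pol) (hns : C.NoSing) {p p' : Fin 3 → ℝ}
    (hp : p ∈ C.XQ) (hp0 : p ≠ 0) (hp' : p' ∈ C.XQ) (hpp' : ∀ t : ℝ, p' ≠ t • p)
    {α β : (Fin 3 → ℝ) →ₗ[ℝ] ℝ} {e₁ e₂ : Fin 3 → ℝ} (hα : ∀ x, IsRat x → IsQ (α x))
    (hβ : ∀ x, IsRat x → IsQ (β x)) (he₁ : IsRat e₁) (he₂ : IsRat e₂) (hαp : α p = 0)
    (hβp : β p = 0) (hαe₁ : α e₁ = 1) (hβe₁ : β e₁ = 0) (hαe₂ : α e₂ = 0) (hβe₂ : β e₂ = 1)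
    (hfr : ∀ v, ∃ t : ℝ, v = t • p + α v • e₁ + β v • e₂) {s₀ : Fin 3 → ℝ} (hs₀ : α s₀ ≠ 0) :
    ∃ u, C.T s₀ s₀ u ≠ 0 := by
  by_contra hcon
  push Not at hcon
  have hpF := hp.2
  -- normalise the singular point
  set s : Fin 3 → ℝ := (α s₀)⁻¹ • s₀ with hs
  have hsing : ∀ u, C.T s s u = 0 := by
    intro u
    rw [hs]
    simp only [map_smul, LinearMap.smul_apply, hcon, smul_zero]
  have hαs : α s = 1 := by rw [hs, map_smul, smul_eq_mul, inv_mul_cancel₀ hs₀]
  obtain ⟨t₁, ht₁⟩ := hfr s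
  rw [hαs, one_smul] at ht₁
  set y₀ : ℝ := β s with hy₀
  set f : Fin 3 → ℝ := e₁ + y₀ • e₂ with hf
  have hsf : s = f + t₁ • p := by rw [ht₁, hf]; abel
  have hqs : C.T p s s = 0 := by rw [C.sym₁, C.sym₂, hsing]
  -- the polynomial
  obtain ⟨δ, hδ4, hδ⟩ := sr_poly (C := C) hp.1 he₁ he₂
  have hδs : ∀ y : ℝ, Polynomial.aeval y δ = (y - y₀) ^ 2 *
      (9 * (2 * C.T p s e₂ + (y - y₀) * C.T p e₂ e₂) ^ 2 -
        12 * (C.T p p s + (y - y₀) * C.T p p e₂) *
          (3 * C.T s e₂ e₂ + (y - y₀) * C.T e₂ e₂ e₂)) := by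
    intro y
    have h1 : e₁ + y • e₂ + t₁ • p = s + (y - y₀) • e₂ := by
      rw [hsf, hf]
      module
    rw [hδ, ← srD_inv hpF _ t₁, h1]
    unfold srD
    have i1 : C.T p e₂ s = C.T p s e₂ := C.sym₂ _ _ _
    have i2 : C.T s e₂ s = 0 := by rw [C.sym₂, hsing]
    have i3 : C.T e₂ s s = 0 := by rw [C.sym₁, i2]
    have i4 : C.T e₂ s e₂ = C.T s e₂ e₂ := C.sym₁ _ _ _
    have i5 : C.T e₂ e₂ s = C.T s e₂ e₂ := by rw [C.sym₂, i4]
    simp only [map_add, map_smul, LinearMap.add_apply, LinearMap.smul_apply, smul_eq_mul, hsing,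
      hqs, i1, i2, i3, i4, i5]
    ring
  have hδ0 : Polynomial.aeval y₀ δ = 0 := by
    rw [hδs, sub_self]
    ring
  have hδ1 : Polynomial.aeval y₀ (Polynomial.derivative δ) = 0 := by
    have h1 : HasDerivAt (fun y : ℝ => Polynomial.aeval y δ)
        (Polynomial.aeval y₀ (Polynomial.derivative δ)) y₀ := by
      have := Polynomial.hasDerivAt_aeval (q := δ) (x := y₀)
      exact this
    set R : ℝ → ℝ := fun y => 9 * (2 * C.T p s e₂ + (y - y₀) * C.T p e₂ e₂) ^ 2 -
        12 * (C.T p p s + (y - y₀) * C.T p p e₂) *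
          (3 * C.T s e₂ e₂ + (y - y₀) * C.T e₂ e₂ e₂) with hR
    have h2 : HasDerivAt (fun y : ℝ => (y - y₀) ^ 2 * R y)
        (2 * (y₀ - y₀) ^ 1 * 1 * R y₀ + (y₀ - y₀) ^ 2 * deriv R y₀) y₀ := by
      have h3 : HasDerivAt (fun y : ℝ => (y - y₀) ^ 2) (2 * (y₀ - y₀) ^ 1 * 1) y₀ := by
        simpa using ((hasDerivAt_id y₀).sub_const y₀).fun_pow 2
      have h4 : DifferentiableAt ℝ R y₀ := by
        rw [hR]
        fun_prop
      exact h3.mul h4.hasDerivAt
    have h5 : (fun y : ℝ => Polynomial.aeval y δ) = fun y : ℝ => (y - y₀) ^ 2 * R y := by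
      funext y
      exact hδs y
    rw [h5] at h1
    rw [h1.unique h2, sub_self]
    ring
  have hℓne : ∃ u, C.T p p u ≠ 0 := hns p hp.1 hp0 hpF
  have hq3 : PolyQ 3 2 fun v => C.T p v v := C.polyQ₂ hp.1
  have hℓ3 : PolyQ 3 1 fun v => C.T p p v := C.polyQ₁ hp.1 hp.1
  -- the value of the discriminant
  have hDv : ∀ v, α v ≠ 0 → srD C p v = α v ^ 4 * Polynomial.aeval (β v / α v) δ := by
    intro v hv
    obtain ⟨t, ht⟩ := hfr v
    have h1 : v = α v • (e₁ + (β v / α v) • e₂) + t • p := by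
      rw [smul_add, smul_smul, mul_div_cancel₀ _ hv]
      nth_rewrite 1 [ht]
      abel
    nth_rewrite 1 [h1]
    rw [srD_inv hpF, srD_smul, hδ]
  have hDcont : Continuous fun v => srD C p v := by
    unfold srD
    have c1 := C.continuous_comp (continuous_const (y := p)) (continuous_id (X := Fin 3 → ℝ))
      continuous_id
    have c2 := C.continuous_comp (continuous_const (y := p)) (continuous_const (y := p))
      (continuous_id (X := Fin 3 → ℝ))
    have c3 := C.continuous_comp (continuous_id (X := Fin 3 → ℝ)) continuous_id continuous_id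
    simp only [id] at c1 c2 c3
    fun_prop
  have hαdense : Dense {v : Fin 3 → ℝ | α v ≠ 0} :=
    (PolyR.lin α).dense_ne ⟨e₁, by rw [hαe₁]; exact one_ne_zero⟩
  have hℓF : ¬ ∀ v, C.T p p v * C.T v v v = 0 := by
    intro h
    have h1 : Dense {v : Fin 3 → ℝ | C.T p p v ≠ 0} := (PolyR.lin (C.T p p)).dense_ne hℓne
    have h2 : ∀ v, C.T v v v = 0 := by
      intro v
      have c3 := C.continuous_comp (continuous_id (X := Fin 3 → ℝ)) continuous_id continuous_id
      simp only [id] at c3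
      refine h1.induction (P := fun v => C.T v v v = 0) (fun v hv => ?_)
        (isClosed_eq c3 continuous_const) v
      exact (mul_eq_zero.mp (h v)).resolve_left hv
    obtain ⟨x, -, -, hx⟩ := C.exists_isRat_ker hirr hℓne (fun x hx => C.rat p p x hp.1 hp.1 hx)
    exact hx (h2 x)
  by_cases hrat : ∃ r : ℚ, y₀ = r
  · -- rational direction
    obtain ⟨r, hr⟩ := hrat
    have hfr' : IsRat f := he₁.add (he₂.smul ⟨r, hr⟩)
    have h1 : C.T p f f + 2 * t₁ * C.T p p f = 0 := by
      have h2 := hqs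
      rw [hsf] at h2
      have i1 : C.T p f p = C.T p p f := C.sym₂ _ _ _
      simp only [map_add, map_smul, LinearMap.add_apply, LinearMap.smul_apply, smul_eq_mul, i1,
        hpF] at h2
      linarith
    by_cases hℓf : C.T p p f = 0
    · have hqf : C.T p f f = 0 := by rw [hℓf, mul_zero, add_zero] at h1; exact h1
      have hFf : C.T f f f = 0 := by
        have h2 : C.T s s s = 0 := hsing s
        rw [hsf] at h2
        have i1 : C.T p f p = C.T p p f := C.sym₂ _ _ _
        have i2 : C.T f p p = C.T p p f := by rw [C.sym₁, i1]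
        have i3 : C.T f p f = C.T p f f := C.sym₁ _ _ _
        have i4 : C.T f f p = C.T p f f := by rw [C.sym₂, i3]
        simp only [map_add, map_smul, LinearMap.add_apply, LinearMap.smul_apply, smul_eq_mul, i1,
          i2, i3, i4, hpF, hℓf, hqf, mul_zero, add_zero] at h2
        exact h2
      obtain ⟨x, -, hx, hxF⟩ := C.exists_isRat_ker hirr (lam := β - y₀ • α)
        ⟨e₂, by
          rw [LinearMap.sub_apply, LinearMap.smul_apply, hβe₂, hαe₂, smul_zero, sub_zero]
          exact one_ne_zero⟩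
        (fun x hx => (hβ x hx).sub (IsQ.mul ⟨r, hr⟩ (hα x hx)))
      apply hxF
      rw [LinearMap.sub_apply, LinearMap.smul_apply, smul_eq_mul, sub_eq_zero] at hx
      obtain ⟨t, ht⟩ := hfr x
      have h2 : x = t • p + α x • f := by
        rw [hx] at ht
        rw [hf]
        nth_rewrite 1 [ht]
        module
      rw [h2]
      have i1 : C.T p f p = C.T p p f := C.sym₂ _ _ _
      have i2 : C.T f p p = C.T p p f := by rw [C.sym₁, i1]
      have i3 : C.T f p f = C.T p f f := C.sym₁ _ _ _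
      have i4 : C.T f f p = C.T p f f := by rw [C.sym₂, i3]
      generalize α x = a
      simp only [map_add, map_smul, LinearMap.add_apply, LinearMap.smul_apply, smul_eq_mul, i1,
        i2, i3, i4, hpF, hℓf, hqf, hFf, mul_zero, add_zero]
    · have ht : t₁ = -(C.T p f f) / (2 * C.T p p f) := by
        field_simp
        linarith
      have ht' : IsQ t₁ := by
        rw [ht]
        refine IsQ.div (C.rat p f f hp.1 hfr' hfr').neg (IsQ.mul ?_ (C.rat p p f hp.1 hp.1 hfr'))
        exact ⟨2, by norm_num⟩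
      have hsr : IsRat s := by rw [hsf]; exact hfr'.add (hp.1.smul ht')
      have hs0 : s ≠ 0 := by
        intro h
        rw [h, map_zero] at hαs
        exact zero_ne_one hαs
      obtain ⟨u, hu⟩ := hns s hsr hs0 (hsing s)
      exact hu (hsing u)
  · push Not at hrat
    have hδne : δ ≠ 0 := by
      intro h
      have h1 : ∀ v, srD C p v = 0 := by
        intro v
        refine hαdense.induction (P := fun v => srD C p v = 0) (fun v hv => ?_)
          (isClosed_eq hDcont continuous_const) v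
        rw [hDv v hv, h, map_zero, mul_zero]
      have h2 := C.zero_of_mul hirr hq3 hq3 (hℓ3.mul_left (c := 4 / 3) ⟨4 / 3, by norm_num⟩)
        (fun x => by
          have h3 := h1 x
          unfold srD at h3
          linear_combination h3 / 9)
      rw [or_self] at h2
      obtain ⟨u, hu⟩ := hℓne
      have h3 := h2 (p + u)
      have i1 : C.T p u p = C.T p p u := C.sym₂ _ _ _
      simp only [map_add, LinearMap.add_apply, i1, hpF] at h3
      have h4 := h2 u
      rw [h4] at h3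
      apply hu
      linarith
    obtain ⟨c, g₁, g₀, hc, hδeq, hg⟩ := quartic_square hδ4 hδne hrat hδ0 hδ1
    set G : (Fin 3 → ℝ) → ℝ := fun v => β v * β v + (g₁ : ℝ) * (α v * β v) +
      (g₀ : ℝ) * (α v * α v) with hG
    have hGQ : PolyQ 3 2 G :=
      (((PolyQ.lin hβ).mul (PolyQ.lin hβ)).add
        (((PolyQ.lin hα).mul (PolyQ.lin hβ)).mul_left (IsQ.cast g₁))).add
        (((PolyQ.lin hα).mul (PolyQ.lin hα)).mul_left (IsQ.cast g₀))
    have hGc : Continuous G := hGQ.polyR.continuous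
    have hδval : ∀ y : ℝ, Polynomial.aeval y δ = (c : ℝ) * (y ^ 2 + g₁ * y + g₀) ^ 2 := by
      intro y
      rw [hδeq]
      simp
    have hDG : ∀ v, srD C p v = (c : ℝ) * G v ^ 2 := by
      intro v
      refine hαdense.induction (P := fun v => srD C p v = (c : ℝ) * G v ^ 2) (fun v hv => ?_)
        (isClosed_eq hDcont (continuous_const.mul (hGc.pow 2))) v
      have hv' : α v ≠ 0 := hv
      rw [hDv v hv, hδval, hG]
      field_simp
      try ring
    have hGp' : G p' ≠ 0 := by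
      obtain ⟨a, ha⟩ := hα p' hp'.1
      obtain ⟨b, hb⟩ := hβ p' hp'.1
      by_cases ha0 : α p' = 0
      · have hb0 : β p' ≠ 0 := by
          intro hb0
          obtain ⟨t, ht⟩ := hfr p'
          rw [ha0, hb0, zero_smul, zero_smul, add_zero, add_zero] at ht
          exact hpp' t ht
        rw [hG]
        simp only [ha0, zero_mul, mul_zero, add_zero]
        exact mul_ne_zero hb0 hb0
      · intro h
        have ha1 : a ≠ 0 := by
          rintro rfl
          apply ha0
          rw [ha, Rat.cast_zero]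
        apply hg (b / a)
        have h1 : b * b + g₁ * (a * b) + g₀ * (a * a) = 0 := by
          have h2 : ((b * b + g₁ * (a * b) + g₀ * (a * a) : ℚ) : ℝ) = 0 := by
            push_cast
            rw [← ha, ← hb]
            exact h
          exact_mod_cast h2
        field_simp
        linarith
    have hc2 : (c : ℝ) * G p' ^ 2 = 9 * C.T p p' p' ^ 2 := by
      rw [← hDG]
      unfold srD
      rw [hp'.2, mul_zero, sub_zero]
    set d : ℝ := 3 * C.T p p' p' / G p' with hd
    have hdQ : IsQ d := by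
      refine IsQ.div (IsQ.mul ⟨3, by norm_num⟩ (C.rat p p' p' hp.1 hp'.1 hp'.1)) ?_
      exact hGQ.isQ hp'.1
    have hcd : (c : ℝ) = d ^ 2 := by
      rw [hd, div_pow, eq_div_iff (pow_ne_zero 2 hGp'), hc2]
      ring
    have h3q : PolyQ 3 2 fun v => 3 * C.T p v v := hq3.mul_left ⟨3, by norm_num⟩
    have h1 := C.zero_of_mul hirr (h3q.sub (hGQ.mul_left hdQ)) (h3q.add (hGQ.mul_left hdQ))
      (hℓ3.mul_left (c := 12) ⟨12, by norm_num⟩) (fun x => by
        have h2 := hDG x
        unfold srD at h2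
        rw [hcd] at h2
        linear_combination h2)
    apply hℓF
    intro v
    have h2 := hDG v
    unfold srD at h2
    rw [hcd] at h2
    rcases h1 with h | h
    · have h3 := h v
      have h4 : 3 * C.T p v v = d * G v := by linarith
      have h5 : 9 * C.T p v v ^ 2 = d ^ 2 * G v ^ 2 := by
        rw [← mul_pow, ← h4]
        ring
      linarith
    · have h3 := h v
      have h4 : 3 * C.T p v v = -(d * G v) := by linarith
      have h5 : 9 * C.T p v v ^ 2 = d ^ 2 * G v ^ 2 := by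
        have h6 : (3 * C.T p v v) ^ 2 = (d * G v) ^ 2 := by rw [h4, neg_sq]
        linarith [h6, mul_pow d (G v) 2]
      linarith

theorem smooth_real (hirr : Irreducible C.pol) (hns : C.NoSing) {p p' : Fin 3 → ℝ}
    (hp : p ∈ C.XQ) (hp0 : p ≠ 0) (hp' : p' ∈ C.XQ) (hpp' : ∀ t : ℝ, p' ≠ t • p)
    {x : Fin 3 → ℝ} (hx : x ≠ 0) : ∃ u, C.T x x u ≠ 0 := by
  obtain ⟨α, β, e₁, e₂, hα, hβ, he₁, he₂, hαp, hβp, hαe₁, hβe₁, hαe₂, hβe₂, hfr⟩ :=
    exists_frame hp.1 hp0
  by_cases h1 : α x = 0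
  · by_cases h2 : β x = 0
    · obtain ⟨t, ht⟩ := hfr x
      rw [h1, h2, zero_smul, zero_smul, add_zero, add_zero] at ht
      have ht0 : t ≠ 0 := by
        rintro rfl
        rw [zero_smul] at ht
        exact hx ht
      obtain ⟨u, hu⟩ := hns p hp.1 hp0 hp.2
      refine ⟨u, ?_⟩
      rw [ht]
      simp only [map_smul, LinearMap.smul_apply, smul_eq_mul]
      exact mul_ne_zero ht0 (mul_ne_zero ht0 hu)
    · refine no_real_sing hirr hns hp hp0 hp' hpp' hβ hα he₂ he₁ hβp hαp hβe₂ hαe₂ hβe₁ hαe₁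
        (fun v => ?_) h2
      obtain ⟨t, ht⟩ := hfr v
      refine ⟨t, ?_⟩
      nth_rewrite 1 [ht]
      abel
  · exact no_real_sing hirr hns hp hp0 hp' hpp' hα hβ he₁ he₂ hαp hβp hαe₁ hβe₁ hαe₂ hβe₂ hfr h1

end Cub

end Pool.Agent.MZ
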