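import Mathlib
import Pool.Agent.MZ.Defs
import Pool.Agent.MZ.RatAlg
import Pool.Agent.MZ.Basic
import Pool.Agent.MZ.SReal
import Pool.Agent.MZ.NoFix
import Pool.Agent.MZ.Arc
import Pool.Agent.MZ.Ord
import Pool.Agent.MZ.M3A
import Pool.Agent.MZ.M3B

/-!
# MZ module M3: plane cubics with infinitely many rational points

(uses the stubs of `Basic`, `smooth_real`, `no_fix`, `exists_arc`, `ord_lemma`, `exists_acc`, `not_line`, `exists_base`,
`exists_nhds`)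

PROOF. `exists_acc` gives `x₀`. Two different points `p, p'` of `XQ ∩ {ell = 1}` (`p' ≠ t • p`: apply `ell`) and
`smooth_real`: every nonzero real vector `x` has some `u` with `T x x u ≠ 0`. `exists_base`: `y₀ ∈ XQ`,
`T x₀ x₀ y₀ ≠ 0` (so `y₀ ≠ 0`). `exists_arc` at `y₀`: `α, β, δ₀, γ, W`. Choose `0 < δ ≤ δ₀` with
`T x₀ x₀ (γ s) ≠ 0` for `|s| ≤ δ` (continuity of `γ` on `Icc (-δ₀) δ₀` at `0`, `γ 0 = y₀`).
`S = {s ∈ Icc (-δ) δ | γ s ∈ Z}` is closed (`ContinuousOn.preimage_isClosed_of_isClosed`) and contains 0.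
We verify the hypothesis `H` of `ord_lemma`: given `ε`, `exists_nhds` gives `N`; `exists_acc` gives `r, r', c, c'` with
`x = c • r ∈ N`, `x' = c' • r' ∈ N`; `x, x' ∈ Z`, independent, `¬ (T x x x' = 0 ∧ T x x' x' = 0)` (`not_line`, scaling).
For `s ∈ Icc (-δ) δ` put `z s = mm x (mm x' (γ s))`, `g s = β (z s) / α (z s)`, and `z', g'` with `x, x'`
exchanged (`exists_nhds` is symmetric in `x, x' ∈ N`).
* `g, g'` are continuous on `Icc (-δ) δ`, `|g s - s| < ε`.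
* `g s ≠ s`: otherwise `g s ∈ Icc (-δ₀) δ₀` and `z s = α (z s) • γ s`, contradicting `no_fix` with `y = γ s`
  (smooth by the above, `γ s ≠ 0` since `α (γ s) = 1`).
* `g' (g s) = s` if `g s ∈ Icc (-δ) δ`: `z s = μ • γ (g s)`, `μ = α (z s) ≠ 0`, so
  `z' (g s) = mm x' (mm x (μ⁻¹ • z s)) = μ⁻⁴ • mm x' (mm x (mm x (mm x' (γ s))))
  = μ⁻⁴ • mm x' ((-(T x x w)³) • w) = μ⁻⁴ (T x x w)⁶ (-(T x' x' (γ s))³) • γ s`, `w = mm x' (γ s)`
  (`mm_mm`, `mm_smul_right`), a nonzero multiple of `γ s`; so `g' (g s) = β (γ s) / α (γ s) = s`.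
* if `s ∈ S` then `z s ∈ Z` (`mm_mem_Z`) and `γ (g s) = μ⁻¹ • z s ∈ Z`.
So `Icc 0 δ ⊆ S`. Let `σ = δ / 2`. Then `γ σ ∈ O`: `γ σ ≠ 0`, a zero, and for `y` near `γ σ` with `T y y y = 0`: `y ∈ W`,
`β y / α y ∈ Icc 0 δ` (continuity, `β (γ σ) / α (γ σ) = σ`), so `y = α y • γ (..) ∈ Z` (`Z_smul`).
About 200 lines.
-/

set_option autoImplicit false

open Set Topology Filter MvPolynomial

namespace Pool.Agent.MZ

namespace Cub

theorem m3 {C : Cub 3} (hirr : Irreducible C.pol) (hns : C.NoSing)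
    {ell : (Fin 3 → ℝ) →ₗ[ℝ] ℝ} (hinf : (C.XQ ∩ {x | ell x = 1}).Infinite) : C.O.Nonempty := by
  -- two independent rational points
  obtain ⟨p, hp⟩ := hinf.nonempty
  obtain ⟨p', hp', hpp⟩ : ∃ p' ∈ C.XQ ∩ {x | ell x = 1}, p' ≠ p := by
    by_contra hcon
    push Not at hcon
    exact hinf ((Set.finite_singleton p).subset fun x hx => hcon x hx)
  have hlp : ell p = 1 := hp.2
  have hlp' : ell p' = 1 := hp'.2
  have hp0 : p ≠ 0 := by
    rintro rfl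
    rw [map_zero] at hlp
    exact zero_ne_one hlp
  have hpp' : ∀ t : ℝ, p' ≠ t • p := by
    intro t ht
    have h1 := hlp'
    rw [ht, map_smul, hlp, smul_eq_mul, mul_one] at h1
    rw [h1, one_smul] at ht
    exact hpp ht
  have hsm : ∀ x : Fin 3 → ℝ, x ≠ 0 → ∃ u, C.T x x u ≠ 0 := fun x hx =>
    smooth_real hirr hns hp.1 hp0 hp'.1 hpp' hx
  obtain ⟨x₀, hx₀Z, hx₀0, hacc⟩ := exists_acc hinf
  have hx₀F := T_eq_zero_of_mem_Z hx₀Z
  obtain ⟨y₀, hy₀, hy₀T⟩ := exists_base hirr hinf (hsm x₀ hx₀0)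
  have hy₀0 : y₀ ≠ 0 := by
    rintro rfl
    exact hy₀T (map_zero _)
  obtain ⟨α, β, δ₀, γ, W, hδ₀, hW, hα₀, hβ₀, hγ0, hγc, hγ', harc⟩ :=
    exists_arc hy₀.2 (hsm y₀ hy₀0)
  -- shrink `δ₀`
  obtain ⟨δ, hδ, hδδ₀, hne⟩ : ∃ δ > 0, δ ≤ δ₀ ∧ ∀ s ∈ Icc (-δ) δ, C.T x₀ x₀ (γ s) ≠ 0 := by
    have h0 : (0 : ℝ) ∈ Icc (-δ₀) δ₀ := ⟨by linarith, hδ₀.le⟩
    have hc : ContinuousWithinAt (fun s => C.T x₀ x₀ (γ s)) (Icc (-δ₀) δ₀) 0 := by
      have h1 : Continuous fun v : Fin 3 → ℝ => C.T x₀ x₀ v :=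
        C.continuous_comp continuous_const continuous_const continuous_id
      exact h1.continuousAt.comp_continuousWithinAt (hγc 0 h0)
    have h1 : ∀ᶠ s in 𝓝[Icc (-δ₀) δ₀] 0, C.T x₀ x₀ (γ s) ≠ 0 := by
      apply hc.eventually_ne
      simp only [hγ0]
      exact hy₀T
    rw [eventually_nhdsWithin_iff, Metric.eventually_nhds_iff] at h1
    obtain ⟨ε, hε, h1⟩ := h1
    refine ⟨min δ₀ (ε / 2), lt_min hδ₀ (by linarith), min_le_left _ _, fun s hs => ?_⟩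
    have h2 : min δ₀ (ε / 2) ≤ δ₀ := min_le_left _ _
    have h3 : min δ₀ (ε / 2) ≤ ε / 2 := min_le_right _ _
    apply h1
    · rw [Real.dist_eq, sub_zero, abs_lt]
      exact ⟨by linarith [hs.1], by linarith [hs.2]⟩
    · exact ⟨by linarith [hs.1], by linarith [hs.2]⟩
  have hsub : Icc (-δ) δ ⊆ Icc (-δ₀) δ₀ := Icc_subset_Icc (by linarith) hδδ₀
  have hγδ : ContinuousOn γ (Icc (-δ) δ) := hγc.mono hsub
  set S : Set ℝ := {s | s ∈ Icc (-δ) δ ∧ γ s ∈ C.Z} with hS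
  have hSc : IsClosed S := by
    have := hγδ.preimage_isClosed_of_isClosed isClosed_Icc (isClosed_closure (s := C.XQ))
    exact this
  have h0S : (0 : ℝ) ∈ S := by
    refine ⟨⟨by linarith, hδ.le⟩, ?_⟩
    rw [hγ0]
    exact XQ_subset_Z hy₀
  have hmain : Icc 0 δ ⊆ S := by
    refine ord_lemma hδ hSc h0S fun ε hε => ?_
    obtain ⟨N, hN, hNall⟩ := exists_nhds hx₀F hδ hδδ₀ hW hγc hγ' harc hne hε
    obtain ⟨r, r', hr, hr', hind, c, c', hc, hc', hcN, hcN'⟩ := hacc N hN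
    -- properties of one translation
    have hstep : ∀ x x' : Fin 3 → ℝ, x ∈ C.Z → x' ∈ C.Z → x ∈ N → x' ∈ N →
        ContinuousOn (fun s => β (C.mm x (C.mm x' (γ s))) / α (C.mm x (C.mm x' (γ s))))
          (Icc (-δ) δ) := by
      intro x x' hxZ hxZ' hxN hxN'
      have hcz : ContinuousOn (fun s => C.mm x (C.mm x' (γ s))) (Icc (-δ) δ) := by
        have h1 : Continuous fun v : Fin 3 → ℝ => C.mm x (C.mm x' v) :=
          C.continuous_mm.comp (continuous_const.prodMk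
            (C.continuous_mm.comp (continuous_const.prodMk continuous_id)))
        exact h1.comp_continuousOn hγδ
      refine ContinuousOn.div ?_ ?_ ?_
      · exact (LinearMap.continuous_of_finiteDimensional β).comp_continuousOn hcz
      · exact (LinearMap.continuous_of_finiteDimensional α).comp_continuousOn hcz
      · intro s hs
        exact (hNall x hxN x' hxN' (T_eq_zero_of_mem_Z hxZ) (T_eq_zero_of_mem_Z hxZ') s hs).1
    -- no fixed points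
    have hfix : ∀ (r r' : Fin 3 → ℝ) (c c' : ℝ), r ∈ C.XQ → r' ∈ C.XQ →
        (∀ a b : ℝ, a • r + b • r' = 0 → a = 0 ∧ b = 0) → c ≠ 0 → c' ≠ 0 → c • r ∈ N →
        c' • r' ∈ N → ∀ s ∈ Icc (-δ) δ,
        β (C.mm (c • r) (C.mm (c' • r') (γ s))) / α (C.mm (c • r) (C.mm (c' • r') (γ s))) ≠ s := by
      intro r r' c c' hr hr' hind hc hc' hcN hcN' s hs heq
      have hxZ : c • r ∈ C.Z := Z_smul (XQ_subset_Z hr) c
      have hxZ' : c' • r' ∈ C.Z := Z_smul (XQ_subset_Z hr') c'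
      obtain ⟨h1, h2, h3, h4, h5, h6⟩ := hNall _ hcN _ hcN' (T_eq_zero_of_mem_Z hxZ)
        (T_eq_zero_of_mem_Z hxZ') s hs
      rw [heq] at h6
      have h7 := h6 (hsub hs)
      obtain ⟨g1, g2, g3, g4⟩ := hγ' s (hsub hs)
      have hγ0' : γ s ≠ 0 := by
        intro h
        rw [h, map_zero] at g2
        exact zero_ne_one g2
      refine no_fix (C := C) (x := c • r) (x' := c' • r') (y := γ s) (T_eq_zero_of_mem_Z hxZ)
        (T_eq_zero_of_mem_Z hxZ') (fun a b hab => ?_) ?_ g1 (hsm _ hγ0') h3 h4 h1 h7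
      · rw [smul_smul, smul_smul] at hab
        obtain ⟨k1, k2⟩ := hind _ _ hab
        exact ⟨(mul_eq_zero.mp k1).resolve_right hc, (mul_eq_zero.mp k2).resolve_right hc'⟩
      · rintro ⟨k1, k2⟩
        simp only [map_smul, LinearMap.smul_apply, smul_eq_mul] at k1 k2
        apply not_line hirr hr hr' hind
        constructor
        · have k3 := (mul_eq_zero.mp k1).resolve_left hc'
          have k4 := (mul_eq_zero.mp k3).resolve_left hc
          exact (mul_eq_zero.mp k4).resolve_left hc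
        · have k3 := (mul_eq_zero.mp k2).resolve_left hc'
          have k4 := (mul_eq_zero.mp k3).resolve_left hc'
          exact (mul_eq_zero.mp k4).resolve_left hc
    -- inverse translation
    have hinv : ∀ x x' : Fin 3 → ℝ, x ∈ C.Z → x' ∈ C.Z → x ∈ N → x' ∈ N → ∀ s ∈ Icc (-δ) δ,
        β (C.mm x (C.mm x' (γ s))) / α (C.mm x (C.mm x' (γ s))) ∈ Icc (-δ) δ →
        β (C.mm x' (C.mm x (γ (β (C.mm x (C.mm x' (γ s))) / α (C.mm x (C.mm x' (γ s))))))) /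
          α (C.mm x' (C.mm x (γ (β (C.mm x (C.mm x' (γ s))) / α (C.mm x (C.mm x' (γ s))))))) =
          s := by
      intro x x' hxZ hxZ' hxN hxN' s hs hgs
      obtain ⟨h1, h2, h3, h4, h5, h6⟩ := hNall x hxN x' hxN' (T_eq_zero_of_mem_Z hxZ)
        (T_eq_zero_of_mem_Z hxZ') s hs
      obtain ⟨g1, g2, g3, g4⟩ := hγ' s (hsub hs)
      have h7 := h6 (hsub hgs)
      set z := C.mm x (C.mm x' (γ s)) with hz
      set σ := β z / α z with hσ
      have h8 : γ σ = (α z)⁻¹ • z := by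
        nth_rewrite 2 [h7]
        rw [smul_smul, inv_mul_cancel₀ h1, one_smul]
      have hw : C.T (C.mm x' (γ s)) (C.mm x' (γ s)) (C.mm x' (γ s)) = 0 :=
        mm_zero (T_eq_zero_of_mem_Z hxZ') g1
      have h9 : C.mm x z = (-(C.T x x (C.mm x' (γ s))) ^ 3) • C.mm x' (γ s) := by
        rw [hz]
        exact mm_mm (T_eq_zero_of_mem_Z hxZ) hw
      have h10 : C.mm x' (C.mm x (γ σ)) =
          (((α z)⁻¹ ^ 2) ^ 2 * (-(C.T x x (C.mm x' (γ s))) ^ 3) ^ 2 *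
            (-(C.T x' x' (γ s)) ^ 3)) • γ s := by
        rw [h8, mm_smul_right, mm_smul_right, h9, mm_smul_right, mm_mm (T_eq_zero_of_mem_Z hxZ') g1,
          smul_smul, smul_smul]
      rw [h10, map_smul, map_smul, smul_eq_mul, smul_eq_mul, g2, g3, mul_one]
      have k1 : (α z)⁻¹ ≠ 0 := inv_ne_zero h1
      have k2 : ((α z)⁻¹ ^ 2) ^ 2 * (-(C.T x x (C.mm x' (γ s))) ^ 3) ^ 2 *
            (-(C.T x' x' (γ s)) ^ 3) ≠ 0 := by
        refine mul_ne_zero (mul_ne_zero (pow_ne_zero _ (pow_ne_zero _ k1)) ?_) ?_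
        · exact pow_ne_zero _ (neg_ne_zero.mpr (pow_ne_zero _ h5))
        · exact neg_ne_zero.mpr (pow_ne_zero _ h4)
      rw [mul_div_assoc, mul_comm, div_mul_cancel₀ _ k2]
    -- invariance of `S`
    have hSinv : ∀ x x' : Fin 3 → ℝ, x ∈ C.Z → x' ∈ C.Z → x ∈ N → x' ∈ N → ∀ s ∈ Icc (-δ) δ,
        s ∈ S → β (C.mm x (C.mm x' (γ s))) / α (C.mm x (C.mm x' (γ s))) ∈ Icc (-δ) δ →
        β (C.mm x (C.mm x' (γ s))) / α (C.mm x (C.mm x' (γ s))) ∈ S := by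
      intro x x' hxZ hxZ' hxN hxN' s hs hsS hgs
      obtain ⟨h1, h2, h3, h4, h5, h6⟩ := hNall x hxN x' hxN' (T_eq_zero_of_mem_Z hxZ)
        (T_eq_zero_of_mem_Z hxZ') s hs
      refine ⟨hgs, ?_⟩
      have h7 := h6 (hsub hgs)
      apply mem_Z_of_smul h1
      rw [← h7]
      exact mm_mem_Z hxZ (mm_mem_Z hxZ' hsS.2)
    have hxZ : c • r ∈ C.Z := Z_smul (XQ_subset_Z hr) c
    have hxZ' : c' • r' ∈ C.Z := Z_smul (XQ_subset_Z hr') c'
    refine ⟨fun s => β (C.mm (c • r) (C.mm (c' • r') (γ s))) /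
        α (C.mm (c • r) (C.mm (c' • r') (γ s))),
      fun s => β (C.mm (c' • r') (C.mm (c • r) (γ s))) /
        α (C.mm (c' • r') (C.mm (c • r) (γ s))),
      hstep _ _ hxZ hxZ' hcN hcN', hstep _ _ hxZ' hxZ hcN' hcN, fun s hs => ⟨?_, ?_, ?_, ?_⟩,
      hinv _ _ hxZ hxZ' hcN hcN', hSinv _ _ hxZ hxZ' hcN hcN', hSinv _ _ hxZ' hxZ hcN' hcN⟩
    · exact (hNall _ hcN _ hcN' (T_eq_zero_of_mem_Z hxZ) (T_eq_zero_of_mem_Z hxZ') s hs).2.1
    · exact (hNall _ hcN' _ hcN (T_eq_zero_of_mem_Z hxZ') (T_eq_zero_of_mem_Z hxZ) s hs).2.1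
    · exact hfix r r' c c' hr hr' hind hc hc' hcN hcN' s hs
    · refine hfix r' r c' c hr' hr (fun a b hab => ?_) hc' hc hcN' hcN s hs
      rw [add_comm] at hab
      obtain ⟨k1, k2⟩ := hind _ _ hab
      exact ⟨k2, k1⟩
  -- the midpoint of the arc is an interior point
  set σ : ℝ := δ / 2 with hσ
  have hσ1 : σ ∈ Icc (-δ) δ := ⟨by linarith, by linarith⟩
  obtain ⟨g1, g2, g3, g4⟩ := hγ' σ (hsub hσ1)
  refine ⟨γ σ, ?_, g1, ?_⟩
  · intro h
    rw [h, map_zero] at g2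
    exact zero_ne_one g2
  have hαc := LinearMap.continuous_of_finiteDimensional α
  have hβc := LinearMap.continuous_of_finiteDimensional β
  have hcq : ContinuousAt (fun y => β y / α y) (γ σ) :=
    hβc.continuousAt.div hαc.continuousAt (by rw [g2]; exact one_ne_zero)
  have hv : β (γ σ) / α (γ σ) = σ := by rw [g2, g3, div_one]
  have hI : Ioo 0 δ ∈ 𝓝 (β (γ σ) / α (γ σ)) := by
    rw [hv]
    exact Ioo_mem_nhds (by linarith) (by linarith)
  filter_upwards [hW.mem_nhds g4, hcq hI] with y hyW hyI hyF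
  have hyI' : β y / α y ∈ Ioo 0 δ := hyI
  obtain ⟨h1, h2⟩ := harc y hyW hyF
  have h3 : β y / α y ∈ Icc (-δ₀) δ₀ := ⟨by linarith [hyI'.1], by linarith [hyI'.2]⟩
  rw [h2 h3]
  apply Z_smul
  exact (hmain ⟨hyI'.1.le, hyI'.2.le⟩).2

end Cub

end Pool.Agent.MZ
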