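import Mathlib
import Pool.Agent.MZ.Defs
import Pool.Agent.MZ.RatAlg
import Pool.Agent.MZ.RatD
import Pool.Agent.MZ.Basic

/-!
# MZ module TAN: residual points of tangent lines; sweeping out an open set

(uses the stubs of `RatAlg`, `RatD`, `Basic`)

PROOF of `tangent_zero`. `w = F(v) y - 3 T(y,v,v) v` with `F(v) = T v v v`. For `w = a y + b v`,
`T w w w = a³ F(y) + 3 a² b T y y v + 3 a b² T y v v + b³ F(v) = b² (3 a T y v v + b F(v)) = 0`.

PROOF of `tangent_mem`. Let `u` be with `T y y u ≠ 0`; some basis vector, so a rational `e`, has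
`T y y e ≠ 0` (`exists_isRat_ne` for the linear form `C.T y y`). The map
`Ψ (y', v') = F(v'') y' - 3 T y' v'' v'' v''`, `v'' = v' - (T y' y' v' / T y' y' e) e`, is continuous near
`(y, v)` (where `T y' y' e ≠ 0`), and `Ψ (y, v)` is our vector. For `y' ∈ XQ` near `y` and rational `v'` the
vector `v''` is rational, `T y' y' v'' = 0` and `Ψ (y', v')` is a rational zero by `tangent_zero`. As
`(y, v)` is in the closure of `XQ × {rational}` the claim follows (`mem_closure_iff_nhds`,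
`closure_prod_eq`, `dense_isRat`).

PROOF of `sweep`. Let `q v = T (y 0) v v`. `T (y s) (y s) (y s) = 0` for all `s`, so
`T (y 0) (y 0) y' = 0` (`hasDerivAt_comp`). Choose `ε` such that `u' = u + ε • y'` has
`T (y 0) y' u' = T (y 0) y' u + ε T (y 0) y' y' ≠ 0` and
`q u' = q u + 2 ε T (y 0) u y' + ε² q y' ≠ 0` (the product is a nonzero polynomial in `ε`: the second factor is
not identically zero because of the coefficient `2 T (y 0) u y' ≠ 0`; so finitely many exceptions). Also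
`T (y 0) (y 0) u' = 0`. Let `z₀ = F(u') y 0 - 3 q u' • u'`. Then
`T z₀ z₀ z₀ = 0`, `T (y 0) (y 0) z₀ = 0`, `T (y 0) z₀ z₀ = 9 (q u')³ ≠ 0` (so `z₀ ≠ 0`), and
`T (y 0) y' z₀ = F(u') * 0 - 3 q u' * T (y 0) y' u' ≠ 0`. Let `g s z = T (y s) (y s) z`:
`g 0 z₀ = 0`, derivative in `s` at `0`: `2 T (y 0) y' z₀ ≠ 0`. Choose `η > 0` and a neighbourhood `W` of `z₀`
with `T (y s) z z ≠ 0` and `T (y s) (y s) v ≠ 0` (`v` from `hs`) for `|s| ≤ η`, `z ∈ W` (continuity at
`(0, z₀)`), then `0 < s₁ ≤ η` such that `g s₁ z₀` and `g (-s₁) z₀` have opposite signs (derivative not zero,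
value 0), and shrink `W` such that `g s₁ z`, `g (-s₁) z` have opposite signs for `z ∈ W`. For `z ∈ W` with
`T z z z = 0` there is `s ∈ [-s₁, s₁]` with `g s z = 0` (intermediate value theorem), and `tangent_mem`
(with `y s`, `v = z`) gives `T z z z • y s - (3 T (y s) z z) • z = -(3 T (y s) z z) • z ∈ Z`, so `z ∈ Z`
(`mem_Z_of_smul`). So `z₀ ∈ O`.
About 200 lines.
-/

set_option autoImplicit false

open Set Topology Filter MvPolynomial

namespace Pool.Agent.MZ

namespace Cub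

variable {m : ℕ} {C : Cub m}

theorem tangent_zero {y v : Fin m → ℝ} (hy : C.T y y y = 0) (hv : C.T y y v = 0) {w : Fin m → ℝ}
    (hw : w = C.T v v v • y - (3 * C.T y v v) • v) : C.T w w w = 0 := by
  have i1 : C.T y v y = 0 := by rw [C.sym₂, hv]
  have i2 : C.T v y y = 0 := by rw [C.sym₁, i1]
  have i3 : C.T v y v = C.T y v v := C.sym₁ _ _ _
  have i4 : C.T v v y = C.T y v v := by rw [C.sym₂, i3]
  rw [hw]
  simp only [map_sub, map_smul, LinearMap.sub_apply, LinearMap.smul_apply, smul_eq_mul, i1, i2,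
    i3, i4, hy, hv]
  ring

theorem tangent_mem {y v : Fin m → ℝ} (hy : y ∈ C.Z) (hs : ∃ u, C.T y y u ≠ 0)
    (hv : C.T y y v = 0) : C.T v v v • y - (3 * C.T y v v) • v ∈ C.Z := by
  obtain ⟨e, her, he⟩ := exists_isRat_ne hs
  set V : (Fin m → ℝ) × (Fin m → ℝ) → Fin m → ℝ :=
    fun z => z.2 - (C.T z.1 z.1 z.2 / C.T z.1 z.1 e) • e with hV
  set Ψ : (Fin m → ℝ) × (Fin m → ℝ) → Fin m → ℝ :=
    fun z => C.T (V z) (V z) (V z) • z.1 - (3 * C.T z.1 (V z) (V z)) • V z with hΨ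
  have c1 : Continuous fun z : (Fin m → ℝ) × (Fin m → ℝ) => C.T z.1 z.1 z.2 :=
    C.continuous_comp continuous_fst continuous_fst continuous_snd
  have c2 : Continuous fun z : (Fin m → ℝ) × (Fin m → ℝ) => C.T z.1 z.1 e :=
    C.continuous_comp continuous_fst continuous_fst continuous_const
  have c3 : Continuous fun w : (Fin m → ℝ) => C.T w w w :=
    C.continuous_comp continuous_id continuous_id continuous_id
  have c4 : Continuous fun w : (Fin m → ℝ) × (Fin m → ℝ) => C.T w.1 w.2 w.2 :=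
    C.continuous_comp continuous_fst continuous_snd continuous_snd
  have hVc : ContinuousAt V (y, v) := by
    have d1 : ContinuousAt (fun z : (Fin m → ℝ) × (Fin m → ℝ) =>
        C.T z.1 z.1 z.2 / C.T z.1 z.1 e) (y, v) := c1.continuousAt.div c2.continuousAt he
    exact continuousAt_snd.fun_sub (d1.fun_smul continuousAt_const)
  have hVv : V (y, v) = v := by
    simp only [hV, hv, zero_div, zero_smul, sub_zero]
  have hΨc : ContinuousAt Ψ (y, v) := by
    have d1 : ContinuousAt (fun z => C.T (V z) (V z) (V z)) (y, v) := c3.continuousAt.comp hVc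
    have d2 : ContinuousAt (fun z : (Fin m → ℝ) × (Fin m → ℝ) => C.T z.1 (V z) (V z)) (y, v) :=
      c4.continuousAt.comp (continuousAt_fst.prodMk hVc)
    exact (d1.fun_smul continuousAt_fst).fun_sub ((d2.const_mul 3).fun_smul hVc)
  have hΨv : Ψ (y, v) = C.T v v v • y - (3 * C.T y v v) • v := by
    simp only [hΨ, hVv]
  rw [← hΨv]
  have hcl : (y, v) ∈ closure (C.XQ ×ˢ {x : Fin m → ℝ | IsRat x}) := by
    rw [closure_prod_eq]
    exact ⟨hy, dense_isRat v⟩
  have hne := mem_closure_iff_nhdsWithin_neBot.mp hcl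
  refine mem_closure_of_tendsto (s := C.XQ)
    (hΨc.tendsto.mono_left (nhdsWithin_le_nhds (s := C.XQ ×ˢ {x : Fin m → ℝ | IsRat x}))) ?_
  have h1 : ∀ᶠ z in 𝓝[C.XQ ×ˢ {x : Fin m → ℝ | IsRat x}] (y, v), C.T z.1 z.1 e ≠ 0 :=
    (c2.continuousAt.eventually_ne he).filter_mono nhdsWithin_le_nhds
  filter_upwards [h1, self_mem_nhdsWithin] with z hz1 hz2
  obtain ⟨hzX, hzr⟩ := hz2
  have hVr : IsRat (V z) :=
    hzr.sub (her.smul ((C.rat _ _ _ hzX.1 hzX.1 hzr).div (C.rat _ _ _ hzX.1 hzX.1 her)))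
  have hV0 : C.T z.1 z.1 (V z) = 0 := by
    simp only [hV, map_sub, map_smul, smul_eq_mul]
    rw [div_mul_cancel₀ _ hz1, sub_self]
  refine ⟨?_, tangent_zero hzX.2 hV0 rfl⟩
  refine (hzX.1.smul (C.rat _ _ _ hVr hVr hVr)).sub (hVr.smul (IsQ.mul ?_
    (C.rat _ _ _ hzX.1 hVr hVr)))
  exact ⟨3, by norm_num⟩

theorem sweep {y : ℝ → Fin m → ℝ} {y' u : Fin m → ℝ} (hc : Continuous y)
    (hd : HasDerivAt y y' 0) (hZ : ∀ s, y s ∈ C.Z) (hs : ∃ v, C.T (y 0) (y 0) v ≠ 0)
    (hu : C.T (y 0) (y 0) u = 0) (hu' : C.T (y 0) y' u ≠ 0) : C.O.Nonempty := by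
  have hF : ∀ s, C.T (y s) (y s) (y s) = 0 := fun s => T_eq_zero_of_mem_Z (hZ s)
  have hyy : C.T (y 0) (y 0) y' = 0 := by
    have h1 := C.hasDerivAt_comp hd hd hd
    have h2 : (fun s => C.T (y s) (y s) (y s)) = fun _ => (0 : ℝ) := funext hF
    rw [h2] at h1
    have h3 := h1.unique (hasDerivAt_const (0 : ℝ) (0 : ℝ))
    rw [C.sym₁ y' (y 0) (y 0), C.sym₂ (y 0) y' (y 0)] at h3
    linarith
  -- choice of the direction
  obtain ⟨ε, hε1, hε2⟩ : ∃ ε : ℝ, C.T (y 0) y' (u + ε • y') ≠ 0 ∧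
      C.T (y 0) (u + ε • y') (u + ε • y') ≠ 0 := by
    have e1 : ∀ ε : ℝ, C.T (y 0) y' (u + ε • y') = C.T (y 0) y' u + ε * C.T (y 0) y' y' := by
      intro ε
      rw [map_add, map_smul, smul_eq_mul]
    have e2 : ∀ ε : ℝ, C.T (y 0) (u + ε • y') (u + ε • y') =
        C.T (y 0) u u + 2 * ε * C.T (y 0) y' u + ε ^ 2 * C.T (y 0) y' y' := by
      intro ε
      simp only [map_add, map_smul, LinearMap.add_apply, LinearMap.smul_apply, smul_eq_mul]
      rw [C.sym₂ (y 0) u y']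
      ring
    by_cases hq : C.T (y 0) u u = 0
    · by_cases hB : C.T (y 0) y' y' = 0
      · refine ⟨1, ?_, ?_⟩
        · rw [e1, hB, mul_zero, add_zero]
          exact hu'
        · rw [e2, hq, hB]
          intro h
          apply hu'
          linarith
      · refine ⟨C.T (y 0) y' u / C.T (y 0) y' y', ?_, ?_⟩
        · rw [e1, div_mul_cancel₀ _ hB]
          intro h
          apply hu'
          linarith
        · rw [e2, hq]
          have h1 : 0 + 2 * (C.T (y 0) y' u / C.T (y 0) y' y') * C.T (y 0) y' u +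
              (C.T (y 0) y' u / C.T (y 0) y' y') ^ 2 * C.T (y 0) y' y' =
              3 * (C.T (y 0) y' u / C.T (y 0) y' y') * C.T (y 0) y' u := by
            field_simp
            ring
          rw [h1]
          exact mul_ne_zero (mul_ne_zero three_ne_zero (div_ne_zero hu' hB)) hu'
    · refine ⟨0, ?_, ?_⟩
      · rw [zero_smul, add_zero]
        exact hu'
      · rw [zero_smul, add_zero]
        exact hq
  set w : Fin m → ℝ := u + ε • y' with hw
  have hyw : C.T (y 0) (y 0) w = 0 := by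
    rw [hw, map_add, map_smul, hu, hyy, smul_zero, add_zero]
  set q : ℝ := C.T (y 0) w w with hq
  set z₀ : Fin m → ℝ := C.T w w w • y 0 - (3 * q) • w with hz₀
  have hz0 : C.T z₀ z₀ z₀ = 0 := tangent_zero (hF 0) hyw hz₀
  have hz1 : C.T (y 0) (y 0) z₀ = 0 := by
    rw [hz₀, map_sub, map_smul, map_smul, hF 0, hyw, smul_zero, smul_zero, sub_zero]
  have hz2 : C.T (y 0) z₀ z₀ = 9 * q ^ 3 := by
    rw [hz₀]
    simp only [map_sub, map_smul, LinearMap.sub_apply, LinearMap.smul_apply, smul_eq_mul, hF 0,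
      hyw, ← hq]
    rw [C.sym₂ (y 0) w (y 0), hyw]
    ring
  have hz2' : C.T (y 0) z₀ z₀ ≠ 0 := by
    rw [hz2]
    exact mul_ne_zero (by norm_num) (pow_ne_zero 3 hε2)
  have hz3 : C.T (y 0) y' z₀ ≠ 0 := by
    rw [hz₀, map_sub, map_smul, map_smul, C.sym₂ (y 0) y' (y 0), hyy, smul_zero, zero_sub,
      smul_eq_mul]
    exact neg_ne_zero.mpr (mul_ne_zero (mul_ne_zero three_ne_zero hε2) hε1)
  have hz00 : z₀ ≠ 0 := by
    intro h
    apply hz3
    rw [h, map_zero]
  obtain ⟨v, hv⟩ := hs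
  -- the function `g`
  set c : ℝ := 2 * C.T (y 0) y' z₀ with hcdef
  have hc0 : c ≠ 0 := mul_ne_zero two_ne_zero hz3
  have hgd : HasDerivAt (fun s => C.T (y s) (y s) z₀) c 0 := by
    have h1 := C.hasDerivAt_comp hd hd (hasDerivAt_const (0 : ℝ) z₀)
    rw [map_zero, add_zero, C.sym₁ y' (y 0) z₀] at h1
    rw [hcdef, two_mul]
    exact h1
  have hg : Continuous fun p : ℝ × (Fin m → ℝ) => C.T (y p.1) (y p.1) p.2 :=
    C.continuous_comp (hc.comp continuous_fst) (hc.comp continuous_fst) continuous_snd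
  have hc1 : Continuous fun p : ℝ × (Fin m → ℝ) => C.T (y p.1) p.2 p.2 :=
    C.continuous_comp (hc.comp continuous_fst) continuous_snd continuous_snd
  have hc2 : Continuous fun s : ℝ => C.T (y s) (y s) v :=
    C.continuous_comp hc hc continuous_const
  have hev1 : ∀ᶠ p : ℝ × (Fin m → ℝ) in 𝓝 (0, z₀), C.T (y p.1) p.2 p.2 ≠ 0 :=
    hc1.continuousAt.eventually_ne hz2'
  rw [nhds_prod_eq, Filter.eventually_prod_iff] at hev1
  obtain ⟨pa, hpa, pb, hpb, hpab⟩ := hev1
  have hev2 : ∀ᶠ s : ℝ in 𝓝 0, C.T (y s) (y s) v ≠ 0 := hc2.continuousAt.eventually_ne hv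
  obtain ⟨η, hη, hη'⟩ := Metric.eventually_nhds_iff.mp (hpa.and hev2)
  have hslope := hasDerivAt_iff_tendsto_slope_zero.mp hgd
  have hev3 : ∀ᶠ t : ℝ in 𝓝[≠] 0, 0 < t⁻¹ * C.T (y t) (y t) z₀ * c := by
    have h1 : Tendsto (fun t : ℝ => t⁻¹ * C.T (y t) (y t) z₀ * c) (𝓝[≠] 0) (𝓝 (c * c)) := by
      have h2 := hslope.mul_const c
      simp only [zero_add, hz1, sub_zero, smul_eq_mul] at h2
      exact h2
    exact h1.eventually (lt_mem_nhds (mul_self_pos.mpr hc0))
  rw [eventually_nhdsWithin_iff, Metric.eventually_nhds_iff] at hev3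
  obtain ⟨η', hη0', hη3⟩ := hev3
  set s₁ : ℝ := min η η' / 2 with hs₁
  have hmin : 0 < min η η' := lt_min hη hη0'
  have hs1 : 0 < s₁ := by rw [hs₁]; linarith
  have hs1η : s₁ < η := by rw [hs₁]; linarith [min_le_left η η']
  have hs1η' : s₁ < η' := by rw [hs₁]; linarith [min_le_right η η']
  have hpos : 0 < C.T (y s₁) (y s₁) z₀ * c := by
    have h1 := hη3 (y := s₁) (by rw [Real.dist_eq, sub_zero, abs_of_pos hs1]; exact hs1η')
      hs1.ne'
    rw [mul_assoc] at h1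
    exact (pos_iff_pos_of_mul_pos h1).mp (inv_pos.mpr hs1)
  have hneg : C.T (y (-s₁)) (y (-s₁)) z₀ * c < 0 := by
    have h1 := hη3 (y := -s₁)
      (by rw [Real.dist_eq, sub_zero, abs_neg, abs_of_pos hs1]; exact hs1η')
      (by simpa using hs1.ne')
    rw [mul_assoc] at h1
    exact (neg_iff_neg_of_mul_pos h1).mp (inv_lt_zero.mpr (by linarith))
  have hgz : ∀ s : ℝ, Continuous fun z : Fin m → ℝ => C.T (y s) (y s) z * c := by
    intro s
    have : Continuous fun z : Fin m → ℝ => C.T (y s) (y s) z :=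
      C.continuous_comp continuous_const continuous_const continuous_id
    exact this.mul continuous_const
  have hev4 : ∀ᶠ z in 𝓝 z₀, 0 < C.T (y s₁) (y s₁) z * c :=
    (hgz s₁).continuousAt.eventually (lt_mem_nhds hpos)
  have hev5 : ∀ᶠ z in 𝓝 z₀, C.T (y (-s₁)) (y (-s₁)) z * c < 0 :=
    (hgz (-s₁)).continuousAt.eventually (gt_mem_nhds hneg)
  refine ⟨z₀, hz00, hz0, ?_⟩
  filter_upwards [hpb, hev4, hev5] with z hzb hz4 hz5 hzF
  have hIVT : (0 : ℝ) ∈ (fun s : ℝ => C.T (y s) (y s) z * c) '' Icc (-s₁) s₁ := by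
    have hcont : ContinuousOn (fun s : ℝ => C.T (y s) (y s) z * c) (Icc (-s₁) s₁) := by
      have h1 : Continuous fun s : ℝ => C.T (y s) (y s) z :=
        C.continuous_comp hc hc continuous_const
      exact (h1.mul continuous_const).continuousOn
    exact intermediate_value_Icc (by linarith) hcont ⟨hz5.le, hz4.le⟩
  obtain ⟨s, hsI, hs0⟩ := hIVT
  have hs0' : C.T (y s) (y s) z = 0 := (mul_eq_zero.mp hs0).resolve_right hc0
  have hsη : dist s 0 < η := by
    rw [Real.dist_eq, sub_zero, abs_lt]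
    exact ⟨by linarith [hsI.1], by linarith [hsI.2]⟩
  obtain ⟨k1, k2⟩ := hη' hsη
  have k3 : C.T (y s) z z ≠ 0 := hpab k1 hzb
  have h1 := tangent_mem (hZ s) ⟨v, k2⟩ hs0'
  rw [hzF, zero_smul, zero_sub, ← neg_smul] at h1
  exact mem_Z_of_smul (neg_ne_zero.mpr (mul_ne_zero three_ne_zero k3)) h1

end Cub

end Pool.Agent.MZ
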