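import Mathlib

/-!
# MZ module WRON (Mathlib only): polynomials with vanishing Wronskian

PROOF. `c = A.eval 0 / B.eval 0`, `E = A - C c * B`: `E.eval 0 = 0` and
`derivative E * B = E * derivative B` (linear combination). Suppose `E ≠ 0`. Let `k ≥ 1` be the multiplicity of the
root 0 of `E`. Since the characteristic is 0, the multiplicity of 0 in `derivative E` is `k - 1`
(`Polynomial.derivative_rootMultiplicity_of_root`; `derivative E ≠ 0` because `E` is not constant: it has a
root and is not zero), that of `B` is 0. So the left side has multiplicity `k - 1` (`rootMultiplicity_mul`,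
it is not zero), and the right side is 0 or has multiplicity `≥ k`: contradiction. So `E = 0`.
(Alternatively: `E = X ^ k * E₁`, `E₁.eval 0 ≠ 0`; cancel `X ^ (k-1)` and evaluate at 0: `k E₁(0) B(0) = 0`.)
About 50 lines.
-/

set_option autoImplicit false

open Polynomial

namespace Pool.Agent.MZ

theorem wronskian_zero {A B : ℝ[X]} (h : derivative A * B = A * derivative B)
    (hB : B.eval 0 ≠ 0) : A = Polynomial.C (A.eval 0 / B.eval 0) * B := by
  set c : ℝ := A.eval 0 / B.eval 0 with hc
  set E : ℝ[X] := A - C c * B with hE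
  have hE0 : E.eval 0 = 0 := by
    rw [hE, eval_sub, eval_mul, eval_C, hc, div_mul_cancel₀ _ hB, sub_self]
  have hEB : derivative E * B = E * derivative B := by
    rw [hE, derivative_sub, derivative_C_mul]
    linear_combination h
  have hEz : E = 0 := by
    by_contra hne
    obtain ⟨E₁, hE₁, hE₁0⟩ := exists_eq_pow_rootMultiplicity_mul_and_not_dvd E hne 0
    set k := rootMultiplicity 0 E with hk
    have hkpos : 0 < k := (rootMultiplicity_pos hne).2 hE0
    obtain ⟨j, hj⟩ : ∃ j, k = j + 1 := ⟨k - 1, by omega⟩
    have hE₁e : E₁.eval 0 ≠ 0 := fun h0 => hE₁0 (dvd_iff_isRoot.2 h0)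
    have hX : (X - C 0 : ℝ[X]) = X := by rw [map_zero, sub_zero]
    rw [hX, hj] at hE₁
    have hd : derivative E = X ^ j * (C ((j : ℝ) + 1) * E₁ + X * derivative E₁) := by
      rw [hE₁, derivative_mul, derivative_X_pow]
      simp only [Nat.add_sub_cancel, Nat.cast_add, Nat.cast_one]
      ring
    have h2 : X ^ j * ((C ((j : ℝ) + 1) * E₁ + X * derivative E₁) * B) =
        X ^ j * (X * E₁ * derivative B) := by
      have h3 := hEB
      rw [hd, hE₁] at h3
      rw [← mul_assoc, h3]
      ring
    have h4 := mul_left_cancel₀ (pow_ne_zero j (X_ne_zero (R := ℝ))) h2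
    have h5 := congrArg (eval 0) h4
    simp only [eval_mul, eval_add, eval_C, eval_X, zero_mul, add_zero] at h5
    have h6 : ((j : ℝ) + 1) ≠ 0 := by positivity
    exact mul_ne_zero (mul_ne_zero h6 hE₁e) hB h5
  have h7 : A - C c * B = 0 := hEz
  exact sub_eq_zero.1 h7

end Pool.Agent.MZ
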