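import Mathlib
import Pool.Agent.MZ.Defs
import Pool.Agent.MZ.RatAlg
import Pool.Agent.MZ.RatD
import Pool.Agent.MZ.Basic
import Pool.Agent.MZ.Tan
import Pool.Agent.MZ.Wron

/-!
# MZ module STRUCTN: structure at a rational point of type N when `O` is empty

(uses the stubs of `RatAlg`, `RatD`, `Basic`, `Tan`, `wronskian_zero`)

Notation: `F v = T v v v`, `q v = T p v v`, `H = {v | T p p v = 0}` (contains `p`),
`Y v = F v • p - (3 * q v) • v`; for `v ∈ H`, `Y v ∈ Z` (`tangent_mem`, `p ∈ XQ ⊆ Z`).

PROOF. (1) We may take `u₀` rational (`isRat_near` for `lam = C.T p p`, and `q` is continuous).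
`q u₀ ≠ 0`, `u₀ ∈ H`.
(2) `key`: for `v ∈ H` and all `u`:
`T (Y v) (Y v) u * T (Y u₀) (Y u₀) p = T (Y u₀) (Y u₀) u * T (Y v) (Y v) p`.
Let `w = v - u₀ ∈ H`, `v_s = u₀ + s • w ∈ H`, `y s = Y v_s ∈ Z` for all `s`, with derivative
`y' s = (3 T v_s v_s w) • p - (6 T p v_s w) • v_s - (3 q v_s) • w`. For every vector `u` let
`R u s = T (y s) (y s) u`, derivative `2 T (y s) (y' s) u`. It is a polynomial function of `s`: there is
`A u : ℝ[X]` with `(A u).eval s = R u s` for all `s` (expand:
`R u s = F² T p p u - 6 F q T p v_s u + 9 q² T v_s v_s u` with `F = F v_s`, `q = q v_s`; here `F v_s`, `q v_s`,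
`T p v_s u`, `T v_s v_s u` are polynomials in `s`, by expanding `v_s = u₀ + s • w`).
`R u' R' u = R' u' R u` for all `s`: if `T (y s) (y s) _ = 0` both sides are 0. Otherwise, by `sweep` applied to
`σ ↦ y (s + σ)` (as `O = ∅`): every `u''` with `T (y s) (y s) u'' = 0` has `T (y s) (y' s) u'' = 0`;
take `u'' = R u' s • u - R u s • u'`. So with `u' = p`: `derivative (A u) * A p = A u * derivative (A p)`
(polynomials that agree at all real numbers, `Polynomial.funext`; the derivatives by uniqueness of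
`HasDerivAt`). `(A p).eval 0 = T (Y u₀) (Y u₀) p = 9 (q u₀)³ ≠ 0`: in general for `v ∈ H`:
`T (Y v) (Y v) p = F² T p p p - 6 F q T p v p + 9 q² T v v p = 9 q³`. `wronskian_zero`, evaluate at `s = 1`.
(3) `lam u := T (Y u₀) (Y u₀) u / (9 (q u₀)³)`: a linear form, rational on rational vectors,
`lam p = 1`, and by (2), for all `v ∈ H`, all `u`:
`(F v)² T p p u - 6 F v q v T p v u + 9 (q v)² T v v u = 9 (q v)³ lam u`.    (R)
(4) `u = v` in (R): `3 (q v)² F v = 9 (q v)³ lam v`, so `F v = 3 q v lam v` whenever `v ∈ H`, `q v ≠ 0`.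
(5) Let `v ∈ H`, `lam v = 0`, `q v ≠ 0`: `F v = 0` by (4) and (R) gives `T v v u = q v * lam u`.
(6) Let `v ∈ H`, `lam v = 0`, `q v = 0`. Let `z = u₀ - lam u₀ • p`: `z ∈ H`, `lam z = 0`,
`q z = q u₀ ≠ 0` (`T p p u₀ = 0 = T p p p`). For real `ε`, `v + ε z` is in `H`, in the kernel of `lam`, and
`q (v + ε z) = 2 ε T p v z + ε² q z` is not zero for small `ε ≠ 0`, so (5) holds for `v + ε z`; let
`ε → 0` (continuity), or compare the polynomials in `ε`.
About 200 lines.
-/

set_option autoImplicit false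

open Set Topology Filter MvPolynomial

namespace Pool.Agent.MZ

namespace Cub

variable {m : ℕ} {C : Cub m}

/-- the residual point `Y v` of the tangent direction `v` at `p` -/
private def snY (C : Cub m) (p v : Fin m → ℝ) : Fin m → ℝ :=
  C.T v v v • p - (3 * C.T p v v) • v

private theorem sn_expand (C : Cub m) (p v u : Fin m → ℝ) :
    C.T (snY C p v) (snY C p v) u = C.T v v v ^ 2 * C.T p p u -
      6 * C.T v v v * C.T p v v * C.T p v u + 9 * C.T p v v ^ 2 * C.T v v u := by
  simp only [snY, map_sub, map_smul, LinearMap.sub_apply, LinearMap.smul_apply, smul_eq_mul]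
  rw [C.sym₁ v p u]
  ring

private theorem sn_p {C : Cub m} {p v : Fin m → ℝ} (hp0 : C.T p p p = 0) (hv : C.T p p v = 0) :
    C.T (snY C p v) (snY C p v) p = 9 * C.T p v v ^ 3 := by
  rw [sn_expand, hp0, C.sym₂ p v p, hv, C.sym₂ v v p, C.sym₁ v p v]
  ring

private theorem sn_mem {C : Cub m} {p v : Fin m → ℝ} (hp : p ∈ C.Z) (hps : ∃ u, C.T p p u ≠ 0)
    (hv : C.T p p v = 0) : snY C p v ∈ C.Z := tangent_mem hp hps hv

private theorem sn_poly (C : Cub m) (p a w u : Fin m → ℝ) :
    ∃ A : Polynomial ℝ, ∀ s : ℝ,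
      A.eval s = C.T (snY C p (a + s • w)) (snY C p (a + s • w)) u := by
  let X : Polynomial ℝ := Polynomial.X
  let c : ℝ → Polynomial ℝ := fun r => Polynomial.C r
  let Fp : Polynomial ℝ := c (C.T a a a) + c (3 * C.T a a w) * X + c (3 * C.T a w w) * X ^ 2 +
    c (C.T w w w) * X ^ 3
  let Qp : Polynomial ℝ := c (C.T p a a) + c (2 * C.T p a w) * X + c (C.T p w w) * X ^ 2
  let Lp : Polynomial ℝ := c (C.T p a u) + c (C.T p w u) * X
  let Mp : Polynomial ℝ := c (C.T a a u) + c (2 * C.T a w u) * X + c (C.T w w u) * X ^ 2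
  have hF : ∀ s : ℝ, Fp.eval s = C.T (a + s • w) (a + s • w) (a + s • w) := by
    intro s
    simp only [Fp, c, X, map_add, map_smul, LinearMap.add_apply, LinearMap.smul_apply,
      smul_eq_mul, Polynomial.eval_add, Polynomial.eval_mul, Polynomial.eval_C,
      Polynomial.eval_X, Polynomial.eval_pow]
    have e1 : C.T w a a = C.T a a w := by rw [C.sym₁, C.sym₂]
    have e2 : C.T a w a = C.T a a w := C.sym₂ _ _ _
    have e3 : C.T w w a = C.T a w w := by rw [C.sym₂, C.sym₁]
    have e4 : C.T w a w = C.T a w w := C.sym₁ _ _ _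
    simp only [e1, e2, e3, e4]
    ring
  have hQ : ∀ s : ℝ, Qp.eval s = C.T p (a + s • w) (a + s • w) := by
    intro s
    simp only [Qp, c, X, map_add, map_smul, LinearMap.add_apply, LinearMap.smul_apply,
      smul_eq_mul, Polynomial.eval_add, Polynomial.eval_mul, Polynomial.eval_C,
      Polynomial.eval_X, Polynomial.eval_pow]
    rw [C.sym₂ p w a]
    ring
  have hL : ∀ s : ℝ, Lp.eval s = C.T p (a + s • w) u := by
    intro s
    simp only [Lp, c, X, map_add, map_smul, LinearMap.add_apply, LinearMap.smul_apply,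
      smul_eq_mul, Polynomial.eval_add, Polynomial.eval_mul, Polynomial.eval_C,
      Polynomial.eval_X]
    ring
  have hM : ∀ s : ℝ, Mp.eval s = C.T (a + s • w) (a + s • w) u := by
    intro s
    simp only [Mp, c, X, map_add, map_smul, LinearMap.add_apply, LinearMap.smul_apply,
      smul_eq_mul, Polynomial.eval_add, Polynomial.eval_mul, Polynomial.eval_C,
      Polynomial.eval_X, Polynomial.eval_pow]
    rw [C.sym₁ w a u]
    ring
  refine ⟨Fp ^ 2 * c (C.T p p u) - c 6 * Fp * Qp * Lp + c 9 * Qp ^ 2 * Mp, fun s => ?_⟩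
  rw [sn_expand]
  simp only [Polynomial.eval_add, Polynomial.eval_sub, Polynomial.eval_mul, Polynomial.eval_pow,
    hF, hQ, hL, hM, c, Polynomial.eval_C]

private theorem sn_diff (C : Cub m) (p a w : Fin m → ℝ) :
    Differentiable ℝ fun s : ℝ => snY C p (a + s • w) := by
  have h1 : Differentiable ℝ fun s : ℝ => a + s • w := by fun_prop
  have h2 : ∀ s : ℝ, HasDerivAt (fun s : ℝ => a + s • w) w s := by
    intro s
    simpa using ((hasDerivAt_id s).smul_const w).const_add a
  have h3 : Differentiable ℝ fun s : ℝ => C.T (a + s • w) (a + s • w) (a + s • w) :=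
    fun s => (C.hasDerivAt_comp (h2 s) (h2 s) (h2 s)).differentiableAt
  have h4 : Differentiable ℝ fun s : ℝ => C.T p (a + s • w) (a + s • w) :=
    fun s => (C.hasDerivAt_comp (hasDerivAt_const s p) (h2 s) (h2 s)).differentiableAt
  have h5 : Differentiable ℝ fun s : ℝ => C.T (a + s • w) (a + s • w) (a + s • w) • p :=
    h3.smul_const p
  have h6 : Differentiable ℝ fun s : ℝ => (3 * C.T p (a + s • w) (a + s • w)) • (a + s • w) :=
    (h4.const_mul 3).smul h1
  exact h5.sub h6

private theorem sn_key {C : Cub m} (hO : C.O = ∅) {p : Fin m → ℝ} (hp : p ∈ C.Z)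
    (hp0 : C.T p p p = 0) (hps : ∃ u, C.T p p u ≠ 0) {a : Fin m → ℝ} (ha : C.T p p a = 0)
    (hqa : C.T p a a ≠ 0) {v : Fin m → ℝ} (hv : C.T p p v = 0) (u : Fin m → ℝ) :
    C.T (snY C p v) (snY C p v) u * C.T (snY C p a) (snY C p a) p =
      C.T (snY C p a) (snY C p a) u * C.T (snY C p v) (snY C p v) p := by
  set w := v - a with hw
  have hline : ∀ s : ℝ, C.T p p (a + s • w) = 0 := by
    intro s
    rw [hw]
    simp only [map_add, map_smul, map_sub, ha, hv, smul_eq_mul]
    ring
  obtain ⟨A, hA⟩ := sn_poly C p a w u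
  obtain ⟨B, hB⟩ := sn_poly C p a w p
  set y : ℝ → Fin m → ℝ := fun s => snY C p (a + s • w) with hy
  have hyd : Differentiable ℝ y := sn_diff C p a w
  have hyZ : ∀ s, y s ∈ C.Z := fun s => sn_mem hp hps (hline s)
  have hderiv : ∀ (x : Fin m → ℝ) (D : Polynomial ℝ), (∀ s : ℝ, D.eval s = C.T (y s) (y s) x) →
      ∀ s : ℝ, D.derivative.eval s = 2 * C.T (y s) (deriv y s) x := by
    intro x D hD s
    have h1 := C.hasDerivAt_comp (hyd s).hasDerivAt (hyd s).hasDerivAt (hasDerivAt_const s x)
    have h2 : HasDerivAt (fun s : ℝ => C.T (y s) (y s) x) (D.derivative.eval s) s := by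
      have h3 := D.hasDerivAt s
      have h4 : (fun s : ℝ => C.T (y s) (y s) x) = fun s => D.eval s := by
        funext s
        exact (hD s).symm
      rw [h4]
      exact h3
    have h5 := h2.unique h1
    rw [h5, C.sym₁ (deriv y s) (y s) x, map_zero]
    ring
  have hwr : A.derivative * B = A * B.derivative := by
    apply Polynomial.funext
    intro s
    rw [Polynomial.eval_mul, Polynomial.eval_mul, hderiv u A hA s, hderiv p B hB s, hA s, hB s]
    by_cases hz : ∃ x, C.T (y s) (y s) x ≠ 0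
    · have hc : Continuous fun σ : ℝ => y (s + σ) :=
        hyd.continuous.comp (continuous_const.add continuous_id)
      have hd : HasDerivAt (fun σ : ℝ => y (s + σ)) (deriv y s) 0 := by
        have h1 : HasDerivAt y (deriv y s) (s + 0) := by
          rw [add_zero]
          exact (hyd s).hasDerivAt
        exact h1.comp_const_add s 0
      have h1 : ∀ x, C.T (y s) (y s) x = 0 → C.T (y s) (deriv y s) x = 0 := by
        intro x hx
        by_contra hne
        have h2 := sweep (C := C) (y := fun σ : ℝ => y (s + σ)) hc hd (fun σ => hyZ _)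
          (by simpa using hz) (u := x) (by simpa using hx) (by simpa using hne)
        rw [hO] at h2
        exact not_nonempty_empty h2
      have h3 := h1 (C.T (y s) (y s) p • u - C.T (y s) (y s) u • p) (by
        simp only [map_sub, map_smul, smul_eq_mul]
        ring)
      simp only [map_sub, map_smul, smul_eq_mul] at h3
      change 2 * C.T (y s) (deriv y s) u * C.T (y s) (y s) p =
        C.T (y s) (y s) u * (2 * C.T (y s) (deriv y s) p)
      linear_combination 2 * h3
    · push Not at hz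
      change 2 * C.T (y s) (deriv y s) u * C.T (y s) (y s) p =
        C.T (y s) (y s) u * (2 * C.T (y s) (deriv y s) p)
      rw [hz, hz]
      ring
  have e0 : a + (0 : ℝ) • w = a := by rw [zero_smul, add_zero]
  have e1 : a + (1 : ℝ) • w = v := by rw [one_smul, hw]; abel
  have hB0 : B.eval 0 = C.T (snY C p a) (snY C p a) p := by rw [hB, e0]
  have hB0' : B.eval 0 ≠ 0 := by
    rw [hB0, sn_p hp0 ha]
    have := pow_ne_zero 3 hqa
    positivity
  have h1 := wronskian_zero hwr hB0'
  have h2 : A.eval 1 = A.eval 0 / B.eval 0 * B.eval 1 := by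
    conv_lhs => rw [h1]
    rw [Polynomial.eval_mul, Polynomial.eval_C]
  rw [hA, hA, hB 1, e0, e1] at h2
  rw [h2, ← hB0]
  field_simp

theorem structN (hO : C.O = ∅) {p : Fin m → ℝ} (hp : IsRat p) (hp0 : C.T p p p = 0)
    (hps : ∃ u, C.T p p u ≠ 0) {u₀ : Fin m → ℝ} (hu : C.T p p u₀ = 0) (hq : C.T p u₀ u₀ ≠ 0) :
    ∃ lam : (Fin m → ℝ) →ₗ[ℝ] ℝ, (∀ x, IsRat x → IsQ (lam x)) ∧ lam p = 1 ∧
      ∀ v, C.T p p v = 0 → lam v = 0 → ∀ u, C.T v v u = C.T p v v * lam u := by
  have hpZ : p ∈ C.Z := XQ_subset_Z ⟨hp, hp0⟩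
  obtain ⟨a, ha, hqa, har⟩ : ∃ a, C.T p p a = 0 ∧ C.T p a a ≠ 0 ∧ IsRat a := by
    have hcont : Continuous fun v : Fin m → ℝ => C.T p v v :=
      C.continuous_comp continuous_const continuous_id continuous_id
    have hW : {v : Fin m → ℝ | C.T p v v ≠ 0} ∈ 𝓝 u₀ :=
      (isOpen_ne.preimage hcont).mem_nhds hq
    obtain ⟨a, haW, har, ha⟩ := isRat_near (lam := C.T p p) (fun x hx => C.rat p p x hp hp hx)
      hps hu hW
    exact ⟨a, ha, haW, har⟩
  have hqa3 : (9 * C.T p a a ^ 3) ≠ 0 := by
    have := pow_ne_zero 3 hqa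
    positivity
  have hYr : IsRat (snY C p a) := by
    refine IsRat.sub (IsRat.smul (C.rat a a a har har har) hp) (IsRat.smul ?_ har)
    exact (by simpa using IsQ.natCast 3 : IsQ (3 : ℝ)).mul (C.rat p a a hp har har)
  set lam : (Fin m → ℝ) →ₗ[ℝ] ℝ := (9 * C.T p a a ^ 3)⁻¹ • C.T (snY C p a) (snY C p a)
    with hlam
  have hlam' : ∀ u, lam u = (9 * C.T p a a ^ 3)⁻¹ * C.T (snY C p a) (snY C p a) u := fun u => rfl
  have hR : ∀ v, C.T p p v = 0 → ∀ u, C.T v v v ^ 2 * C.T p p u -
      6 * C.T v v v * C.T p v v * C.T p v u + 9 * C.T p v v ^ 2 * C.T v v u =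
      9 * C.T p v v ^ 3 * lam u := by
    intro v hv u
    have h1 := sn_key hO hpZ hp0 hps ha hqa hv u
    rw [sn_p hp0 ha, sn_p hp0 hv] at h1
    rw [← sn_expand, hlam']
    field_simp
    linear_combination (1 / 9) * h1
  have hlp : lam p = 1 := by
    rw [hlam', sn_p hp0 ha]
    exact inv_mul_cancel₀ hqa3
  have h5 : ∀ v, C.T p p v = 0 → lam v = 0 → C.T p v v ≠ 0 →
      ∀ u, C.T v v u = C.T p v v * lam u := by
    intro v hv hlv hqv u
    have h1 := hR v hv v
    rw [hv, hlv] at h1
    have h2 : C.T v v v = 0 := by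
      have h3 : C.T p v v ^ 2 * C.T v v v = 0 := by linear_combination h1 / 3
      exact (mul_eq_zero.mp h3).resolve_left (pow_ne_zero 2 hqv)
    have h4 := hR v hv u
    rw [h2] at h4
    have h6 : C.T p v v ^ 2 * (C.T v v u - C.T p v v * lam u) = 0 := by
      linear_combination h4 / 9
    have h7 := (mul_eq_zero.mp h6).resolve_left (pow_ne_zero 2 hqv)
    linarith
  refine ⟨lam, fun x hx => ?_, hlp, fun v hv hlv u => ?_⟩
  · rw [hlam']
    refine IsQ.mul (IsQ.inv ?_) (C.rat _ _ _ hYr hYr hx)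
    exact (by simpa using IsQ.natCast 9 : IsQ (9 : ℝ)).mul ((C.rat p a a hp har har).pow 3)
  · by_cases hqv : C.T p v v = 0
    · set z := a - lam a • p with hz
      have hz1 : C.T p p z = 0 := by
        rw [hz, map_sub, map_smul, ha, hp0, smul_zero, sub_zero]
      have hz2 : lam z = 0 := by
        rw [hz, map_sub, map_smul, hlp, smul_eq_mul, mul_one, sub_self]
      have hz3 : C.T p z z = C.T p a a := by
        rw [hz]
        simp only [map_sub, map_smul, LinearMap.sub_apply, LinearMap.smul_apply, smul_eq_mul]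
        rw [C.sym₂ p a p, ha, hp0]
        ring
      have h1 : ∀ t : ℝ, C.T p (v + t • z) (v + t • z) = t * (2 * C.T p v z + t * C.T p a a) := by
        intro t
        simp only [map_add, map_smul, LinearMap.add_apply, LinearMap.smul_apply, smul_eq_mul]
        rw [hqv, hz3, C.sym₂ p z v]
        ring
      -- the identity holds for small `t ≠ 0`
      have h2 : ∀ᶠ t : ℝ in 𝓝[≠] 0, C.T (v + t • z) (v + t • z) u =
          C.T p (v + t • z) (v + t • z) * lam u := by
        have h3 : ∀ᶠ t : ℝ in 𝓝[≠] 0, 2 * C.T p v z + t * C.T p a a ≠ 0 := by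
          by_cases hvz : C.T p v z = 0
          · filter_upwards [self_mem_nhdsWithin] with t ht
            rw [hvz, mul_zero, zero_add]
            exact mul_ne_zero ht hqa
          · have h4 : Continuous fun t : ℝ => 2 * C.T p v z + t * C.T p a a := by fun_prop
            have h5 : ∀ᶠ t : ℝ in 𝓝 0, 2 * C.T p v z + t * C.T p a a ≠ 0 := by
              refine h4.continuousAt.eventually_ne ?_
              rw [zero_mul, add_zero]
              exact mul_ne_zero two_ne_zero hvz
            exact h5.filter_mono nhdsWithin_le_nhds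
        filter_upwards [self_mem_nhdsWithin, h3] with t ht ht'
        refine h5 _ ?_ ?_ ?_ u
        · rw [map_add, map_smul, hv, hz1, smul_zero, add_zero]
        · rw [map_add, map_smul, hlv, hz2, smul_zero, add_zero]
        · rw [h1]
          exact mul_ne_zero ht ht'
      have hv0 : Continuous fun t : ℝ => v + t • z := by fun_prop
      have h6 : Tendsto (fun t : ℝ => C.T (v + t • z) (v + t • z) u) (𝓝[≠] 0)
          (𝓝 (C.T v v u)) := by
        have h7 := (C.continuous_comp hv0 hv0 (continuous_const (y := u))).tendsto 0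
        rw [zero_smul, add_zero] at h7
        exact h7.mono_left nhdsWithin_le_nhds
      have h8 : Tendsto (fun t : ℝ => C.T p (v + t • z) (v + t • z) * lam u) (𝓝[≠] 0)
          (𝓝 (C.T p v v * lam u)) := by
        have h9 : Continuous fun t : ℝ => C.T p (v + t • z) (v + t • z) * lam u :=
          (C.continuous_comp (continuous_const (y := p)) hv0 hv0).mul continuous_const
        have h7 := h9.tendsto 0
        rw [zero_smul, add_zero] at h7
        exact h7.mono_left nhdsWithin_le_nhds
      exact tendsto_nhds_unique (h6.congr' h2) h8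
    · exact h5 v hv hlv hqv u

end Cub

end Pool.Agent.MZ
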