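import Mathlib
import Pool.Agent.MZ.Defs
import Pool.Agent.MZ.RatAlg
import Pool.Agent.MZ.RatD
import Pool.Agent.MZ.Basic
import Pool.Agent.MZ.StructN
import Pool.Agent.MZ.Pq

/-!
# MZ module N4A: normal form at a rational point of type N, dimension at least 4, `O` empty

(uses the stubs of `RatAlg`, `RatD`, `Basic`, `structN`, `exists_isRat_ker`)

PROOF of `exists_ker3`. The three ℚ-linear maps `(Fin m → ℚ) → ℚ`, `q ↦ l (rv q)` (choose the rational value;
they are linear because `ℚ → ℝ` is injective), together a ℚ-linear map `(Fin m → ℚ) → (Fin 3 → ℚ)`,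
which is not injective as `3 < m` (`LinearMap.exists_ne_zero...`/`LinearMap.ker_ne_bot_of_finrank_lt`, or
use the matrix `l (e i)` and `Matrix.exists_mulVec_eq_zero_iff`-free:
`exists_nontrivial_relation_of_finrank_lt_card`).

PROOF of `isotropic`. Polarise: `T (a+b) (a+b) u = T a a u + 2 T a b u + T b b u`.

PROOF of `typeN_data`. `structN` gives `lam`. A rational `e₀` with `T p p e₀ ≠ 0` exists
(`exists_isRat_ne`). `e₁ = e₀ / T p p e₀`, `e = e₁ - lam e₁ • p`: `T p p e = 1`, `lam e = 0`.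
Let `Λ = {v | T p p v = 0 ∧ lam v = 0}`.
(a) For rational `w ∈ Λ`, `w ≠ 0`: `T p w w ≠ 0`. Otherwise `T w w u = 0` for all `u`,
    `T w w w = 0`: contradiction to `hns`.
(b) For rational `v ∈ Λ`: `T v e e = 0`. Suppose not; then `v ≠ 0`. `T v v v = T p v v * lam v = 0`. `v` is
    smooth by `hns`. Apply `structN` at the point `v` with `u₀ = e`: `T v v e = T p v v * lam e = 0` and
    `T v e e ≠ 0`. We get `lam'` with `lam' v = 1` and
    `∀ w, T v v w = 0 → lam' w = 0 → ∀ u, T w w u = T v w w * lam' u`. By `exists_ker3` there is a rational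
    `w ≠ 0` with `T p p w = 0`, `lam w = 0`, `lam' w = 0`. `w ∈ Λ`, `T v v w = T p v v * lam w = 0`, so
    `T w w u = T v w w * lam' u` for all `u`, and `T v w w = T w w v = T p w w * lam v = 0`. So
    `T w w u = 0` for all `u`: contradiction to `hns`.
(c) `T e e e ≠ 0`: suppose `T e e e = 0`. By `exists_isRat_ker` for `lam` there is a rational `x` with `lam x = 0`,
    `T x x x ≠ 0`. Let `t = T p p x`, `v = x - t • e`: rational, in `Λ`. `T x x x =
    T v v v + 3 t T v v e + 3 t² T v e e + t³ T e e e = 0`, as `T v v u = T p v v * lam u = 0` for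
    `u = v, e`. Contradiction.
About 130 lines.
-/

set_option autoImplicit false

open Set Topology Filter MvPolynomial

namespace Pool.Agent.MZ

private theorem n4a_expand {m : ℕ} (l : (Fin m → ℝ) →ₗ[ℝ] ℝ) (x : Fin m → ℝ) :
    l x = ∑ i, x i * l (Pi.single i 1) := by
  conv_lhs => rw [pi_eq_sum_univ' x]
  rw [map_sum]
  refine Finset.sum_congr rfl fun i _ => ?_
  rw [map_smul, smul_eq_mul]

theorem exists_ker3 {m : ℕ} (hm : 4 ≤ m) {l₁ l₂ l₃ : (Fin m → ℝ) →ₗ[ℝ] ℝ}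
    (h₁ : ∀ x, IsRat x → IsQ (l₁ x)) (h₂ : ∀ x, IsRat x → IsQ (l₂ x))
    (h₃ : ∀ x, IsRat x → IsQ (l₃ x)) :
    ∃ w, IsRat w ∧ w ≠ 0 ∧ l₁ w = 0 ∧ l₂ w = 0 ∧ l₃ w = 0 := by
  choose a ha using fun i : Fin m => h₁ _ (IsRat.single i)
  choose b hb using fun i : Fin m => h₂ _ (IsRat.single i)
  choose c hc using fun i : Fin m => h₃ _ (IsRat.single i)
  let F : (Fin m → ℚ) →ₗ[ℚ] (Fin 3 → ℚ) := Matrix.mulVecLin (Matrix.of ![a, b, c])
  have hlt : Module.finrank ℚ (Fin 3 → ℚ) < Module.finrank ℚ (Fin m → ℚ) := by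
    rw [Module.finrank_fin_fun, Module.finrank_fin_fun]
    omega
  have hker := LinearMap.ker_ne_bot_of_finrank_lt (f := F) hlt
  obtain ⟨q, hq, hq0⟩ := (Submodule.ne_bot_iff _).1 hker
  have hF : F q = 0 := hq
  have hval : ∀ (l : (Fin m → ℝ) →ₗ[ℝ] ℝ) (d : Fin m → ℚ), (∀ i, l (Pi.single i 1) = (d i : ℝ)) →
      ∑ i, d i * q i = 0 → l (rv q) = 0 := by
    intro l d hd hs
    rw [n4a_expand]
    have h5 : ∑ i, rv q i * l (Pi.single i 1) = ((∑ i, d i * q i : ℚ) : ℝ) := by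
      push_cast
      refine Finset.sum_congr rfl fun i _ => ?_
      rw [hd i]
      unfold rv
      ring
    rw [h5, hs, Rat.cast_zero]
  refine ⟨rv q, IsRat.rv q, ?_, ?_, ?_, ?_⟩
  · intro h0
    apply hq0
    apply rv_injective
    rw [h0]
    funext i
    simp [rv]
  · exact hval l₁ a ha (congrFun hF 0)
  · exact hval l₂ b hb (congrFun hF 1)
  · exact hval l₃ c hc (congrFun hF 2)

namespace Cub

variable {m : ℕ} {C : Cub m}

theorem isotropic {p : Fin m → ℝ} {lam : (Fin m → ℝ) →ₗ[ℝ] ℝ}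
    (h : ∀ v, C.T p p v = 0 → lam v = 0 → ∀ u, C.T v v u = C.T p v v * lam u)
    {a b : Fin m → ℝ} (ha : C.T p p a = 0) (ha' : lam a = 0) (hb : C.T p p b = 0)
    (hb' : lam b = 0) (u : Fin m → ℝ) : C.T a b u = C.T p a b * lam u := by
  have h1 := h a ha ha' u
  have h2 := h b hb hb' u
  have h3 := h (a + b) (by rw [map_add, ha, hb, add_zero]) (by rw [map_add, ha', hb', add_zero]) u
  simp only [map_add, LinearMap.add_apply] at h3
  rw [C.sym₁ b a u, C.sym₂ p b a] at h3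
  linarith

private theorem n4a_yxx (C : Cub m) (x y : Fin m → ℝ) : C.T y x x = C.T x x y := by
  rw [C.sym₁ y x x, C.sym₂ x y x]

theorem typeN_data (hm : 4 ≤ m) (hirr : Irreducible C.pol) (hns : C.NoSing) (hO : C.O = ∅)
    {p : Fin m → ℝ} (hp : IsRat p) (hp0 : C.T p p p = 0) (hps : ∃ u, C.T p p u ≠ 0)
    {u₀ : Fin m → ℝ} (hu : C.T p p u₀ = 0) (hq : C.T p u₀ u₀ ≠ 0) :
    ∃ (lam : (Fin m → ℝ) →ₗ[ℝ] ℝ) (e : Fin m → ℝ), (∀ x, IsRat x → IsQ (lam x)) ∧ lam p = 1 ∧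
      (∀ v, C.T p p v = 0 → lam v = 0 → ∀ u, C.T v v u = C.T p v v * lam u) ∧
      IsRat e ∧ C.T p p e = 1 ∧ lam e = 0 ∧
      (∀ v, IsRat v → C.T p p v = 0 → lam v = 0 → C.T v e e = 0) ∧ C.T e e e ≠ 0 ∧
      ∀ w, IsRat w → w ≠ 0 → C.T p p w = 0 → lam w = 0 → C.T p w w ≠ 0 := by
  obtain ⟨lam, hlQ, hlp, hl⟩ := structN hO hp hp0 hps hu hq
  obtain ⟨e₀, he₀, he₀n⟩ := exists_isRat_ne (lam := C.T p p) hps
  have hpQ : ∀ x, IsRat x → IsQ (C.T p p x) := fun x hx => C.rat p p x hp hp hx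
  set e₁ := (C.T p p e₀)⁻¹ • e₀ with he₁
  have he₁r : IsRat e₁ := IsRat.smul (hpQ _ he₀).inv he₀
  set e := e₁ - lam e₁ • p with he
  have her : IsRat e := he₁r.sub (IsRat.smul (hlQ _ he₁r) hp)
  have hpe : C.T p p e = 1 := by
    have h1 : C.T p p e₁ = 1 := by rw [he₁, map_smul, smul_eq_mul, inv_mul_cancel₀ he₀n]
    have h2 : C.T p p (e₁ - lam e₁ • p) = C.T p p e₁ - lam e₁ * C.T p p p := by
      simp only [map_sub, map_smul, smul_eq_mul]
    rw [he, h2, h1, hp0, mul_zero, sub_zero]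
  have hle : lam e = 0 := by
    have h2 : lam (e₁ - lam e₁ • p) = lam e₁ - lam e₁ * lam p := by
      simp only [map_sub, map_smul, smul_eq_mul]
    rw [he, h2, hlp, mul_one, sub_self]
  -- (a)
  have ha : ∀ w, IsRat w → w ≠ 0 → C.T p p w = 0 → lam w = 0 → C.T p w w ≠ 0 := by
    intro w hw hw0 hpw hlw h0
    have h1 : ∀ u, C.T w w u = 0 := fun u => by rw [hl w hpw hlw u, h0, zero_mul]
    obtain ⟨u, hu1⟩ := hns w hw hw0 (h1 w)
    exact hu1 (h1 u)
  -- (b)
  have hb : ∀ v, IsRat v → C.T p p v = 0 → lam v = 0 → C.T v e e = 0 := by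
    intro v hv hpv hlv
    by_contra hne
    have hv0 : v ≠ 0 := by
      rintro rfl
      apply hne
      rw [map_zero]
      rfl
    have hvvv : C.T v v v = 0 := by rw [hl v hpv hlv v, hlv, mul_zero]
    have hvve : C.T v v e = 0 := by rw [hl v hpv hlv e, hle, mul_zero]
    obtain ⟨lam', hQ', hv', hl'⟩ := structN hO hv hvvv (hns v hv hv0 hvvv) hvve hne
    obtain ⟨w, hw, hw0, hw1, hw2, hw3⟩ := exists_ker3 hm (l₁ := C.T p p) hpQ hlQ hQ'
    have hvvw : C.T v v w = 0 := by rw [hl v hpv hlv w, hw2, mul_zero]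
    have hvww : C.T v w w = 0 := by rw [n4a_yxx C w v, hl w hw1 hw2 v, hlv, mul_zero]
    have h1 : ∀ u, C.T w w u = 0 := fun u => by rw [hl' w hvvw hw3 u, hvww, zero_mul]
    obtain ⟨u, hu1⟩ := hns w hw hw0 (h1 w)
    exact hu1 (h1 u)
  -- (c)
  have hc : C.T e e e ≠ 0 := by
    intro heee
    obtain ⟨x, hx, hlx, hxxx⟩ := C.exists_isRat_ker hirr (lam := lam)
      ⟨p, by rw [hlp]; exact one_ne_zero⟩ hlQ
    apply hxxx
    set t := C.T p p x with ht
    set v := x - t • e with hv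
    have hvr : IsRat v := hx.sub (IsRat.smul (hpQ x hx) her)
    have hpv : C.T p p v = 0 := by
      rw [hv, map_sub, map_smul, hpe, smul_eq_mul, mul_one, ← ht, sub_self]
    have hlv : lam v = 0 := by
      rw [hv, map_sub, map_smul, hlx, hle, smul_zero, sub_zero]
    have hxv : x = v + t • e := by rw [hv]; abel
    have h1 : C.T v v v = 0 := by rw [hl v hpv hlv v, hlv, mul_zero]
    have h2 : C.T v v e = 0 := by rw [hl v hpv hlv e, hle, mul_zero]
    have h3 : C.T v e e = 0 := hb v hvr hpv hlv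
    have h4 : C.T (v + t • e) (v + t • e) (v + t • e) = 0 := by
      simp only [map_add, map_smul, LinearMap.add_apply, LinearMap.smul_apply, smul_eq_mul]
      rw [C.sym₂ v e v, C.sym₁ e v v, C.sym₂ v e v, C.sym₁ e v e, C.sym₂ e e v, C.sym₁ e v e,
        h1, h2, h3, heee]
      ring
    rw [← hxv] at h4
    exact h4
  exact ⟨lam, e, hlQ, hlp, hl, her, hpe, hle, hb, hc, ha⟩

end Cub

end Pool.Agent.MZ
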