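import Mathlib
import Pool.Agent.MZ.Defs
import Pool.Agent.MZ.Fc
import Pool.Agent.MZ.RatAlg
import Pool.Agent.MZ.RatD
import Pool.Agent.MZ.Basic
import Pool.Agent.MZ.Tan
import Pool.Agent.MZ.N4A

/-!
# MZ module N4B: a rational point of type N, dimension at least 4, `O` empty: the set of rational zeros

(uses the stubs of `Fc`, `RatAlg`, `RatD`, `Basic`, `sweep`, `typeN_data`, `isotropic`, `exists_ker3`)

PROOF of `typeN_tangent`. Notation `Λ = {v | T p p v = 0 ∧ lam v = 0}`. Let `y ∈ XQ` with `lam y ≠ 0`, `b ∈ Λ`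
rational with `T y y b ≠ 0`. By `exists_ker3` there is a rational `a ≠ 0` with `T p p a = 0`, `lam a = 0`,
`T y y a = 0`. `T p a a ≠ 0`. With `α = lam y`, `t = T p p y`, `v = y - α • p - t • e ∈ Λ`:
`T y a a = T v a a + α T p a a + t T e a a = α T p a a ≠ 0` (`T a a u = T p a a * lam u`, `lam v = lam e = 0`).
For real `s`, `a + s • b ∈ Z`: for rational `s` it is a rational zero (`T w w w = T p w w * lam w = 0` for
`w ∈ Λ`); closure. Path `y_s = mm y (a + s • b) ∈ Z` (`mm_mem_Z`), continuous, polynomial in `s`: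
`y_s = T y (a+sb) (a+sb) • y - T y y (a+sb) • (a + s b)`, `y_0 = T y a a • y`, derivative at 0:
`y' = (2 T y a b) • y - T y y b • a` (use `T y y a = 0`). `sweep` with `u = a`:
`T y_0 y_0 a = (T y a a)² T y y a = 0`, `T y_0 y' a = T y a a * (2 T y a b * T y y a - T y y b * T y a a) =
- T y y b * (T y a a)² ≠ 0`; `T y_0 y_0 u ≠ 0` for some `u` since `y` is a rational, hence smooth, point
(`hns`). So `O` is not empty: contradiction.

PROOF of `exists_plane`. Let `e` be as in `typeN_data`. For a rational zero `y` with `lam y ≠ 0` let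
`v, α, t` be as above. For rational `a ∈ Λ`: `0 = T y y a = 2 α (T p v a + t T p e a)`
(the other terms vanish: `T v v a = 0`, `T v e a = T p v a * lam e = 0`, `T p p a = 0`, `T e e a = 0`).
So (*) `T p v a = - t T p e a`.
Case 1: there is a rational zero `g` with `lam g ≠ 0` and `t_g := T p p g ≠ 0`. Take this `g`. For every
rational zero `y` with `lam y ≠ 0` let `w = t_g • v_y - t_y • v_g ∈ Λ`, rational; by (*)
`T p w a = 0` for all rational `a ∈ Λ`, so `T p w w = 0`, so `w = 0`. So `v_y = (t_y / t_g) v_g` and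
`y = v_y + α_y p + t_y e = (t_y / t_g) g + (α_y - (t_y / t_g) α_g) p`.
Case 2: otherwise `t_y = 0` for all of them; (*) with `a = v` gives `T p v v = 0`, so `v = 0`, `y = α p`. Take
`g = e`.
A rational zero `y` with `lam y = 0`: `y = v + t e`, `T y y y = 3 t² T v e e + t³ T e e e + ... = t³ T e e e`, so `t = 0`,
`T p p y = 0`.

PROOF of `finite_plane`. `x = α p + β g`: `T x x x = 3 α² β T p p g + 3 α β² T p g g + β³ T g g g = 0`,
`α ell p + β ell g = 1`. If `β = 0` then `x = α p` with `α = 1 / ell p`: one point. If `β ≠ 0`, then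
`r = α / β` is a root of the quadratic polynomial `3 T p p g r² + 3 T p g g r + T g g g` with leading
coefficient `≠ 0`, so at most two values of `r`, and `β (r ell p + ell g) = 1` determines `β`.

PROOF of `fc_typeN`. `XQ ∩ {ell = 1} = S ∪ F'`, `S = {rational v ∈ Λ, ell v = 1}` (all of them are zeros),
`F'` finite (`exists_plane`, `finite_plane`). `closure S` is preconnected: empty or `star_preconnected` (for
`s, y ∈ S`, `s + t (y - s) ∈ S`). `closure F' = F'`.
About 220 lines.
-/

set_option autoImplicit false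

open Set Topology Filter MvPolynomial

namespace Pool.Agent.MZ

namespace Cub

variable {m : ℕ} {C : Cub m}

theorem typeN_tangent (hm : 4 ≤ m) (hns : C.NoSing) (hO : C.O = ∅)
    {p e : Fin m → ℝ} {lam : (Fin m → ℝ) →ₗ[ℝ] ℝ} (hlQ : ∀ x, IsRat x → IsQ (lam x))
    (hp : IsRat p) (hp0 : C.T p p p = 0) (hlp : lam p = 1)
    (hst : ∀ v, C.T p p v = 0 → lam v = 0 → ∀ u, C.T v v u = C.T p v v * lam u)
    (he : IsRat e) (hpe : C.T p p e = 1) (hle : lam e = 0)
    (han : ∀ w, IsRat w → w ≠ 0 → C.T p p w = 0 → lam w = 0 → C.T p w w ≠ 0)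
    {y : Fin m → ℝ} (hy : y ∈ C.XQ) (hly : lam y ≠ 0) {b : Fin m → ℝ} (hb : IsRat b)
    (hpb : C.T p p b = 0) (hlb : lam b = 0) : C.T y y b = 0 := by
  by_contra hb0
  obtain ⟨a, har, ha0, hpa, hla, hya⟩ := exists_ker3 hm (l₁ := C.T p p) (l₂ := lam)
    (l₃ := C.T y y) (fun x hx => C.rat p p x hp hp hx) hlQ
    (fun x hx => C.rat y y x hy.1 hy.1 hx)
  have hqa : C.T p a a ≠ 0 := han a har ha0 hpa hla
  have hyaa : C.T y a a = C.T p a a * lam y := by
    rw [← hst a hpa hla y, C.sym₁, C.sym₂]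
  have hyaa0 : C.T y a a ≠ 0 := by rw [hyaa]; exact mul_ne_zero hqa hly
  -- the line `a + s b` is in `Z`
  have hwc : Continuous fun s : ℝ => a + s • b := by fun_prop
  have hwZ : ∀ s : ℝ, a + s • b ∈ C.Z := by
    intro s
    refine (Rat.denseRange_cast (𝕜 := ℝ)).induction_on (p := fun s : ℝ => a + s • b ∈ C.Z) s
      (isClosed_closure.preimage hwc) (fun r => ?_)
    apply XQ_subset_Z
    refine ⟨har.add (hb.smul (IsQ.cast r)), ?_⟩
    have hlw : lam (a + (r : ℝ) • b) = 0 := by
      rw [map_add, map_smul, hla, hlb, smul_zero, add_zero]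
    rw [hst (a + (r : ℝ) • b) (by rw [map_add, map_smul, hpa, hpb, smul_zero, add_zero]) hlw,
      hlw, mul_zero]
  have h2 : HasDerivAt (fun s : ℝ => a + s • b) b 0 := by
    simpa using ((hasDerivAt_id (0 : ℝ)).smul_const b).const_add a
  have f1 := C.hasDerivAt_comp (hasDerivAt_const (0 : ℝ) y) h2 h2
  have f2 := C.hasDerivAt_comp (hasDerivAt_const (0 : ℝ) y) (hasDerivAt_const (0 : ℝ) y) h2
  have f3 := (f1.smul_const y).sub (f2.smul h2)
  have hcy : Continuous fun s : ℝ => C.mm y (a + s • b) :=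
    C.continuous_mm.comp (continuous_const.prodMk hwc)
  have e0 : a + (0 : ℝ) • b = a := by rw [zero_smul, add_zero]
  have hmm : C.mm y a = C.T y a a • y := by
    unfold mm
    rw [hya, zero_smul, sub_zero]
  have h5 := sweep (C := C) (y := fun s : ℝ => C.mm y (a + s • b)) (u := a) hcy f3
    (fun s => mm_mem_Z (XQ_subset_Z hy) (hwZ s))
    ⟨b, by
      simp only [e0, hmm, map_smul, LinearMap.smul_apply, smul_eq_mul]
      exact mul_ne_zero hyaa0 (mul_ne_zero hyaa0 hb0)⟩
    (by
      simp only [e0, hmm, map_smul, LinearMap.smul_apply, smul_eq_mul, hya, mul_zero])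
    (by
      simp only [hmm, map_smul, map_sub, LinearMap.sub_apply,
        LinearMap.smul_apply, smul_eq_mul, hya, mul_zero, zero_smul, map_zero,
        LinearMap.zero_apply, zero_add, add_zero, zero_sub]
      intro h
      have h1 : C.T y a a * (C.T y y b * C.T y a a) = 0 := by linear_combination -h
      exact mul_ne_zero hyaa0 (mul_ne_zero hb0 hyaa0) h1)
  rw [hO] at h5
  exact not_nonempty_empty h5

theorem exists_plane (hm : 4 ≤ m) (hns : C.NoSing) (hO : C.O = ∅)
    {p e : Fin m → ℝ} {lam : (Fin m → ℝ) →ₗ[ℝ] ℝ} (hlQ : ∀ x, IsRat x → IsQ (lam x))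
    (hp : IsRat p) (hp0 : C.T p p p = 0) (hlp : lam p = 1)
    (hst : ∀ v, C.T p p v = 0 → lam v = 0 → ∀ u, C.T v v u = C.T p v v * lam u)
    (he : IsRat e) (hpe : C.T p p e = 1) (hle : lam e = 0)
    (hee : ∀ v, IsRat v → C.T p p v = 0 → lam v = 0 → C.T v e e = 0) (he3 : C.T e e e ≠ 0)
    (han : ∀ w, IsRat w → w ≠ 0 → C.T p p w = 0 → lam w = 0 → C.T p w w ≠ 0) :
    ∃ g, C.T p p g ≠ 0 ∧ ∀ y ∈ C.XQ,
      (C.T p p y = 0 ∧ lam y = 0) ∨ ∃ α β : ℝ, y = α • p + β • g := by
  -- the component in `Λ`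
  set V : (Fin m → ℝ) → Fin m → ℝ := fun y => y - lam y • p - C.T p p y • e with hV
  have hV1 : ∀ y, C.T p p (V y) = 0 := by
    intro y
    simp only [hV, map_sub, map_smul, smul_eq_mul, hp0, hpe]
    ring
  have hV2 : ∀ y, lam (V y) = 0 := by
    intro y
    simp only [hV, map_sub, map_smul, smul_eq_mul, hlp, hle]
    ring
  have hVr : ∀ y, IsRat y → IsRat (V y) := by
    intro y hy
    exact (hy.sub (hp.smul (hlQ y hy))).sub (he.smul (C.rat p p y hp hp hy))
  have hVy : ∀ y, y = V y + lam y • p + C.T p p y • e := by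
    intro y
    simp only [hV]
    abel
  have hstar : ∀ y ∈ C.XQ, lam y ≠ 0 → ∀ a, IsRat a → C.T p p a = 0 → lam a = 0 →
      C.T p (V y) a = -(C.T p p y) * C.T p e a := by
    intro y hy hly a har hpa hla
    have h1 := typeN_tangent hm hns hO hlQ hp hp0 hlp hst he hpe hle han hy hly har hpa hla
    have h2 : C.T y y a = C.T (V y + lam y • p + C.T p p y • e)
        (V y + lam y • p + C.T p p y • e) a := by rw [← hVy y]
    have i1 : C.T (V y) (V y) a = 0 := by rw [hst _ (hV1 y) (hV2 y), hla, mul_zero]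
    have i2 : C.T (V y) e a = 0 := by
      rw [C.sym₂, isotropic hst (hV1 y) (hV2 y) hpa hla, hle, mul_zero]
    have i3 : C.T e (V y) a = 0 := by rw [C.sym₁, i2]
    have i4 : C.T e e a = 0 := by
      rw [C.sym₂, C.sym₁]
      exact hee a har hpa hla
    have i5 : C.T (V y) p a = C.T p (V y) a := C.sym₁ _ _ _
    have i6 : C.T e p a = C.T p e a := C.sym₁ _ _ _
    rw [h2] at h1
    simp only [map_add, map_smul, LinearMap.add_apply, LinearMap.smul_apply, smul_eq_mul, i1, i2,
      i3, i4, i5, i6, hpa] at h1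
    have h3 : lam y * (C.T p (V y) a + C.T p p y * C.T p e a) = 0 := by
      linear_combination h1 / 2
    have h4 := (mul_eq_zero.mp h3).resolve_left hly
    linarith
  have hzero : ∀ y ∈ C.XQ, lam y = 0 → C.T p p y = 0 := by
    intro y hy hly
    have h1 : C.T y y y = C.T (V y + C.T p p y • e) (V y + C.T p p y • e)
        (V y + C.T p p y • e) := by
      have h2 := hVy y
      rw [hly, zero_smul, add_zero] at h2
      rw [← h2]
    have i1 : ∀ u, C.T (V y) (V y) u = C.T p (V y) (V y) * lam u := hst _ (hV1 y) (hV2 y)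
    have i2 : C.T (V y) e (V y) = 0 := by rw [C.sym₂, i1, hle, mul_zero]
    have i3 : C.T e (V y) (V y) = 0 := by rw [C.sym₁, i2]
    have i4 : C.T (V y) e e = 0 := hee _ (hVr y hy.1) (hV1 y) (hV2 y)
    have i5 : C.T e (V y) e = 0 := by rw [C.sym₁, i4]
    have i6 : C.T e e (V y) = 0 := by rw [C.sym₂, i5]
    rw [hy.2] at h1
    simp only [map_add, map_smul, LinearMap.add_apply, LinearMap.smul_apply, smul_eq_mul, i1, i2,
      i3, i4, i5, i6, hV2 y, hle] at h1
    have h3 : C.T p p y ^ 3 * C.T e e e = 0 := by linear_combination -h1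
    have h4 := (mul_eq_zero.mp h3).resolve_right he3
    exact pow_eq_zero_iff (n := 3) (by norm_num) |>.mp h4
  by_cases hcase : ∃ g ∈ C.XQ, lam g ≠ 0 ∧ C.T p p g ≠ 0
  · obtain ⟨g, hg, hlg, htg⟩ := hcase
    refine ⟨g, htg, fun y hy => ?_⟩
    by_cases hly : lam y = 0
    · exact Or.inl ⟨hzero y hy hly, hly⟩
    right
    set w := C.T p p g • V y - C.T p p y • V g with hw
    have hw1 : C.T p p w = 0 := by
      rw [hw, map_sub, map_smul, map_smul, hV1, hV1, smul_zero, smul_zero, sub_zero]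
    have hw2 : lam w = 0 := by
      rw [hw, map_sub, map_smul, map_smul, hV2, hV2, smul_zero, smul_zero, sub_zero]
    have hwr : IsRat w := ((hVr y hy.1).smul (C.rat p p g hp hp hg.1)).sub
      ((hVr g hg.1).smul (C.rat p p y hp hp hy.1))
    have hw3 : C.T p w w = 0 := by
      have h1 := hstar y hy hly w hwr hw1 hw2
      have h2 := hstar g hg hlg w hwr hw1 hw2
      have h3 : ∀ x, C.T p w x = C.T p p g * C.T p (V y) x - C.T p p y * C.T p (V g) x := by
        intro x
        rw [hw]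
        simp only [map_sub, map_smul, LinearMap.sub_apply, LinearMap.smul_apply, smul_eq_mul]
      rw [h3, h1, h2]
      ring
    have hw0 : w = 0 := by
      by_contra hne
      exact han w hwr hne hw1 hw2 hw3
    have h4 : V y = (C.T p p y / C.T p p g) • V g := by
      rw [hw, sub_eq_zero] at hw0
      have h5 : V y = (C.T p p g)⁻¹ • (C.T p p g • V y) := by
        rw [smul_smul, inv_mul_cancel₀ htg, one_smul]
      rw [h5, hw0, smul_smul, div_eq_inv_mul]
    refine ⟨lam y - C.T p p y / C.T p p g * lam g, C.T p p y / C.T p p g, ?_⟩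
    have h6 : y = (C.T p p y / C.T p p g) • V g + lam y • p + C.T p p y • e := by
      rw [← h4]; exact hVy y
    have h7 : g = V g + lam g • p + C.T p p g • e := hVy g
    have h8 : C.T p p y • e = (C.T p p y / C.T p p g) • (C.T p p g • e) := by
      rw [smul_smul, div_mul_cancel₀ _ htg]
    rw [h8] at h6
    have h9 : V g = g - lam g • p - C.T p p g • e := rfl
    rw [h9] at h6
    nth_rewrite 1 [h6]
    module
  · push Not at hcase
    refine ⟨e, by rw [hpe]; exact one_ne_zero, fun y hy => ?_⟩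
    by_cases hly : lam y = 0
    · exact Or.inl ⟨hzero y hy hly, hly⟩
    right
    have h1 := hcase y hy hly
    have h2 := hstar y hy hly (V y) (hVr y hy.1) (hV1 y) (hV2 y)
    rw [h1, neg_zero, zero_mul] at h2
    have h3 : V y = 0 := by
      by_contra hne
      exact han _ (hVr y hy.1) hne (hV1 y) (hV2 y) h2
    refine ⟨lam y, 0, ?_⟩
    have h4 := hVy y
    rw [h3, h1, zero_smul, zero_add, add_zero] at h4
    rw [zero_smul, add_zero]
    exact h4

theorem finite_plane {p g : Fin m → ℝ} (hp0 : C.T p p p = 0) (hg : C.T p p g ≠ 0)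
    (ell : (Fin m → ℝ) →ₗ[ℝ] ℝ) :
    {x | (∃ α β : ℝ, x = α • p + β • g) ∧ C.T x x x = 0 ∧ ell x = 1}.Finite := by
  -- the roots of the quadratic polynomial
  have hroots : {r : ℝ | 3 * C.T p p g * r ^ 2 + 3 * C.T p g g * r + C.T g g g = 0}.Finite := by
    set Q : Polynomial ℝ := Polynomial.C (3 * C.T p p g) * Polynomial.X ^ 2 +
      Polynomial.C (3 * C.T p g g) * Polynomial.X + Polynomial.C (C.T g g g) with hQ
    have hQ0 : Q ≠ 0 := by
      intro h
      have h1 : Q.coeff 2 = 3 * C.T p p g := by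
        rw [hQ]
        simp only [Polynomial.coeff_add, Polynomial.coeff_C_mul, Polynomial.coeff_X_pow,
          Polynomial.coeff_X, Polynomial.coeff_C]
        norm_num
      rw [h, Polynomial.coeff_zero] at h1
      exact hg (by linarith)
    refine (Q.roots.toFinset.finite_toSet).subset fun r hr => ?_
    rw [Finset.mem_coe, Multiset.mem_toFinset, Polynomial.mem_roots hQ0, Polynomial.IsRoot.def, hQ]
    simpa using hr
  refine (((hroots.image fun r => (r * ell p + ell g)⁻¹ • (r • p + g))).union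
    (Set.finite_singleton ((ell p)⁻¹ • p))).subset ?_
  rintro x ⟨⟨α, β, rfl⟩, hx, hl⟩
  rw [map_add, map_smul, map_smul, smul_eq_mul, smul_eq_mul] at hl
  by_cases hβ : β = 0
  · right
    rw [hβ, zero_mul, add_zero] at hl
    rw [hβ, zero_smul, add_zero, mem_singleton_iff, eq_inv_of_mul_eq_one_left hl]
  · left
    refine ⟨α / β, ?_, ?_⟩
    · have i1 : C.T p g p = C.T p p g := C.sym₂ _ _ _
      have i2 : C.T g p p = C.T p p g := by rw [C.sym₁, i1]
      have i3 : C.T g p g = C.T p g g := C.sym₁ _ _ _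
      have i4 : C.T g g p = C.T p g g := by rw [C.sym₂, i3]
      simp only [map_add, map_smul, LinearMap.add_apply, LinearMap.smul_apply, smul_eq_mul, i1, i2,
        i3, i4, hp0] at hx
      change 3 * C.T p p g * (α / β) ^ 2 + 3 * C.T p g g * (α / β) + C.T g g g = 0
      have h1 : β * (3 * C.T p p g * α ^ 2 + 3 * C.T p g g * (α * β) + C.T g g g * β ^ 2) = 0 := by
        linear_combination hx
      have h2 := (mul_eq_zero.mp h1).resolve_left hβ
      field_simp
      linear_combination h2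
    · have h1 : (α / β * ell p + ell g)⁻¹ = β := by
        apply inv_eq_of_mul_eq_one_left
        field_simp
        linear_combination hl
      simp only [h1]
      rw [smul_add, smul_smul, mul_div_cancel₀ _ hβ]

theorem fc_typeN (hm : 4 ≤ m) (hirr : Irreducible C.pol) (hns : C.NoSing) (hO : C.O = ∅)
    {p : Fin m → ℝ} (hp : IsRat p) (hp0 : C.T p p p = 0) {u₀ : Fin m → ℝ}
    (hu : C.T p p u₀ = 0) (hq : C.T p u₀ u₀ ≠ 0) (ell : (Fin m → ℝ) →ₗ[ℝ] ℝ) :
    FC (closure (C.XQ ∩ {x | ell x = 1})) := by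
  have hpne : p ≠ 0 := by
    rintro rfl
    apply hq
    rw [map_zero, LinearMap.zero_apply, LinearMap.zero_apply]
  obtain ⟨lam, e, hlQ, hlp, hst, he, hpe, hle, hee, he3, han⟩ :=
    typeN_data hm hirr hns hO hp hp0 (hns p hp hpne hp0) hu hq
  obtain ⟨g, hg, hcov⟩ := exists_plane hm hns hO hlQ hp hp0 hlp hst he hpe hle hee he3 han
  set S : Set (Fin m → ℝ) := {x | IsRat x ∧ C.T p p x = 0 ∧ lam x = 0 ∧ ell x = 1} with hS
  set F' : Set (Fin m → ℝ) := {x | (∃ α β : ℝ, x = α • p + β • g) ∧ C.T x x x = 0 ∧ ell x = 1}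
    with hF'
  have hfin : F'.Finite := finite_plane hp0 hg ell
  have hSX : S ⊆ C.XQ ∩ {x | ell x = 1} := by
    rintro x ⟨h1, h2, h3, h4⟩
    refine ⟨⟨h1, ?_⟩, h4⟩
    rw [hst x h2 h3, h3, mul_zero]
  have hsub : C.XQ ∩ {x | ell x = 1} = S ∪ (F' ∩ (C.XQ ∩ {x | ell x = 1})) := by
    ext x
    constructor
    · rintro ⟨hx, hlx⟩
      rcases hcov x hx with ⟨h1, h2⟩ | h
      · exact Or.inl ⟨hx.1, h1, h2, hlx⟩
      · exact Or.inr ⟨⟨h, hx.2, hlx⟩, hx, hlx⟩
    · rintro (h | h)
      · exact hSX h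
      · exact h.2
  rw [hsub, closure_union]
  refine FC.union ?_ ?_
  · rcases S.eq_empty_or_nonempty with h | ⟨s, hs⟩
    · rw [h, closure_empty]
      exact FC.empty
    · refine FC.of_preconnected (star_preconnected hs fun y hy t _ _ => ?_)
      refine ⟨hs.1.add ((hy.1.sub hs.1).smul (IsQ.cast t)), ?_, ?_, ?_⟩
      · rw [map_add, map_smul, map_sub, hs.2.1, hy.2.1, sub_zero, smul_zero, add_zero]
      · rw [map_add, map_smul, map_sub, hs.2.2.1, hy.2.2.1, sub_zero, smul_zero, add_zero]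
      · rw [map_add, map_smul, map_sub, hs.2.2.2, hy.2.2.2, sub_self, smul_zero, add_zero]
  · have h := hfin.subset (inter_subset_left (t := C.XQ ∩ {x | ell x = 1}))
    rw [h.isClosed.closure_eq]
    exact FC.of_finite h

end Cub

end Pool.Agent.MZ
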