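import Mathlib
import Pool.Agent.MZ.Defs
import Pool.Agent.MZ.RatAlg
import Pool.Agent.MZ.LemD

/-!
# MZ module DREAL: real polynomials that vanish at the rational points of the hypersurface

(uses the stubs `dvd_of_vanish`, `aeval_rv`)

PROOF. For a `ℚ`-linear map `φ : ℝ →ₗ[ℚ] ℚ` let `G_φ : MvPolynomial (Fin m) ℚ` be obtained from `G` by
applying `φ` to the coefficients (`Finsupp.mapRange.linearMap`, or
`∑ d ∈ G.support, monomial d (φ (G.coeff d))`). For `q : Fin m → ℚ`:
`eval q G_φ = φ (eval (rv q) G)` (both are `∑_d φ (coeff d) * ∏ q_i^{d_i}`; `φ` is ℚ-linear and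
`φ (r * a) = r * φ a` for rational `r`). So `eval q G_φ = 0` for all rational zeros `q` of `P` near `y`, i.e.
`aeval x G_φ = 0` for `x = rv q`. By continuity and `hdense`: for all real `x` near `y` with
`aeval x P = 0`: `x` is in the closure of the set of rational zeros near `y`, so `aeval x G_φ = 0`
(if `W` is an open neighbourhood of `y` on which `hG`, `hdense` hold, and `x ∈ W` with `aeval x P = 0`,
then `x ∈ closure (QZ P)`, hence `x ∈ closure (QZ P ∩ W)` as `W` is open,
and `{z | aeval z G_φ = 0}` is closed). By `dvd_of_vanish`: `P ∣ G_φ` for all `φ`.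
Let `b` be a basis of `ℝ` over `ℚ` (`Module.Basis.ofVectorSpace ℚ ℝ`), `φ_i = b.coord i`. Then
`G = ∑_i C (b i) * map (algebraMap ℚ ℝ) G_{φ_i}`, a finite sum over the finite set `I` of all `i` that
occur in the representations of the coefficients of `G` (compare coefficients:
`a = ∑_i φ_i(a) b_i`, `Module.Basis.sum_repr`/`Finsupp.linearCombination_repr`). Every summand is divisible by
`map (algebraMap ℚ ℝ) P` (`map_dvd`).
About 120 lines.
-/

set_option autoImplicit false

open Set Topology Filter MvPolynomial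

namespace Pool.Agent.MZ

/-- apply a `ℚ`-linear functional to the coefficients -/
private noncomputable def drealF {m : ℕ} (φ : ℝ →ₗ[ℚ] ℚ) (G : MvPolynomial (Fin m) ℝ) :
    MvPolynomial (Fin m) ℚ :=
  ∑ d ∈ G.support, monomial d (φ (G.coeff d))

private theorem drealF_eval {m : ℕ} (φ : ℝ →ₗ[ℚ] ℚ) (G : MvPolynomial (Fin m) ℝ)
    (q : Fin m → ℚ) : eval q (drealF φ G) = φ (eval (rv q) G) := by
  unfold drealF
  rw [map_sum, eval_eq, map_sum]
  refine Finset.sum_congr rfl fun d _ => ?_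
  rw [eval_monomial]
  have h1 : ∏ i ∈ d.support, rv q i ^ d i = ((∏ i ∈ d.support, q i ^ d i : ℚ) : ℝ) := by
    push_cast
    rfl
  have h2 : G.coeff d * ((∏ i ∈ d.support, q i ^ d i : ℚ) : ℝ) =
      (∏ i ∈ d.support, q i ^ d i : ℚ) • G.coeff d := by
    rw [Rat.smul_def, mul_comm]
  rw [h1, h2, map_smul, smul_eq_mul, mul_comm]
  rfl

private theorem drealF_sum {m : ℕ} (G : MvPolynomial (Fin m) ℝ) :
    ∃ (I : Finset ℝ) (φ : ℝ → ℝ →ₗ[ℚ] ℚ),
      G = ∑ i ∈ I, C i * map (algebraMap ℚ ℝ) (drealF (φ i) G) := by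
  classical
  -- the span of the coefficients
  obtain ⟨V, hV⟩ : ∃ V : Submodule ℚ ℝ, V = Submodule.span ℚ
      ((G.support.image fun d => G.coeff d : Finset ℝ) : Set ℝ) := ⟨_, rfl⟩
  have hcoe : ∀ d ∈ G.support, G.coeff d ∈ V := by
    intro d hd
    rw [hV]
    exact Submodule.subset_span (Finset.mem_coe.2 (Finset.mem_image_of_mem _ hd))
  have hfin : Module.Finite ℚ V := by
    rw [hV]
    exact Module.Finite.span_finset ℚ _
  obtain ⟨π, hπ⟩ := V.subtype.exists_leftInverse_of_injective (Submodule.ker_subtype V)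
  let b := Module.finBasis ℚ V
  have hb : ∀ d ∈ G.support, G.coeff d =
      ∑ i, ((b.coord i (π (G.coeff d)) : ℚ) : ℝ) * ((b i : V) : ℝ) := by
    intro d hd
    have h1 : π (G.coeff d) = ⟨G.coeff d, hcoe d hd⟩ := by
      have := LinearMap.congr_fun hπ ⟨G.coeff d, hcoe d hd⟩
      exact this
    have h2 := b.sum_repr (π (G.coeff d))
    have h3 : ((π (G.coeff d) : V) : ℝ) = G.coeff d := by rw [h1]
    calc G.coeff d = ((π (G.coeff d) : V) : ℝ) := h3.symm
      _ = ((∑ i, b.repr (π (G.coeff d)) i • b i : V) : ℝ) := by rw [h2]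
      _ = ∑ i, ((b.coord i (π (G.coeff d)) : ℚ) : ℝ) * ((b i : V) : ℝ) := by
        rw [Submodule.coe_sum]
        refine Finset.sum_congr rfl fun i _ => ?_
        rw [Submodule.coe_smul, Rat.smul_def]
        rfl
  have hinj : Function.Injective fun i => ((b i : V) : ℝ) := by
    intro i j hij
    exact b.injective (Subtype.ext hij)
  refine ⟨Finset.univ.image fun i => ((b i : V) : ℝ),
    fun t => if h : ∃ i, ((b i : V) : ℝ) = t then (b.coord h.choose).comp π else 0, ?_⟩
  rw [Finset.sum_image fun i _ j _ hij => hinj hij]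
  have hφ : ∀ i, (if h : ∃ j, ((b j : V) : ℝ) = ((b i : V) : ℝ) then
      (b.coord h.choose).comp π else 0) = (b.coord i).comp π := by
    intro i
    have h : ∃ j, ((b j : V) : ℝ) = ((b i : V) : ℝ) := ⟨i, rfl⟩
    rw [dif_pos h, hinj h.choose_spec]
  ext d
  rw [coeff_sum]
  have hterm : ∀ i, coeff d (C ((b i : V) : ℝ) * map (algebraMap ℚ ℝ)
      (drealF (if h : ∃ j, ((b j : V) : ℝ) = ((b i : V) : ℝ) then
      (b.coord h.choose).comp π else 0) G)) =
      if d ∈ G.support then ((b.coord i (π (G.coeff d)) : ℚ) : ℝ) * ((b i : V) : ℝ) else 0 := by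
    intro i
    rw [hφ, coeff_C_mul, coeff_map]
    unfold drealF
    rw [coeff_sum]
    simp only [coeff_monomial]
    rw [Finset.sum_ite_eq' G.support d]
    split_ifs with hd
    · rw [mul_comm]
      rfl
    · rw [map_zero, mul_zero]
  rw [Finset.sum_congr rfl fun i _ => hterm i]
  by_cases hd : d ∈ G.support
  · simp only [if_pos hd]
    exact hb d hd
  · simp only [if_neg hd, Finset.sum_const_zero]
    exact notMem_support_iff.1 hd

theorem map_dvd_of_vanish {m : ℕ} {P : MvPolynomial (Fin m) ℚ} (hP : Irreducible P)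
    {y : Fin m → ℝ} (hy : (aeval y P : ℝ) = 0) (hs : SmoothAt P y)
    (hdense : ∀ᶠ x in 𝓝 y, (aeval x P : ℝ) = 0 → x ∈ closure (QZ P))
    {G : MvPolynomial (Fin m) ℝ} (hG : ∀ᶠ x in 𝓝 y, x ∈ QZ P → eval x G = 0) :
    map (algebraMap ℚ ℝ) P ∣ G := by
  classical
  obtain ⟨I, φ, hI⟩ := drealF_sum G
  rw [hI]
  refine Finset.dvd_sum fun i _ => Dvd.dvd.mul_left ?_ _
  refine _root_.map_dvd (MvPolynomial.map (algebraMap ℚ ℝ)) ?_
  refine dvd_of_vanish hP hy hs ?_
  -- an open neighbourhood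
  obtain ⟨U, hU, hUo, hyU⟩ := eventually_nhds_iff.1 (hG.and hdense)
  refine Filter.eventually_of_mem (hUo.mem_nhds hyU) fun x hxU hx => ?_
  have hcl : x ∈ closure (QZ P) := (hU x hxU).2 hx
  have hcl2 : x ∈ closure (U ∩ QZ P) := hUo.inter_closure ⟨hxU, hcl⟩
  have hclosed : IsClosed {w : Fin m → ℝ | (aeval w (drealF (φ i) G) : ℝ) = 0} := by
    have hc : Continuous fun w : Fin m → ℝ => (aeval w (drealF (φ i) G) : ℝ) := by
      have e : (fun w : Fin m → ℝ => (aeval w (drealF (φ i) G) : ℝ)) =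
          fun w => eval w (map (algebraMap ℚ ℝ) (drealF (φ i) G)) := by
        funext w
        rw [eval_map, aeval_def]
      rw [e]
      exact MvPolynomial.continuous_eval _
    exact isClosed_singleton.preimage hc
  have hsub : U ∩ QZ P ⊆ {w : Fin m → ℝ | (aeval w (drealF (φ i) G) : ℝ) = 0} := by
    rintro w ⟨hwU, hw⟩
    have h1 := (hU w hwU).1 hw
    obtain ⟨q, hq, rfl⟩ := hw
    change (aeval (rv q) (drealF (φ i) G) : ℝ) = 0
    rw [aeval_rv, drealF_eval, h1, map_zero, Rat.cast_zero]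
  exact hclosed.closure_subset_iff.2 hsub hcl2

end Pool.Agent.MZ
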