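import Mathlib
import Pool.Agent.MZ.Defs
import Pool.Agent.MZ.Basic

/-!
# MZ module LEM2: a point of `Z` connected to an interior point is an interior point

(uses the stubs of `Basic`)

PROOF. `y ∈ O ⊆ Z`. `α = T x x y ≠ 0`, `β = T x y y ≠ 0`.
Claim 1: `z₀ = mm x y ∈ O`. `z₀ ∈ Z` and `z₀ ≠ 0` (`mm_mm`: `mm x z₀ = -α³ y ≠ 0`, and `mm x 0 = 0`).
`z ↦ mm x z` is continuous, `mm x z₀ = -α³ y ∈ O` (`O_smul`). So for `z` near `z₀` with `T z z z = 0` the
point `w = mm x z` is a zero of the form near `-α³ y`, so `w ∈ Z`. And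
`mm x w = (-(T x x z)³) • z ∈ Z` (`mm_mem_Z`, `mm_mm`), where `T x x z → T x x z₀ = -α² ≠ 0`
(`T x x (mm x y) = β T x x x - α T x x y`). So `z ∈ Z` (`mem_Z_of_smul`).
Claim 2: `x ∈ O`. `x ≠ 0` as `T x x y ≠ 0`. For `x'` near `x` with `T x' x' x' = 0` the point
`z = mm x' y` is a zero near `z₀ ∈ O`, so `z ∈ Z`; `mm y z = (-(T x' y y)³) • x'`
(`mm_mm_swap`) is in `Z`, and `T x' y y → β ≠ 0`. So `x' ∈ Z`.
About 70 lines.
-/

set_option autoImplicit false

open Set Topology Filter MvPolynomial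

namespace Pool.Agent.MZ

namespace Cub

variable {m : ℕ} {C : Cub m}

theorem mem_O {x y : Fin m → ℝ} (hx : x ∈ C.Z) (hy : y ∈ C.O) (h1 : C.T x x y ≠ 0)
    (h2 : C.T x y y ≠ 0) : x ∈ C.O := by
  have hF : C.T x x x = 0 := T_eq_zero_of_mem_Z hx
  have hyZ : y ∈ C.Z := O_subset_Z hy
  have hG : C.T y y y = 0 := T_eq_zero_of_mem_Z hyZ
  have ht : -(C.T x x y) ^ 3 ≠ 0 := neg_ne_zero.2 (pow_ne_zero 3 h1)
  have hO' : (-(C.T x x y) ^ 3) • y ∈ C.O := O_smul hy ht
  have e1 : C.mm x (C.mm x y) = (-(C.T x x y) ^ 3) • y := mm_mm hF hG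
  -- the residual point is an interior point
  have hz0 : C.mm x y ∈ C.O := by
    refine ⟨?_, mm_zero hF hG, ?_⟩
    · intro h
      rw [h] at e1
      have h3 : C.mm x 0 = 0 := by
        simp only [mm, map_zero, zero_smul, sub_zero, smul_zero]
      rw [h3] at e1
      exact hO'.1 e1.symm
    · have c1 : Continuous fun z : Fin m → ℝ => C.mm x z :=
        C.continuous_mm.comp (continuous_const.prodMk continuous_id)
      have c2 : Continuous fun z : Fin m → ℝ => C.T x x z :=
        C.continuous_comp continuous_const continuous_const continuous_id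
      have h4 := hO'.2.2
      rw [← e1] at h4
      have h5 := (c1.continuousAt (x := C.mm x y)).eventually h4
      have h6 : C.T x x (C.mm x y) ≠ 0 := by
        have h7 : C.T x x (C.mm x y) = -(C.T x x y * C.T x x y) := by
          rw [mm, map_sub, map_smul, map_smul, hF, smul_zero, zero_sub, smul_eq_mul]
        rw [h7]
        exact neg_ne_zero.2 (mul_ne_zero h1 h1)
      filter_upwards [h5, c2.continuousAt.eventually_ne h6] with z hz hz' hzF
      have h8 : C.mm x z ∈ C.Z := hz (mm_zero hF hzF)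
      have h9 : C.mm x (C.mm x z) ∈ C.Z := mm_mem_Z hx h8
      rw [mm_mm hF hzF] at h9
      exact mem_Z_of_smul (neg_ne_zero.2 (pow_ne_zero 3 hz')) h9
  refine ⟨?_, hF, ?_⟩
  · rintro rfl
    exact h1 (by simp only [map_zero, LinearMap.zero_apply])
  · have c1 : Continuous fun z : Fin m → ℝ => C.mm z y :=
      C.continuous_mm.comp (continuous_id.prodMk continuous_const)
    have c2 : Continuous fun z : Fin m → ℝ => C.T z y y :=
      C.continuous_comp continuous_id continuous_const continuous_const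
    have h5 := (c1.continuousAt (x := x)).eventually hz0.2.2
    filter_upwards [h5, c2.continuousAt.eventually_ne h2] with z hz hz' hzF
    have h8 : C.mm z y ∈ C.Z := hz (mm_zero hzF hG)
    have h9 : C.mm y (C.mm z y) ∈ C.Z := mm_mem_Z hyZ h8
    rw [mm_mm_swap hzF hG] at h9
    exact mem_Z_of_smul (neg_ne_zero.2 (pow_ne_zero 3 hz')) h9

end Cub

end Pool.Agent.MZ
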