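import Mathlib
import Pool.Agent.MZ.Defs
import Pool.Agent.MZ.RatAlg
import Pool.Agent.MZ.Basic
import Pool.Agent.MZ.Lem2
import Pool.Agent.MZ.Pq
import Pool.Agent.MZ.DReal

/-!
# MZ module OPEN: if `O` is not empty then every smooth point of `Z` is in `O`

(uses the stubs of `RatAlg`, `Basic`, `Lem2`, `Pq`, `DReal`)

PROOF. Let `T x x u ≠ 0`, `x ∈ Z`. Suppose `x ∉ O`. By `mem_O`: `T x x y * T x y y = 0` for all
`y ∈ O`. (1) There is a rational point `y₁ ∈ O`: let `y ∈ O`; `y ≠ 0`, `y ∈ Z = closure XQ`; near `y` every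
zero is in `O`: precisely, the set `W = {w | w ≠ 0 ∧ ∀ᶠ z in 𝓝 w, T z z z = 0 → z ∈ Z}` is open
(`isOpen_setOf_eventually_nhds`) and contains `y`; so `XQ ∩ W` is not empty, and `XQ ∩ W ⊆ O`. `y₁` is a smooth
point by `hns`.
(2) Let `G : MvPolynomial (Fin m) ℝ` with `eval z G = T x x z * T x z z` for all `z`
(`PolyR`: `Cub.polyR`, `PolyR.mul`, `PolyR.lin`, `PolyR.coord`). For `z ∈ W ∩ XQ`: `z ∈ O`, so
`eval z G = 0`. `QZ pol = XQ` (`pol_eval`, `aeval_rv`). `map_dvd_of_vanish` (with `y := y₁`,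
`smoothAt_pol`) gives `G = map pol * H`, `H : MvPolynomial (Fin m) ℝ`.
(3) So `T x x z * T x z z = T z z z * h z` for all `z`, `h z = eval z H`. Comparing degrees `H` is constant; here
is a way without degrees: replace `z` by `t • z`, divide by `t³` (`t ≠ 0`):
`T x x z * T x z z = T z z z * h (t • z)`, let `t → 0`: `= T z z z * h 0`. So with `c = h 0`:
`T x x z * T x z z = c * T z z z` for all `z`.
(4) If `c = 0`: the product of the two real polynomial functions `T x x z`, `T x z z` vanishes identically, so one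
of them does (ℝ[X] is a domain: take `z = x + s u`: `T x x z = s T x x u ≠ 0` for
`s ≠ 0`, so `T x z z = 2 s T x x u + s² T x u u = 0` for all `s ≠ 0`, divide by `s` and let `s → 0`:
`T x x u = 0`, contradiction). If `c ≠ 0`: put `z = x + s u`: left side
`s T x x u * (2 s T x x u + s² T x u u) = O(s²)` (`T x x x = 0`), right side
`c (3 s T x x u + 3 s² T x u u + s³ T u u u)`; divide by `s`, `s → 0`: `0 = 3 c T x x u`: contradiction.
(Both cases at once: for all `s`:
`s * T x x u * (2 * s * T x x u + s^2 * T x u u) = c * (3 * s * T x x u + 3 * s^2 * T x u u + s^3 * T u u u)`;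
a polynomial identity in `s`: the coefficient of `s` gives `c = 0`, the coefficient of `s²` then gives
`2 (T x x u)² = 0`. Four values `s = 1, -1, 2, -2` and linear arithmetic also do it.)
About 130 lines.
-/

set_option autoImplicit false

open Set Topology Filter MvPolynomial

namespace Pool.Agent.MZ

namespace Cub

variable {m : ℕ} {C : Cub m}

private theorem open_W : IsOpen {w : Fin m → ℝ | w ≠ 0 ∧ ∀ᶠ z in 𝓝 w, C.T z z z = 0 → z ∈ C.Z} :=
  isOpen_ne.inter isOpen_setOf_eventually_nhds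

theorem exists_isRat_mem_O (hO : C.O.Nonempty) : ∃ y ∈ C.O, y ∈ C.XQ := by
  obtain ⟨y, hy⟩ := hO
  have hyW : y ∈ {w : Fin m → ℝ | w ≠ 0 ∧ ∀ᶠ z in 𝓝 w, C.T z z z = 0 → z ∈ C.Z} :=
    ⟨hy.1, hy.2.2⟩
  have hyZ : y ∈ closure C.XQ := O_subset_Z hy
  obtain ⟨w, hwW, hwX⟩ := mem_closure_iff.1 hyZ _ open_W hyW
  exact ⟨w, ⟨hwW.1, hwX.2, hwW.2⟩, hwX⟩

private theorem open_QZ : QZ C.pol = C.XQ := by
  ext x
  constructor
  · rintro ⟨q, hq, rfl⟩
    refine ⟨⟨q, rfl⟩, ?_⟩
    rw [← C.pol_eval, aeval_rv, hq, Rat.cast_zero]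
  · rintro ⟨⟨q, rfl⟩, hx⟩
    refine ⟨q, ?_, rfl⟩
    rw [← C.pol_eval, aeval_rv] at hx
    exact_mod_cast hx

theorem smooth_mem_O (hirr : Irreducible C.pol) (hns : C.NoSing) (hO : C.O.Nonempty)
    {x : Fin m → ℝ} (hx : x ∈ C.Z) (hs : ∃ u, C.T x x u ≠ 0) : x ∈ C.O := by
  by_contra hxO
  have hprod : ∀ y ∈ C.O, C.T x x y * C.T x y y = 0 := by
    intro y hy
    by_contra hne
    rw [mul_eq_zero, not_or] at hne
    exact hxO (mem_O hx hy hne.1 hne.2)
  obtain ⟨y₁, hy₁, hy₁X⟩ := exists_isRat_mem_O hO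
  have hf : PolyR m fun z => C.T x x z * C.T x z z :=
    (PolyR.lin (C.T x x)).mul (C.polyR (a := fun _ => x) (b := fun z => z) (c := fun z => z)
      (fun i => PolyR.const _) (fun i => PolyR.coord i) (fun i => PolyR.coord i))
  obtain ⟨G, hG⟩ := hf
  have hdvd : map (algebraMap ℚ ℝ) C.pol ∣ G := by
    refine map_dvd_of_vanish hirr (y := y₁) ?_ ?_ ?_ ?_
    · rw [C.pol_eval]; exact hy₁X.2
    · exact (smoothAt_pol C).2 (hns y₁ hy₁X.1 hy₁.1 hy₁X.2)
    · filter_upwards [hy₁.2.2] with z hz h0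
      rw [open_QZ]
      rw [C.pol_eval] at h0
      exact hz h0
    · have hW := (open_W (C := C)).mem_nhds (show y₁ ∈ _ from ⟨hy₁.1, hy₁.2.2⟩)
      filter_upwards [hW] with z hz hzQ
      rw [open_QZ] at hzQ
      rw [hG]
      exact hprod z ⟨hz.1, hzQ.2, hz.2⟩
  obtain ⟨H, rfl⟩ := hdvd
  have hGH : ∀ z, C.T x x z * C.T x z z = C.T z z z * eval z H := by
    intro z
    have h1 := hG z
    simp only at h1
    rw [← h1, map_mul, eval_map, ← C.pol_eval z]
    rfl
  -- the factor is constant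
  have hcst : ∀ z, C.T x x z * C.T x z z = C.T z z z * eval 0 H := by
    intro z
    have hc : Continuous fun t : ℝ => C.T z z z * eval (t • z) H := by
      refine continuous_const.mul ?_
      exact (MvPolynomial.continuous_eval H).comp (continuous_id.smul continuous_const)
    have h1 : Tendsto (fun t : ℝ => C.T z z z * eval (t • z) H) (𝓝[≠] 0)
        (𝓝 (C.T z z z * eval ((0 : ℝ) • z) H)) := (hc.tendsto 0).mono_left nhdsWithin_le_nhds
    have h2 : Tendsto (fun t : ℝ => C.T z z z * eval (t • z) H) (𝓝[≠] 0)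
        (𝓝 (C.T x x z * C.T x z z)) := by
      refine tendsto_const_nhds.congr' ?_
      filter_upwards [self_mem_nhdsWithin] with t ht
      have ht' : t ≠ 0 := ht
      have h3 := hGH (t • z)
      simp only [map_smul, LinearMap.smul_apply, smul_eq_mul] at h3
      have h4 : t ^ 3 * (C.T x x z * C.T x z z) = t ^ 3 * (C.T z z z * eval (t • z) H) := by
        linear_combination h3
      exact mul_left_cancel₀ (pow_ne_zero 3 ht') h4
    have h3 := tendsto_nhds_unique h2 h1
    rwa [zero_smul] at h3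
  obtain ⟨u, hu⟩ := hs
  have hx0 := T_eq_zero_of_mem_Z hx
  have s1 : C.T x u x = C.T x x u := C.sym₂ _ _ _
  have s2 : C.T u x x = C.T x x u := by rw [C.sym₁, s1]
  have s3 : C.T u x u = C.T x u u := C.sym₁ _ _ _
  have s4 : C.T u u x = C.T x u u := by rw [C.sym₂, s3]
  have key : ∀ s : ℝ, s * C.T x x u * (2 * s * C.T x x u + s ^ 2 * C.T x u u) =
      (3 * s * C.T x x u + 3 * s ^ 2 * C.T x u u + s ^ 3 * C.T u u u) * eval 0 H := by
    intro s
    have := hcst (x + s • u)
    simp only [map_add, map_smul, LinearMap.add_apply, LinearMap.smul_apply, smul_eq_mul, hx0, s1,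
      s2, s3, s4] at this
    linear_combination this
  have k1 := key 1
  have k2 := key (-1)
  have k3 := key 2
  have k4 := key (-2)
  set a := C.T x x u
  set b := C.T x u u
  set d := C.T u u u
  set e := eval 0 H
  have e1 : a * e = 0 := by linear_combination (-(1 : ℝ) / 9) * (4 / 2 * (k1 - k2) - 1 / 4 * (k3 - k4))
  have e2 : e = 0 := (mul_eq_zero.1 e1).resolve_left hu
  rw [e2] at k1 k2
  have e3 : a ^ 2 = 0 := by linear_combination (1 / 4 : ℝ) * (k1 + k2)
  exact hu (pow_eq_zero_iff (two_ne_zero)|>.1 e3)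

end Cub

end Pool.Agent.MZ
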