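import Mathlib
import Pool.Agent.MZ.Defs
import Pool.Agent.MZ.Fc
import Pool.Agent.MZ.Bez
import Pool.Agent.MZ.Bands
import Pool.Agent.MZ.Compl
import Pool.Agent.MZ.LemD

/-!
# MZ module SMOOTH: the smooth real points of an irreducible hypersurface over ℚ have finitely many
components

(uses the stubs `bezout_sep`, `bands`, `fc_ne`, `dvd_of_vanish`, `smoothAt_rename`, `FC.*`)

PROOF of `fc_smooth₀` (the variable `0` occurs in `P`). Let `P' = finSuccEquiv ℚ n P`, irreducible,
`0 < P'.natDegree` (`MvPolynomial.natDegree_finSuccEquiv`). By `bezout_sep`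
`A * P' + B * derivative P' = C D₁`, `D₁ ≠ 0`. `D = D₁ * P'.leadingCoeff ≠ 0`. For
`x' : Fin n → ℝ` let `p x' = P'.map (aeval x').toRingHom : Polynomial ℝ`;
`aeval (Fin.cons t x') P = (p x').eval t`. For `aeval x' D ≠ 0`: `(p x').natDegree = P'.natDegree`,
`p x' ≠ 0`, and the roots of `p x'` are not roots of the derivative. `U = {x' | aeval x' D ≠ 0}` is
`FC` (`fc_ne` for `map (algebraMap ℚ ℝ) D`). By `bands` the set
`{z | z.1 ∈ U ∧ (p z.1).eval z.2 = 0}` is `FC`, and so is its image under `(x', t) ↦ Fin.cons t x'`, which is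
`A = {x | aeval (Fin.tail x) D ≠ 0 ∧ aeval x P = 0}`.
`A ⊆ S := {x | aeval x P = 0 ∧ SmoothAt P x}`: the derivative with respect to `x₀` is
`(derivative (p x')).eval t ≠ 0` (`Polynomial.hasDerivAt`; `x + s • Pi.single 0 1 = Fin.cons (x 0 + s) (tail x)`).
`S ⊆ closure A`: let `x ∈ S` and suppose that a neighbourhood of `x` does not meet `A`: then
`aeval (Fin.tail z) D = 0` for all `z` near `x` with `aeval z P = 0`, i.e. the polynomial
`G = rename Fin.succ D` vanishes there (`aeval z (rename Fin.succ D) = aeval (z ∘ Fin.succ) D`). By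
`dvd_of_vanish` `P ∣ rename Fin.succ D`. But `rename Fin.succ D ≠ 0` does not contain the variable 0:
`finSuccEquiv ℚ n (rename Fin.succ D) = Polynomial.C D` (`finSuccEquiv_rename_succ...`, check on `X i`), of
degree 0, while `P'` has positive degree: contradiction. `FC.sandwich`.

PROOF of `fc_smooth`. An irreducible polynomial is not constant, so `0 < degreeOf i P` for some `i`
(if all `degreeOf i P = 0` then `P = C (coeff 0 P)`, a unit or zero), `n = k + 1`,
`e = Equiv.swap 0 i`; `P₂ = rename e P` is irreducible, `degreeOf 0 P₂ = degreeOf i P`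
(`degreeOf_rename_of_injective`). The set for `P` is the image of the set for `P₂` under the continuous
map `x ↦ x ∘ e` (`aeval_rename_perm`, `smoothAt_rename`, `e` is an involution). `FC.image`.
About 150 lines.
-/

set_option autoImplicit false

open Set Topology Filter MvPolynomial

namespace Pool.Agent.MZ

/-- the polynomial in the first variable with the other variables specialized -/
private noncomputable def smP {n : ℕ} (P : MvPolynomial (Fin (n + 1)) ℚ) (x : Fin n → ℝ) :
    Polynomial ℝ :=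
  (finSuccEquiv ℚ n P).map (aeval x : MvPolynomial (Fin n) ℚ →ₐ[ℚ] ℝ).toRingHom

private theorem smP_eval {n : ℕ} (P : MvPolynomial (Fin (n + 1)) ℚ) (x : Fin n → ℝ) (t : ℝ) :
    (smP P x).eval t = aeval (Fin.cons t x : Fin (n + 1) → ℝ) P := by
  rw [lemd_eval, smP, Polynomial.eval_map]

private theorem sm_ren {n : ℕ} (D : MvPolynomial (Fin n) ℚ) :
    finSuccEquiv ℚ n (rename Fin.succ D) = Polynomial.C D := by
  induction D using MvPolynomial.induction_on with
  | C a =>
    rw [rename_C, finSuccEquiv_apply]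
    simp
  | add p q hp hq => rw [map_add, map_add, hp, hq, map_add]
  | mul_X p i hp => rw [map_mul, map_mul, hp, rename_X, finSuccEquiv_X_succ, map_mul]

private theorem sm_real {n : ℕ} (D : MvPolynomial (Fin n) ℚ) (x : Fin n → ℝ) :
    eval x (map (algebraMap ℚ ℝ) D) = (aeval x D : ℝ) := by
  rw [eval_map, aeval_def]

theorem fc_smooth₀ {n : ℕ} {P : MvPolynomial (Fin (n + 1)) ℚ} (hP : Irreducible P)
    (hdeg : 0 < degreeOf 0 P) :
    FC {x : Fin (n + 1) → ℝ | (aeval x P : ℝ) = 0 ∧ SmoothAt P x} := by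
  have hirr : Irreducible (finSuccEquiv ℚ n P) :=
    (MulEquiv.irreducible_iff (finSuccEquiv ℚ n)).2 hP
  have hnd : 0 < (finSuccEquiv ℚ n P).natDegree := by
    rw [natDegree_finSuccEquiv]
    exact hdeg
  obtain ⟨A, B, D₁, hD₁, hAB⟩ := bezout_sep hirr hnd
  have hlead : (finSuccEquiv ℚ n P).leadingCoeff ≠ 0 :=
    Polynomial.leadingCoeff_ne_zero.2 hirr.ne_zero
  obtain ⟨D, hD⟩ : ∃ D, D = D₁ * (finSuccEquiv ℚ n P).leadingCoeff := ⟨_, rfl⟩
  have hD0 : D ≠ 0 := by
    rw [hD]
    exact mul_ne_zero hD₁ hlead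
  have hU : FC {x : Fin n → ℝ | (aeval x D : ℝ) ≠ 0} := by
    have h := fc_ne (map (algebraMap ℚ ℝ) D)
    simpa only [sm_real] using h
  have hU1 : ∀ x : Fin n → ℝ, (aeval x D : ℝ) ≠ 0 → (aeval x D₁ : ℝ) ≠ 0 ∧
      (aeval x (finSuccEquiv ℚ n P).leadingCoeff : ℝ) ≠ 0 := by
    intro x hx
    rw [hD, map_mul] at hx
    exact ⟨left_ne_zero_of_mul hx, right_ne_zero_of_mul hx⟩
  have hdg : ∀ x : Fin n → ℝ, (aeval x D : ℝ) ≠ 0 →
      (smP P x).natDegree = (finSuccEquiv ℚ n P).natDegree := fun x hx =>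
    Polynomial.natDegree_map_of_leadingCoeff_ne_zero _ (hU1 x hx).2
  have hne : ∀ x : Fin n → ℝ, (aeval x D : ℝ) ≠ 0 → smP P x ≠ 0 := by
    intro x hx h
    have h1 := hdg x hx
    rw [h, Polynomial.natDegree_zero] at h1
    omega
  have hsep : ∀ x : Fin n → ℝ, (aeval x D : ℝ) ≠ 0 → ∀ t, (smP P x).IsRoot t →
      ¬ (Polynomial.derivative (smP P x)).IsRoot t := by
    intro x hx t h1 h2
    have h3 := congrArg (fun Q => (Polynomial.map
      (aeval x : MvPolynomial (Fin n) ℚ →ₐ[ℚ] ℝ).toRingHom Q).eval t) hAB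
    simp only [Polynomial.map_add, Polynomial.map_mul, Polynomial.map_C, Polynomial.eval_add,
      Polynomial.eval_mul, Polynomial.eval_C] at h3
    rw [← Polynomial.derivative_map] at h3
    change _ * (smP P x).eval t + _ * (Polynomial.derivative (smP P x)).eval t = aeval x D₁ at h3
    rw [show (smP P x).eval t = 0 from h1,
      show (Polynomial.derivative (smP P x)).eval t = 0 from h2, mul_zero, mul_zero,
      add_zero] at h3
    exact (hU1 x hx).1 h3.symm
  obtain ⟨-, hb⟩ := bands hU (p := smP P) (d := (finSuccEquiv ℚ n P).natDegree)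
    (fun i => by
      have h1 : (fun x => (smP P x).coeff i) =
          fun x : Fin n → ℝ => (aeval x ((finSuccEquiv ℚ n P).coeff i) : ℝ) := by
        funext x
        rw [smP, Polynomial.coeff_map]
        rfl
      rw [h1]
      exact (lemd_cont _).continuousOn) hdg hne hsep
  have hcc : Continuous fun z : (Fin n → ℝ) × ℝ => (Fin.cons z.2 z.1 : Fin (n + 1) → ℝ) := by
    refine continuous_pi fun l => ?_
    refine Fin.cases ?_ (fun j => ?_) l
    · simp only [Fin.cons_zero]
      exact continuous_snd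
    · simp only [Fin.cons_succ]
      exact (continuous_apply j).comp continuous_fst
  have hA := hb.image hcc.continuousOn
  refine hA.sandwich ?_ ?_
  · rintro _ ⟨⟨x, t⟩, ⟨h1, h2⟩, rfl⟩
    refine ⟨?_, 0, (Polynomial.derivative (smP P x)).eval t, hsep x h1 t h2, ?_⟩
    · rw [← smP_eval]
      exact h2
    · have h3 : (fun s : ℝ => (aeval ((Fin.cons t x : Fin (n + 1) → ℝ) +
          s • (Pi.single 0 1 : Fin (n + 1) → ℝ)) P : ℝ)) = fun s => (smP P x).eval (t + s) := by
        funext s
        rw [smP_eval]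
        congr 2
        funext l
        refine Fin.cases ?_ (fun j => ?_) l
        · simp
        · simp [Fin.succ_ne_zero]
      change HasDerivAt (fun s : ℝ => (aeval ((Fin.cons t x : Fin (n + 1) → ℝ) +
          s • (Pi.single 0 1 : Fin (n + 1) → ℝ)) P : ℝ)) _ 0
      rw [h3]
      have h4 := (smP P x).hasDerivAt (t + 0)
      have h5 := HasDerivAt.comp_const_add t 0 h4
      rw [add_zero] at h5
      exact h5
  · rintro x ⟨hx1, hx2⟩
    by_contra hcl
    rw [mem_closure_iff_frequently, not_frequently] at hcl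
    have hG : ∀ᶠ z in 𝓝 x, (aeval z P : ℝ) = 0 → (aeval z (rename Fin.succ D) : ℝ) = 0 := by
      filter_upwards [hcl] with z hz hzP
      by_contra hne2
      apply hz
      refine ⟨(Fin.tail z, z 0), ⟨?_, ?_⟩, Fin.cons_self_tail z⟩
      · intro h
        apply hne2
        rw [aeval_rename]
        exact h
      · change (smP P (Fin.tail z)).eval (z 0) = 0
        rw [smP_eval, Fin.cons_self_tail]
        exact hzP
    have hdvd := dvd_of_vanish hP hx1 hx2 hG
    have h1 : finSuccEquiv ℚ n P ∣ Polynomial.C D := by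
      rw [← sm_ren]
      exact map_dvd (finSuccEquiv ℚ n) hdvd
    have h2 := Polynomial.natDegree_le_of_dvd h1 (Polynomial.C_ne_zero.2 hD0)
    rw [Polynomial.natDegree_C] at h2
    omega

/-- an irreducible polynomial contains a variable -/
private theorem sm_var {n : ℕ} {P : MvPolynomial (Fin n) ℚ} (hP : Irreducible P) :
    ∃ i, 0 < degreeOf i P := by
  by_contra hne
  push Not at hne
  have h1 : P.totalDegree = 0 := by
    refine Nat.le_zero.1 (Finset.sup_le fun m hm => ?_)
    rw [Finsupp.sum]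
    refine (Finset.sum_eq_zero fun i _ => ?_).le
    have h2 := (degreeOf_le_iff (n := i) (f := P) (d := 0)).1 (hne i) m hm
    omega
  rw [totalDegree_eq_zero_iff_eq_C] at h1
  have h2 : P.coeff 0 ≠ 0 := by
    intro h3
    rw [h3, C_0] at h1
    exact hP.ne_zero h1
  apply hP.not_isUnit
  rw [h1]
  exact (IsUnit.mk0 _ h2).map C

theorem fc_smooth {n : ℕ} {P : MvPolynomial (Fin n) ℚ} (hP : Irreducible P) :
    FC {x : Fin n → ℝ | (aeval x P : ℝ) = 0 ∧ SmoothAt P x} := by
  obtain ⟨i, hi⟩ := sm_var hP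
  obtain ⟨k, rfl⟩ : ∃ k, n = k + 1 := ⟨n - 1, by have := i.pos; omega⟩
  let e : Equiv.Perm (Fin (k + 1)) := Equiv.swap 0 i
  have he : e i = 0 := Equiv.swap_apply_right 0 i
  have hee : ∀ y : Fin (k + 1) → ℝ, (y ∘ e) ∘ e = y := by
    intro y
    funext l
    simp only [Function.comp_apply, e, Equiv.swap_apply_self]
  have h1 : Irreducible (rename e P) := (MulEquiv.irreducible_iff (renameEquiv ℚ e)).2 hP
  have h2 : 0 < degreeOf 0 (rename e P) := by
    rw [← he, degreeOf_rename_of_injective e.injective]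
    exact hi
  have h3 : Continuous fun x : Fin (k + 1) → ℝ => x ∘ e :=
    continuous_pi fun l => continuous_apply (e l)
  have h4 := (fc_smooth₀ h1 h2).image h3.continuousOn
  convert h4 using 1
  ext x
  constructor
  · rintro ⟨h5, h6⟩
    refine ⟨x ∘ e, ⟨?_, ?_⟩, hee x⟩
    · rw [aeval_rename_perm, hee]
      exact h5
    · rw [smoothAt_rename, hee]
      exact h6
  · rintro ⟨y, ⟨h5, h6⟩, rfl⟩
    rw [aeval_rename_perm] at h5
    rw [smoothAt_rename] at h6
    exact ⟨h5, h6⟩

end Pool.Agent.MZ
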