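import Mathlib
import Pool.Agent.MZ.Defs
import Pool.Agent.MZ.Fc
import Pool.Agent.MZ.RatAlg
import Pool.Agent.MZ.RatD

/-!
# MZ module TYPEE: all rational points are of type E

(uses the stubs of `Fc`, `RatAlg`, `RatD`)

`hE` says: for every rational zero `p` the quadratic form `T p v v` vanishes on the tangent hyperplane
`T p p v = 0`. Polarised (`hE.polar`): `T p v w = 0` if `T p p v = 0 = T p p w` (apply `hE` to `v + w`).

PROOF of `fc_typeE`. Case 1: `T p p p' = 0` for all `p, p' ∈ XQ`. Then for `s, y ∈ XQ ∩ {ell = 1}` and rational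
`t` the point `s + t (y - s) = (1-t) s + t y` is a rational zero (`T s s y = 0`,
`T s y y = T y y s = 0`) with `ell = 1`: `star_preconnected` (or the set is empty).
Case 2: there are `p, p' ∈ XQ` with `b = T p p p' ≠ 0`. By `no_three_lines` (with these `p, p'`) every
`y ∈ XQ` is `s • p + s' • p'` with `s * s' * (b * s + a * s') = 0`, `a = T p' p' p ≠ 0`. So
`XQ ∩ {ell = 1}` is contained in a set with at most three points: `s = 0`: `s' ell p' = 1`;
`s' = 0`: `s ell p = 1`; `s' = -(b/a) s`: `s (ell p - (b/a) ell p') = 1`. A finite set is closed,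
`FC.of_finite`.

PROOF of `typeE_a`: if `T p' p' p = 0` then `hE` at `p'` with `v = p` gives `T p' p p = 0`, i.e. `b = 0`.

PROOF of `typeE_base`: let `w` be rational, `w ≠ 0`, `T w w w = 0`, `T p p w = 0 = T p' p' w`. By `hE` at `p, p'`:
`T p w w = 0 = T p' w w`, so `p, p', p + p'` are in the tangent hyperplane of `w`, and `hE` at `w`, polarised,
gives `T w p p' = 0`. `T p w u = 0` for all `u` with `T p p u = 0` (polarised `hE` at `p`). Let `b = T p p p'`,
`a = T p' p' p`. By `hns` there is `u₁` with `T w w u₁ ≠ 0`;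
`u = u₁ - (T p' p' u₁ / a) p - (T p p u₁ / b) p'`: `T p p u = 0`, `T p' p' u = 0`,
`d := T w w u = T w w u₁ ≠ 0`. Let `y = p + w`, a rational zero
(`T p p p + 3 T p p w + 3 T p w w + T w w w`). Let `v₀ = b⁻¹ p' - d⁻¹ u`, `v₁ = v₀ + p`.
`T p w v₀ = b⁻¹ T p w p' - d⁻¹ T p w u = 0`, `T p w p = T p p w = 0`. `T p p v₀ = 1`, `T w w v₀ = -1` (as
`T w w p' = 0`), so `T y y v₀ = T p p v₀ + 2 T p w v₀ + T w w v₀ = 0`, `T y y p = 0`, `T y y v₁ = 0`.
By `hE` at `y`: `0 = T y v₀ v₀`, `0 = T y v₁ v₁ = T y v₀ v₀ + 2 T y v₀ p + T y p p`, where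
`T y v₀ p = T p v₀ p + T w v₀ p = 1 + 0`, `T y p p = 0 + T w p p = 0`. So `0 = 2`: contradiction.

PROOF of `no_three_lines`. Let `y ∈ XQ`, `s = T p' p' y / a`, `s' = T p p y / b`, `u = y - s p - s' p'`: rational,
`T p p u = 0 = T p' p' u` (so `T p u u = 0 = T p' u u`). Let `k = T p p' u`, `λ = b s + a s' + 2 k`. Then
`T y y y = 3 s s' λ + T u u u`. Suppose `s s' λ ≠ 0`. `T y y p = s' (b s + λ)`, `T y y p' = s (a s' + λ)`,
`T y p p = b s'`, `T y p' p' = a s`, `T y p p' = b s + a s' + k = (λ + b s + a s') / 2`. Let `A = s (a s' + λ)`,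
`B = - s' (b s + λ)`, `ξ = A p + B p'`: `T y y ξ = 0`, and with `X = b s + λ`, `Y = a s' + λ`:
`T y ξ ξ = A² b s' + 2 A B T y p p' + B² a s = - λ s s' (X² - X Y + Y²)`, and by `hE` this is `0`, so
`X² - X Y + Y² = 0`, so `X = Y = 0`. Then `T y y p = s' X = 0`, so by `hE` `T y p p = b s' = 0`: contradiction.
So `s s' λ = 0`, hence `T u u u = 0`, and `u = 0` by `typeE_base`; `k = 0`.
About 170 lines.
-/

set_option autoImplicit false

open Set Topology Filter MvPolynomial

namespace Pool.Agent.MZ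

namespace Cub

variable {m : ℕ} {C : Cub m}

private theorem te_xyx (C : Cub m) (x y : Fin m → ℝ) : C.T x y x = C.T x x y := C.sym₂ x y x

private theorem te_yxx (C : Cub m) (x y : Fin m → ℝ) : C.T y x x = C.T x x y := by
  rw [C.sym₁ y x x, C.sym₂ x y x]

private theorem te_yyx (C : Cub m) (x y : Fin m → ℝ) : C.T y y x = C.T x y y := by
  rw [C.sym₂ y y x, C.sym₁ y x y]

/-- polarised form of `hE` -/
private theorem te_polar
    (hE : ∀ p, IsRat p → C.T p p p = 0 → ∀ v, C.T p p v = 0 → C.T p v v = 0)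
    {p v w : Fin m → ℝ} (hp : IsRat p) (hp0 : C.T p p p = 0) (hv : C.T p p v = 0)
    (hw : C.T p p w = 0) : C.T p v w = 0 := by
  have h1 := hE p hp hp0 v hv
  have h2 := hE p hp hp0 w hw
  have h3 := hE p hp hp0 (v + w) (by rw [map_add, hv, hw, add_zero])
  simp only [map_add, LinearMap.add_apply] at h3
  rw [C.sym₂ p w v] at h3
  linarith

theorem typeE_a (hE : ∀ p, IsRat p → C.T p p p = 0 → ∀ v, C.T p p v = 0 → C.T p v v = 0)
    {p p' : Fin m → ℝ} (hp' : p' ∈ C.XQ) (hb : C.T p p p' ≠ 0) : C.T p' p' p ≠ 0 := by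
  intro h
  apply hb
  have h1 := hE p' hp'.1 hp'.2 p h
  rw [te_yxx C p p'] at h1
  exact h1

theorem typeE_base (hns : C.NoSing)
    (hE : ∀ p, IsRat p → C.T p p p = 0 → ∀ v, C.T p p v = 0 → C.T p v v = 0)
    {p p' : Fin m → ℝ} (hp : p ∈ C.XQ) (hp' : p' ∈ C.XQ) (hb : C.T p p p' ≠ 0)
    {w : Fin m → ℝ} (hw : IsRat w) (hw0 : C.T w w w = 0) (h1 : C.T p p w = 0)
    (h2 : C.T p' p' w = 0) : w = 0 := by
  by_contra hne
  have ha := typeE_a hE hp' hb
  set a := C.T p' p' p with haa
  set b := C.T p p p' with hbb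
  have hpw : C.T p w w = 0 := hE p hp.1 hp.2 w h1
  have hqw : C.T p' w w = 0 := hE p' hp'.1 hp'.2 w h2
  have hwp : C.T w w p = 0 := by rw [te_yyx C p w]; exact hpw
  have hwq : C.T w w p' = 0 := by rw [te_yyx C p' w]; exact hqw
  have hwpq : C.T w p p' = 0 := te_polar hE hw hw0 hwp hwq
  have hpwq : C.T p w p' = 0 := by rw [C.sym₁ p w p']; exact hwpq
  obtain ⟨u₁, hu₁⟩ := hns w hw hne hw0
  set u := u₁ - (C.T p' p' u₁ / a) • p - (C.T p p u₁ / b) • p' with hu
  have hu1 : C.T p p u = 0 := by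
    rw [hu]
    simp only [map_sub, map_smul, smul_eq_mul, hp.2]
    rw [← hbb]
    field_simp
    ring
  have hu2 : C.T w w u = C.T w w u₁ := by
    rw [hu]
    simp only [map_sub, map_smul, smul_eq_mul, hwp, hwq]
    ring
  set d := C.T w w u with hd
  have hd0 : d ≠ 0 := by rw [hu2]; exact hu₁
  have hpwu : C.T p w u = 0 := te_polar hE hp.1 hp.2 h1 hu1
  have hy : IsRat (p + w) := hp.1.add hw
  have hy0 : C.T (p + w) (p + w) (p + w) = 0 := by
    simp only [map_add, LinearMap.add_apply]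
    rw [te_xyx C p w, te_yxx C p w, C.sym₁ w p w, hp.2, h1, hpw, hwp, hw0]
    ring
  set v₀ := b⁻¹ • p' - d⁻¹ • u with hv₀
  have e1 : C.T p p v₀ = 1 := by
    rw [hv₀]
    simp only [map_sub, map_smul, smul_eq_mul, hu1]
    rw [← hbb]
    field_simp
    ring
  have e2 : C.T p w v₀ = 0 := by
    rw [hv₀]
    simp only [map_sub, map_smul, smul_eq_mul, hpwq, hpwu]
    ring
  have e3 : C.T w w v₀ = -1 := by
    rw [hv₀]
    simp only [map_sub, map_smul, smul_eq_mul, hwq]
    rw [← hd]
    field_simp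
    ring
  have f1 : C.T (p + w) (p + w) v₀ = 0 := by
    simp only [map_add, LinearMap.add_apply]
    rw [C.sym₁ w p v₀, e1, e2, e3]
    ring
  have f2 : C.T (p + w) (p + w) p = 0 := by
    simp only [map_add, LinearMap.add_apply]
    rw [te_xyx C p w, te_yxx C p w, hp.2, h1, hwp]
    ring
  have g1 := hE _ hy hy0 v₀ f1
  have g2 := te_polar hE hy hy0 f1 f2
  simp only [map_add, LinearMap.add_apply] at g2
  rw [te_xyx C p v₀, C.sym₂ w v₀ p, C.sym₁ w p v₀, e1, e2] at g2
  norm_num at g2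

private theorem te_alg (a b s s' k L X Y : ℝ) (hL : L = b * s + a * s' + 2 * k)
    (hX : X = b * s + L) (hY : Y = a * s' + L)
    (h : (s * Y) ^ 2 * (b * s') + 2 * (s * Y) * (-(s' * X)) * (b * s + a * s' + k) +
      (s' * X) ^ 2 * (a * s) = 0) : s * s' * L * (X ^ 2 - X * Y + Y ^ 2) = 0 := by
  subst hX hY hL
  linear_combination -h

private theorem te_pos {X Y : ℝ} (h : X ^ 2 - X * Y + Y ^ 2 = 0) : X = 0 := by
  have h1 : 3 * X ^ 2 + (X - 2 * Y) ^ 2 = 0 := by linear_combination 4 * h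
  have h2 := sq_nonneg (X - 2 * Y)
  have h3 := sq_nonneg X
  exact pow_eq_zero_iff (two_ne_zero) |>.1 (by linarith)

theorem no_three_lines (hns : C.NoSing)
    (hE : ∀ p, IsRat p → C.T p p p = 0 → ∀ v, C.T p p v = 0 → C.T p v v = 0)
    {p p' : Fin m → ℝ} (hp : p ∈ C.XQ) (hp' : p' ∈ C.XQ) (hb : C.T p p p' ≠ 0)
    {y : Fin m → ℝ} (hy : y ∈ C.XQ) :
    ∃ s s' : ℝ, y = s • p + s' • p' ∧ s * s' * (C.T p p p' * s + C.T p' p' p * s') = 0 := by
  have ha := typeE_a hE hp' hb
  set a := C.T p' p' p with haa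
  set b := C.T p p p' with hbb
  set s := C.T p' p' y / a with hs
  set s' := C.T p p y / b with hs'
  set u := y - s • p - s' • p' with hu
  have hyu : y = s • p + s' • p' + u := by rw [hu]; abel
  have hu1 : C.T p p u = 0 := by
    rw [hu]
    simp only [map_sub, map_smul, smul_eq_mul, hp.2]
    rw [← hbb, hs']
    field_simp
    ring
  have hu2 : C.T p' p' u = 0 := by
    rw [hu]
    simp only [map_sub, map_smul, smul_eq_mul, hp'.2]
    rw [← haa, hs]
    field_simp
    ring
  have hQa : ∀ x y, IsRat x → IsRat y → IsQ (C.T x x y) := fun x y hx hy => C.rat x x y hx hx hy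
  have hur : IsRat u := by
    rw [hu]
    refine (hy.1.sub (IsRat.smul ?_ hp.1)).sub (IsRat.smul ?_ hp'.1)
    · exact (hQa _ _ hp'.1 hy.1).div (hQa _ _ hp'.1 hp.1)
    · exact (hQa _ _ hp.1 hy.1).div (hQa _ _ hp.1 hp'.1)
  have hpu : C.T p u u = 0 := hE p hp.1 hp.2 u hu1
  have hqu : C.T p' u u = 0 := hE p' hp'.1 hp'.2 u hu2
  set k := C.T p p' u with hk
  set L := b * s + a * s' + 2 * k with hL
  have haa' : C.T p p' p' = a := by rw [haa, te_yyx C p p']
  -- values
  have hyyp : C.T y y p = s' * (b * s + L) := by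
    rw [hyu]
    simp only [map_add, map_smul, LinearMap.add_apply, LinearMap.smul_apply, smul_eq_mul]
    rw [te_xyx C p p', te_yxx C p p', te_yyx C p p', te_xyx C p u, te_yxx C p u, te_yyx C p u,
      C.sym₂ p' u p, C.sym₁ p' p u, C.sym₁ u p' p, C.sym₂ p' u p, C.sym₁ p' p u, haa', ← hbb,
      hu1, hpu, hp.2, ← hk, hL]
    ring
  have hyyq : C.T y y p' = s * (a * s' + L) := by
    rw [hyu]
    simp only [map_add, map_smul, LinearMap.add_apply, LinearMap.smul_apply, smul_eq_mul]
    rw [C.sym₁ p' p p', haa', C.sym₂ p u p', C.sym₁ u p p', C.sym₂ p u p', ← hk, ← hbb,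
      te_xyx C p' u, te_yxx C p' u, te_yyx C p' u, hu2, hqu, hp'.2, hL]
    ring
  have hypp : C.T y p p = b * s' := by
    rw [hyu]
    simp only [map_add, map_smul, LinearMap.add_apply, LinearMap.smul_apply, smul_eq_mul]
    rw [te_yxx C p p', te_yxx C p u, hu1, hp.2, ← hbb]
    ring
  have hyqq : C.T y p' p' = a * s := by
    rw [hyu]
    simp only [map_add, map_smul, LinearMap.add_apply, LinearMap.smul_apply, smul_eq_mul]
    rw [te_yxx C p' u, hu2, hp'.2, haa']
    ring
  have hypq : C.T y p p' = b * s + a * s' + k := by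
    rw [hyu]
    simp only [map_add, map_smul, LinearMap.add_apply, LinearMap.smul_apply, smul_eq_mul]
    rw [C.sym₁ p' p p', haa', C.sym₁ u p p', C.sym₂ p u p', ← hk, ← hbb]
    ring
  have hyyu : C.T y y u = 2 * s * s' * k + C.T u u u := by
    conv_lhs => rw [hyu]
    simp only [map_add, map_smul, LinearMap.add_apply, LinearMap.smul_apply, smul_eq_mul]
    rw [C.sym₁ p' p u, C.sym₁ u p u, C.sym₁ u p' u, hu1, hu2, hpu, hqu, ← hk]
    ring
  have hyyy : 3 * (s * s' * L) + C.T u u u = 0 := by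
    have h1 := hy.2
    have h2 : C.T y y y = s * C.T y y p + s' * C.T y y p' + C.T y y u := by
      conv_lhs => rw [show C.T y y y = C.T y y (s • p + s' • p' + u) from congrArg _ hyu]
      simp only [map_add, map_smul, smul_eq_mul]
    rw [h2, hyyp, hyyq, hyyu] at h1
    rw [← h1, hL]
    ring
  have hzero : s * s' * L = 0 := by
    by_contra hne
    set X := b * s + L with hX
    set Y := a * s' + L with hY
    have h1 : C.T y y ((s * Y) • p + (-(s' * X)) • p') = 0 := by
      simp only [map_add, map_smul, smul_eq_mul]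
      rw [hyyp, hyyq]
      ring
    have h2 := hE y hy.1 hy.2 _ h1
    simp only [map_add, map_smul, LinearMap.add_apply, LinearMap.smul_apply, smul_eq_mul] at h2
    rw [C.sym₂ y p' p, hypp, hyqq, hypq] at h2
    have h3 : s * s' * L * (X ^ 2 - X * Y + Y ^ 2) = 0 :=
      te_alg a b s s' k L X Y hL hX hY (by linear_combination h2)
    have h4 : X ^ 2 - X * Y + Y ^ 2 = 0 := (mul_eq_zero.1 h3).resolve_left hne
    have h5 : X = 0 := te_pos h4
    have h6 : C.T y y p = 0 := by rw [hyyp, h5, mul_zero]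
    have h7 := hE y hy.1 hy.2 p h6
    rw [hypp] at h7
    rcases mul_eq_zero.1 h7 with h8 | h8
    · exact hb h8
    · apply hne
      rw [h8]
      ring
  have huuu : C.T u u u = 0 := by
    rw [hzero] at hyyy
    linarith
  have hu0 : u = 0 := typeE_base hns hE hp hp' hb hur huuu hu1 hu2
  refine ⟨s, s', ?_, ?_⟩
  · rw [hyu, hu0, add_zero]
  · have hk0 : k = 0 := by rw [hk, hu0, map_zero]
    rw [hL, hk0] at hzero
    rw [← hzero]
    ring

theorem fc_typeE (hns : C.NoSing)
    (hE : ∀ p, IsRat p → C.T p p p = 0 → ∀ v, C.T p p v = 0 → C.T p v v = 0)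
    (ell : (Fin m → ℝ) →ₗ[ℝ] ℝ) : FC (closure (C.XQ ∩ {x | ell x = 1})) := by
  by_cases h : ∃ p ∈ C.XQ, ∃ p' ∈ C.XQ, C.T p p p' ≠ 0
  · obtain ⟨p, hp, p', hp', hb⟩ := h
    have ha := typeE_a hE hp' hb
    set r := p - (C.T p p p' / C.T p' p' p) • p' with hr
    have hsub : C.XQ ∩ {x | ell x = 1} ⊆
        {(ell p')⁻¹ • p', (ell p)⁻¹ • p, (ell r)⁻¹ • r} := by
      rintro y ⟨hy, hy1⟩
      obtain ⟨s, s', hys, hss⟩ := no_three_lines hns hE hp hp' hb hy
      have hl : ell y = 1 := hy1
      simp only [Set.mem_insert_iff, Set.mem_singleton_iff]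
      rcases mul_eq_zero.1 hss with h1 | h1
      · rcases mul_eq_zero.1 h1 with h2 | h2
        · left
          rw [h2, zero_smul, zero_add] at hys
          rw [hys, map_smul, smul_eq_mul] at hl
          rw [hys]
          congr 1
          exact eq_inv_of_mul_eq_one_left hl
        · right
          left
          rw [h2, zero_smul, add_zero] at hys
          rw [hys, map_smul, smul_eq_mul] at hl
          rw [hys]
          congr 1
          exact eq_inv_of_mul_eq_one_left hl
      · right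
        right
        have h3 : s' = -(C.T p p p' / C.T p' p' p) * s := by
          field_simp
          linarith
        have h4 : y = s • r := by
          rw [hys, h3, hr, smul_sub, smul_smul, sub_eq_add_neg, ← neg_smul]
          congr 2
          ring
        rw [h4, map_smul, smul_eq_mul] at hl
        rw [h4]
        congr 1
        exact eq_inv_of_mul_eq_one_left hl
    have hfin : (C.XQ ∩ {x | ell x = 1}).Finite :=
      Set.Finite.subset (by simp) hsub
    rw [hfin.isClosed.closure_eq]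
    exact FC.of_finite hfin
  · push Not at h
    rcases Set.eq_empty_or_nonempty (C.XQ ∩ {x | ell x = 1}) with he | ⟨s, hs⟩
    · rw [he, closure_empty]
      exact FC.empty
    · apply FC.of_preconnected
      apply star_preconnected hs
      intro y hy t _ _
      have h1 := h s hs.1 y hy.1
      have h2 := h y hy.1 s hs.1
      rw [te_yyx C s y] at h2
      refine ⟨⟨?_, ?_⟩, ?_⟩
      · exact hs.1.1.add (IsRat.smul (IsQ.cast t) (hy.1.1.sub hs.1.1))
      · simp only [map_add, map_sub, map_smul, LinearMap.add_apply, LinearMap.sub_apply,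
          LinearMap.smul_apply, smul_eq_mul]
        rw [te_xyx C s y, te_yxx C s y, C.sym₁ y s y, te_yyx C s y, h1, h2, hs.1.2, hy.1.2]
        ring
      · have h3 : ell s = 1 := hs.2
        have h4 : ell y = 1 := hy.2
        change ell (s + (t : ℝ) • (y - s)) = 1
        rw [map_add, map_smul, map_sub, h3, h4, sub_self, smul_zero, add_zero]

end Cub

end Pool.Agent.MZ
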