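import Mathlib
import Pool.Agent.MZ.Defs
import Pool.Agent.MZ.Fc
import Pool.Agent.MZ.RatAlg
import Pool.Agent.MZ.Basic
import Pool.Agent.MZ.Chart
import Pool.Agent.MZ.Smooth
import Pool.Agent.MZ.Open
import Pool.Agent.MZ.N4B
import Pool.Agent.MZ.TypeE
import Pool.Agent.MZ.M3

/-!
# MZ module CASE4: irreducible cubics without rational singular points

(uses the stubs of `Fc`, `Basic`, `Chart`, `fc_smooth`, `smooth_mem_O`, `fc_typeN`, `fc_typeE`, `m3`)

PROOF of `case_open` (`O` is not empty). `A = {x | aeval x P = 0 ∧ SmoothAt P x}` is `FC` (`fc_smooth`).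
`B = {x ∈ A | hx 1 x ∈ Z}` is `FC` by `FC.clopen`: if `x ∈ B` then `T x̂ x̂ u ≠ 0` for some `u` (`smoothAt_chart`), so
`x̂ = hx 1 x ∈ O` (`smooth_mem_O`), so for `y` near `x` with `aeval y P = 0`: `hx 1 y ∈ Z` (`continuous_hx`);
if `x ∈ A ∩ closure B` then `hx 1 x ∈ Z` (closed). `QZ P ⊆ B`: for a rational zero `q`, `hx 1 (rv q) ≠ 0` is a rational
zero of the form, so `hns` and `smoothAt_chart`. `B ⊆ closure (QZ P)` (`mem_closure_QZ`). So
`B ⊆ closure (QZ P) ⊆ closure B`: `FC.sandwich`.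

PROOF of `case_small`: `m ≤ 2` is impossible with `T p p v = 0`, `T p v v ≠ 0`, `T p p u ≠ 0`, `T p p p = 0`: the vectors
`p, v, u` of `ℝ^m` are linearly independent: `p, v ∈ ker (T p p)`, `u` is not; if `v = t p` then
`T p v v = t² T p p p = 0`; `p ≠ 0`.

PROOF of `case4`. If `O` is nonempty: `case_open`. Otherwise let `ell z = z 0` (`LinearMap.proj 0`). It suffices (by
`closure_QZ_eq_image` and `FC.image`, `Fin.tail` is continuous) that `FC (closure (XQ ∩ {z | ell z = 1}))`. If all rational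
zeros satisfy `hE`: `fc_typeE`. Otherwise there are `p, v` with `T p p v = 0`, `T p v v ≠ 0` (`p ≠ 0`, smooth by `hns`).
`3 ≤ n + 1` by `case_small`. If `4 ≤ n + 1`: `fc_typeN`. If `n + 1 = 3` (`obtain rfl : n = 2`): `XQ ∩ {ell = 1}` is finite by
`m3`, and `FC.of_finite` (a finite set is closed).
About 90 lines.
-/

set_option autoImplicit false

open Set Topology Filter MvPolynomial

namespace Pool.Agent.MZ

theorem case_open {n : ℕ} {P : MvPolynomial (Fin n) ℚ} (hP : Irreducible P) {C : Cub (n + 1)}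
    (hPC : ∀ x : Fin n → ℝ, (aeval x P : ℝ) = C.T (hx 1 x) (hx 1 x) (hx 1 x))
    (hirr : Irreducible C.pol) (hns : C.NoSing) (hO : C.O.Nonempty) : FC (closure (QZ P)) := by
  have hA := fc_smooth hP
  set A : Set (Fin n → ℝ) := {x | (aeval x P : ℝ) = 0 ∧ SmoothAt P x} with hAdef
  have hZc : IsClosed C.Z := isClosed_closure
  have hB : FC {x | x ∈ A ∧ hx 1 x ∈ C.Z} := by
    refine FC.clopen hA (fun x hx => hx.1) ?_ ?_
    · rintro x ⟨⟨hx0, hxs⟩, hxZ⟩
      have h1 := Cub.smooth_mem_O hirr hns hO hxZ ((smoothAt_chart hPC hx0).1 hxs)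
      filter_upwards [((continuous_hx 1).tendsto x).eventually h1.2.2] with y hy hyA
      refine ⟨hyA, hy ?_⟩
      rw [← hPC]
      exact hyA.1
    · intro x hxA hxB
      refine ⟨hxA, ?_⟩
      have h1 : closure {x | x ∈ A ∧ hx 1 x ∈ C.Z} ⊆ {x | hx 1 x ∈ C.Z} :=
        closure_minimal (fun x hx => hx.2) (hZc.preimage (continuous_hx 1))
      exact h1 hxB
  have hQ : QZ P ⊆ {x | x ∈ A ∧ hx 1 x ∈ C.Z} := by
    rintro x ⟨q, hq, rfl⟩
    have h0 : (aeval (rv q) P : ℝ) = 0 := by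
      rw [aeval_rv, hq, Rat.cast_zero]
    have h1 : IsRat (hx 1 (rv q)) := isRat_hx.2 ⟨IsQ.one, IsRat.rv q⟩
    have h2 : C.T (hx 1 (rv q)) (hx 1 (rv q)) (hx 1 (rv q)) = 0 := by
      rw [← hPC]
      exact h0
    have h3 : hx 1 (rv q) ≠ 0 := by
      intro h
      have h4 := congrFun h 0
      simp [hx] at h4
    exact ⟨⟨h0, (smoothAt_chart hPC h0).2 (hns _ h1 h3 h2)⟩, Cub.XQ_subset_Z ⟨h1, h2⟩⟩
  exact FC.sandwich hB (fun x hx => (mem_closure_QZ hPC).2 hx.2) (closure_mono hQ)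

theorem case_small {m : ℕ} {C : Cub m} {p v u : Fin m → ℝ} (hp : C.T p p p = 0)
    (hv : C.T p p v = 0) (hq : C.T p v v ≠ 0) (hu : C.T p p u ≠ 0) : 3 ≤ m := by
  have hpne : p ≠ 0 := by
    rintro rfl
    simp at hu
  have hli : LinearIndependent ℝ ![p, v, u] := by
    rw [Fintype.linearIndependent_iff]
    intro g hg
    rw [Fin.sum_univ_three] at hg
    simp only [Matrix.cons_val_zero, Matrix.cons_val_one, Matrix.cons_val_two,
      Matrix.head_cons, Matrix.tail_cons] at hg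
    have h2 : g 2 = 0 := by
      have h := congrArg (C.T p p) hg
      rw [map_add, map_add, map_smul, map_smul, map_smul, map_zero, hp, hv] at h
      simp only [smul_eq_mul, mul_zero, zero_add] at h
      exact (mul_eq_zero.1 h).resolve_right hu
    have h1 : g 1 = 0 := by
      have h := congrArg (C.T p v) hg
      rw [map_add, map_add, map_smul, map_smul, map_smul, map_zero, h2, C.sym₂ p v p, hv] at h
      simp only [smul_eq_mul, mul_zero, zero_add, zero_mul, add_zero] at h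
      exact (mul_eq_zero.1 h).resolve_right hq
    have h0 : g 0 = 0 := by
      rw [h1, h2, zero_smul, zero_smul, add_zero, add_zero] at hg
      exact (smul_eq_zero.1 hg).resolve_right hpne
    intro i
    fin_cases i
    · exact h0
    · exact h1
    · exact h2
  have h := hli.fintype_card_le_finrank
  simpa using h

theorem case4 {n : ℕ} {P : MvPolynomial (Fin n) ℚ} (hP : Irreducible P) {C : Cub (n + 1)}
    (hPC : ∀ x : Fin n → ℝ, (aeval x P : ℝ) = C.T (hx 1 x) (hx 1 x) (hx 1 x))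
    (hirr : Irreducible C.pol) (hns : C.NoSing) : FC (closure (QZ P)) := by
  by_cases hO : C.O.Nonempty
  · exact case_open hP hPC hirr hns hO
  have hO' : C.O = ∅ := Set.not_nonempty_iff_eq_empty.1 hO
  rw [closure_QZ_eq_image hPC]
  have htail : Continuous fun z : Fin (n + 1) → ℝ => Fin.tail z :=
    continuous_pi fun i => continuous_apply i.succ
  refine FC.image ?_ htail.continuousOn
  let ell : (Fin (n + 1) → ℝ) →ₗ[ℝ] ℝ := LinearMap.proj 0
  have hell : ({z | z 0 = 1} : Set (Fin (n + 1) → ℝ)) = {x | ell x = 1} := rfl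
  rw [hell]
  by_cases hE : ∀ p, IsRat p → C.T p p p = 0 → ∀ v, C.T p p v = 0 → C.T p v v = 0
  · exact Cub.fc_typeE hns hE ell
  push Not at hE
  obtain ⟨p, hp, hp0, v, hv, hq⟩ := hE
  have hpne : p ≠ 0 := by
    rintro rfl
    simp at hq
  obtain ⟨u, hu⟩ := hns p hp hpne hp0
  have h3 := case_small hp0 hv hq hu
  by_cases h4 : 4 ≤ n + 1
  · exact Cub.fc_typeN h4 hirr hns hO' hp hp0 hv hq ell
  obtain rfl : n = 2 := by omega
  have hfin : (C.XQ ∩ {x | ell x = 1}).Finite := by
    by_contra h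
    exact hO (Cub.m3 hirr hns h)
  rw [hfin.isClosed.closure_eq]
  exact FC.of_finite hfin

end Pool.Agent.MZ
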