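import Mathlib
import Pool.Agent.MZ.Defs
import Pool.Agent.MZ.Fc
import Pool.Agent.MZ.RatAlg
import Pool.Agent.MZ.RatD
import Pool.Agent.MZ.Compl

/-!
# MZ module MONOID: hypersurfaces `A + B = 0` with `A, B` homogeneous of degrees `k`, `k + 1`

(uses the stubs `PolyR.fc_ne`, `image_subset_closure`, `star_preconnected`, `FC.*`, `IsRat.*`,
`aeval_rv`)

PROOF. `QZ P = S₁ ∪ S₂`, `S₁ = {y ∈ QZ P | A (y - rv s) = 0}`, `S₂ = {y ∈ QZ P | A (y - rv s) ≠ 0}`;
`closure (S₁ ∪ S₂) = closure S₁ ∪ closure S₂`.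
`closure S₁` is preconnected by `star_preconnected` with the point `rv s`
(`A 0 = A (0 • 0)`: if `k = 0` then `A 0 = A 0`; in all cases `A 0 = 0`: from `hP 0`:
`0 = A 0 + B 0`, `B 0 = B (0 • 0) = 0`. So `rv s ∈ S₁`). Let `y = rv s + w ∈ S₁`: `A w = 0` and
`A w + B w = 0`, so `B w = 0`, and for rational `t`: `A (t • w) = t ^ k * A w = 0`, `B (t • w) = 0`, so
`rv s + t • w` is a rational zero in `S₁`.
`S₂`: let `V = {v | A v * B v ≠ 0}` : open (`PolyR.continuous`) and `FC` (`PolyR.fc_ne`, `PolyR.mul`),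
`φ v = rv s - (A v / B v) • v`, continuous on `V`. For `v ∈ V`, with `t = -(A v / B v) ≠ 0`:
`aeval (φ v) P = A (t v) + B (t v) = t ^ k * (A v + t * B v) = 0`, and
`A (φ v - rv s) = t ^ k * A v ≠ 0`. For rational `v ∈ V` the point `φ v` is rational (`hAQ`, `hBQ`), so
`φ v ∈ S₂` (`aeval_rv`). Conversely for `y = rv s + w ∈ S₂`: `B w = - A w ≠ 0`, `w ∈ V`,
`φ w = rv s + w = y`. So `S₂ ⊆ φ '' V ⊆ closure (φ '' (V ∩ {rational})) ⊆ closure S₂`. Hence
`closure S₂` is `FC` by `FC.image` and `FC.sandwich` (`φ '' V ⊆ closure S₂ ⊆ closure (φ '' V)`).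
About 90 lines.
-/

set_option autoImplicit false

open Set Topology Filter MvPolynomial

namespace Pool.Agent.MZ

private lemma monoid_mem {n : ℕ} {P : MvPolynomial (Fin n) ℚ} {s : Fin n → ℚ}
    {A B : (Fin n → ℝ) → ℝ} (hP : ∀ x : Fin n → ℝ, (aeval (rv s + x) P : ℝ) = A x + B x)
    (y : Fin n → ℝ) : y ∈ QZ P ↔ IsRat (y - rv s) ∧ A (y - rv s) + B (y - rv s) = 0 := by
  have h0 : rv s + (y - rv s) = y := by
    funext i
    simp
  constructor
  · rintro ⟨q, hq, rfl⟩
    refine ⟨(IsRat.rv q).sub (IsRat.rv s), ?_⟩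
    rw [← hP, h0, aeval_rv, hq, Rat.cast_zero]
  · rintro ⟨h1, h2⟩
    rw [← hP, h0] at h2
    have h3 : IsRat y := by
      rw [← h0]
      exact (IsRat.rv s).add h1
    obtain ⟨q, rfl⟩ := h3
    rw [aeval_rv] at h2
    exact ⟨q, by exact_mod_cast h2, rfl⟩

theorem fc_monoid {n k : ℕ} (P : MvPolynomial (Fin n) ℚ) (s : Fin n → ℚ) (hs : eval s P = 0)
    {A B : (Fin n → ℝ) → ℝ} (hA : PolyR n A) (hB : PolyR n B)
    (hAQ : ∀ x, IsRat x → IsQ (A x)) (hBQ : ∀ x, IsRat x → IsQ (B x))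
    (hAh : ∀ (t : ℝ) (x : Fin n → ℝ), A (t • x) = t ^ k * A x)
    (hBh : ∀ (t : ℝ) (x : Fin n → ℝ), B (t • x) = t ^ (k + 1) * B x)
    (hP : ∀ x : Fin n → ℝ, (aeval (rv s + x) P : ℝ) = A x + B x) :
    FC (closure (QZ P)) := by
  have hB0 : B 0 = 0 := by
    have h1 := hBh 0 0
    rw [smul_zero, zero_pow (Nat.succ_ne_zero k), zero_mul] at h1
    exact h1
  have hA0 : A 0 = 0 := by
    have h1 := hP 0
    rw [add_zero, aeval_rv, hs, Rat.cast_zero, hB0, add_zero] at h1
    exact h1.symm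
  set S1 : Set (Fin n → ℝ) := {y | y ∈ QZ P ∧ A (y - rv s) = 0} with hS1
  set S2 : Set (Fin n → ℝ) := {y | y ∈ QZ P ∧ A (y - rv s) ≠ 0} with hS2
  have hU : QZ P = S1 ∪ S2 := by
    ext y
    constructor
    · intro hy
      by_cases h : A (y - rv s) = 0
      · exact Or.inl ⟨hy, h⟩
      · exact Or.inr ⟨hy, h⟩
    · rintro (h | h)
      · exact h.1
      · exact h.1
  rw [hU, closure_union]
  refine FC.union ?_ ?_
  · -- the star shaped part
    refine FC.of_preconnected (star_preconnected (s := rv s) ?_ ?_)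
    · refine ⟨(monoid_mem hP _).2 ?_, ?_⟩
      · rw [sub_self]
        exact ⟨IsRat.zero, by rw [hA0, hB0, add_zero]⟩
      · rw [sub_self]
        exact hA0
    · rintro y ⟨hy, hyA⟩ t _ _
      obtain ⟨h1, h2⟩ := (monoid_mem hP y).1 hy
      have h3 : rv s + (t : ℝ) • (y - rv s) - rv s = (t : ℝ) • (y - rv s) := add_sub_cancel_left _ _
      have h4 : B (y - rv s) = 0 := by
        rw [hyA, zero_add] at h2
        exact h2
      refine ⟨(monoid_mem hP _).2 ?_, ?_⟩
      · rw [h3]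
        refine ⟨h1.smul (IsQ.cast t), ?_⟩
        rw [hAh, hBh, hyA, h4, mul_zero, mul_zero, add_zero]
      · rw [h3, hAh, hyA, mul_zero]
  · set V : Set (Fin n → ℝ) := {v | A v * B v ≠ 0} with hV
    have hVo : IsOpen V := isOpen_ne_fun (hA.mul hB).continuous continuous_const
    have hVf : FC V := (hA.mul hB).fc_ne
    set φ : (Fin n → ℝ) → Fin n → ℝ := fun v => rv s + (-(A v / B v)) • v with hφ
    have hφc : ContinuousOn φ V := by
      have h1 : ContinuousOn (fun v => A v / B v) V :=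
        hA.continuous.continuousOn.div hB.continuous.continuousOn
          (fun v hv => right_ne_zero_of_mul hv)
      exact continuousOn_const.add (h1.neg.smul continuousOn_id)
    have hφs : ∀ v, φ v - rv s = (-(A v / B v)) • v := fun v => add_sub_cancel_left _ _
    have c1 : φ '' (V ∩ {x | IsRat x}) ⊆ S2 := by
      rintro _ ⟨v, ⟨hv, hvr⟩, rfl⟩
      have a0 : A v ≠ 0 := left_ne_zero_of_mul hv
      have b0 : B v ≠ 0 := right_ne_zero_of_mul hv
      have t0 : -(A v / B v) ≠ 0 := neg_ne_zero.2 (div_ne_zero a0 b0)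
      refine ⟨(monoid_mem hP _).2 ?_, ?_⟩
      · rw [hφs]
        refine ⟨IsRat.smul ((hAQ v hvr).div (hBQ v hvr)).neg hvr, ?_⟩
        rw [hAh, hBh, pow_succ]
        have h1 : -(A v / B v) * B v = - A v := by field_simp
        calc (-(A v / B v)) ^ k * A v + (-(A v / B v)) ^ k * -(A v / B v) * B v =
              (-(A v / B v)) ^ k * (A v + -(A v / B v) * B v) := by ring
          _ = 0 := by rw [h1, add_neg_cancel, mul_zero]
      · rw [hφs, hAh]
        exact mul_ne_zero (pow_ne_zero _ t0) a0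
    have c2 : S2 ⊆ φ '' V := by
      rintro y ⟨hy, hyA⟩
      obtain ⟨h1, h2⟩ := (monoid_mem hP y).1 hy
      have hBy : B (y - rv s) = - A (y - rv s) := by linarith
      refine ⟨y - rv s, ?_, ?_⟩
      · show A (y - rv s) * B (y - rv s) ≠ 0
        rw [hBy]
        exact mul_ne_zero hyA (neg_ne_zero.2 hyA)
      · show rv s + (-(A (y - rv s) / B (y - rv s))) • (y - rv s) = y
        rw [hBy, div_neg, neg_neg, div_self hyA, one_smul]
        exact add_sub_cancel _ _
    refine FC.sandwich (hVf.image hφc) ?_ (closure_mono c2)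
    exact (image_subset_closure hVo hφc).trans (closure_mono c1)

end Pool.Agent.MZ
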