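import Mathlib
import Pool.Agent.MZ.Defs
import Pool.Agent.MZ.Fc
import Pool.Agent.MZ.RatAlg
import Pool.Agent.MZ.Basic
import Pool.Agent.MZ.Rep
import Pool.Agent.MZ.Monoid

/-!
# MZ module EASY: degree at most 2; cubics with a rational singular point

(uses the stubs of `Fc`, `RatAlg`, `Basic`, `exists_cub`, `fc_monoid`)

PROOF. Let `C` be given, `s` a rational zero of `P`, `ŝ = hx 1 (rv s)`. For `v : Fin n → ℝ`, with `v̂ = hx 0 v`:
`aeval (rv s + v) P = T (ŝ + v̂) (ŝ + v̂) (ŝ + v̂) = 3 T ŝ ŝ v̂ + 3 T ŝ v̂ v̂ + T v̂ v̂ v̂`.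
`fc_deg_two`: if `P` has no rational zero, the set is empty (`FC.empty`, `closure_empty`). Otherwise take `C` from
`exists_cub`; `T v̂ v̂ v̂ = 0`; `fc_monoid` with `k = 1`, `A v = 3 T ŝ ŝ v̂`, `B v = 3 T ŝ v̂ v̂`.
`fc_sing`: `T ŝ ŝ v̂ = 0`; `fc_monoid` with `k = 2`, `A v = 3 T ŝ v̂ v̂`, `B v = T v̂ v̂ v̂`
(`eval s P = 0` because `T ŝ ŝ ŝ = 0`, `aeval_rv`). `Cub.polyR`, `C.rat`, `isRat_hx`, `hx_smul`
(`hx 0 (t • v) = t • hx 0 v`).
About 80 lines.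
-/

set_option autoImplicit false

open Set Topology Filter MvPolynomial

namespace Pool.Agent.MZ

private theorem ez_expand {n : ℕ} {P : MvPolynomial (Fin n) ℚ} {C : Cub (n + 1)}
    (hPC : ∀ x : Fin n → ℝ, (aeval x P : ℝ) = C.T (hx 1 x) (hx 1 x) (hx 1 x)) (s : Fin n → ℝ)
    (h0 : C.T (hx 1 s) (hx 1 s) (hx 1 s) = 0) (v : Fin n → ℝ) :
    (aeval (s + v) P : ℝ) = 3 * C.T (hx 1 s) (hx 1 s) (hx 0 v) +
      3 * C.T (hx 1 s) (hx 0 v) (hx 0 v) + C.T (hx 0 v) (hx 0 v) (hx 0 v) := by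
  have e : hx 1 (s + v) = hx 1 s + hx 0 v := by rw [← hx_add, add_zero]
  have i1 : C.T (hx 1 s) (hx 0 v) (hx 1 s) = C.T (hx 1 s) (hx 1 s) (hx 0 v) := C.sym₂ _ _ _
  have i2 : C.T (hx 0 v) (hx 1 s) (hx 1 s) = C.T (hx 1 s) (hx 1 s) (hx 0 v) := by
    rw [C.sym₁, i1]
  have i3 : C.T (hx 0 v) (hx 1 s) (hx 0 v) = C.T (hx 1 s) (hx 0 v) (hx 0 v) := C.sym₁ _ _ _
  have i4 : C.T (hx 0 v) (hx 0 v) (hx 1 s) = C.T (hx 1 s) (hx 0 v) (hx 0 v) := by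
    rw [C.sym₂, i3]
  rw [hPC, e]
  simp only [map_add, LinearMap.add_apply, i1, i2, i3, i4, h0]
  ring

private theorem ez_polyR0 {n : ℕ} (i : Fin (n + 1)) : PolyR n fun v => hx 0 v i := by
  refine Fin.cases ?_ (fun j => ?_) i
  · have h : (fun v : Fin n → ℝ => hx 0 v 0) = fun _ => (0 : ℝ) := by
      funext v
      simp [hx]
    rw [h]
    exact PolyR.const 0
  · have h : (fun v : Fin n → ℝ => hx 0 v j.succ) = fun v => v j := by
      funext v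
      simp [hx]
    rw [h]
    exact PolyR.coord j

private theorem ez_smul {n : ℕ} (t : ℝ) (v : Fin n → ℝ) : hx 0 (t • v) = t • hx 0 v := by
  rw [← hx_smul, mul_zero]

theorem fc_deg_two {n : ℕ} {P : MvPolynomial (Fin n) ℚ} (hP : P.totalDegree ≤ 2) :
    FC (closure (QZ P)) := by
  rcases (QZ P).eq_empty_or_nonempty with h | ⟨x, s, hs, -⟩
  · rw [h, closure_empty]
    exact FC.empty
  obtain ⟨C, hPC, -, h2⟩ := exists_cub (n := n) (P := P) (hP.trans (by norm_num))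
  have h3 := h2 hP
  have hs0 : C.T (hx 1 (rv s)) (hx 1 (rv s)) (hx 1 (rv s)) = 0 := by
    rw [← hPC, aeval_rv, hs, Rat.cast_zero]
  have hr1 : IsRat (hx 1 (rv s)) := isRat_hx.mpr ⟨IsQ.one, ⟨s, rfl⟩⟩
  refine fc_monoid (k := 1) P s hs
    (A := fun v => 3 * C.T (hx 1 (rv s)) (hx 1 (rv s)) (hx 0 v))
    (B := fun v => 3 * C.T (hx 1 (rv s)) (hx 0 v) (hx 0 v)) ?_ ?_ ?_ ?_ ?_ ?_ ?_
  · exact (PolyR.const 3).mul (C.polyR (fun i => PolyR.const _) (fun i => PolyR.const _)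
      ez_polyR0)
  · exact (PolyR.const 3).mul (C.polyR (fun i => PolyR.const _) ez_polyR0 ez_polyR0)
  · intro v hv
    exact IsQ.mul ⟨3, by norm_num⟩ (C.rat _ _ _ hr1 hr1 (isRat_hx.mpr ⟨IsQ.zero, hv⟩))
  · intro v hv
    have hv' := isRat_hx.mpr ⟨IsQ.zero, hv⟩
    exact IsQ.mul ⟨3, by norm_num⟩ (C.rat _ _ _ hr1 hv' hv')
  · intro t v
    simp only [ez_smul, map_smul, smul_eq_mul]
    ring
  · intro t v
    simp only [ez_smul, map_smul, LinearMap.smul_apply, smul_eq_mul]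
    ring
  · intro v
    rw [ez_expand hPC _ hs0, h3, add_zero]

theorem fc_sing {n : ℕ} {P : MvPolynomial (Fin n) ℚ} {C : Cub (n + 1)}
    (hPC : ∀ x : Fin n → ℝ, (aeval x P : ℝ) = C.T (hx 1 x) (hx 1 x) (hx 1 x))
    {s : Fin n → ℚ} (hs : ∀ u, C.T (hx 1 (rv s)) (hx 1 (rv s)) u = 0) :
    FC (closure (QZ P)) := by
  have hs0 := hs (hx 1 (rv s))
  have hse : eval s P = 0 := by
    have h1 := hPC (rv s)
    rw [hs0, aeval_rv] at h1
    exact_mod_cast h1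
  have hr1 : IsRat (hx 1 (rv s)) := isRat_hx.mpr ⟨IsQ.one, ⟨s, rfl⟩⟩
  refine fc_monoid (k := 2) P s hse
    (A := fun v => 3 * C.T (hx 1 (rv s)) (hx 0 v) (hx 0 v))
    (B := fun v => C.T (hx 0 v) (hx 0 v) (hx 0 v)) ?_ ?_ ?_ ?_ ?_ ?_ ?_
  · exact (PolyR.const 3).mul (C.polyR (fun i => PolyR.const _) ez_polyR0 ez_polyR0)
  · exact C.polyR ez_polyR0 ez_polyR0 ez_polyR0
  · intro v hv
    have hv' := isRat_hx.mpr ⟨IsQ.zero, hv⟩
    exact IsQ.mul ⟨3, by norm_num⟩ (C.rat _ _ _ hr1 hv' hv')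
  · intro v hv
    have hv' := isRat_hx.mpr ⟨IsQ.zero, hv⟩
    exact C.rat _ _ _ hv' hv' hv'
  · intro t v
    simp only [ez_smul, map_smul, LinearMap.smul_apply, smul_eq_mul]
    ring
  · intro t v
    simp only [ez_smul, map_smul, LinearMap.smul_apply, smul_eq_mul]
    ring
  · intro v
    rw [ez_expand hPC _ hs0, hs, mul_zero, zero_add]

end Pool.Agent.MZ
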