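import Pool.Agent.KSF.Homg

/-!
# MZ module HOM: the homogenisation of an irreducible polynomial is irreducible

`isHomogeneous_of_mul` is `KSF.homog_of_mul`. `δ = aeval (Fin.cons 1 X)` maps the monomial with exponent `e` to the
monomial with exponent `e.tail`; `(δ A).coeff e.tail = A.coeff e` for `A` homogeneous of degree `|e|`.
`irr_of_dehom`: `F = A * B` with `A`, `B` homogeneous of degrees `i + j = 3`, `P = δ A * δ B`, one factor is a unit,
say `δ A = C c`, so `A = C c * X 0 ^ i`; if `i ≥ 1` then `deg P ≤ deg δ B ≤ j ≤ 2`, a contradiction.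
-/

set_option autoImplicit false

open MvPolynomial

namespace Pool.Agent.MZ

theorem isHomogeneous_of_mul {σ : Type*} {F A B : MvPolynomial σ ℚ} {k : ℕ}
    (hF : F.IsHomogeneous k) (h0 : F ≠ 0) (h : F = A * B) : ∃ i, A.IsHomogeneous i := by
  subst h
  obtain ⟨i, -, -, hi, -⟩ := Pool.Agent.KSF.homog_of_mul A B k hF h0
  exact ⟨i, hi⟩

private theorem hom_dehom_monomial {n : ℕ} (e : Fin (n + 1) →₀ ℕ) (c : ℚ) :
    aeval (Fin.cons 1 X : Fin (n + 1) → MvPolynomial (Fin n) ℚ) (monomial e c) =
      monomial e.tail c := by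
  rw [aeval_monomial, Finsupp.prod_fintype _ _ (fun i => pow_zero _), Fin.prod_univ_succ,
    Fin.cons_zero, one_pow, one_mul, monomial_eq, Finsupp.prod_fintype _ _ (fun i => pow_zero _)]
  rfl

private theorem hom_dehom_sum {n : ℕ} (B : MvPolynomial (Fin (n + 1)) ℚ) :
    aeval (Fin.cons 1 X : Fin (n + 1) → MvPolynomial (Fin n) ℚ) B =
      ∑ e ∈ B.support, monomial e.tail (B.coeff e) := by
  conv_lhs => rw [B.as_sum, map_sum]
  exact Finset.sum_congr rfl fun e _ => hom_dehom_monomial e _

private theorem hom_degree {n : ℕ} (e : Fin (n + 1) →₀ ℕ) :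
    e.degree = e 0 + e.tail.degree := by
  rw [Finsupp.degree_eq_sum, Finsupp.degree_eq_sum, Fin.sum_univ_succ]
  rfl

theorem totalDegree_dehom_le {n : ℕ} (B : MvPolynomial (Fin (n + 1)) ℚ) :
    (aeval (Fin.cons 1 X : Fin (n + 1) → MvPolynomial (Fin n) ℚ) B).totalDegree ≤
      B.totalDegree := by
  rw [hom_dehom_sum]
  refine (totalDegree_finsetSum _ _).trans ?_
  apply Finset.sup_le
  intro e he
  refine (totalDegree_monomial_le _ _).trans ?_
  have h1 := le_totalDegree he
  have h2 : (e.sum fun _ k => k) = e.degree := rfl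
  have h3 := hom_degree e
  rw [h2] at h1
  have h4 : (e.tail.sum fun _ => id) = e.tail.degree := rfl
  rw [h4]
  omega

private theorem hom_deg_of {σ : Type*} {i : ℕ} {A : MvPolynomial σ ℚ} (hA : A.IsHomogeneous i)
    {e : σ →₀ ℕ} (he : A.coeff e ≠ 0) : e.degree = i := by
  have h1 := hA he
  have h2 : (Finsupp.weight (1 : σ → ℕ)) e = e.degree := by
    have h3 := DFunLike.congr_fun (Finsupp.degree_eq_weight_one (R := ℕ) (σ := σ)) e
    exact h3.symm
  rw [← h2]
  exact h1

private theorem hom_coeff {n i : ℕ} {A : MvPolynomial (Fin (n + 1)) ℚ} (hA : A.IsHomogeneous i)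
    {e : Fin (n + 1) →₀ ℕ} (he : e.degree = i) :
    (aeval (Fin.cons 1 X : Fin (n + 1) → MvPolynomial (Fin n) ℚ) A).coeff e.tail =
      A.coeff e := by
  classical
  rw [hom_dehom_sum, coeff_sum]
  simp only [coeff_monomial]
  have h1 : ∀ e' ∈ A.support, (if e'.tail = e.tail then A.coeff e' else 0) =
      if e' = e then A.coeff e' else 0 := by
    intro e' he'
    have hd : e'.degree = i := hom_deg_of hA (mem_support_iff.1 he')
    by_cases h : e' = e
    · rw [h]
      simp
    · rw [if_neg h, if_neg]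
      intro ht
      apply h
      have h2 := hom_degree e'
      have h3 := hom_degree e
      rw [ht] at h2
      have h4 : e' 0 = e 0 := by omega
      rw [← Finsupp.cons_tail e', ← Finsupp.cons_tail e, ht, h4]
  rw [Finset.sum_congr rfl h1, Finset.sum_ite_eq']
  by_cases h : e ∈ A.support
  · rw [if_pos h]
  · rw [if_neg h]
    exact (notMem_support_iff.1 h).symm

theorem dehom_injective {n i : ℕ} {A A' : MvPolynomial (Fin (n + 1)) ℚ} (hA : A.IsHomogeneous i)
    (hA' : A'.IsHomogeneous i)
    (h : aeval (Fin.cons 1 X : Fin (n + 1) → MvPolynomial (Fin n) ℚ) A =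
      aeval (Fin.cons 1 X : Fin (n + 1) → MvPolynomial (Fin n) ℚ) A') : A = A' := by
  ext e
  by_cases he : e.degree = i
  · rw [← hom_coeff hA he, ← hom_coeff hA' he, h]
  · have h1 : A.coeff e = 0 := by
      by_contra hc
      exact he (hom_deg_of hA hc)
    have h2 : A'.coeff e = 0 := by
      by_contra hc
      exact he (hom_deg_of hA' hc)
    rw [h1, h2]

private theorem hom_unit {n i j : ℕ} {A B : MvPolynomial (Fin (n + 1)) ℚ}
    (hA : A.IsHomogeneous i) (hB : B.IsHomogeneous j) (hij : i + j = 3)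
    (hd : (aeval (Fin.cons 1 X : Fin (n + 1) → MvPolynomial (Fin n) ℚ) (A * B)).totalDegree = 3)
    (hu : IsUnit (aeval (Fin.cons 1 X : Fin (n + 1) → MvPolynomial (Fin n) ℚ) A)) :
    IsUnit A := by
  rw [MvPolynomial.isUnit_iff_eq_C_of_isReduced] at hu
  obtain ⟨c, hc, hu⟩ := hu
  rcases Nat.eq_zero_or_pos i with hi | hi
  · subst hi
    have h1 : A = C c := by
      apply dehom_injective hA (isHomogeneous_C _ _)
      rw [hu]
      simp
    rw [h1]
    exact hc.map C
  · exfalso
    rw [map_mul, hu] at hd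
    have h1 : (C c * aeval (Fin.cons 1 X : Fin (n + 1) → MvPolynomial (Fin n) ℚ) B).totalDegree ≤
        (aeval (Fin.cons 1 X : Fin (n + 1) → MvPolynomial (Fin n) ℚ) B).totalDegree := by
      refine (totalDegree_mul _ _).trans ?_
      rw [totalDegree_C, zero_add]
    have h2 := totalDegree_dehom_le B
    have h3 := hB.totalDegree_le
    omega

theorem irr_of_dehom {n : ℕ} {F : MvPolynomial (Fin (n + 1)) ℚ} {P : MvPolynomial (Fin n) ℚ}
    (hF : F.IsHomogeneous 3)
    (hFP : aeval (Fin.cons 1 X : Fin (n + 1) → MvPolynomial (Fin n) ℚ) F = P)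
    (hP : Irreducible P) (hd : P.totalDegree = 3) : Irreducible F := by
  have hF0 : F ≠ 0 := by
    rintro rfl
    rw [map_zero] at hFP
    exact hP.ne_zero hFP.symm
  constructor
  · intro hu
    apply hP.not_isUnit
    rw [← hFP]
    exact hu.map (aeval (Fin.cons 1 X : Fin (n + 1) → MvPolynomial (Fin n) ℚ))
  · intro A B hAB
    subst hAB
    obtain ⟨i, j, hij, hA, hB⟩ := Pool.Agent.KSF.homog_of_mul A B 3 hF hF0
    have h1 : P = aeval (Fin.cons 1 X : Fin (n + 1) → MvPolynomial (Fin n) ℚ) A *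
        aeval (Fin.cons 1 X : Fin (n + 1) → MvPolynomial (Fin n) ℚ) B := by
      rw [← hFP, map_mul]
    rw [← hFP] at hd
    rcases hP.isUnit_or_isUnit h1 with hu | hu
    · left
      exact hom_unit hA hB hij hd hu
    · right
      rw [mul_comm] at hd
      exact hom_unit hB hA (by omega) hd hu

end Pool.Agent.MZ
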