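import Mathlib
import Pool.Agent.MZ.Defs
import Pool.Agent.MZ.Fc
import Pool.Agent.MZ.RatAlg
import Pool.Agent.MZ.RatD

/-!
# MZ module INVDIR: hypersurfaces that are invariant in a rational direction

(uses the stubs `FC.*`, `IsRat.*`, `aeval_rv`, `dense_isRat`)

PROOF. Choose `i` with `s i ≠ 0`. Let `P' = aeval (i.insertNth 0 X) P` (`X_i ↦ 0`, the other variables
`X_{i.succAbove j} ↦ X_j`); `P'.totalDegree ≤ P.totalDegree` (for every monomial; e.g.
`totalDegree_finset_sum`/`MvPolynomial.totalDegree_aeval_le`? or: `P = ∑ monomials`, each monomial goes to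
zero or to a monomial of the same degree; induction `MvPolynomial.induction_on` does not keep the degree,
so use `P.as_sum` and `totalDegree_finset_sum_le`), and
`aeval z P' = aeval (i.insertNth 0 z) P` for all `z : Fin n → ℝ`, also with `eval` for rational points.
Let `Φ (z, t) = i.insertNth 0 z + t • rv s`, continuous `(Fin n → ℝ) × ℝ → (Fin (n+1) → ℝ)`. Then
`aeval (Φ (z, t)) P = aeval z P'`. `Φ` is a homeomorphism with inverse
`x ↦ (i.removeNth (x - (x i / s i) • rv s), x i / s i)`; both maps preserve rationality. So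
`QZ P = Φ '' (QZ P' ×ˢ {t | IsQ t})` and
`closure (QZ P) = Φ '' (closure (QZ P') ×ˢ univ)` (`closure_prod_eq`, density of the rationals in `ℝ`,
`Homeomorph.image_closure`; or show the two inclusions that `FC.sandwich` needs:
`Φ '' (closure (QZ P') ×ˢ univ) ⊆ closure (QZ P)` and
`closure (QZ P) ⊆ closure (Φ '' ...)`). `FC.image`, `FC.prod`, `FC.of_preconnected`
(`isPreconnected_univ`).
About 110 lines.
-/

set_option autoImplicit false

open Set Topology Filter MvPolynomial

namespace Pool.Agent.MZ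

/-- Substitution of polynomials of degree at most one does not increase the degree. -/
private theorem invdir_deg {n k : ℕ} (g : Fin k → MvPolynomial (Fin n) ℚ)
    (hg : ∀ j, (g j).totalDegree ≤ 1) (P : MvPolynomial (Fin k) ℚ) :
    (aeval g P).totalDegree ≤ P.totalDegree := by
  rw [aeval_def, eval₂_eq']
  refine totalDegree_finsetSum_le fun d hd => ?_
  refine (totalDegree_mul _ _).trans ?_
  have h1 : (algebraMap ℚ (MvPolynomial (Fin n) ℚ) (coeff d P)).totalDegree = 0 := by
    rw [algebraMap_eq, totalDegree_C]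
  rw [h1, zero_add]
  refine (totalDegree_finset_prod _ _).trans ?_
  have h2 : ∑ j, (g j ^ d j).totalDegree ≤ ∑ j, d j := by
    refine Finset.sum_le_sum fun j _ => (totalDegree_pow _ _).trans ?_
    calc d j * (g j).totalDegree ≤ d j * 1 := Nat.mul_le_mul_left _ (hg j)
      _ = d j := mul_one _
  refine h2.trans ?_
  have h3 : ∑ j, d j = d.sum fun _ e => e :=
    (Finsupp.sum_fintype d (fun _ e => e) fun _ => rfl).symm
  rw [h3]
  exact le_totalDegree hd

theorem fc_invdir {n : ℕ} {P : MvPolynomial (Fin (n + 1)) ℚ} {s : Fin (n + 1) → ℚ} (hs : s ≠ 0)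
    (hinv : ∀ (x : Fin (n + 1) → ℝ) (t : ℝ), (aeval (x + t • rv s) P : ℝ) = aeval x P)
    (ih : ∀ P' : MvPolynomial (Fin n) ℚ, P'.totalDegree ≤ P.totalDegree →
      FC (closure (QZ P'))) :
    FC (closure (QZ P)) := by
  obtain ⟨i, hi⟩ : ∃ i, s i ≠ 0 := by
    by_contra hcon
    push Not at hcon
    exact hs (funext hcon)
  set g : Fin (n + 1) → MvPolynomial (Fin n) ℚ := i.insertNth 0 X with hg
  have hgi : g i = 0 := by rw [hg, Fin.insertNth_apply_same]
  have hgj : ∀ j : Fin n, g (i.succAbove j) = X j := fun j => by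
    rw [hg, Fin.insertNth_apply_succAbove]
  have hg1 : ∀ j, (g j).totalDegree ≤ 1 := by
    intro j
    rcases Fin.eq_self_or_eq_succAbove i j with rfl | ⟨j, rfl⟩
    · rw [hgi, totalDegree_zero]
      exact Nat.zero_le 1
    · rw [hgj, totalDegree_X]
  set P' : MvPolynomial (Fin n) ℚ := aeval g P with hP'
  have hFC := ih P' (invdir_deg g hg1 P)
  have hev : ∀ z : Fin n → ℝ, (aeval z P' : ℝ) = aeval (i.insertNth (0 : ℝ) z : Fin (n + 1) → ℝ) P := by
    intro z
    rw [hP']
    have h1 : (aeval z : MvPolynomial (Fin n) ℚ →ₐ[ℚ] ℝ) (aeval g P) =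
        ((aeval z : MvPolynomial (Fin n) ℚ →ₐ[ℚ] ℝ).comp (aeval g)) P := rfl
    rw [h1, comp_aeval]
    congr 2
    funext j
    rcases Fin.eq_self_or_eq_succAbove i j with rfl | ⟨j, rfl⟩
    · rw [hgi, map_zero, Fin.insertNth_apply_same]
    · rw [hgj, aeval_X, Fin.insertNth_apply_succAbove]
  set Φ : (Fin n → ℝ) × ℝ → (Fin (n + 1) → ℝ) := fun p =>
    (i.insertNth (0 : ℝ) p.1 : Fin (n + 1) → ℝ) + p.2 • rv s with hΦ
  have hΦc : Continuous Φ := by
    have h1 : Continuous fun p : (Fin n → ℝ) × ℝ => (i.insertNth (0 : ℝ) p.1 : Fin (n + 1) → ℝ) :=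
      Continuous.finInsertNth i continuous_const continuous_fst
    exact h1.add (continuous_snd.smul continuous_const)
  have hΦe : ∀ z t, (aeval (Φ (z, t)) P : ℝ) = aeval z P' := by
    intro z t
    rw [hΦ, hev]
    exact hinv _ _
  have hQZ : QZ P = Φ '' (QZ P' ×ˢ {t | IsQ t}) := by
    apply Set.Subset.antisymm
    · rintro _ ⟨q, hq, rfl⟩
      have hsi : (s i : ℝ) ≠ 0 := by exact_mod_cast hi
      have hx : Φ (rv (fun j => q (i.succAbove j) - q i / s i * s (i.succAbove j)),
          ((q i / s i : ℚ) : ℝ)) = rv q := by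
        funext j
        rcases Fin.eq_self_or_eq_succAbove i j with rfl | ⟨j, rfl⟩
        · simp only [hΦ, Pi.add_apply, Fin.insertNth_apply_same, Pi.smul_apply, smul_eq_mul, rv]
          push_cast
          field_simp
          ring
        · simp only [hΦ, Pi.add_apply, Fin.insertNth_apply_succAbove, Pi.smul_apply, smul_eq_mul,
            rv]
          push_cast
          ring
      refine ⟨_, ⟨⟨_, ?_, rfl⟩, ⟨q i / s i, rfl⟩⟩, hx⟩
      have h1 := hΦe (rv (fun j => q (i.succAbove j) - q i / s i * s (i.succAbove j)))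
        ((q i / s i : ℚ) : ℝ)
      rw [hx, aeval_rv, aeval_rv, hq] at h1
      exact_mod_cast h1.symm
    · rintro _ ⟨⟨z, t⟩, ⟨⟨q, hq, rfl⟩, ⟨r, rfl⟩⟩, rfl⟩
      have hx : Φ (rv q, (r : ℝ)) = rv ((i.insertNth 0 q : Fin (n + 1) → ℚ) + r • s) := by
        funext j
        rcases Fin.eq_self_or_eq_succAbove i j with rfl | ⟨j, rfl⟩
        · simp only [hΦ, Pi.add_apply, Fin.insertNth_apply_same, Pi.smul_apply, smul_eq_mul, rv]
          push_cast
          ring
        · simp only [hΦ, Pi.add_apply, Fin.insertNth_apply_succAbove, Pi.smul_apply, smul_eq_mul,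
            rv]
          push_cast
          ring
      refine ⟨_, ?_, hx⟩
      have h1 := hΦe (rv q) (r : ℝ)
      rw [hx, aeval_rv, aeval_rv, hq] at h1
      exact_mod_cast h1
  have hA : FC (Φ '' (closure (QZ P') ×ˢ (univ : Set ℝ))) :=
    (hFC.prod (FC.of_preconnected isPreconnected_univ)).image hΦc.continuousOn
  have hd : closure {t : ℝ | IsQ t} = univ := by
    have h1 : {t : ℝ | IsQ t} = range ((↑) : ℚ → ℝ) := by
      ext t
      constructor
      · rintro ⟨r, rfl⟩
        exact ⟨r, rfl⟩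
      · rintro ⟨r, rfl⟩
        exact ⟨r, rfl⟩
    rw [h1]
    exact Rat.denseRange_cast.closure_range
  refine hA.sandwich ?_ (closure_mono ?_)
  · rw [← hd, ← closure_prod_eq, hQZ]
    exact image_closure_subset_closure_image hΦc
  · rw [hQZ]
    exact image_mono (prod_mono subset_closure (subset_univ _))

end Pool.Agent.MZ
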