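import Mathlib
import Pool.Agent.MZ.Defs
import Pool.Agent.MZ.Fc
import Pool.Agent.MZ.RatAlg
import Pool.Agent.MZ.RatD
import Pool.Agent.MZ.Compl
import Pool.Agent.MZ.LemD

/-!
# MZ module LINDIR: hypersurfaces that are linear in a rational direction

(uses the stubs `PolyR.fc_ne`, `image_subset_closure`, `dvd_of_vanish`, `FC.*`, `IsRat.*`)

PROOF. `R (x + t s) = R x` for all `x`, `t`: `P x + (t + 1) R x = P (x + (t+1) s) =
P ((x + t s) + s) = P x + t R x + R (x + t s)`.
Let `V = {v | aeval v R ≠ 0}`: open and `FC`; `φ v = v - (P v / R v) • rv s` is continuous on `V`,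
`P (φ v) = P v - (P v / R v) R v = 0`, `R (φ v) = R v ≠ 0`; `φ v = v` for zeros `v ∈ V` of `P`. Hence
`A := {x | P x = 0, R x ≠ 0} = φ '' V` is `FC`, and as `φ` maps rational points to rational points,
`A ⊆ closure (φ '' (V ∩ {rational})) ⊆ closure (QZ P)`.
`QZ P ⊆ closure A`: let `y = rv q ∈ QZ P`; `P` is smooth at `y`. If `y ∉ closure A`, then `R` vanishes at all
zeros of `P` near `y`, so `P ∣ R` by `dvd_of_vanish`, so `R = 0` or `P.totalDegree ≤ R.totalDegree`
(`MvPolynomial.totalDegree_mul_of_isDomain` or similar): contradiction. So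
`A ⊆ closure (QZ P) ⊆ closure A`: `FC.sandwich`.
About 70 lines.
-/

set_option autoImplicit false

open Set Topology Filter MvPolynomial

namespace Pool.Agent.MZ

theorem fc_lindir {n : ℕ} {P R : MvPolynomial (Fin n) ℚ} (hP : Irreducible P) (hR : R ≠ 0)
    (hdeg : R.totalDegree < P.totalDegree) {s : Fin n → ℚ}
    (hlin : ∀ (x : Fin n → ℝ) (t : ℝ),
      (aeval (x + t • rv s) P : ℝ) = aeval x P + t * aeval x R)
    (hsm : ∀ q : Fin n → ℚ, eval q P = 0 → SmoothAt P (rv q)) :
    FC (closure (QZ P)) := by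
  -- the values of `R` are constant in the direction `s`
  have hRs : ∀ (x : Fin n → ℝ) (t : ℝ), (aeval (x + t • rv s) R : ℝ) = aeval x R := by
    intro x t
    have h1 := hlin x (t + 1)
    have h2 := hlin (x + t • rv s) 1
    have h3 := hlin x t
    have h4 : x + t • rv s + (1 : ℝ) • rv s = x + (t + 1) • rv s := by
      rw [add_smul, add_assoc]
    rw [h4, h1, h3] at h2
    linarith
  have hPc : Continuous fun x : Fin n → ℝ => (aeval x P : ℝ) := (PolyR.of_aeval P).continuous
  have hRc : Continuous fun x : Fin n → ℝ => (aeval x R : ℝ) := (PolyR.of_aeval R).continuous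
  set V : Set (Fin n → ℝ) := {x | (aeval x R : ℝ) ≠ 0} with hV
  have hVo : IsOpen V := isOpen_ne.preimage hRc
  have hVF : FC V := (PolyR.of_aeval R).fc_ne
  set φ : (Fin n → ℝ) → (Fin n → ℝ) :=
    fun x => x - ((aeval x P : ℝ) / aeval x R) • rv s with hφ
  have hφc : ContinuousOn φ V :=
    continuousOn_id.sub ((hPc.continuousOn.div hRc.continuousOn fun x hx => hx).smul
      continuousOn_const)
  have hφe : ∀ x, φ x = x + (-((aeval x P : ℝ) / aeval x R)) • rv s := by
    intro x
    rw [hφ]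
    simp only [neg_smul, sub_eq_add_neg]
  have hφP : ∀ x ∈ V, (aeval (φ x) P : ℝ) = 0 := by
    intro x hx
    rw [hφe, hlin, neg_mul, div_mul_cancel₀ _ hx, add_neg_cancel]
  have hφR : ∀ x, (aeval (φ x) R : ℝ) = aeval x R := by
    intro x
    rw [hφe, hRs]
  set A : Set (Fin n → ℝ) := {x | (aeval x P : ℝ) = 0 ∧ (aeval x R : ℝ) ≠ 0} with hA
  have hAV : A = φ '' V := by
    apply Set.Subset.antisymm
    · rintro x ⟨hx1, hx2⟩
      refine ⟨x, hx2, ?_⟩
      rw [hφ]
      simp only [hx1, zero_div, zero_smul, sub_zero]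
    · rintro _ ⟨x, hx, rfl⟩
      refine ⟨hφP x hx, ?_⟩
      rw [hφR]
      exact hx
  have hAF : FC A := by
    rw [hAV]
    exact hVF.image hφc
  have h1 : A ⊆ closure (QZ P) := by
    rw [hAV]
    refine (image_subset_closure hVo hφc).trans (closure_mono ?_)
    rintro _ ⟨x, ⟨hxV, q, rfl⟩, rfl⟩
    have h2 : φ (rv q) = rv (q - (eval q P / eval q R) • s) := by
      rw [hφ]
      simp only [aeval_rv]
      funext i
      simp [rv]
    refine ⟨_, ?_, h2⟩
    have h3 := hφP _ hxV
    rw [h2, aeval_rv] at h3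
    exact_mod_cast h3
  have h2 : QZ P ⊆ closure A := by
    rintro _ ⟨q, hq, rfl⟩
    by_contra hn
    have h3 : ∀ᶠ x in 𝓝 (rv q), (aeval x P : ℝ) = 0 → (aeval x R : ℝ) = 0 := by
      have h4 : (closure A)ᶜ ∈ 𝓝 (rv q) := isClosed_closure.isOpen_compl.mem_nhds hn
      filter_upwards [h4] with x hx hx1
      by_contra hx2
      exact hx (subset_closure ⟨hx1, hx2⟩)
    have h4 : (aeval (rv q) P : ℝ) = 0 := by
      rw [aeval_rv, hq, Rat.cast_zero]
    obtain ⟨Q, hQ⟩ := dvd_of_vanish hP h4 (hsm q hq) h3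
    have hQ0 : Q ≠ 0 := by
      rintro rfl
      exact hR (by rw [hQ, mul_zero])
    have h5 := MvPolynomial.totalDegree_mul_of_isDomain hP.ne_zero hQ0
    rw [← hQ] at h5
    omega
  exact hAF.sandwich h1 (closure_minimal h2 isClosed_closure)

end Pool.Agent.MZ
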