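import Mathlib
import Pool.Agent.MZ.Defs
import Pool.Agent.MZ.Fc
import Pool.Agent.MZ.RatAlg
import Pool.Agent.MZ.RatD
import Pool.Agent.MZ.Main

/-!
# MZ module PROJ: projective hypersurfaces of degree at most 3 (as punctured cones)

(uses the stubs of `Fc`, `RatAlg`, `RatD`, and `fc_main`)

PROOF. For `i : Fin (n+1)` let `P_i = aeval (i.insertNth 1 X) F : MvPolynomial (Fin n) ℚ` (`X_i ↦ 1`). Its total
degree is at most `d ≤ 3` (`F` is a sum of monomials of degree `d`, each goes to a monomial of degree `≤ d`), and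
`aeval z P_i = aeval (i.insertNth 1 z) F` for real `z`, the same with `eval` for rational `z`. For `x` with
`x i ≠ 0`: `x = x i • i.insertNth 1 z`, `z = i.removeNth ((x i)⁻¹ • x)`, and
`aeval x F = (x i) ^ d * aeval z P_i` (`IsHomogeneous.eval₂`/`aeval` of a scalar multiple: check on monomials; or
`MvPolynomial.IsHomogeneous.eval_smul`...).
`S_i := {x | x i ≠ 0 ∧ x ∈ closure (QZ F)}` is the image of `{t : ℝ | t ≠ 0} ×ˢ closure (QZ P_i)` under the continuous map
`(t, z) ↦ t • i.insertNth 1 z`: `⊇`: it maps `{rational t} × QZ P_i` to `QZ F`, so the closure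
`univ × closure (QZ P_i)` to `closure (QZ F)` (`map_mem_closure₂`). `⊆`: if `x ∈ closure (QZ F)`, `x i ≠ 0`,
the map `w ↦ i.removeNth ((w i)⁻¹ • w)` is continuous at `x` and maps the points of `QZ F` with `w i ≠ 0` to `QZ P_i`. So
`FC S_i` (`FC.image`, `FC.prod`, `fc_main`, `{t | t ≠ 0} = Iio 0 ∪ Ioi 0`), and the set in the theorem is
`⋃ i, S_i` (`FC.iUnion`).
About 110 lines.
-/

set_option autoImplicit false

open Set Topology Filter MvPolynomial

namespace Pool.Agent.MZ

/-- dehomogenisation with respect to the variable `i` -/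
private noncomputable def pjP {n : ℕ} (i : Fin (n + 1)) (F : MvPolynomial (Fin (n + 1)) ℚ) :
    MvPolynomial (Fin n) ℚ :=
  aeval (i.insertNth 1 X : Fin (n + 1) → MvPolynomial (Fin n) ℚ) F

private theorem pj_deg {n : ℕ} (i : Fin (n + 1)) (F : MvPolynomial (Fin (n + 1)) ℚ) :
    (pjP i F).totalDegree ≤ F.totalDegree := by
  unfold pjP
  rw [aeval_def, eval₂_eq]
  refine totalDegree_finsetSum_le fun d hd => ?_
  refine (totalDegree_mul _ _).trans ?_
  have h1 : (algebraMap ℚ (MvPolynomial (Fin n) ℚ) (F.coeff d)).totalDegree = 0 :=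
    totalDegree_C _
  rw [h1, zero_add]
  refine (totalDegree_finsetProd _ _).trans ?_
  have h2 : ∀ j : Fin (n + 1),
      (((i.insertNth 1 X : Fin (n + 1) → MvPolynomial (Fin n) ℚ) j) ^ d j).totalDegree ≤ d j := by
    intro j
    refine (totalDegree_pow _ _).trans ?_
    have h3 : ((i.insertNth 1 X : Fin (n + 1) → MvPolynomial (Fin n) ℚ) j).totalDegree ≤ 1 := by
      refine Fin.succAboveCases i ?_ (fun k => ?_) j
      · rw [Fin.insertNth_apply_same, totalDegree_one]
        exact Nat.zero_le _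
      · rw [Fin.insertNth_apply_succAbove, totalDegree_X]
    calc d j * _ ≤ d j * 1 := Nat.mul_le_mul_left _ h3
      _ = d j := mul_one _
  refine (Finset.sum_le_sum fun j _ => h2 j).trans ?_
  exact le_totalDegree hd

private theorem pj_aeval {n : ℕ} {R : Type*} [CommRing R] [Algebra ℚ R] (i : Fin (n + 1))
    (F : MvPolynomial (Fin (n + 1)) ℚ) (z : Fin n → R) :
    aeval z (pjP i F) = aeval (i.insertNth 1 z : Fin (n + 1) → R) F := by
  unfold pjP
  rw [← AlgHom.comp_apply]
  congr 1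
  apply MvPolynomial.algHom_ext
  intro j
  refine Fin.succAboveCases i ?_ (fun k => ?_) j
  · simp
  · simp

private theorem pj_hom {n d : ℕ} {R : Type*} [CommRing R] [Algebra ℚ R]
    {F : MvPolynomial (Fin (n + 1)) ℚ} (hF : F.IsHomogeneous d) (t : R) (x : Fin (n + 1) → R) :
    aeval (t • x) F = t ^ d * aeval x F := by
  rw [aeval_def, aeval_def, eval₂_eq, eval₂_eq, Finset.mul_sum]
  refine Finset.sum_congr rfl fun e he => ?_
  have hdeg : ∑ j ∈ e.support, e j = d := by
    have h1 := hF (mem_support_iff.mp he)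
    rw [← h1]
    simp [Finsupp.weight_apply, Finsupp.sum]
  have h2 : ∏ j ∈ e.support, (t • x) j ^ e j = t ^ d * ∏ j ∈ e.support, x j ^ e j := by
    rw [← hdeg, ← Finset.prod_pow_eq_pow_sum, ← Finset.prod_mul_distrib]
    refine Finset.prod_congr rfl fun j _ => ?_
    rw [Pi.smul_apply, smul_eq_mul, mul_pow]
  rw [h2]
  ring

private theorem pj_QZ_iff {n : ℕ} {F : MvPolynomial (Fin n) ℚ} {x : Fin n → ℝ} :
    x ∈ QZ F ↔ IsRat x ∧ (aeval x F : ℝ) = 0 := by
  constructor
  · rintro ⟨q, hq, rfl⟩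
    exact ⟨⟨q, rfl⟩, by rw [aeval_rv, hq, Rat.cast_zero]⟩
  · rintro ⟨⟨q, rfl⟩, hq⟩
    refine ⟨q, ?_, rfl⟩
    rw [aeval_rv] at hq
    exact_mod_cast hq

theorem fc_proj {n d : ℕ} {F : MvPolynomial (Fin (n + 1)) ℚ} (hd : d ≤ 3)
    (hF : F.IsHomogeneous d) : FC {x : Fin (n + 1) → ℝ | x ≠ 0 ∧ x ∈ closure (QZ F)} := by
  have hdeg : F.totalDegree ≤ 3 := (hF.totalDegree_le).trans hd
  have hcov : {x : Fin (n + 1) → ℝ | x ≠ 0 ∧ x ∈ closure (QZ F)} =
      ⋃ i, {x : Fin (n + 1) → ℝ | x i ≠ 0 ∧ x ∈ closure (QZ F)} := by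
    ext x
    simp only [mem_iUnion, mem_setOf_eq]
    constructor
    · rintro ⟨h1, h2⟩
      by_contra hcon
      push Not at hcon
      apply h1
      funext i
      by_contra h3
      exact hcon i h3 h2
    · rintro ⟨i, h1, h2⟩
      refine ⟨?_, h2⟩
      rintro rfl
      exact h1 rfl
  rw [hcov]
  refine FC.iUnion fun i => ?_
  set ψ : ℝ × (Fin n → ℝ) → Fin (n + 1) → ℝ :=
    fun z => z.1 • (i.insertNth 1 z.2 : Fin (n + 1) → ℝ) with hψ
  have hins : Continuous fun z : Fin n → ℝ => (i.insertNth 1 z : Fin (n + 1) → ℝ) := by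
    refine continuous_pi fun j => ?_
    refine Fin.succAboveCases i ?_ (fun k => ?_) j
    · simp only [Fin.insertNth_apply_same]
      exact continuous_const
    · simp only [Fin.insertNth_apply_succAbove]
      exact continuous_apply k
  have hψc : Continuous ψ := continuous_fst.smul (hins.comp continuous_snd)
  have hinsr : ∀ z : Fin n → ℝ, IsRat z → IsRat (i.insertNth 1 z : Fin (n + 1) → ℝ) := by
    intro z hz
    rw [isRat_iff] at hz ⊢
    intro j
    refine Fin.succAboveCases i ?_ (fun k => ?_) j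
    · rw [Fin.insertNth_apply_same]
      exact IsQ.one
    · rw [Fin.insertNth_apply_succAbove]
      exact hz k
  have himg : {x : Fin (n + 1) → ℝ | x i ≠ 0 ∧ x ∈ closure (QZ F)} =
      ψ '' ({t : ℝ | t ≠ 0} ×ˢ closure (QZ (pjP i F))) := by
    ext x
    constructor
    · rintro ⟨hxi, hx⟩
      set ρ : (Fin (n + 1) → ℝ) → Fin n → ℝ := fun w => i.removeNth ((w i)⁻¹ • w) with hρ
      have hback : ∀ w : Fin (n + 1) → ℝ, w i ≠ 0 →
          w = w i • (i.insertNth 1 (ρ w) : Fin (n + 1) → ℝ) := by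
        intro w hw
        funext j
        refine Fin.succAboveCases i ?_ (fun k => ?_) j
        · rw [Pi.smul_apply, Fin.insertNth_apply_same, smul_eq_mul, mul_one]
        · rw [Pi.smul_apply, Fin.insertNth_apply_succAbove, smul_eq_mul, hρ]
          simp only [Fin.removeNth, Pi.smul_apply, smul_eq_mul]
          rw [mul_inv_cancel_left₀ hw]
      refine ⟨(x i, ρ x), ⟨hxi, ?_⟩, (hback x hxi).symm⟩
      have hρc : ContinuousAt ρ x := by
        rw [continuousAt_pi]
        intro k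
        have h1 : ContinuousAt (fun w : Fin (n + 1) → ℝ => (w i)⁻¹) x :=
          (continuous_apply i).continuousAt.inv₀ hxi
        exact h1.mul (continuous_apply (i.succAbove k)).continuousAt
      rw [mem_closure_iff_nhds]
      intro U hU
      have h1 : ρ ⁻¹' U ∈ 𝓝 x := hρc hU
      have h2 : {w : Fin (n + 1) → ℝ | w i ≠ 0} ∈ 𝓝 x :=
        ((continuous_apply i).isOpen_preimage _ isOpen_ne).mem_nhds hxi
      obtain ⟨w, ⟨hwU, hwi⟩, hwZ⟩ := mem_closure_iff_nhds.mp hx _ (Filter.inter_mem h1 h2)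
      refine ⟨ρ w, hwU, ?_⟩
      rw [pj_QZ_iff] at hwZ ⊢
      obtain ⟨hwr, hw0⟩ := hwZ
      have hwr' := isRat_iff.mp hwr
      refine ⟨isRat_iff.mpr fun k => ?_, ?_⟩
      · exact (hwr' i).inv.mul (hwr' (i.succAbove k))
      · rw [pj_aeval]
        rw [hback w hwi, pj_hom hF] at hw0
        exact (mul_eq_zero.mp hw0).resolve_left (pow_ne_zero _ hwi)
    · rintro ⟨⟨t, z⟩, ⟨ht, hz⟩, rfl⟩
      have ht' : t ≠ 0 := ht
      refine ⟨?_, ?_⟩
      · simp only [hψ, Pi.smul_apply, Fin.insertNth_apply_same, smul_eq_mul, mul_one]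
        exact ht'
      · have h1 : ((t, z) : ℝ × (Fin n → ℝ)) ∈
            closure ({s : ℝ | IsQ s} ×ˢ QZ (pjP i F)) := by
          rw [closure_prod_eq]
          refine ⟨?_, hz⟩
          have h2 : {s : ℝ | IsQ s} = range ((↑) : ℚ → ℝ) := by
            ext s
            constructor
            · rintro ⟨r, rfl⟩
              exact ⟨r, rfl⟩
            · rintro ⟨r, rfl⟩
              exact ⟨r, rfl⟩
          rw [h2]
          exact Rat.denseRange_cast t
        refine map_mem_closure hψc h1 ?_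
        rintro ⟨s, w⟩ ⟨hs, hw⟩
        rw [pj_QZ_iff] at hw ⊢
        refine ⟨IsRat.smul hs (hinsr w hw.1), ?_⟩
        change (aeval (s • (i.insertNth 1 w : Fin (n + 1) → ℝ)) F : ℝ) = 0
        rw [pj_hom hF, ← pj_aeval, hw.2, mul_zero]
  rw [himg]
  refine FC.image (FC.prod ?_ (fc_main n _ ((pj_deg i F).trans hdeg))) hψc.continuousOn
  have h3 : {t : ℝ | t ≠ 0} = Iio 0 ∪ Ioi 0 := by
    ext t
    simp only [mem_setOf_eq, mem_union, mem_Iio, mem_Ioi]
    exact ne_iff_lt_or_gt
  rw [h3]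
  exact (FC.of_preconnected isPreconnected_Iio).union (FC.of_preconnected isPreconnected_Ioi)

end Pool.Agent.MZ
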