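import Mathlib
import Pool.Agent.MZ.Defs
import Pool.Agent.MZ.Fc
import Pool.Agent.MZ.RatAlg
import Pool.Agent.MZ.RatD
import Pool.Agent.MZ.Main

/-!
# MZ module TWOQUAD: intersections of two projective quadrics

Let `B₁`, `B₂` be symmetric bilinear forms with rational coefficients, `Z` the cone of common
rational zeros and `p` a nonzero rational point of it. The points with `B₁ p x ≠ 0` are
parametrised by an affine cubic hypersurface (projection from `p`), and the points with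
`B₁ p x = B₂ p x = 0` form a cone with vertex `p`.
-/

set_option autoImplicit false

open Set Topology Filter MvPolynomial

namespace Pool.Agent.MZ

/-- a homogeneous rational polynomial of degree two is a symmetric bilinear form -/
theorem exists_bil {m : ℕ} {Q : MvPolynomial (Fin m) ℚ} (h : Q.IsHomogeneous 2) :
    ∃ B : (Fin m → ℝ) →ₗ[ℝ] (Fin m → ℝ) →ₗ[ℝ] ℝ, (∀ x y, B x y = B y x) ∧
      (∀ x y, IsRat x → IsRat y → IsQ (B x y)) ∧ ∀ x : Fin m → ℝ, (aeval x Q : ℝ) = B x x := by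
  have hdd : ∀ i j, ∃ c : ℚ, pderiv j (pderiv i Q) = C c := by
    intro i j
    have h1 : (pderiv j (pderiv i Q)).IsHomogeneous (2 - 1 - 1) := (h.pderiv).pderiv
    have h2 := h1.totalDegree_le
    exact ⟨_, totalDegree_eq_zero_iff_eq_C.mp (by omega)⟩
  choose c hc using hdd
  refine ⟨LinearMap.mk₂ ℝ (fun x y => (1 / 4 : ℝ) * ∑ i, ∑ j, (c i j : ℝ) * (x i * y j + y i * x j))
    ?_ ?_ ?_ ?_, ?_, ?_, ?_⟩
  · intro x x' y
    simp only [Pi.add_apply, Finset.mul_sum, ← Finset.sum_add_distrib]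
    refine Finset.sum_congr rfl fun i _ => Finset.sum_congr rfl fun j _ => ?_
    ring
  · intro t x y
    simp only [Pi.smul_apply, smul_eq_mul, Finset.mul_sum]
    refine Finset.sum_congr rfl fun i _ => Finset.sum_congr rfl fun j _ => ?_
    ring
  · intro x y y'
    simp only [Pi.add_apply, Finset.mul_sum, ← Finset.sum_add_distrib]
    refine Finset.sum_congr rfl fun i _ => Finset.sum_congr rfl fun j _ => ?_
    ring
  · intro t x y
    simp only [Pi.smul_apply, smul_eq_mul, Finset.mul_sum]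
    refine Finset.sum_congr rfl fun i _ => Finset.sum_congr rfl fun j _ => ?_
    ring
  · intro x y
    simp only [LinearMap.mk₂_apply]
    congr 1
    refine Finset.sum_congr rfl fun i _ => ?_
    refine Finset.sum_congr rfl fun j _ => ?_
    ring
  · rintro x y ⟨a, rfl⟩ ⟨b, rfl⟩
    refine ⟨(1 / 4 : ℚ) * ∑ i, ∑ j, c i j * (a i * b j + b i * a j), ?_⟩
    simp only [LinearMap.mk₂_apply, rv]
    push_cast
    rfl
  · intro x
    have e1 := h.sum_X_mul_pderiv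
    have e2 : ∀ i, ∑ j, X j * pderiv j (pderiv i Q) = pderiv i Q := by
      intro i
      have := (h.pderiv (i := i)).sum_X_mul_pderiv
      simpa using this
    have e3 := congrArg (fun G => (aeval x G : ℝ)) e1
    have e4 : ∀ i, (aeval x (pderiv i Q) : ℝ) = ∑ j, x j * (c i j : ℝ) := by
      intro i
      rw [← e2 i, map_sum]
      refine Finset.sum_congr rfl fun j _ => ?_
      rw [hc, map_mul, aeval_X, aeval_C]
      rfl
    simp only [map_sum, map_mul, aeval_X, map_nsmul, e4] at e3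
    simp only [LinearMap.mk₂_apply]
    have e5 : ∑ i, ∑ j, (c i j : ℝ) * (x i * x j + x i * x j) =
        2 * ∑ i, x i * ∑ j, x j * (c i j : ℝ) := by
      rw [Finset.mul_sum]
      refine Finset.sum_congr rfl fun i _ => ?_
      rw [Finset.mul_sum, Finset.mul_sum]
      refine Finset.sum_congr rfl fun j _ => ?_
      ring
    rw [e5, e3, nsmul_eq_mul]
    push_cast
    ring

section

variable {m : ℕ} {B₁ B₂ : (Fin m → ℝ) →ₗ[ℝ] (Fin m → ℝ) →ₗ[ℝ] ℝ} {p : Fin m → ℝ}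

/-- the part of the intersection away from the first tangent space -/
private theorem tq_chart (hs₁ : ∀ x y, B₁ x y = B₁ y x) (hs₂ : ∀ x y, B₂ x y = B₂ y x)
    (hq₁ : ∀ x y, IsRat x → IsRat y → IsQ (B₁ x y)) (hq₂ : ∀ x y, IsRat x → IsRat y → IsQ (B₂ x y))
    (hP₁ : PolyQ m 2 fun x => B₁ x x) (hP₂ : PolyQ m 2 fun x => B₂ x x)
    (hp : IsRat p) (hp₁ : B₁ p p = 0) (hp₂ : B₂ p p = 0) :
    FC {x | x ≠ 0 ∧ x ∈ closure {x | IsRat x ∧ B₁ x x = 0 ∧ B₂ x x = 0 ∧ B₁ p x ≠ 0}} := by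
  by_cases hne : ∃ u, B₁ p u ≠ 0
  swap
  · push Not at hne
    have h0 : {x | IsRat x ∧ B₁ x x = 0 ∧ B₂ x x = 0 ∧ B₁ p x ≠ 0} = ∅ := by
      ext x
      simp only [mem_ofPred_eq, mem_empty_iff_false, iff_false]
      rintro ⟨-, -, -, h⟩
      exact h (hne x)
    rw [h0]
    have h1 : {x : Fin m → ℝ | x ≠ 0 ∧ x ∈ closure (∅ : Set (Fin m → ℝ))} = ∅ := by
      ext x
      simp
    rw [h1]
    exact FC.empty
  obtain ⟨e₀, he₀, he₀'⟩ := exists_isRat_ne (lam := B₁ p) hne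
  obtain ⟨e, he, he1⟩ : ∃ e, IsRat e ∧ 2 * B₁ p e = 1 := by
    refine ⟨(2 * B₁ p e₀)⁻¹ • e₀, he₀.smul ?_, ?_⟩
    · refine IsQ.inv ?_
      have := (IsQ.natCast 2).mul (hq₁ p e₀ hp he₀)
      simpa using this
    · rw [map_smul, smul_eq_mul]
      field_simp
  -- the projection onto the hyperplane `2 B₁ p x = 1`
  set φ : (Fin m → ℝ) → Fin m → ℝ := fun z => z + (1 - 2 * B₁ p z) • e with hφ
  have hφ1 : ∀ z, 2 * B₁ p (φ z) = 1 := by
    intro z
    simp only [hφ, map_add, map_smul, smul_eq_mul]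
    linear_combination (1 - 2 * B₁ p z) * he1
  have hφc : Continuous φ := by
    have h1 : Continuous (B₁ p) := LinearMap.continuous_of_finiteDimensional _
    exact continuous_id.add ((continuous_const.sub (continuous_const.mul h1)).smul
      continuous_const)
  have hφr : ∀ z, IsRat z → IsRat (φ z) := by
    intro z hz
    refine hz.add (he.smul ?_)
    refine IsQ.one.sub ?_
    have := (IsQ.natCast 2).mul (hq₁ p z hp hz)
    simpa using this
  have hlin₁ : PolyQ m 1 fun z => 1 - 2 * B₁ p z := by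
    refine ((PolyQ.const IsQ.one).mono (Nat.zero_le 1)).sub ?_
    exact (PolyQ.lin (f := B₁ p) fun x hx => hq₁ p x hp hx).mul_left
      (by simpa using IsQ.natCast 2)
  have hquad : ∀ B : (Fin m → ℝ) →ₗ[ℝ] (Fin m → ℝ) →ₗ[ℝ] ℝ, (∀ x y, B x y = B y x) →
      (∀ x y, IsRat x → IsRat y → IsQ (B x y)) → (PolyQ m 2 fun x => B x x) →
      PolyQ m 2 fun z => B (φ z) (φ z) := by
    intro B hs hq hP
    have h1 : (fun z => B (φ z) (φ z)) = fun z => B z z +
        ((1 - 2 * B₁ p z) * (2 * B e z) + (1 - 2 * B₁ p z) * ((1 - 2 * B₁ p z) * B e e)) := by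
      funext z
      simp only [hφ, map_add, map_smul, smul_eq_mul, LinearMap.add_apply, LinearMap.smul_apply]
      rw [hs z e]
      ring
    rw [h1]
    refine hP.add ?_
    refine PolyQ.add ?_ ?_
    · exact hlin₁.mul ((PolyQ.lin (f := B e) fun x hx => hq e x he hx).mul_left
        (by simpa using IsQ.natCast 2))
    · show PolyQ m (1 + 1) _
      refine hlin₁.mul ?_
      have h2 := hlin₁.mul_left (hq e e he he)
      have h3 : (fun z => (1 - 2 * B₁ p z) * B e e) = fun z => B e e * (1 - 2 * B₁ p z) := by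
        funext z
        ring
      rw [h3]
      exact h2
  have hlin₂ : PolyQ m 1 fun z => 2 * B₂ p (φ z) := by
    have h1 : (fun z => 2 * B₂ p (φ z)) = fun z => 2 * B₂ p z + (2 * B₂ p e) * (1 - 2 * B₁ p z) := by
      funext z
      simp only [hφ, map_add, map_smul, smul_eq_mul]
      ring
    rw [h1]
    refine PolyQ.add ?_ ?_
    · exact (PolyQ.lin (f := B₂ p) fun x hx => hq₂ p x hp hx).mul_left
        (by simpa using IsQ.natCast 2)
    · refine hlin₁.mul_left ?_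
      have := (IsQ.natCast 2).mul (hq₂ p e hp he)
      simpa using this
  -- the cubic
  have hcub : PolyQ m 3 fun z =>
      B₂ (φ z) (φ z) - (2 * B₂ p (φ z)) * B₁ (φ z) (φ z) := by
    refine ((hquad B₂ hs₂ hq₂ hP₂).mono (by norm_num)).sub ?_
    exact hlin₂.mul (hquad B₁ hs₁ hq₁ hP₁)
  obtain ⟨G, hGd, hG⟩ := hcub
  have hQZ : ∀ z, z ∈ QZ G ↔ IsRat z ∧
      B₂ (φ z) (φ z) - (2 * B₂ p (φ z)) * B₁ (φ z) (φ z) = 0 := by
    intro z
    have hG' : (aeval z G : ℝ) = B₂ (φ z) (φ z) - (2 * B₂ p (φ z)) * B₁ (φ z) (φ z) := hG z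
    rw [← hG']
    constructor
    · rintro ⟨q, hq, rfl⟩
      exact ⟨⟨q, rfl⟩, by rw [aeval_rv, hq, Rat.cast_zero]⟩
    · rintro ⟨⟨q, rfl⟩, hq⟩
      refine ⟨q, ?_, rfl⟩
      rw [aeval_rv] at hq
      exact_mod_cast hq
  have hFC := fc_main m G hGd
  -- the parametrisation
  set Φ : ℝ × (Fin m → ℝ) → Fin m → ℝ :=
    fun w => w.1 • (φ w.2 - B₁ (φ w.2) (φ w.2) • p) with hΦ
  have hB1c : Continuous fun z : Fin m → ℝ => B₁ (φ z) (φ z) := by
    have h1 := hP₁.polyR.continuous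
    exact h1.comp hφc
  have hΦc : Continuous Φ :=
    continuous_fst.smul ((hφc.comp continuous_snd).sub
      ((hB1c.comp continuous_snd).smul continuous_const))
  have hΦ1 : ∀ w, B₁ (Φ w) (Φ w) = 0 := by
    intro w
    have h1 := hφ1 w.2
    simp only [hΦ, map_sub, map_smul, smul_eq_mul, LinearMap.sub_apply, LinearMap.smul_apply,
      hs₁ (φ w.2) p, hp₁]
    linear_combination (- w.1 * w.1 * B₁ (φ w.2) (φ w.2)) * h1
  have hΦ2 : ∀ w, B₂ (Φ w) (Φ w) = w.1 * w.1 *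
      (B₂ (φ w.2) (φ w.2) - (2 * B₂ p (φ w.2)) * B₁ (φ w.2) (φ w.2)) := by
    intro w
    simp only [hΦ, map_sub, map_smul, smul_eq_mul, LinearMap.sub_apply, LinearMap.smul_apply,
      hs₂ (φ w.2) p, hp₂]
    ring
  have hΦp : ∀ w, B₁ p (Φ w) = w.1 / 2 := by
    intro w
    have h1 := hφ1 w.2
    simp only [hΦ, map_sub, map_smul, smul_eq_mul, hp₁]
    linear_combination (w.1 / 2) * h1
  have hFS : FC (Φ '' ({t : ℝ | t ≠ 0} ×ˢ closure (QZ G))) := by
    refine FC.image (FC.prod ?_ hFC) hΦc.continuousOn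
    have h1 : {t : ℝ | t ≠ 0} = Iio 0 ∪ Ioi 0 := by
      ext t
      simp
    rw [h1]
    exact (FC.of_preconnected isPreconnected_Iio).union (FC.of_preconnected isPreconnected_Ioi)
  have hA : {x | IsRat x ∧ B₁ x x = 0 ∧ B₂ x x = 0 ∧ B₁ p x ≠ 0} ⊆
      Φ '' ({t : ℝ | t ≠ 0} ×ˢ closure (QZ G)) := by
    rintro x ⟨hx, h1, h2, h3⟩
    have ht : (2 * B₁ p x) ≠ 0 := mul_ne_zero two_ne_zero h3
    have htq : IsQ (2 * B₁ p x) := by
      have := (IsQ.natCast 2).mul (hq₁ p x hp hx)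
      simpa using this
    have hφz : φ ((2 * B₁ p x)⁻¹ • x) = (2 * B₁ p x)⁻¹ • x := by
      have h4 : 2 * B₁ p ((2 * B₁ p x)⁻¹ • x) = 1 := by
        rw [map_smul, smul_eq_mul]
        field_simp
      simp only [hφ]
      rw [h4, sub_self, zero_smul, add_zero]
    have hB1z : B₁ ((2 * B₁ p x)⁻¹ • x) ((2 * B₁ p x)⁻¹ • x) = 0 := by
      simp only [map_smul, LinearMap.smul_apply, smul_eq_mul, h1, mul_zero]
    have hB2z : B₂ ((2 * B₁ p x)⁻¹ • x) ((2 * B₁ p x)⁻¹ • x) = 0 := by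
      simp only [map_smul, LinearMap.smul_apply, smul_eq_mul, h2, mul_zero]
    refine ⟨(2 * B₁ p x, (2 * B₁ p x)⁻¹ • x), ⟨ht, subset_closure ?_⟩, ?_⟩
    · rw [hQZ, hφz, hB1z, hB2z]
      refine ⟨hx.smul htq.inv, by ring⟩
    · simp only [hΦ]
      rw [hφz, hB1z, zero_smul, sub_zero, smul_inv_smul₀ ht]
  have hB : Φ '' ({t : ℝ | t ≠ 0} ×ˢ closure (QZ G)) ⊆
      closure {x | IsRat x ∧ B₁ x x = 0 ∧ B₂ x x = 0 ∧ B₁ p x ≠ 0} := by
    have hden : {t : ℝ | t ≠ 0} ⊆ closure {t : ℝ | t ≠ 0 ∧ IsQ t} := by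
      have h1 : Dense {t : ℝ | IsQ t} := by
        have h2 := Rat.denseRange_cast (𝕜 := ℝ)
        refine h2.mono ?_
        rintro _ ⟨r, rfl⟩
        exact ⟨r, rfl⟩
      exact h1.open_subset_closure_inter isOpen_ne
    rintro _ ⟨⟨t, z⟩, ⟨ht, hz⟩, rfl⟩
    have h1 : ((t, z) : ℝ × (Fin m → ℝ)) ∈ closure ({t : ℝ | t ≠ 0 ∧ IsQ t} ×ˢ QZ G) := by
      rw [closure_prod_eq]
      exact ⟨hden ht, hz⟩
    refine map_mem_closure hΦc h1 ?_
    rintro ⟨t', z'⟩ ⟨⟨ht', htq'⟩, hz'⟩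
    rw [hQZ] at hz'
    refine ⟨?_, hΦ1 _, ?_, ?_⟩
    · refine IsRat.smul htq' ((hφr z' hz'.1).sub (hp.smul ?_))
      exact hq₁ _ _ (hφr z' hz'.1) (hφr z' hz'.1)
    · rw [hΦ2, hz'.2, mul_zero]
    · rw [hΦp]
      exact div_ne_zero ht' two_ne_zero
  refine hFS.sandwich ?_ ?_
  · intro x hx
    refine ⟨?_, hB hx⟩
    rintro rfl
    obtain ⟨⟨t, z⟩, ⟨ht, hz⟩, h⟩ := hx
    have h1 := hΦp (t, z)
    rw [h, map_zero] at h1
    exact ht (by linear_combination (-2) * h1)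
  · rintro x ⟨-, hx⟩
    exact closure_mono hA hx

/-- a cone with vertex `p`, minus the origin -/
private theorem tq_cone {W : Set (Fin m → ℝ)} (hp : p ≠ 0)
    (h1 : ∀ x ∈ W, ∀ t, IsQ t → x + t • p ∈ W) (h2 : ∀ x ∈ W, ∀ t, IsQ t → t • x ∈ W)
    (h0 : W.Nonempty) :
    FC {x | x ≠ 0 ∧ x ∈ closure W} := by
  have hd : Dense {t : ℝ | IsQ t} := by
    have h2 := Rat.denseRange_cast (𝕜 := ℝ)
    refine h2.mono ?_
    rintro _ ⟨r, rfl⟩
    exact ⟨r, rfl⟩
  have key : ∀ x ∈ closure W, ∀ s t : ℝ, s • x + t • p ∈ closure W := by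
    intro x hx s t
    have h3 : ((x, s, t) : (Fin m → ℝ) × ℝ × ℝ) ∈
        closure (W ×ˢ ({t : ℝ | IsQ t} ×ˢ {t : ℝ | IsQ t})) := by
      rw [closure_prod_eq, closure_prod_eq, hd.closure_eq]
      exact ⟨hx, mem_univ _, mem_univ _⟩
    have hc : Continuous fun w : (Fin m → ℝ) × ℝ × ℝ => w.2.1 • w.1 + w.2.2 • p := by
      fun_prop
    refine map_mem_closure (f := fun w : (Fin m → ℝ) × ℝ × ℝ => w.2.1 • w.1 + w.2.2 • p) hc h3 ?_
    rintro ⟨x', s', t'⟩ ⟨hx', hs', ht'⟩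
    exact h1 _ (h2 _ hx' _ hs') _ ht'
  obtain ⟨w, hw⟩ := h0
  have hpW : ∀ c : ℝ, c • p ∈ closure W := by
    intro c
    have := key w (subset_closure hw) 0 c
    simpa using this
  -- star-shaped pieces
  have hstar : ∀ q : Fin m → ℝ, q ≠ 0 → (∃ c : ℝ, q = c • p) →
      IsPreconnected {x | x ∈ closure W ∧ ∀ s ∈ Icc (0 : ℝ) 1, q + s • (x - q) ≠ 0} := by
    intro q hq0 hqc
    obtain ⟨c, hc⟩ := hqc
    have hsub : ∀ x ∈ {x | x ∈ closure W ∧ ∀ s ∈ Icc (0 : ℝ) 1, q + s • (x - q) ≠ 0},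
        (fun s : ℝ => q + s • (x - q)) '' Icc 0 1 ⊆
          {x | x ∈ closure W ∧ ∀ s ∈ Icc (0 : ℝ) 1, q + s • (x - q) ≠ 0} := by
      rintro x ⟨hx, hxs⟩ _ ⟨s, hs, rfl⟩
      refine ⟨?_, ?_⟩
      · have := key x hx s ((1 - s) * c)
        have e : s • x + ((1 - s) * c) • p = q + s • (x - q) := by
          rw [hc, smul_sub, mul_smul, sub_smul, one_smul]
          module
        rw [e] at this
        exact this
      · intro s' hs'
        have := hxs (s' * s) ⟨mul_nonneg hs'.1 hs.1, mul_le_one₀ hs'.2 hs.1 hs.2⟩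
        have e : q + s' • (q + s • (x - q) - q) = q + (s' * s) • (x - q) := by
          module
        rw [e]
        exact this
    have hU : {x | x ∈ closure W ∧ ∀ s ∈ Icc (0 : ℝ) 1, q + s • (x - q) ≠ 0} =
        ⋃₀ ((fun x => (fun s : ℝ => q + s • (x - q)) '' Icc 0 1) ''
          {x | x ∈ closure W ∧ ∀ s ∈ Icc (0 : ℝ) 1, q + s • (x - q) ≠ 0}) := by
      ext y
      constructor
      · intro hy
        exact ⟨_, ⟨y, hy, rfl⟩, 1, ⟨zero_le_one, le_rfl⟩, by simp⟩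
      · rintro ⟨_, ⟨x, hx, rfl⟩, hy⟩
        exact hsub x hx hy
    rw [hU]
    refine isPreconnected_sUnion q _ ?_ ?_
    · rintro _ ⟨x, -, rfl⟩
      exact ⟨0, ⟨le_rfl, zero_le_one⟩, by simp⟩
    · rintro _ ⟨x, -, rfl⟩
      refine isPreconnected_Icc.image _ ?_
      exact Continuous.continuousOn (by fun_prop)
  have e : {x | x ≠ 0 ∧ x ∈ closure W} =
      {x | x ∈ closure W ∧ ∀ s ∈ Icc (0 : ℝ) 1, p + s • (x - p) ≠ 0} ∪
      {x | x ∈ closure W ∧ ∀ s ∈ Icc (0 : ℝ) 1, (-p) + s • (x - (-p)) ≠ 0} := by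
    ext x
    constructor
    · rintro ⟨hx0, hx⟩
      by_contra hcon
      rw [mem_union, not_or] at hcon
      obtain ⟨hc1, hc2⟩ := hcon
      simp only [mem_ofPred_eq, not_and, not_forall, not_not] at hc1 hc2
      obtain ⟨s, hs, hs0⟩ := hc1 hx
      obtain ⟨t, ht, ht0⟩ := hc2 hx
      -- (1 - s) p + s x = 0 and -(1 - t) p + t x = 0
      have hs' : s ≠ 0 := by
        rintro rfl
        exact hp (by simpa using hs0)
      have ht' : t ≠ 0 := by
        rintro rfl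
        exact hp (by simpa using ht0)
      have hs1 : s ≠ 1 := by
        rintro rfl
        exact hx0 (by simpa using hs0)
      have hspos : 0 < s := lt_of_le_of_ne hs.1 (Ne.symm hs')
      have htpos : 0 < t := lt_of_le_of_ne ht.1 (Ne.symm ht')
      have hslt : s < 1 := lt_of_le_of_ne hs.2 hs1
      have e3 : (t * (1 - s) + s * (1 - t)) • p = 0 := by
        have h5 : t • (p + s • (x - p)) - s • (-p + t • (x - -p)) = 0 := by
          rw [hs0, ht0, smul_zero, smul_zero, sub_zero]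
        rw [← h5]
        module
      rcases smul_eq_zero.mp e3 with h6 | h6
      · have h7 : 0 < t * (1 - s) := mul_pos htpos (by linarith)
        have h8 : 0 ≤ s * (1 - t) := mul_nonneg hs.1 (by linarith [ht.2])
        linarith
      · exact hp h6
    · rintro (⟨h1, h2⟩ | ⟨h1, h2⟩)
      · refine ⟨?_, h1⟩
        have := h2 1 ⟨zero_le_one, le_rfl⟩
        simpa using this
      · refine ⟨?_, h1⟩
        have := h2 1 ⟨zero_le_one, le_rfl⟩
        simpa using this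
  rw [e]
  refine (FC.of_preconnected (hstar p hp ⟨1, by simp⟩)).union
    (FC.of_preconnected (hstar (-p) (by simpa using hp) ⟨-1, by simp⟩))

end

/-- The punctured cone over the closure of the set of rational points of the intersection of two
projective quadrics has finitely many connected components. -/
theorem fc_two_quadrics {n : ℕ} {Q₁ Q₂ : MvPolynomial (Fin n) ℚ} (h₁ : Q₁.IsHomogeneous 2)
    (h₂ : Q₂.IsHomogeneous 2) :
    FC {x : Fin n → ℝ | x ≠ 0 ∧ x ∈ closure {x : Fin n → ℝ | ∃ q : Fin n → ℚ,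
      eval q Q₁ = 0 ∧ eval q Q₂ = 0 ∧ x = fun i => ((q i : ℚ) : ℝ)}} := by
  obtain ⟨B₁, hs₁, hq₁, hB₁⟩ := exists_bil h₁
  obtain ⟨B₂, hs₂, hq₂, hB₂⟩ := exists_bil h₂
  have hP₁ : PolyQ n 2 fun x => B₁ x x := ⟨Q₁, h₁.totalDegree_le, hB₁⟩
  have hP₂ : PolyQ n 2 fun x => B₂ x x := ⟨Q₂, h₂.totalDegree_le, hB₂⟩
  have hZ : {x : Fin n → ℝ | ∃ q : Fin n → ℚ,
      eval q Q₁ = 0 ∧ eval q Q₂ = 0 ∧ x = fun i => ((q i : ℚ) : ℝ)} =
      {x | IsRat x ∧ B₁ x x = 0 ∧ B₂ x x = 0} := by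
    ext x
    constructor
    · rintro ⟨q, h1, h2, rfl⟩
      refine ⟨⟨q, rfl⟩, ?_, ?_⟩
      · rw [← hB₁]
        have := aeval_rv Q₁ q
        rw [h1, Rat.cast_zero] at this
        exact this
      · rw [← hB₂]
        have := aeval_rv Q₂ q
        rw [h2, Rat.cast_zero] at this
        exact this
    · rintro ⟨⟨q, rfl⟩, h1, h2⟩
      refine ⟨q, ?_, ?_, rfl⟩
      · rw [← hB₁, aeval_rv] at h1
        exact_mod_cast h1
      · rw [← hB₂, aeval_rv] at h2
        exact_mod_cast h2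
  rw [hZ]
  by_cases hex : ∃ p, p ≠ 0 ∧ IsRat p ∧ B₁ p p = 0 ∧ B₂ p p = 0
  swap
  · have h3 : {x : Fin n → ℝ | x ≠ 0 ∧ x ∈ closure {x | IsRat x ∧ B₁ x x = 0 ∧ B₂ x x = 0}} = ∅ := by
      ext x
      simp only [mem_ofPred_eq, mem_empty_iff_false, iff_false, not_and]
      intro hx0 hx
      have h4 : {x | IsRat x ∧ B₁ x x = 0 ∧ B₂ x x = 0} ⊆ {0} := by
        intro y hy
        by_contra hy0
        exact hex ⟨y, hy0, hy⟩
      have h5 := closure_minimal h4 isClosed_singleton hx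
      exact hx0 h5
    rw [h3]
    exact FC.empty
  obtain ⟨p, hp0, hp, hp₁, hp₂⟩ := hex
  have hsplit : {x | IsRat x ∧ B₁ x x = 0 ∧ B₂ x x = 0} =
      {x | IsRat x ∧ B₁ x x = 0 ∧ B₂ x x = 0 ∧ B₁ p x ≠ 0} ∪
      ({x | IsRat x ∧ B₂ x x = 0 ∧ B₁ x x = 0 ∧ B₂ p x ≠ 0} ∪
       {x | IsRat x ∧ B₁ x x = 0 ∧ B₂ x x = 0 ∧ B₁ p x = 0 ∧ B₂ p x = 0}) := by
    ext x
    simp only [mem_ofPred_eq, mem_union]
    tauto
  have hcl : {x : Fin n → ℝ | x ≠ 0 ∧ x ∈ closure {x | IsRat x ∧ B₁ x x = 0 ∧ B₂ x x = 0}} =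
      {x | x ≠ 0 ∧ x ∈ closure {x | IsRat x ∧ B₁ x x = 0 ∧ B₂ x x = 0 ∧ B₁ p x ≠ 0}} ∪
      ({x | x ≠ 0 ∧ x ∈ closure {x | IsRat x ∧ B₂ x x = 0 ∧ B₁ x x = 0 ∧ B₂ p x ≠ 0}} ∪
       {x | x ≠ 0 ∧ x ∈ closure
        {x | IsRat x ∧ B₁ x x = 0 ∧ B₂ x x = 0 ∧ B₁ p x = 0 ∧ B₂ p x = 0}}) := by
    rw [hsplit, closure_union, closure_union]
    ext x
    simp only [mem_ofPred_eq, mem_union]
    tauto
  rw [hcl]
  refine (tq_chart hs₁ hs₂ hq₁ hq₂ hP₁ hP₂ hp hp₁ hp₂).union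
    ((tq_chart hs₂ hs₁ hq₂ hq₁ hP₂ hP₁ hp hp₂ hp₁).union ?_)
  refine tq_cone (p := p) hp0 ?_ ?_ ⟨0, ⟨0, by funext i; simp [rv]⟩, by simp, by simp, by simp, by simp⟩
  · rintro x ⟨hx, h1, h2, h3, h4⟩ t ht
    refine ⟨hx.add (hp.smul ht), ?_, ?_, ?_, ?_⟩
    · simp only [map_add, map_smul, LinearMap.add_apply, LinearMap.smul_apply, smul_eq_mul,
        hs₁ x p, h1, h3, hp₁]
      ring
    · simp only [map_add, map_smul, LinearMap.add_apply, LinearMap.smul_apply, smul_eq_mul,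
        hs₂ x p, h2, h4, hp₂]
      ring
    · simp only [map_add, map_smul, smul_eq_mul, h3, hp₁]
      ring
    · simp only [map_add, map_smul, smul_eq_mul, h4, hp₂]
      ring
  · rintro x ⟨hx, h1, h2, h3, h4⟩ t ht
    refine ⟨hx.smul ht, ?_, ?_, ?_, ?_⟩ <;>
    simp only [map_smul, LinearMap.smul_apply, smul_eq_mul, h1, h2, h3, h4, mul_zero]

end Pool.Agent.MZ
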